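import Pool.Agent.H82.Um.CutSpace

/-!
MODULE BAN (helper82, MP_98b928_an). The space of a cut space is complete.

Proof. Let `x n` be a Cauchy sequence with `N (x n - x m) ≤ ε k` for `n, m ≥ k` (`ε k → 0`). By
`N_coord` every coordinate converges; let `x` be the limit. For a finite set `F` of coordinates
`N (F.indicator (x - x n)) ≤ N (F.indicator (x - x m)) + N (x m - x n)`, and
`N (F.indicator (x - x m)) ≤ ∑ b ∈ F, |x b - x m b| * N (indicator {b} 1)` tends to `0` as `m → ∞`.
So `N (F.indicator (x - x n)) ≤ ε k` for `n ≥ k`, hence `N (x - x n) ≤ ε k` by `N_fin`.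
-/

namespace Pool.Agent.H82.Um

open scoped ENNReal NNReal Topology

open Filter

namespace CutSpace

variable {B I : Type} {K ρ : ℝ} (S : CutSpace B I K ρ)

/-- The norm of a vector with finitely many coordinates. -/
theorem N_indicator_finset_le (F : Finset B) (x : B → ℝ) :
    S.N ((F : Set B).indicator x) ≤
      ∑ b ∈ F, ENNReal.ofReal |x b| * S.N (Set.indicator {b} 1) := by
  classical
  have h : (F : Set B).indicator x = ∑ b ∈ F, x b • (Set.indicator {b} (1 : B → ℝ)) := by
    funext c
    rw [Finset.sum_apply]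
    by_cases hc : c ∈ F
    · rw [Finset.sum_eq_single c]
      · simp [hc]
      · intro b _ hbc
        simp [hbc.symm]
      · intro h; exact absurd hc h
    · rw [Set.indicator_of_notMem (by simpa using hc), Finset.sum_eq_zero]
      intro b hb
      have hbc : c ≠ b := fun h => hc (h ▸ hb)
      simp [hbc]
  rw [h]
  refine (S.N_sum_le _ _).trans (Finset.sum_le_sum fun b _ => ?_)
  rw [S.N_smul]

theorem norm_coord_le (x y : S.X) (b : B) : |S.toFun x b - S.toFun y b| ≤ ‖x - y‖ := by
  have h := S.N_coord (S.toFun x - S.toFun y) b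
  rw [← S.toFun_sub, ← S.ofReal_norm_eq, ENNReal.ofReal_le_ofReal_iff (norm_nonneg _)] at h
  simpa using h

theorem completeSpace : CompleteSpace S.X := by
  refine Metric.complete_of_cauchySeq_tendsto fun u hu => ?_
  have hcoord : ∀ b, ∃ c : ℝ, Tendsto (fun n => S.toFun (u n) b) atTop (𝓝 c) := by
    intro b
    apply cauchySeq_tendsto_of_complete
    rw [Metric.cauchySeq_iff] at hu ⊢
    intro ε hε
    obtain ⟨N, hN⟩ := hu ε hε
    refine ⟨N, fun m hm n hn => ?_⟩
    refine lt_of_le_of_lt ?_ (hN m hm n hn)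
    rw [Real.dist_eq, dist_eq_norm]
    exact S.norm_coord_le _ _ _
  choose x hx using hcoord
  have key : ∀ ε > 0, ∃ N0, ∀ n ≥ N0, S.N (x - S.toFun (u n)) ≤ ENNReal.ofReal ε := by
    intro ε hε
    rw [Metric.cauchySeq_iff] at hu
    obtain ⟨N0, hN0⟩ := hu ε hε
    refine ⟨N0, fun n hn => S.N_fin _ _ fun F hF => ?_⟩
    obtain ⟨F, rfl⟩ := hF.exists_finset_coe
    have hlim : Tendsto (fun m => (∑ b ∈ F, ENNReal.ofReal |x b - S.toFun (u m) b| *
        S.N (Set.indicator {b} 1)) + ENNReal.ofReal ε) atTop (𝓝 (0 + ENNReal.ofReal ε)) := by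
      refine Tendsto.add ?_ tendsto_const_nhds
      rw [← Finset.sum_const_zero (s := F)]
      refine tendsto_finsetSum _ fun b _ => ?_
      have h1 : Tendsto (fun m => |x b - S.toFun (u m) b|) atTop (𝓝 0) := by
        have := ((tendsto_const_nhds (x := x b)).sub (hx b)).abs
        simpa using this
      have h2 : Tendsto (fun m => ENNReal.ofReal |x b - S.toFun (u m) b|) atTop (𝓝 0) := by
        have := (ENNReal.continuous_ofReal.tendsto 0).comp h1
        simpa [Function.comp_def] using this
      have h3 := ENNReal.Tendsto.mul_const h2 (b := S.N (Set.indicator {b} 1))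
        (Or.inr (S.N_single b).ne)
      simpa using h3
    rw [zero_add] at hlim
    refine ge_of_tendsto hlim ?_
    filter_upwards [eventually_ge_atTop N0] with m hm
    have hdecomp : (F : Set B).indicator (x - S.toFun (u n)) =
        (F : Set B).indicator (x - S.toFun (u m)) +
          (F : Set B).indicator (S.toFun (u m) - S.toFun (u n)) := by
      rw [← Set.indicator_add']
      congr 1
      abel
    rw [hdecomp]
    refine (S.N_add _ _).trans (add_le_add ?_ ?_)
    · exact S.N_indicator_finset_le F _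
    · refine (S.N_indicator_le _ _).trans ?_
      rw [← S.toFun_sub, ← S.ofReal_norm_eq]
      apply ENNReal.ofReal_le_ofReal
      rw [← dist_eq_norm]
      exact (hN0 m hm n hn).le
  have hxfin : S.N x < ⊤ := by
    obtain ⟨N0, hN0⟩ := key 1 one_pos
    have : x = (x - S.toFun (u N0)) + S.toFun (u N0) := by abel
    rw [this]
    refine lt_of_le_of_lt (S.N_add _ _) ?_
    exact ENNReal.add_lt_top.2 ⟨lt_of_le_of_lt (hN0 N0 le_rfl) ENNReal.ofReal_lt_top,
      S.N_lt_top _⟩
  refine ⟨S.mkX x hxfin, ?_⟩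
  rw [Metric.tendsto_atTop]
  intro ε hε
  obtain ⟨N0, hN0⟩ := key (ε / 2) (by positivity)
  refine ⟨N0, fun n hn => ?_⟩
  have h := hN0 n hn
  rw [dist_comm, dist_eq_norm]
  have h2 : ENNReal.ofReal ‖S.mkX x hxfin - u n‖ ≤ ENNReal.ofReal (ε / 2) := by
    rw [S.ofReal_norm_eq, S.toFun_sub, S.toFun_mkX]
    exact h
  rw [ENNReal.ofReal_le_ofReal_iff (by positivity)] at h2
  linarith

end CutSpace

end Pool.Agent.H82.Um
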