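import Mathlib

/-!
MP_98b928_an (helper82). Cut spaces: a lattice norm `N` on the functions `B → ℝ` (with values in
`[0, ∞]`), where every `b : B` has a finite support `supp b` in an index set `I`, only finitely many
`b` having their support in a given finite set. `N` satisfies a lower `2`-estimate for disjoint
vectors and an upper estimate for successive blocks with respect to the cuts `{b | supp b ⊆ A}`.
-/

namespace Pool.Agent.H82.Um

open scoped ENNReal NNReal

structure CutSpace (B I : Type) (K ρ : ℝ) where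
  supp : B → Finset I
  fin : ∀ A : Finset I, {b | supp b ⊆ A}.Finite
  N : (B → ℝ) → ℝ≥0∞
  N_add : ∀ x y : B → ℝ, N (x + y) ≤ N x + N y
  N_smul : ∀ (r : ℝ) (x : B → ℝ), N (r • x) = ENNReal.ofReal |r| * N x
  N_mono : ∀ x y : B → ℝ, (∀ b, |x b| ≤ |y b|) → N x ≤ N y
  N_coord : ∀ (x : B → ℝ) (b : B), ENNReal.ofReal |x b| ≤ N x
  N_single : ∀ b : B, N (Set.indicator {b} 1) < ⊤
  N_fin : ∀ (x : B → ℝ) (M : ℝ≥0∞), (∀ F : Set B, F.Finite → N (F.indicator x) ≤ M) → N x ≤ M
  N_lower : ∀ (J : Finset ℕ) (E : ℕ → Set B), (∀ i ∈ J, ∀ j ∈ J, i ≠ j → Disjoint (E i) (E j)) →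
    ∀ x : B → ℝ, ∑ j ∈ J, N ((E j).indicator x) ^ 2 ≤ N x ^ 2
  N_upper : ∀ (m : ℕ) (A : ℕ → Finset I), Monotone A → ∀ (x : ℕ → B → ℝ) (lam : ℝ≥0∞),
    (∀ j < 2 ^ m, N (x j) ≤ lam) →
    (∀ j < 2 ^ m, ∀ b, x j b ≠ 0 → supp b ⊆ A (j + 1) ∧ ¬ supp b ⊆ A j) →
    N (∑ j ∈ Finset.range (2 ^ m), x j) ≤ ENNReal.ofReal (K * (2 * ρ) ^ m) * lam

namespace CutSpace

variable {B I : Type} {K ρ : ℝ} (S : CutSpace B I K ρ)

theorem N_zero : S.N 0 = 0 := by
  have := S.N_smul 0 0
  simpa using this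

theorem N_neg (x : B → ℝ) : S.N (-x) = S.N x := by
  have := S.N_smul (-1) x
  simpa using this

theorem N_sub_le (x y : B → ℝ) : S.N (x - y) ≤ S.N x + S.N y := by
  rw [sub_eq_add_neg]
  refine (S.N_add _ _).trans ?_
  rw [S.N_neg]

theorem N_indicator_le (F : Set B) (x : B → ℝ) : S.N (F.indicator x) ≤ S.N x := by
  refine S.N_mono _ _ fun b => ?_
  by_cases h : b ∈ F
  · simp [h]
  · simp [h]

theorem N_sum_le {ι : Type*} (s : Finset ι) (x : ι → B → ℝ) :
    S.N (∑ i ∈ s, x i) ≤ ∑ i ∈ s, S.N (x i) := by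
  classical
  induction s using Finset.induction_on with
  | empty => simp [S.N_zero]
  | insert i s hi ih =>
    rw [Finset.sum_insert hi, Finset.sum_insert hi]
    exact (S.N_add _ _).trans (add_le_add le_rfl ih)

/-- The vectors of finite norm. -/
def sub : Submodule ℝ (B → ℝ) where
  carrier := {x | S.N x < ⊤}
  add_mem' := fun {x y} hx hy => lt_of_le_of_lt (S.N_add x y) (ENNReal.add_lt_top.mpr ⟨hx, hy⟩)
  zero_mem' := by
    show S.N 0 < ⊤
    rw [S.N_zero]; exact ENNReal.zero_lt_top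
  smul_mem' := fun r x hx => by
    show S.N (r • x) < ⊤
    rw [S.N_smul]
    exact ENNReal.mul_lt_top ENNReal.ofReal_lt_top hx

/-- The Banach space of a cut space. -/
def X : Type := S.sub

noncomputable instance : AddCommGroup S.X := inferInstanceAs (AddCommGroup S.sub)
noncomputable instance : Module ℝ S.X := inferInstanceAs (Module ℝ S.sub)

/-- The coordinates of a vector. -/
def toFun (x : S.X) : B → ℝ := Subtype.val (p := fun x => x ∈ S.sub) x

theorem N_lt_top (x : S.X) : S.N (S.toFun x) < ⊤ := Subtype.property (p := fun x => x ∈ S.sub) x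

/-- The vector with the given coordinates. -/
def mkX (x : B → ℝ) (hx : S.N x < ⊤) : S.X := (⟨x, hx⟩ : S.sub)

@[simp] theorem toFun_mkX (x : B → ℝ) (hx : S.N x < ⊤) : S.toFun (S.mkX x hx) = x := rfl

@[simp] theorem toFun_add (x y : S.X) : S.toFun (x + y) = S.toFun x + S.toFun y := rfl

@[simp] theorem toFun_sub (x y : S.X) : S.toFun (x - y) = S.toFun x - S.toFun y := rfl

@[simp] theorem toFun_zero : S.toFun 0 = 0 := rfl

@[simp] theorem toFun_neg (x : S.X) : S.toFun (-x) = -S.toFun x := rfl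

@[simp] theorem toFun_smul (r : ℝ) (x : S.X) : S.toFun (r • x) = r • S.toFun x := rfl

theorem X_ext {x y : S.X} (h : S.toFun x = S.toFun y) : x = y := Subtype.ext h

theorem eq_zero_of_N {x : B → ℝ} (h : S.N x = 0) : x = 0 := by
  funext b
  have h1 := S.N_coord x b
  rw [h, nonpos_iff_eq_zero, ENNReal.ofReal_eq_zero] at h1
  exact abs_nonpos_iff.mp h1

/-- The norm as an additive group norm. -/
noncomputable def groupNorm : AddGroupNorm S.X where
  toFun x := (S.N (S.toFun x)).toReal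
  map_zero' := by simp [S.N_zero]
  add_le' x y := by
    rw [← ENNReal.toReal_add (S.N_lt_top x).ne (S.N_lt_top y).ne]
    exact ENNReal.toReal_mono (ENNReal.add_ne_top.mpr ⟨(S.N_lt_top x).ne, (S.N_lt_top y).ne⟩)
      (S.N_add _ _)
  neg' x := by simp [S.N_neg]
  eq_zero_of_map_eq_zero' x h := by
    rcases (ENNReal.toReal_eq_zero_iff _).mp h with h | h
    · exact S.X_ext (S.eq_zero_of_N h)
    · exact absurd h (S.N_lt_top x).ne

noncomputable instance : NormedAddCommGroup S.X := S.groupNorm.toNormedAddCommGroup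

theorem norm_def (x : S.X) : ‖x‖ = (S.N (S.toFun x)).toReal := rfl

theorem ofReal_norm_eq (x : S.X) : ENNReal.ofReal ‖x‖ = S.N (S.toFun x) := by
  rw [norm_def, ENNReal.ofReal_toReal (S.N_lt_top x).ne]

noncomputable instance : NormedSpace ℝ S.X where
  norm_smul_le r x := by
    rw [norm_def, norm_def, toFun_smul, S.N_smul, ENNReal.toReal_mul,
      ENNReal.toReal_ofReal (abs_nonneg r)]
    rfl

theorem edist_def (x y : S.X) : edist x y = S.N (S.toFun x - S.toFun y) := by
  rw [edist_dist, dist_eq_norm, ofReal_norm_eq, toFun_sub]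

end CutSpace

end Pool.Agent.H82.Um
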