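import Pool.Agent.H82.Um.Design

/-!
MODULE DESCUTS (helper82, MP_98b928_an; proofs by helper50). The cut sets and the values of the two compositions have the
abstract form of `serG`, `parG`, `serν`, `parν`.

`cuts_ser`: let `Z` be a set of words, `G = {t | ∀ u ∈ D.S t, u ∉ Z}`. If `Z` has no element of length in
`[D.n, D.n + E.n)`, the cut set is `{t | t.1 ∈ G}` (all nodes of the second layer are outside `Z`).
Otherwise let `v₀ ∈ Z` be such an element, `x = v₀.take D.n`. Every component `t` with `t.2.1 ≠ x` has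
`v₀ ∈ others ..`, so it is not in the cut set. If `Z` has another element `v₁` of such a length with
`v₁.take D.n ≠ x`, the cut set is `∅`. Otherwise it is `{t | t.1 ∈ G ∧ t.2.1 = x ∧ t.2.2 ∈ H}` with
`H = {t' | ∀ u ∈ E.S t', x ++ u ∉ Z}` (a cut set of `E` for `Z' = {u | x ++ u ∈ Z}`; the nodes in
`others` are not in `Z`; nodes of `D.S` have length `< D.n`).
`cuts_par`: the same, for `Sum.inl t` the condition is `t ∈ G`; if `Z` has no element of length in
`[D.n, D.n + E.n)` the cut set is `inl '' G ∪ range inr`; if two different entries occur it is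
`inl '' G`; otherwise `inl '' G ∪ inr '' ({x} ×ˢ H)`.
`V8_ser`, `V8_par`: for a word `w` of length `D.n + E.n` the measure is the one of the pair
`(w.take D.n, w.drop D.n)`, so the supremum over `w` is at most the supremum over all pairs.
-/

namespace Pool.Agent.H82.Um

open scoped ENNReal

namespace Design

theorem mem_others {n n' : ℕ} {w v : List Bool} :
    v ∈ others n n' w ↔ n ≤ v.length ∧ v.length < n + n' ∧ v.take n ≠ w := by
  classical
  simp only [others, Finset.mem_image, Finset.mem_product, Finset.mem_erase, mem_words,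
    mem_wordsLT, Prod.exists]
  constructor
  · rintro ⟨a, b, ⟨⟨h1, h2⟩, h3⟩, rfl⟩
    rw [List.length_append]
    refine ⟨by omega, by omega, ?_⟩
    rw [List.take_left' h2]
    exact h1
  · rintro ⟨h1, h2, h3⟩
    refine ⟨v.take n, v.drop n, ⟨⟨h3, ?_⟩, ?_⟩, List.take_append_drop n v⟩
    · rw [List.length_take]; omega
    · rw [List.length_drop]; omega

open Classical in
/-- The supports of the second layer. -/
noncomputable def lay (D E : Design) (t : Word D.n × E.T) : Finset (List Bool) :=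
  (E.S t.2).image (fun u => t.1.1 ++ u) ∪ others D.n E.n t.1.1

theorem mem_lay {D E : Design} {t : Word D.n × E.T} {v : List Bool} :
    v ∈ lay D E t ↔ (∃ u ∈ E.S t.2, t.1.1 ++ u = v) ∨
      (D.n ≤ v.length ∧ v.length < D.n + E.n ∧ v.take D.n ≠ t.1.1) := by
  classical
  rw [lay, Finset.mem_union, mem_others, Finset.mem_image]

/-- The condition on the second layer: three cases. -/
theorem lay_cases (D E : Design) (hE : ∀ t, ∀ u ∈ E.S t, u.length < E.n) (Z : Set (List Bool)) :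
    (∀ t : Word D.n × E.T, ∀ v ∈ lay D E t, v ∉ Z) ∨
    (∀ t : Word D.n × E.T, ∃ v ∈ lay D E t, v ∈ Z) ∨
    (∃ x : Word D.n, ∃ H ∈ E.cuts, ∀ t : Word D.n × E.T,
      (∀ v ∈ lay D E t, v ∉ Z) ↔ t.1 = x ∧ t.2 ∈ H) := by
  by_cases h0 : ∃ v₀ ∈ Z, D.n ≤ v₀.length ∧ v₀.length < D.n + E.n
  · obtain ⟨v₀, hv₀, hl1, hl2⟩ := h0
    right
    by_cases h1 : ∃ v₁ ∈ Z, D.n ≤ v₁.length ∧ v₁.length < D.n + E.n ∧ v₁.take D.n ≠ v₀.take D.n
    · obtain ⟨v₁, hv₁, hm1, hm2, hm3⟩ := h1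
      left
      intro t
      by_cases ht : v₀.take D.n = t.1.1
      · exact ⟨v₁, mem_lay.mpr (Or.inr ⟨hm1, hm2, ht ▸ hm3⟩), hv₁⟩
      · exact ⟨v₀, mem_lay.mpr (Or.inr ⟨hl1, hl2, ht⟩), hv₀⟩
    · right
      have hx : (v₀.take D.n).length = D.n := by
        rw [List.length_take]; omega
      refine ⟨⟨v₀.take D.n, hx⟩, {t' | ∀ u ∈ E.S t', u ∉ {u | v₀.take D.n ++ u ∈ Z}},
        Or.inr ⟨_, rfl⟩, fun t => ⟨fun h => ?_, fun h => ?_⟩⟩
      · have ht : t.1.1 = v₀.take D.n := by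
          by_contra hne
          exact h v₀ (mem_lay.mpr (Or.inr ⟨hl1, hl2, fun h' => hne h'.symm⟩)) hv₀
        refine ⟨Subtype.ext ht, fun u hu => ?_⟩
        refine h _ (mem_lay.mpr (Or.inl ⟨u, hu, ?_⟩))
        rw [ht]
      · obtain ⟨ht, hH⟩ := h
        have ht' : t.1.1 = v₀.take D.n := congrArg Subtype.val ht
        intro v hv hZ
        rcases mem_lay.mp hv with ⟨u, hu, rfl⟩ | ⟨hm1, hm2, hm3⟩
        · refine hH u hu ?_
          rw [ht'] at hZ
          exact hZ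
        · exact h1 ⟨v, hZ, hm1, hm2, ht' ▸ hm3⟩
  · left
    intro t v hv hZ
    apply h0
    rcases mem_lay.mp hv with ⟨u, hu, rfl⟩ | ⟨hm1, hm2, -⟩
    · refine ⟨_, hZ, ?_, ?_⟩
      · rw [List.length_append, t.1.2]; omega
      · rw [List.length_append, t.1.2]
        have := hE _ _ hu
        omega
    · exact ⟨v, hZ, hm1, hm2⟩

/-- The cut sets of the serial composition have the abstract form. -/
theorem cuts_ser (D E : Design) (hD : ∀ t, ∀ u ∈ D.S t, u.length < D.n)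
    (hE : ∀ t, ∀ u ∈ E.S t, u.length < E.n) : (D.ser E).cuts ⊆ serG D.cuts E.cuts := by
  classical
  rintro G (rfl | ⟨Z, rfl⟩)
  · exact Or.inl rfl
  have key : ∀ t : D.T × Word D.n × E.T, (∀ u ∈ (D.ser E).S t, u ∉ Z) ↔
      (t.1 ∈ {t | ∀ u ∈ D.S t, u ∉ Z}) ∧ ∀ v ∈ lay D E t.2, v ∉ Z := by
    intro t
    have h1 : ∀ u, u ∈ (D.ser E).S t ↔ u ∈ D.S t.1 ∨ u ∈ lay D E t.2 := fun u =>
      Finset.mem_union
    constructor
    · exact fun h => ⟨fun u hu => h u ((h1 u).mpr (Or.inl hu)),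
        fun u hu => h u ((h1 u).mpr (Or.inr hu))⟩
    · rintro ⟨h2, h3⟩ u hu
      rcases (h1 u).mp hu with h | h
      · exact h2 u h
      · exact h3 u h
  have hG : {t | ∀ u ∈ D.S t, u ∉ Z} ∈ D.cuts := Or.inr ⟨Z, rfl⟩
  rcases lay_cases D E hE Z with h | h | ⟨x, H, hH, h⟩
  · refine Or.inr (Or.inl ⟨_, hG, ?_⟩)
    refine Set.ext fun t => (key t).trans ?_
    exact ⟨fun h' => h'.1, fun h' => ⟨h', h t.2⟩⟩
  · refine Or.inl (Set.eq_empty_iff_forall_notMem.mpr fun t ht => ?_)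
    obtain ⟨v, hv, hZ⟩ := h t.2
    exact ((key t).mp ht).2 v hv hZ
  · refine Or.inr (Or.inr ⟨_, hG, x, H, hH, ?_⟩)
    refine Set.ext fun t => (key t).trans ?_
    exact and_congr_right fun _ => h t.2

/-- The cut sets of the parallel composition have the abstract form. -/
theorem cuts_par (D E : Design) (hD : ∀ t, ∀ u ∈ D.S t, u.length < D.n)
    (hE : ∀ t, ∀ u ∈ E.S t, u.length < E.n) : (D.par E).cuts ⊆ parG D.cuts E.cuts := by
  classical
  rintro G (rfl | ⟨Z, rfl⟩)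
  · exact Or.inl rfl
  have hG : {t | ∀ u ∈ D.S t, u ∉ Z} ∈ D.cuts := Or.inr ⟨Z, rfl⟩
  have key1 : ∀ t : D.T, (∀ u ∈ (D.par E).S (Sum.inl t), u ∉ Z) ↔
      t ∈ {t | ∀ u ∈ D.S t, u ∉ Z} := fun t => Iff.rfl
  have key2 : ∀ t : Word D.n × E.T, (∀ u ∈ (D.par E).S (Sum.inr t), u ∉ Z) ↔
      ∀ v ∈ lay D E t, v ∉ Z := fun t => Iff.rfl
  rcases lay_cases D E hE Z with h | h | ⟨x, H, hH, h⟩
  · refine Or.inr (Or.inl ⟨_, hG, ?_⟩)
    refine Set.ext fun t => ?_
    rcases t with t | t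
    · refine (key1 t).trans ⟨fun h' => Or.inl ⟨t, h', rfl⟩, ?_⟩
      rintro (⟨s, hs, h'⟩ | ⟨s, h'⟩)
      · cases h'; exact hs
      · cases h'
    · exact (key2 t).trans ⟨fun _ => Or.inr ⟨t, rfl⟩, fun _ => h t⟩
  · refine Or.inr (Or.inr (Or.inl ⟨_, hG, ?_⟩))
    refine Set.ext fun t => ?_
    rcases t with t | t
    · refine (key1 t).trans ⟨fun h' => ⟨t, h', rfl⟩, ?_⟩
      rintro ⟨s, hs, h'⟩
      cases h'; exact hs
    · refine (key2 t).trans ⟨fun h' => ?_, ?_⟩
      · obtain ⟨v, hv, hZ⟩ := h t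
        exact absurd hZ (h' v hv)
      · rintro ⟨s, hs, h'⟩
        cases h'
  · refine Or.inr (Or.inr (Or.inr ⟨_, hG, x, H, hH, ?_⟩))
    refine Set.ext fun t => ?_
    rcases t with t | t
    · refine (key1 t).trans ⟨fun h' => Or.inl ⟨t, h', rfl⟩, ?_⟩
      rintro (⟨s, hs, h'⟩ | ⟨s, hs, h'⟩)
      · cases h'; exact hs
      · cases h'
    · refine (key2 t).trans ((h t).trans ⟨fun h' => Or.inr ⟨t, ⟨h'.1, h'.2⟩, rfl⟩, ?_⟩)
      rintro (⟨s, hs, h'⟩ | ⟨s, hs, h'⟩)
      · cases h'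
      · cases h'; exact ⟨hs.1, hs.2⟩

/-- The pair of words of a word of length `n + n'`. -/
def spl {n n' : ℕ} (w : Word (n + n')) : Word n × Word n' :=
  (⟨w.1.take n, by rw [List.length_take, w.2]; omega⟩,
    ⟨w.1.drop n, by rw [List.length_drop, w.2]; omega⟩)

theorem eq_spl {n n' : ℕ} (w : Word (n + n')) (x : Word n) :
    x = (spl w).1 ↔ x.1 = w.1.take n :=
  ⟨fun h => congrArg Subtype.val h, fun h => Subtype.ext h⟩

theorem V8_ser (D E : Design) (C : Set (D.ser E).T) :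
    V8 (D.ser E).νw C ≤ V8 (serν D.νw E.νw) C := by
  classical
  refine pow_le_pow_left' (iSup_le fun w => ?_) 8
  refine le_trans (le_of_eq ?_) (mass_le_val _ (spl (n := D.n) (n' := E.n) w) _)
  refine congrArg (fun m => mass m C) (funext fun t => ?_)
  exact (if_congr (eq_spl (n := D.n) (n' := E.n) w _).symm rfl rfl)

theorem V8_par (D E : Design) (C : Set (D.par E).T) :
    V8 (D.par E).νw C ≤ V8 (parν D.νw E.νw) C := by
  classical
  refine pow_le_pow_left' (iSup_le fun w => ?_) 8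
  refine le_trans (le_of_eq ?_) (mass_le_val _ (spl (n := D.n) (n' := E.n) w) _)
  refine congrArg (fun m => mass m C) (funext fun t => ?_)
  rcases t with t | t
  · rfl
  · exact (if_congr (eq_spl (n := D.n) (n' := E.n) w _).symm rfl rfl)

end Design

end Pool.Agent.H82.Um
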