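import Pool.Agent.H82.Um.DesCuts

/-!
MODULE DESPAR (helper82, MP_98b928_an). The parallel composition of good designs is good.

`psi` from `parallel_bound` with `g' = 1 + e'` (`Phi_le_one_add_Psi`, `V8_le_one`), transferred with
`cuts_par`, `V8_par` (`Psi_anti_mono`, `DT.exc_mono_V`). `one`: `1/2 + 1/2` (`Word D.n` is discrete,
`tsum_eq_single` for the middle entry). `left`, `right`: let `w.length = D.n + E.n`,
`(u ++ [b]) <+: w`. If `u.length < D.n` then `(u ++ [b]) <+: w.take D.n`, and `u` is not in the support of
a component `inr t` (`mem_others`, lengths), so only `D.S` matters. If `D.n ≤ u.length` then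
`u = w.take D.n ++ u'`, `(u' ++ [b]) <+: w.drop D.n`, `u ∉ D.S t` (length),
`u ∉ others .. (w.take D.n)`, so for the components `inr (w.take D.n, t')` (the other `inr` components
have measure `0`) `u ∈ S t ↔ u' ∈ E.S t'`.

(Proof filled by helper53.)
-/

namespace Pool.Agent.H82.Um

open scoped ENNReal

namespace Design

theorem par_S_inl (D E : Design) (t : D.T) : (D.par E).S (Sum.inl t) = D.S t := rfl

open Classical in
theorem mem_par_S_inr (D E : Design) (x : Word D.n) (t : E.T) (v : List Bool) :
    v ∈ (D.par E).S (Sum.inr (x, t)) ↔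
      (∃ u ∈ E.S t, x.1 ++ u = v) ∨ v ∈ others D.n E.n x.1 := by
  show v ∈ (E.S t).image (fun u => x.1 ++ u) ∪ others D.n E.n x.1 ↔ _
  rw [Finset.mem_union, Finset.mem_image]

/-- the first part of a leaf -/
def wfst (D E : Design) (w : List Bool) (hw : w.length = D.n + E.n) : Word D.n :=
  ⟨w.take D.n, by rw [List.length_take]; omega⟩

/-- the second part of a leaf -/
def wsnd (D E : Design) (w : List Bool) (hw : w.length = D.n + E.n) : Word E.n :=
  ⟨w.drop D.n, by rw [List.length_drop]; omega⟩

open Classical in
theorem par_ν_eq (D E : Design) (w : List Bool) (hw : w.length = D.n + E.n) :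
    (D.par E).ν w = parν D.νw E.νw (wfst D E w hw, wsnd D E w hw) := by
  funext t
  rcases t with t | ⟨x, t⟩
  · rfl
  · show (if x.1 = w.take D.n then 2⁻¹ * E.ν (w.drop D.n) t else 0) =
      if x = wfst D E w hw then 2⁻¹ * E.ν (w.drop D.n) t else 0
    have : (x.1 = w.take D.n) ↔ (x = wfst D E w hw) :=
      ⟨fun h => Subtype.ext h, fun h => congrArg Subtype.val h⟩
    by_cases h : x.1 = w.take D.n
    · rw [if_pos h, if_pos (this.1 h)]
    · rw [if_neg h, if_neg (fun h' => h (this.2 h'))]

theorem mass_par_ν (D E : Design) (w : List Bool) (hw : w.length = D.n + E.n)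
    (C : Set (D.par E).T) :
    mass ((D.par E).ν w) C = 2⁻¹ * (mass (D.ν (w.take D.n)) (cA C) +
      mass (E.ν (w.drop D.n)) (cB C (wfst D E w hw))) := by
  rw [par_ν_eq D E w hw]
  exact mass_par D.νw E.νw (wfst D E w hw, wsnd D E w hw) C

theorem mass_par_ν' {D E : Design} {w : List Bool} (hw : w.length = D.n + E.n)
    {C : Set (D.par E).T} {a b : ℝ≥0∞} (ha : mass (D.ν (w.take D.n)) {t | Sum.inl t ∈ C} = a)
    (hb : mass (E.ν (w.drop D.n)) {s | Sum.inr (wfst D E w hw, s) ∈ C} = b) :
    mass ((D.par E).ν w) C = 2⁻¹ * (a + b) := by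
  rw [← ha, ← hb]
  exact mass_par_ν D E w hw C

open Classical in
theorem tsum_ite_eq_mass {T : Type} (m : T → ℝ≥0∞) (p : T → Prop) [DecidablePred p] :
    ∑' t, (if p t then m t else 0) = mass m {t | p t} := by
  unfold mass
  refine tsum_congr fun t => ?_
  by_cases h : p t
  · rw [if_pos h, Set.indicator_of_mem (show t ∈ {t | p t} from h)]
  · rw [if_neg h, Set.indicator_of_notMem (show t ∉ {t | p t} from h)]

/-- short nodes -/
theorem prefix_short {n : ℕ} {u w : List Bool} {b : Bool} (h : (u ++ [b]) <+: w)
    (hu : u.length < n) : (u ++ [b]) <+: w.take n := by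
  rw [List.prefix_take_iff]
  refine ⟨h, ?_⟩
  rw [List.length_append, List.length_singleton]
  omega

/-- long nodes -/
theorem prefix_long {n : ℕ} {u w : List Bool} {b : Bool} (h : (u ++ [b]) <+: w)
    (hu : n ≤ u.length) : w.take n = u.take n ∧ (u.drop n ++ [b]) <+: w.drop n := by
  obtain ⟨r, rfl⟩ := h
  constructor
  · rw [List.append_assoc, List.take_append_of_le_length hu]
  · rw [List.append_assoc, List.drop_append_of_le_length hu, ← List.append_assoc]
    exact List.prefix_append _ _

theorem notMem_par_S_inr_of_short {D E : Design} {x : Word D.n} {t : E.T} {u : List Bool}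
    (hu : u.length < D.n) : u ∉ (D.par E).S (Sum.inr (x, t)) := by
  rw [mem_par_S_inr]
  rintro (⟨v, -, hv⟩ | h)
  · have := congrArg List.length hv
    rw [List.length_append, x.2] at this
    omega
  · rw [mem_others] at h
    omega

theorem mem_par_S_inr_of_long {D E : Design} {x : Word D.n} {t : E.T} {u : List Bool}
    (_hu : D.n ≤ u.length) (hx : x.1 = u.take D.n) :
    u ∈ (D.par E).S (Sum.inr (x, t)) ↔ u.drop D.n ∈ E.S t := by
  rw [mem_par_S_inr]
  constructor
  · rintro (⟨v, hv, hv'⟩ | h)
    · have : u.drop D.n = v := by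
        have hd : x.1.drop D.n = [] := List.drop_eq_nil_of_le (by rw [x.2])
        rw [← hv', List.drop_append_of_le_length (by rw [x.2]), hd, List.nil_append]
      rw [this]
      exact hv
    · rw [mem_others] at h
      exact absurd hx.symm h.2.2
  · intro h
    refine Or.inl ⟨_, h, ?_⟩
    rw [hx, List.take_append_drop]

theorem par_good {D E : Design} {c θ e e' R : ℝ≥0∞} (hc : c ≤ 1) (hD : D.Good c θ e)
    (hE : E.Good c θ e') (hR1 : 1 ≤ R) (hR : (2 ^ 8)⁻¹ * (3 * (1 + e') + 9 ^ 8) + c * R ≤ R) :
    (D.par E).Good c (2⁻¹ * θ) ((2 ^ 8)⁻¹ * (e + 3 * e' + 9 ^ 8 * c) + c * R) := by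
  classical
  have h2 : (2 : ℝ≥0∞)⁻¹ * (1 + 1) = 1 := by
    rw [one_add_one_eq_two]
    exact ENNReal.inv_mul_cancel (by norm_num) (by norm_num)
  have htake : ∀ w : List Bool, w.length = D.n + E.n → (w.take D.n).length = D.n := by
    intro w hw
    rw [List.length_take]
    omega
  have hdrop : ∀ w : List Bool, w.length = D.n + E.n → (w.drop D.n).length = E.n := by
    intro w hw
    rw [List.length_drop]
    omega
  refine ⟨?_, ?_, ?_, ?_, ?_⟩
  · rintro (t | ⟨x, t⟩) u hu
    · have := hD.len t u hu
      show u.length < D.n + E.n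
      omega
    · rw [mem_par_S_inr] at hu
      show u.length < D.n + E.n
      rcases hu with ⟨v, hv, hv'⟩ | h
      · have h1 := hE.len t v hv
        have h3 := congrArg List.length hv'
        rw [List.length_append, x.2] at h3
        omega
      · rw [mem_others] at h
        exact h.2.1
  · intro w hw
    rw [← mass_univ]
    refine (mass_par_ν' hw (a := 1) (b := 1) ?_ ?_).trans h2
    · exact (mass_univ _).trans (hD.one _ (htake w hw))
    · exact (mass_univ _).trans (hE.one _ (hdrop w hw))
  · intro w hw u hu t ht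
    rcases lt_or_ge u.length D.n with hlen | hlen
    · have hp := prefix_short hu hlen
      rcases t with t | ⟨x, t⟩
      · refine hD.left _ (htake w hw) u hp t ?_
        intro h0
        apply ht
        show 2⁻¹ * D.ν (w.take D.n) t = 0
        rw [h0, mul_zero]
      · exact notMem_par_S_inr_of_short hlen
    · obtain ⟨hp1, hp2⟩ := prefix_long hu hlen
      rcases t with t | ⟨x, t⟩
      · intro h
        have := hD.len t u h
        omega
      · have ht' : (if x.1 = w.take D.n then 2⁻¹ * E.ν (w.drop D.n) t else 0) ≠ 0 := ht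
        have hx : x.1 = w.take D.n := by
          by_contra h
          exact ht' (if_neg h)
        rw [if_pos hx] at ht'
        rw [mem_par_S_inr_of_long hlen (hx.trans hp1)]
        refine hE.left _ (hdrop w hw) _ hp2 t ?_
        intro h0
        exact ht' (by rw [h0, mul_zero])
  · intro w hw u hu
    rw [tsum_ite_eq_mass]
    rcases lt_or_ge u.length D.n with hlen | hlen
    · have hp := prefix_short hu hlen
      refine (mass_par_ν' hw (a := θ) (b := 0) ?_ ?_).trans (by rw [add_zero])
      · have := hD.right _ (htake w hw) u hp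
        rw [tsum_ite_eq_mass] at this
        exact this
      · have h3 : {s | u ∈ (D.par E).S (Sum.inr (wfst D E w hw, s))} = ∅ :=
          Set.eq_empty_of_forall_notMem fun t h => notMem_par_S_inr_of_short hlen h
        exact (congrArg (mass _) h3).trans (mass_empty _)
    · obtain ⟨hp1, hp2⟩ := prefix_long hu hlen
      refine (mass_par_ν' hw (a := 0) (b := θ) ?_ ?_).trans (by rw [zero_add])
      · have h1 : {t | u ∈ (D.par E).S (Sum.inl t)} = ∅ := by
          refine Set.eq_empty_of_forall_notMem fun t h => ?_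
          have := hD.len t u h
          omega
        exact (congrArg (mass _) h1).trans (mass_empty _)
      · have := hE.right _ (hdrop w hw) _ hp2
        rw [tsum_ite_eq_mass] at this
        rw [← this]
        congr 1
        ext t
        exact mem_par_S_inr_of_long hlen hp1
  · have hν : ∀ w : Word D.n, ∑' t, D.νw w t ≤ 1 := fun w => (hD.one w.1 w.2).le
    have hν' : ∀ w : Word E.n, ∑' t, E.νw w t ≤ 1 := fun w => (hE.one w.1 w.2).le
    have hg' : Phi E.cuts c (V8 E.νw) Set.univ ≤ 1 + e' :=
      (Phi_le_one_add_Psi (V8_le_one hν') _).trans (add_le_add le_rfl hE.psi)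
    have hb := parallel_bound (ν := D.νw) (ν' := E.νw) hν hν' hc D.empty_mem_cuts
      E.empty_mem_cuts hg' hE.psi hD.psi hR1 hR
    refine le_trans ?_ hb
    refine (Psi_anti_mono (cuts_par D E hD.len hE.len) _).trans ?_
    exact iSup₂_mono fun τ _ => DT.exc_mono_V (V8_par D E) τ _

end Design

end Pool.Agent.H82.Um
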