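import Pool.Agent.H82.Um.DesSer
import Pool.Agent.H82.Um.DesPar

/-!
MODULE DESMAIN (helper82, MP_98b928_an). Good designs of depth `32 ^ i` with `θ = 2 ^ (-i)` and
uniformly bounded excess.

`c = (10^9)⁻¹`. Induction on `i`; `i = 0`: `D0_good` (`2 c ≤ 500000 c`). If `Good D c θ (500000 c)`,
then four serial squarings with `K = 101/100`: the excesses are
`500000 c * (201/100)^j`, `j ≤ 4` (`(201/100)^4 ≤ 17`; the condition `(1 + e') + c K ≤ K` holds as
`e' ≤ (201/100)^3 * 500000 c ≤ 9/1000`), then a parallel square with `R = 168152`: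
`(3 * (1 + e') + 9^8)/256 + c R ≤ R` and
`(4 * 17 * 500000 c + 9^8 c)/256 + c R ≤ (132813 + 168152 + 168152) c ≤ 500000 c`
(`9^8/256 = 168151.3`). Depth: `n → 2 n` four times, then once more: `32 n`. (Convert to real numbers or
`ℝ≥0` for the arithmetic.)
-/

namespace Pool.Agent.H82.Um

open scoped ENNReal

namespace Design

theorem ofReal_arith {a b : ℝ} (h : a ≤ b) : ENNReal.ofReal a ≤ ENNReal.ofReal b :=
  ENNReal.ofReal_le_ofReal h

/-- Serial squaring. -/
theorem sq_step {D : Design} {c θ : ℝ≥0∞} {x : ℝ} (hc : c = ENNReal.ofReal ((10 ^ 9)⁻¹))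
    (hx0 : 0 ≤ x) (hx : x ≤ 9 / 1000) (hD : D.Good c θ (ENNReal.ofReal x)) :
    (D.ser D).Good c θ (ENNReal.ofReal (201 / 100 * x)) := by
  have hc1 : c ≤ 1 := by
    rw [hc]
    refine ENNReal.ofReal_le_one.mpr ?_
    norm_num
  have h := ser_good (K := ENNReal.ofReal (101 / 100)) hc1 hD hD (by
      rw [ENNReal.one_le_ofReal]
      norm_num) (by
      rw [hc, ← ENNReal.ofReal_one, ← ENNReal.ofReal_add zero_le_one hx0,
        ← ENNReal.ofReal_mul (by positivity), ← ENNReal.ofReal_add (by positivity) (by positivity)]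
      refine ENNReal.ofReal_le_ofReal ?_
      have : ((10 : ℝ) ^ 9)⁻¹ * (101 / 100) ≤ 1 / 1000 := by norm_num
      linarith)
  refine h.mono (le_of_eq ?_)
  rw [← ENNReal.ofReal_mul (by norm_num), ← ENNReal.ofReal_add hx0 (by positivity)]
  congr 1
  ring

theorem exists_design (i : ℕ) : ∃ D : Design, D.n = 32 ^ i ∧
    D.Good (ENNReal.ofReal ((10 ^ 9)⁻¹)) (2 ^ i)⁻¹ (500000 * ENNReal.ofReal ((10 ^ 9)⁻¹)) := by
  have hc1 : ENNReal.ofReal (((10 : ℝ) ^ 9)⁻¹) ≤ 1 := by
    refine ENNReal.ofReal_le_one.mpr ?_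
    norm_num
  have e0 : (500000 : ℝ≥0∞) * ENNReal.ofReal ((10 ^ 9)⁻¹) = ENNReal.ofReal (1 / 2000) := by
    rw [show (500000 : ℝ≥0∞) = ENNReal.ofReal 500000 by norm_num,
      ← ENNReal.ofReal_mul (by norm_num)]
    congr 1
    norm_num
  rw [e0]
  induction i with
  | zero =>
    refine ⟨D0, rfl, ?_⟩
    have h := D0_good hc1
    rw [pow_zero, inv_one]
    refine h.mono ?_
    rw [show (2 : ℝ≥0∞) = ENNReal.ofReal 2 by norm_num, ← ENNReal.ofReal_mul (by norm_num)]
    refine ENNReal.ofReal_le_ofReal ?_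
    norm_num
  | succ i ih =>
    obtain ⟨D, hn, hD⟩ := ih
    have h1 := sq_step rfl (by norm_num) (by norm_num) hD
    have h2 := sq_step rfl (by norm_num) (by norm_num) h1
    have h3 := sq_step rfl (by norm_num) (by norm_num) h2
    have h4 := sq_step rfl (by norm_num) (by norm_num) h3
    have h5 := h4.mono (e' := ENNReal.ofReal (17 / 2000)) (ENNReal.ofReal_le_ofReal (by norm_num))
    have h6 := par_good (R := ENNReal.ofReal 168152) hc1 h5 h5 (by
      rw [ENNReal.one_le_ofReal]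
      norm_num) (by
      rw [show ((2 : ℝ≥0∞) ^ 8)⁻¹ = ENNReal.ofReal (1 / 256) by
          rw [one_div, ENNReal.ofReal_inv_of_pos (by norm_num)]; norm_num,
        show (3 : ℝ≥0∞) = ENNReal.ofReal 3 by norm_num,
        show (9 : ℝ≥0∞) ^ 8 = ENNReal.ofReal (9 ^ 8) by
          rw [ENNReal.ofReal_pow (by norm_num)]; norm_num,
        ← ENNReal.ofReal_one, ← ENNReal.ofReal_add (by norm_num) (by norm_num),
        ← ENNReal.ofReal_mul (by norm_num), ← ENNReal.ofReal_add (by norm_num) (by norm_num),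
        ← ENNReal.ofReal_mul (by norm_num), ← ENNReal.ofReal_mul (by norm_num),
        ← ENNReal.ofReal_add (by norm_num) (by norm_num)]
      refine ENNReal.ofReal_le_ofReal ?_
      norm_num)
    have hθ : ((2 : ℝ≥0∞) ^ (i + 1))⁻¹ = 2⁻¹ * (2 ^ i)⁻¹ := by
      rw [pow_succ', ENNReal.mul_inv (by simp) (by simp)]
    rw [hθ]
    refine ⟨_, ?_, h6.mono ?_⟩
    · simp only [par, ser, hn]
      ring
    · rw [show ((2 : ℝ≥0∞) ^ 8)⁻¹ = ENNReal.ofReal (1 / 256) by
          rw [one_div, ENNReal.ofReal_inv_of_pos (by norm_num)]; norm_num,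
        show (3 : ℝ≥0∞) = ENNReal.ofReal 3 by norm_num,
        show (9 : ℝ≥0∞) ^ 8 = ENNReal.ofReal (9 ^ 8) by
          rw [ENNReal.ofReal_pow (by norm_num)]; norm_num,
        ← ENNReal.ofReal_mul (by norm_num), ← ENNReal.ofReal_mul (by norm_num),
        ← ENNReal.ofReal_add (by norm_num) (by norm_num),
        ← ENNReal.ofReal_add (by norm_num) (by norm_num),
        ← ENNReal.ofReal_mul (by norm_num), ← ENNReal.ofReal_mul (by norm_num),
        ← ENNReal.ofReal_add (by norm_num) (by norm_num)]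
      refine ENNReal.ofReal_le_ofReal ?_
      norm_num

end Design

end Pool.Agent.H82.Um
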