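import Pool.Agent.H82.Um.DesCuts

/-!
MODULE DESSER (helper82, MP_98b928_an; proofs by helper50). The compositions of good designs are good; the start.

`D0_good`: for every tree `tot τ C ≤ ∑' t, C.indicator 1 t` (number of elements; the value of a
nonempty class is `≤ 1`) and `exc τ C ≤ c * ∑' t, C.indicator 1 t`.
`ser_good`, `par_good`: `psi` from `serial_bound`, `parallel_bound` with `g' = 1 + e'`
(`Phi_le_one_add_Psi`, `V8_le_one`), transferred with `cuts_ser`, `V8_ser` (`Psi_anti_mono`,
`DT.exc_mono_V`). `one`: sum over the components (`ENNReal.tsum_prod`, `tsum_sum`-like; `Word D.n` is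
discrete, `tsum_eq_single`). `left`, `right`: let `w.length = D.n + E.n`, `(u ++ [b]) <+: w`. If
`u.length < D.n` then `(u ++ [b]) <+: w.take D.n`, and `u` is not in the second layer part of `S`
(`mem_others`, lengths), so only `D.S` matters. If `D.n ≤ u.length` then `u = w.take D.n ++ u'`,
`(u' ++ [b]) <+: w.drop D.n`, `u ∉ D.S t` (length), `u ∉ others .. (w.take D.n)`, so for the components
with middle entry `w.take D.n` (the others have measure `0`) `u ∈ S t ↔ u' ∈ E.S t'`.
-/

namespace Pool.Agent.H82.Um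

open scoped ENNReal

namespace Design

theorem Good.mono {D : Design} {c θ e e' : ℝ≥0∞} (h : D.Good c θ e) (he : e ≤ e') :
    D.Good c θ e' := ⟨h.len, h.one, h.left, h.right, h.psi.trans he⟩

theorem one_le_mass_one {T : Type} {C : Set T} (h : C.Nonempty) :
    1 ≤ mass (fun _ => (1 : ℝ≥0∞)) C := by
  obtain ⟨t, ht⟩ := h
  refine le_trans ?_ (ENNReal.le_tsum t)
  simp [ht]

theorem tot_le_card {T W : Type} {ν : W → T → ℝ≥0∞} (hν : ∀ w, ∑' t, ν w t ≤ 1) {c : ℝ≥0∞}
    (hc : c ≤ 1) (τ : DT T) (C : Set T) : τ.tot c (V8 ν) C ≤ mass (fun _ => (1 : ℝ≥0∞)) C := by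
  induction τ generalizing C with
  | leaf =>
    rw [DT.tot_leaf]
    rcases C.eq_empty_or_nonempty with h | h
    · subst h; simp
    · exact (V8_le_one hν C).trans (one_le_mass_one h)
  | node G a b iha ihb =>
    rw [DT.tot_node, ← mass_inter_add_diff (fun _ => (1 : ℝ≥0∞)) C G]
    refine add_le_add (iha _) ?_
    calc c * b.tot c (V8 ν) (C \ G) ≤ 1 * mass (fun _ => (1 : ℝ≥0∞)) (C \ G) := mul_le_mul' hc (ihb _)
      _ = _ := one_mul _

theorem exc_le_card {T W : Type} {ν : W → T → ℝ≥0∞} (hν : ∀ w, ∑' t, ν w t ≤ 1) {c : ℝ≥0∞}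
    (hc : c ≤ 1) (τ : DT T) (C : Set T) : τ.exc c (V8 ν) C ≤ c * mass (fun _ => (1 : ℝ≥0∞)) C := by
  induction τ generalizing C with
  | leaf => rw [DT.exc_leaf]; exact zero_le
  | node G a b iha ihb =>
    rw [DT.exc_node, ← mass_inter_add_diff (fun _ => (1 : ℝ≥0∞)) C G, mul_add]
    exact add_le_add (iha _) (mul_le_mul_right (tot_le_card hν hc b _) _)

theorem D0_good {c : ℝ≥0∞} (hc : c ≤ 1) : D0.Good c 1 (2 * c) := by
  have hone : ∀ w : List Bool, w.length = D0.n → ∑' t, D0.ν w t = 1 := by
    intro w hw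
    obtain ⟨b, rfl⟩ := List.length_eq_one_iff.mp hw
    show ∑' t : Bool, (if [b] = [t] then (1 : ℝ≥0∞) else 0) = 1
    rw [tsum_eq_single b]
    · simp
    · intro b' hb'
      rw [if_neg]
      simpa using hb'.symm
  refine ⟨?_, hone, ?_, ?_, ?_⟩
  · intro t u hu
    change Bool at t
    change u ∈ (if t then {[]} else ∅ : Finset (List Bool)) at hu
    show u.length < 1
    cases t
    · simp at hu
    · simp at hu; subst hu; simp
  · intro w hw u hu t ht
    change Bool at t
    obtain ⟨b, rfl⟩ := List.length_eq_one_iff.mp hw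
    change (if [b] = [t] then (1 : ℝ≥0∞) else 0) ≠ 0 at ht
    change u ∉ (if t then {[]} else ∅ : Finset (List Bool))
    have hbt : b = t := by
      by_contra h
      exact ht (if_neg (by simpa using h))
    subst hbt
    obtain ⟨v, hv⟩ := hu
    cases u with
    | nil =>
      simp at hv
      rw [hv.1]
      simp
    | cons x u => simp at hv
  · intro w hw u hu
    obtain ⟨b, rfl⟩ := List.length_eq_one_iff.mp hw
    have hub : u = [] ∧ b = true := by
      obtain ⟨v, hv⟩ := hu
      cases u with
      | nil =>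
        simp at hv
        exact ⟨rfl, hv.1⟩
      | cons x u => simp at hv
    obtain ⟨rfl, rfl⟩ := hub
    show ∑' t : Bool, (if [] ∈ (if t then {[]} else ∅ : Finset (List Bool)) then
      (if [true] = [t] then (1 : ℝ≥0∞) else 0) else 0) = 1
    rw [tsum_eq_single true]
    · simp
    · intro b' hb'
      cases b'
      · simp
      · exact absurd rfl hb'
  · refine iSup₂_le fun τ _ => ?_
    refine (exc_le_card (fun w : Word D0.n => (hone w.1 w.2).le) hc τ _).trans ?_
    rw [mass_univ, mul_comm]
    refine mul_le_mul_left ?_ c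
    show ∑' t : Bool, (1 : ℝ≥0∞) ≤ 2
    rw [tsum_fintype]
    simp


theorem Good.tsum_le {D : Design} {c θ e : ℝ≥0∞} (h : D.Good c θ e) (w : Word D.n) :
    ∑' t, D.νw w t ≤ 1 := (h.one w.1 w.2).le

theorem tsum_mid {A X B : Type} (f : A × X × B → ℝ≥0∞) (x : X) (h : ∀ t, t.2.1 ≠ x → f t = 0) :
    ∑' t, f t = ∑' a, ∑' b, f (a, x, b) := by
  rw [ENNReal.tsum_prod']
  refine tsum_congr fun a => ?_
  rw [ENNReal.tsum_prod']
  refine tsum_eq_single x fun y hy => ?_
  simp only [ENNReal.tsum_eq_zero]
  exact fun b => h (a, y, b) hy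

theorem pre_take {n : ℕ} {u w : List Bool} {b : Bool} (h : (u ++ [b]) <+: w) (hu : u.length < n) :
    (u ++ [b]) <+: w.take n := by
  rw [List.prefix_take_iff]
  refine ⟨h, ?_⟩
  simpa using hu

theorem pre_drop {n : ℕ} {u w : List Bool} {b : Bool} (h : (u ++ [b]) <+: w) (hu : n ≤ u.length) :
    u.take n = w.take n ∧ (u.drop n ++ [b]) <+: w.drop n := by
  obtain ⟨v, rfl⟩ := h
  constructor
  · rw [List.append_assoc, List.take_append_of_le_length hu]
  · refine ⟨v, ?_⟩
    rw [List.append_assoc, List.append_assoc, List.drop_append_of_le_length hu]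

/-- A word of length `n` as an element of `Word n`. -/
def mkW (n : ℕ) (w : List Bool) (h : w.length = n) : Word n := ⟨w, h⟩

theorem mkW_val (n : ℕ) (w : List Bool) (h : w.length = n) : (mkW n w h).1 = w := rfl

theorem ne_mkW {n : ℕ} {w : List Bool} {h : w.length = n} {x : Word n} (hx : x ≠ mkW n w h) :
    x.1 ≠ w := fun h1 => hx (Subtype.ext h1)

open Classical in
/-- The supports of the serial composition. -/
noncomputable def sS (D E : Design) (t : D.T × Word D.n × E.T) : Finset (List Bool) :=
  D.S t.1 ∪ ((E.S t.2.2).image (fun u => t.2.1.1 ++ u) ∪ others D.n E.n t.2.1.1)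

open Classical in
/-- The measures of the serial composition. -/
noncomputable def sν (D E : Design) (w : List Bool) (t : D.T × Word D.n × E.T) : ℝ≥0∞ :=
  if t.2.1.1 = w.take D.n then D.ν (w.take D.n) t.1 * E.ν (w.drop D.n) t.2.2 else 0

theorem sν_mk {D E : Design} {w : List Bool} (h : (w.take D.n).length = D.n) (a : D.T) (b : E.T) :
    sν D E w (a, mkW D.n (w.take D.n) h, b) = D.ν (w.take D.n) a * E.ν (w.drop D.n) b :=
  if_pos rfl

theorem sν_ne {D E : Design} {w : List Bool} {h : (w.take D.n).length = D.n}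
    {t : D.T × Word D.n × E.T} (ht : t.2.1 ≠ mkW D.n (w.take D.n) h) : sν D E w t = 0 :=
  if_neg (ne_mkW ht)

theorem mem_serS_lt {D E : Design} {t : D.T × Word D.n × E.T} {u : List Bool}
    (hu : u.length < D.n) : u ∈ sS D E t ↔ u ∈ D.S t.1 := by
  classical
  rw [sS, Finset.mem_union, Finset.mem_union, mem_others, Finset.mem_image]
  constructor
  · rintro (h | ⟨v, -, rfl⟩ | h)
    · exact h
    · have := t.2.1.2
      rw [List.length_append] at hu
      omega
    · omega
  · exact Or.inl

theorem mem_serS_ge {D E : Design} (hD : ∀ t, ∀ u ∈ D.S t, u.length < D.n)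
    {t : D.T × Word D.n × E.T} {u : List Bool}
    (hu : D.n ≤ u.length) (ht : t.2.1.1 = u.take D.n) :
    u ∈ sS D E t ↔ u.drop D.n ∈ E.S t.2.2 := by
  classical
  rw [sS, Finset.mem_union, Finset.mem_union, mem_others, Finset.mem_image]
  constructor
  · rintro (h | ⟨v, hv, h⟩ | h)
    · exact absurd (hD _ _ h) (by omega)
    · have h2 : u.drop D.n = v := by
        rw [← h]
        exact List.drop_left' t.2.1.2
      rw [h2]; exact hv
    · exact absurd ht.symm h.2.2
  · intro h
    refine Or.inr (Or.inl ⟨_, h, ?_⟩)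
    rw [ht, List.take_append_drop]

theorem ser_good {D E : Design} {c θ e e' K : ℝ≥0∞} (hc : c ≤ 1) (hD : D.Good c θ e)
    (hE : E.Good c θ e') (hK1 : 1 ≤ K) (hK : (1 + e') + c * K ≤ K) :
    (D.ser E).Good c θ (e' + K * e) := by
  classical
  have htk : ∀ w : List Bool, w.length = D.n + E.n → (w.take D.n).length = D.n := by
    intro w hw
    rw [List.length_take]; omega
  have hdr : ∀ w : List Bool, w.length = D.n + E.n → (w.drop D.n).length = E.n := by
    intro w hw
    rw [List.length_drop]; omega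
  refine ⟨?_, ?_, ?_, ?_, ?_⟩
  · intro t u hu
    change D.T × Word D.n × E.T at t
    show u.length < D.n + E.n
    change u ∈ sS D E t at hu
    rw [sS, Finset.mem_union, Finset.mem_union, mem_others, Finset.mem_image] at hu
    rcases hu with h | ⟨v, hv, rfl⟩ | h
    · exact Nat.lt_add_right _ (hD.len _ _ h)
    · have := hE.len _ _ hv
      have h2 := t.2.1.2
      rw [List.length_append]
      omega
    · exact h.2.1
  · intro w hw
    change w.length = D.n + E.n at hw
    show ∑' t : D.T × Word D.n × E.T, sν D E w t = 1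
    rw [tsum_mid _ (mkW D.n (w.take D.n) (htk w hw)) fun t ht => sν_ne ht]
    simp only [sν_mk, ENNReal.tsum_mul_left, hE.one _ (hdr w hw), mul_one]
    exact hD.one _ (htk w hw)
  · intro w hw u hu t ht
    change w.length = D.n + E.n at hw
    change D.T × Word D.n × E.T at t
    change sν D E w t ≠ 0 at ht
    show u ∉ sS D E t
    by_cases hx : t.2.1.1 = w.take D.n
    · rw [sν, if_pos hx] at ht
      rcases lt_or_ge u.length D.n with h | h
      · rw [mem_serS_lt h]
        exact hD.left _ (htk w hw) u (pre_take hu h) _ (left_ne_zero_of_mul ht)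
      · obtain ⟨h1, h2⟩ := pre_drop hu h
        rw [mem_serS_ge hD.len h (hx.trans h1.symm)]
        exact hE.left _ (hdr w hw) _ h2 _ (right_ne_zero_of_mul ht)
    · exact absurd (if_neg hx) ht
  · intro w hw u hu
    change w.length = D.n + E.n at hw
    show ∑' t : D.T × Word D.n × E.T, (if u ∈ sS D E t then sν D E w t else 0) = θ
    rw [tsum_mid _ (mkW D.n (w.take D.n) (htk w hw))
      fun t ht => by rw [sν_ne ht, ite_self]]
    rcases lt_or_ge u.length D.n with h | h
    · have h3 : ∀ a b, (if u ∈ sS D E (a, mkW D.n (w.take D.n) (htk w hw), b) then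
          sν D E w (a, mkW D.n (w.take D.n) (htk w hw), b) else 0) =
          (if u ∈ D.S a then D.ν (w.take D.n) a else 0) * E.ν (w.drop D.n) b := by
        intro a b
        rw [sν_mk]
        simp only [mem_serS_lt h]
        split_ifs <;> simp
      simp only [h3, ENNReal.tsum_mul_left, hE.one _ (hdr w hw), mul_one]
      exact hD.right _ (htk w hw) u (pre_take hu h)
    · obtain ⟨h1, h2⟩ := pre_drop hu h
      have h3 : ∀ a b, (if u ∈ sS D E (a, mkW D.n (w.take D.n) (htk w hw), b) then
          sν D E w (a, mkW D.n (w.take D.n) (htk w hw), b) else 0) =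
          D.ν (w.take D.n) a * (if u.drop D.n ∈ E.S b then E.ν (w.drop D.n) b else 0) := by
        intro a b
        rw [sν_mk]
        simp only [mem_serS_ge hD.len h (t := (a, mkW D.n (w.take D.n) (htk w hw), b))
          h1.symm]
        split_ifs <;> simp
      simp only [h3, ENNReal.tsum_mul_left, ENNReal.tsum_mul_right, hD.one _ (htk w hw), one_mul]
      exact hE.right _ (hdr w hw) _ h2
  · refine le_trans ?_ (serial_bound hD.tsum_le hE.tsum_le hc D.empty_mem_cuts E.empty_mem_cuts
      ((Phi_le_one_add_Psi (V8_le_one hE.tsum_le) _).trans (add_le_add le_rfl hE.psi))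
      hE.psi hD.psi hK1 hK)
    refine (Psi_anti_mono (cuts_ser D E hD.len hE.len) _).trans ?_
    exact iSup₂_mono fun τ _ => DT.exc_mono_V (V8_ser D E) τ _

end Design

end Pool.Agent.H82.Um
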