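import Pool.Agent.H82.Um.Sys

/-!
MODULE PAR (helper82, MP_98b928_an). Parallel composition: the excess bound

  `Psi (par) ≤ (2^8)⁻¹ * (e + 3 * e' + 9^8 * c) + c * R`
  if `1 ≤ R` and `(2^8)⁻¹ * (3 * g' + 9^8) + c * R ≤ R`.

Proof. `Φ, Ψ` for the first, `Φ', Ψ'` for the second system. For `C : Set (T ⊕ W × T')` put
`C₁ = {t | inl t ∈ C}`, `C_x = {s | inr (x, s) ∈ C}`; `κ = 9^8`. Pointwise inequality:
`(a + b)^8 ≤ 3 * b^8 + κ * a^8` (if `8 a ≤ b` then `(9/8)^8 ≤ 3`, else `a + b ≤ 9 a`).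

(0) `C_x = ∅` for all `x`: `tot τ C ≤ (2^8)⁻¹ * Φ C₁`, `exc τ C ≤ (2^8)⁻¹ * Ψ C₁`
(`V8 C = (2^8)⁻¹ * V8 ν C₁`; every cut set restricts to a cut set of `𝒢` or to `∅` on `C₁`).

(1) localised at `x` (`C_y = ∅` for `y ≠ x`):
  `tot τ C ≤ (2^8)⁻¹ * (Φ C₁ + 3 * Φ' C_x + κ * mass (ν x) C₁)`,
  `exc τ C ≤ (2^8)⁻¹ * (Ψ C₁ + 3 * Ψ' C_x + κ * c * mass (ν x) C₁)`.
Leaf: for `w = (w₁, w₂)` with `w₁ ≠ x` the mass of `C` is `mass (ν w₁) C₁ / 2`; for `w₁ = x` it is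
`(mass (ν x) C₁ + mass (ν' w₂) C_x) / 2`; use the pointwise inequality with `a = mass (ν x) C₁ ≤ 1`.
Node: `C₁` is split by `G ∈ 𝒢` (or `∅`), `C_x` is split into `(C_x, ∅)`, `(∅, C_x)` or
`(C_x ∩ H, C_x \ H)`; use `Phi_split`, `Psi_split`, `Phi_empty`, `mul_Phi_le_Psi`,
`mass_inter_add_diff` (the mass term is additive and `c ≤ 1`).

(2) any `C`: `tot τ C ≤ (2^8)⁻¹ * Φ C₁ + R`. Leaf: `V8 C ≤ 1 ≤ R`. Node `inl G ∪ inr univ`: the hit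
part satisfies (0). Localising node at `x`: avoid part by (1) `≤ (2^8)⁻¹ * (Φ (C₁ ∩ G) + 3 g' + κ)`,
hit part by induction. Node `inl G` or `∅`: avoid part by (0), hit part by induction.

(3) any `C`: `exc τ C ≤ (2^8)⁻¹ * Ψ C₁ + ((2^8)⁻¹ * (3 * e' + κ * c) + c * R)`, in the same way.
-/

namespace Pool.Agent.H82.Um

open scoped ENNReal

variable {T W T' W' : Type}

open Classical in
/-- The measures of the parallel composition. -/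
noncomputable def parν (ν : W → T → ℝ≥0∞) (ν' : W' → T' → ℝ≥0∞) (w : W × W') :
    T ⊕ W × T' → ℝ≥0∞
  | Sum.inl t => 2⁻¹ * ν w.1 t
  | Sum.inr t => if t.1 = w.1 then 2⁻¹ * ν' w.2 t.2 else 0

/-- The cut sets of the parallel composition. -/
def parG (𝒢 : Set (Set T)) (𝒢' : Set (Set T')) : Set (Set (T ⊕ W × T')) :=
  {K | K = ∅ ∨ (∃ G ∈ 𝒢, K = Sum.inl '' G ∪ Set.range Sum.inr) ∨ (∃ G ∈ 𝒢, K = Sum.inl '' G) ∨
    ∃ G ∈ 𝒢, ∃ x : W, ∃ H ∈ 𝒢', K = Sum.inl '' G ∪ Sum.inr '' ({x} ×ˢ H)}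

/-- the trace of a class on the first system -/
def cA (C : Set (T ⊕ W × T')) : Set T := {t | Sum.inl t ∈ C}

/-- the trace of a class on the copy of the second system at `x` -/
def cB (C : Set (T ⊕ W × T')) (x : W) : Set T' := {s | Sum.inr (x, s) ∈ C}

theorem cA_inter (C K : Set (T ⊕ W × T')) : cA (C ∩ K) = cA C ∩ cA K := rfl

theorem cA_diff (C K : Set (T ⊕ W × T')) : cA (C \ K) = cA C \ cA K := rfl

theorem cB_inter (C K : Set (T ⊕ W × T')) (x : W) : cB (C ∩ K) x = cB C x ∩ cB K x := rfl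

theorem cB_diff (C K : Set (T ⊕ W × T')) (x : W) : cB (C \ K) x = cB C x \ cB K x := rfl

theorem mass_par (ν : W → T → ℝ≥0∞) (ν' : W' → T' → ℝ≥0∞) (w : W × W')
    (C : Set (T ⊕ W × T')) :
    mass (parν ν ν' w) C = 2⁻¹ * (mass (ν w.1) (cA C) + mass (ν' w.2) (cB C w.1)) := by
  classical
  rw [mul_add]
  unfold mass
  rw [Summable.tsum_sum ENNReal.summable ENNReal.summable]
  congr 1
  · rw [← ENNReal.tsum_mul_left]
    refine tsum_congr fun t => ?_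
    by_cases ht : Sum.inl t ∈ C
    · rw [Set.indicator_of_mem ht, Set.indicator_of_mem (s := cA C) ht]
      rfl
    · rw [Set.indicator_of_notMem ht, Set.indicator_of_notMem (s := cA C) ht, mul_zero]
  · rw [← ENNReal.tsum_mul_left, ENNReal.tsum_prod', tsum_eq_single w.1]
    · refine tsum_congr fun t => ?_
      by_cases ht : Sum.inr (w.1, t) ∈ C
      · rw [Set.indicator_of_mem ht, Set.indicator_of_mem (s := cB C w.1) ht]
        simp [parν]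
      · rw [Set.indicator_of_notMem ht, Set.indicator_of_notMem (s := cB C w.1) ht, mul_zero]
    · intro x hx
      rw [ENNReal.tsum_eq_zero]
      intro t
      by_cases ht : Sum.inr (x, t) ∈ C
      · rw [Set.indicator_of_mem ht]
        simp [parν, hx]
      · rw [Set.indicator_of_notMem ht]

theorem V8_le {ι T : Type} {ν : ι → T → ℝ≥0∞} {C : Set T} {b : ℝ≥0∞}
    (h : ∀ w, mass (ν w) C ^ 8 ≤ b) : V8 ν C ≤ b := by
  unfold V8 val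
  rw [ENNReal.iSup_pow_of_ne_zero (by norm_num)]
  exact iSup_le h

theorem half_pow (x : ℝ≥0∞) : (2⁻¹ * x) ^ 8 = (2 ^ 8)⁻¹ * x ^ 8 := by
  rw [mul_pow, ENNReal.inv_pow]

/-- the pointwise inequality -/
theorem add_pow_le {a b : ℝ≥0∞} (ha : a ≤ 1) : (a + b) ^ 8 ≤ 3 * b ^ 8 + 9 ^ 8 * a := by
  by_cases hb : b = ⊤
  · subst hb
    have : (3 : ℝ≥0∞) * ⊤ ^ 8 = ⊤ := by
      rw [ENNReal.top_pow (by norm_num)]
      exact ENNReal.mul_top (by norm_num)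
    rw [this, top_add]
    exact le_top
  · have ha' : a ≠ ⊤ := ne_top_of_le_ne_top ENNReal.one_ne_top ha
    lift a to NNReal using ha'
    lift b to NNReal using hb
    have ha1 : a ≤ 1 := by exact_mod_cast ha
    have key : (a + b) ^ 8 ≤ 3 * b ^ 8 + 9 ^ 8 * a := by
      rw [← NNReal.coe_le_coe]
      push_cast
      have h0 : (0 : ℝ) ≤ a := a.2
      have h0' : (0 : ℝ) ≤ b := b.2
      have h1 : (a : ℝ) ≤ 1 := by exact_mod_cast ha1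
      have h8 : (a : ℝ) ^ 8 ≤ a := by
        calc (a : ℝ) ^ 8 = (a : ℝ) * (a : ℝ) ^ 7 := by ring
          _ ≤ (a : ℝ) * 1 := mul_le_mul_of_nonneg_left (pow_le_one₀ h0 h1) h0
          _ = (a : ℝ) := mul_one _
      rcases le_total (8 * (a : ℝ)) b with h | h
      · have h2 : (a : ℝ) + b ≤ 9 / 8 * b := by linarith
        have h3 : ((a : ℝ) + b) ^ 8 ≤ (9 / 8 * b) ^ 8 := pow_le_pow_left₀ (by positivity) h2 8
        rw [mul_pow] at h3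
        have h4 : (9 / 8 : ℝ) ^ 8 * (b : ℝ) ^ 8 ≤ 3 * (b : ℝ) ^ 8 :=
          mul_le_mul_of_nonneg_right (by norm_num) (by positivity)
        have h5 : (0 : ℝ) ≤ 9 ^ 8 * a := by positivity
        linarith
      · have h2 : (a : ℝ) + b ≤ 9 * a := by linarith
        have h3 : ((a : ℝ) + b) ^ 8 ≤ (9 * a) ^ 8 := pow_le_pow_left₀ (by positivity) h2 8
        rw [mul_pow] at h3
        have h4 : (9 : ℝ) ^ 8 * (a : ℝ) ^ 8 ≤ 9 ^ 8 * a :=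
          mul_le_mul_of_nonneg_left h8 (by positivity)
        have h5 : (0 : ℝ) ≤ 3 * (b : ℝ) ^ 8 := by positivity
        linarith
    exact_mod_cast key

theorem parG_cA {𝒢 : Set (Set T)} {𝒢' : Set (Set T')} (h0 : ∅ ∈ 𝒢) {K : Set (T ⊕ W × T')}
    (hK : K ∈ parG 𝒢 𝒢') : cA K ∈ 𝒢 := by
  rcases hK with rfl | ⟨G, hG, rfl⟩ | ⟨G, hG, rfl⟩ | ⟨G, hG, x, H, hH, rfl⟩
  · have : cA (∅ : Set (T ⊕ W × T')) = ∅ := rfl
    rw [this]; exact h0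
  · have : cA (Sum.inl '' G ∪ Set.range Sum.inr : Set (T ⊕ W × T')) = G := by
      ext t; simp [cA]
    rw [this]; exact hG
  · have : cA (Sum.inl '' G : Set (T ⊕ W × T')) = G := by
      ext t; simp [cA]
    rw [this]; exact hG
  · have : cA (Sum.inl '' G ∪ Sum.inr '' ({x} ×ˢ H) : Set (T ⊕ W × T')) = G := by
      ext t; simp [cA]
    rw [this]; exact hG

theorem parG_cB {𝒢 : Set (Set T)} {𝒢' : Set (Set T')} (h0' : ∅ ∈ 𝒢') {K : Set (T ⊕ W × T')}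
    (hK : K ∈ parG 𝒢 𝒢') (x : W) : cB K x ∈ 𝒢' ∨ cB K x = Set.univ := by
  rcases hK with rfl | ⟨G, hG, rfl⟩ | ⟨G, hG, rfl⟩ | ⟨G, hG, y, H, hH, rfl⟩
  · left
    have : cB (∅ : Set (T ⊕ W × T')) x = ∅ := rfl
    rw [this]; exact h0'
  · right
    ext t; simp [cB]
  · left
    have : cB (Sum.inl '' G : Set (T ⊕ W × T')) x = ∅ := by
      ext t; simp [cB]
    rw [this]; exact h0'
  · left
    by_cases hxy : x = y
    · subst hxy
      have : cB (Sum.inl '' G ∪ Sum.inr '' ({x} ×ˢ H) : Set (T ⊕ W × T')) x = H := by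
        ext t; simp [cB]
      rw [this]; exact hH
    · have : cB (Sum.inl '' G ∪ Sum.inr '' ({y} ×ˢ H) : Set (T ⊕ W × T')) x = ∅ := by
        ext t
        simp only [cB, Set.mem_ofPred_eq, Set.mem_union, Set.mem_image, reduceCtorEq, and_false,
          exists_false, false_or, Set.mem_prod, Set.mem_singleton_iff, Sum.inr.injEq,
          Set.mem_empty_iff_false, iff_false, not_exists, not_and]
        rintro ⟨p, q⟩ ⟨h1, _⟩ h3
        exact hxy ((Prod.mk.inj h3).1.symm.trans h1)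
      rw [this]; exact h0'

/-- splitting with a cut set or everything -/
theorem Phi_split' {α : Type} {𝒢 : Set (Set α)} {c : ℝ≥0∞} {V : Set α → ℝ≥0∞} (hV : V ∅ = 0)
    {G : Set α} (hG : G ∈ 𝒢 ∨ G = Set.univ) (C : Set α) :
    Phi 𝒢 c V (C ∩ G) + c * Phi 𝒢 c V (C \ G) ≤ Phi 𝒢 c V C := by
  rcases hG with hG | rfl
  · exact Phi_split hG C
  · rw [Set.inter_univ, Set.sdiff_univ, Phi_empty hV, mul_zero, add_zero]

theorem Psi_split' {α : Type} {𝒢 : Set (Set α)} {c : ℝ≥0∞} {V : Set α → ℝ≥0∞} (hV : V ∅ = 0)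
    {G : Set α} (hG : G ∈ 𝒢 ∨ G = Set.univ) (C : Set α) :
    Psi 𝒢 c V (C ∩ G) + c * Phi 𝒢 c V (C \ G) ≤ Psi 𝒢 c V C := by
  rcases hG with hG | rfl
  · exact Psi_split hG C
  · rw [Set.inter_univ, Set.sdiff_univ, Phi_empty hV, mul_zero, add_zero]

section Claims

variable {𝒢 : Set (Set T)} {𝒢' : Set (Set T')} {ν : W → T → ℝ≥0∞} {ν' : W' → T' → ℝ≥0∞}
  {c : ℝ≥0∞}

/-- Claim (0), total -/
theorem claim0_tot (h0 : ∅ ∈ 𝒢) (τ : DT (T ⊕ W × T')) (hτ : τ.Ok (parG 𝒢 𝒢'))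
    (C : Set (T ⊕ W × T')) (hC : ∀ x, cB C x = ∅) :
    τ.tot c (V8 (parν ν ν')) C ≤ (2 ^ 8)⁻¹ * Phi 𝒢 c (V8 ν) (cA C) := by
  induction τ generalizing C with
  | leaf =>
    rw [DT.tot_leaf]
    refine le_trans (V8_le fun w => ?_) (mul_le_mul_right (V_le_Phi _) _)
    rw [mass_par, hC, mass_empty, add_zero, half_pow]
    exact mul_le_mul_right (pow_le_pow_left' (mass_le_val ν _ _) 8) _
  | node K a h iha ihh =>
    obtain ⟨hK, ha, hh⟩ := hτ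
    rw [DT.tot_node]
    have h1 := iha ha (C ∩ K) (fun x => by rw [cB_inter, hC, Set.empty_inter])
    have h2 := ihh hh (C \ K) (fun x => by rw [cB_diff, hC, Set.empty_sdiff])
    rw [cA_inter] at h1
    rw [cA_diff] at h2
    calc _ ≤ (2 ^ 8)⁻¹ * Phi 𝒢 c (V8 ν) (cA C ∩ cA K) +
          c * ((2 ^ 8)⁻¹ * Phi 𝒢 c (V8 ν) (cA C \ cA K)) :=
        add_le_add h1 (mul_le_mul_right h2 _)
      _ = (2 ^ 8)⁻¹ * (Phi 𝒢 c (V8 ν) (cA C ∩ cA K) + c * Phi 𝒢 c (V8 ν) (cA C \ cA K)) := by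
        ring
      _ ≤ _ := mul_le_mul_right (Phi_split (parG_cA h0 hK) _) _

/-- Claim (0), excess -/
theorem claim0_exc (h0 : ∅ ∈ 𝒢) (τ : DT (T ⊕ W × T')) (hτ : τ.Ok (parG 𝒢 𝒢'))
    (C : Set (T ⊕ W × T')) (hC : ∀ x, cB C x = ∅) :
    τ.exc c (V8 (parν ν ν')) C ≤ (2 ^ 8)⁻¹ * Psi 𝒢 c (V8 ν) (cA C) := by
  induction τ generalizing C with
  | leaf => exact zero_le
  | node K a h iha ihh =>
    obtain ⟨hK, ha, hh⟩ := hτ
    rw [DT.exc_node]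
    have h1 := iha ha (C ∩ K) (fun x => by rw [cB_inter, hC, Set.empty_inter])
    have h2 := claim0_tot (c := c) (ν := ν) (ν' := ν') h0 h hh (C \ K)
      (fun x => by rw [cB_diff, hC, Set.empty_sdiff])
    rw [cA_inter] at h1
    rw [cA_diff] at h2
    calc _ ≤ (2 ^ 8)⁻¹ * Psi 𝒢 c (V8 ν) (cA C ∩ cA K) +
          c * ((2 ^ 8)⁻¹ * Phi 𝒢 c (V8 ν) (cA C \ cA K)) :=
        add_le_add h1 (mul_le_mul_right h2 _)
      _ = (2 ^ 8)⁻¹ * (Psi 𝒢 c (V8 ν) (cA C ∩ cA K) + c * Phi 𝒢 c (V8 ν) (cA C \ cA K)) := by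
        ring
      _ ≤ _ := mul_le_mul_right (Psi_split (parG_cA h0 hK) _) _

/-- Claim (1), total -/
theorem claim1_tot (hν : ∀ w, ∑' t, ν w t ≤ 1) (hc : c ≤ 1) (h0 : ∅ ∈ 𝒢) (h0' : ∅ ∈ 𝒢')
    (τ : DT (T ⊕ W × T')) (hτ : τ.Ok (parG 𝒢 𝒢')) (x : W)
    (C : Set (T ⊕ W × T')) (hC : ∀ y, y ≠ x → cB C y = ∅) :
    τ.tot c (V8 (parν ν ν')) C ≤ (2 ^ 8)⁻¹ * (Phi 𝒢 c (V8 ν) (cA C) +
      3 * Phi 𝒢' c (V8 ν') (cB C x) + 9 ^ 8 * mass (ν x) (cA C)) := by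
  induction τ generalizing C with
  | leaf =>
    rw [DT.tot_leaf]
    refine V8_le fun w => ?_
    rw [mass_par, half_pow]
    refine mul_le_mul_right ?_ _
    by_cases hw : w.1 = x
    · rw [hw]
      have hm : mass (ν x) (cA C) ≤ 1 := (mass_le_tsum _ _).trans (hν x)
      refine (add_pow_le hm).trans ?_
      refine add_le_add (le_trans ?_ le_add_self) le_rfl
      refine mul_le_mul_right (le_trans ?_ (V_le_Phi _)) _
      exact pow_le_pow_left' (mass_le_val ν' _ _) 8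
    · rw [hC _ hw, mass_empty, add_zero]
      refine le_trans ?_ (le_trans (V_le_Phi (𝒢 := 𝒢) (c := c) (V := V8 ν) (cA C)) ?_)
      · exact pow_le_pow_left' (mass_le_val ν _ _) 8
      · rw [add_assoc]
        exact le_self_add
  | node K a h iha ihh =>
    obtain ⟨hK, ha, hh⟩ := hτ
    rw [DT.tot_node]
    have h1 := iha ha (C ∩ K) (fun y hy => by rw [cB_inter, hC y hy, Set.empty_inter])
    have h2 := ihh hh (C \ K) (fun y hy => by rw [cB_diff, hC y hy, Set.empty_sdiff])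
    rw [cA_inter, cB_inter] at h1
    rw [cA_diff, cB_diff] at h2
    have e1 := Phi_split (c := c) (V := V8 ν) (parG_cA h0 hK) (cA C)
    have e2 := Phi_split' (c := c) (V := V8 ν') (V8_empty ν') (parG_cB h0' hK x) (cB C x)
    have e3 : mass (ν x) (cA C ∩ cA K) + c * mass (ν x) (cA C \ cA K) ≤ mass (ν x) (cA C) := by
      rw [← mass_inter_add_diff (ν x) (cA C) (cA K)]
      refine add_le_add le_rfl ?_
      calc c * mass (ν x) (cA C \ cA K) ≤ 1 * mass (ν x) (cA C \ cA K) :=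
            mul_le_mul_left hc _
        _ = _ := one_mul _
    calc _ ≤ (2 ^ 8)⁻¹ * (Phi 𝒢 c (V8 ν) (cA C ∩ cA K) +
          3 * Phi 𝒢' c (V8 ν') (cB C x ∩ cB K x) + 9 ^ 8 * mass (ν x) (cA C ∩ cA K)) +
          c * ((2 ^ 8)⁻¹ * (Phi 𝒢 c (V8 ν) (cA C \ cA K) +
          3 * Phi 𝒢' c (V8 ν') (cB C x \ cB K x) + 9 ^ 8 * mass (ν x) (cA C \ cA K))) :=
        add_le_add h1 (mul_le_mul_right h2 _)
      _ = (2 ^ 8)⁻¹ * ((Phi 𝒢 c (V8 ν) (cA C ∩ cA K) + c * Phi 𝒢 c (V8 ν) (cA C \ cA K)) +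
          3 * (Phi 𝒢' c (V8 ν') (cB C x ∩ cB K x) + c * Phi 𝒢' c (V8 ν') (cB C x \ cB K x)) +
          9 ^ 8 * (mass (ν x) (cA C ∩ cA K) + c * mass (ν x) (cA C \ cA K))) := by
        ring
      _ ≤ _ := mul_le_mul_right (add_le_add (add_le_add e1 (mul_le_mul_right e2 _))
        (mul_le_mul_right e3 _)) _

/-- Claim (1), excess -/
theorem claim1_exc (hν : ∀ w, ∑' t, ν w t ≤ 1) (hc : c ≤ 1) (h0 : ∅ ∈ 𝒢) (h0' : ∅ ∈ 𝒢')
    (τ : DT (T ⊕ W × T')) (hτ : τ.Ok (parG 𝒢 𝒢')) (x : W)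
    (C : Set (T ⊕ W × T')) (hC : ∀ y, y ≠ x → cB C y = ∅) :
    τ.exc c (V8 (parν ν ν')) C ≤ (2 ^ 8)⁻¹ * (Psi 𝒢 c (V8 ν) (cA C) +
      3 * Psi 𝒢' c (V8 ν') (cB C x) + 9 ^ 8 * (c * mass (ν x) (cA C))) := by
  induction τ generalizing C with
  | leaf => exact zero_le
  | node K a h iha ihh =>
    obtain ⟨hK, ha, hh⟩ := hτ
    rw [DT.exc_node]
    have h1 := iha ha (C ∩ K) (fun y hy => by rw [cB_inter, hC y hy, Set.empty_inter])
    have h2 := claim1_tot (c := c) (ν := ν) (ν' := ν') hν hc h0 h0' h hh x (C \ K)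
      (fun y hy => by rw [cB_diff, hC y hy, Set.empty_sdiff])
    rw [cA_inter, cB_inter] at h1
    rw [cA_diff, cB_diff] at h2
    have e1 := Psi_split (c := c) (V := V8 ν) (parG_cA h0 hK) (cA C)
    have e2 := Psi_split' (c := c) (V := V8 ν') (V8_empty ν') (parG_cB h0' hK x) (cB C x)
    have e3 : c * mass (ν x) (cA C ∩ cA K) + c * mass (ν x) (cA C \ cA K) =
        c * mass (ν x) (cA C) := by
      rw [← mul_add, mass_inter_add_diff]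
    calc _ ≤ (2 ^ 8)⁻¹ * (Psi 𝒢 c (V8 ν) (cA C ∩ cA K) +
          3 * Psi 𝒢' c (V8 ν') (cB C x ∩ cB K x) + 9 ^ 8 * (c * mass (ν x) (cA C ∩ cA K))) +
          c * ((2 ^ 8)⁻¹ * (Phi 𝒢 c (V8 ν) (cA C \ cA K) +
          3 * Phi 𝒢' c (V8 ν') (cB C x \ cB K x) + 9 ^ 8 * mass (ν x) (cA C \ cA K))) :=
        add_le_add h1 (mul_le_mul_right h2 _)
      _ = (2 ^ 8)⁻¹ * ((Psi 𝒢 c (V8 ν) (cA C ∩ cA K) + c * Phi 𝒢 c (V8 ν) (cA C \ cA K)) +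
          3 * (Psi 𝒢' c (V8 ν') (cB C x ∩ cB K x) + c * Phi 𝒢' c (V8 ν') (cB C x \ cB K x)) +
          9 ^ 8 * (c * mass (ν x) (cA C ∩ cA K) + c * mass (ν x) (cA C \ cA K))) := by
        ring
      _ ≤ _ := mul_le_mul_right (add_le_add (add_le_add e1 (mul_le_mul_right e2 _))
        (mul_le_mul_right e3.le _)) _

theorem mass_par_le (hν : ∀ w, ∑' t, ν w t ≤ 1) (hν' : ∀ w, ∑' t, ν' w t ≤ 1)
    (C : Set (T ⊕ W × T')) : V8 (parν ν ν') C ≤ 1 := by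
  refine V8_le fun w => ?_
  rw [mass_par]
  have h1 : mass (ν w.1) (cA C) ≤ 1 := (mass_le_tsum _ _).trans (hν _)
  have h2 : mass (ν' w.2) (cB C w.1) ≤ 1 := (mass_le_tsum _ _).trans (hν' _)
  refine pow_le_one₀ zero_le ?_
  calc 2⁻¹ * (mass (ν w.1) (cA C) + mass (ν' w.2) (cB C w.1)) ≤ 2⁻¹ * (1 + 1) :=
        mul_le_mul_right (add_le_add h1 h2) _
    _ = 1 := by
      rw [one_add_one_eq_two]
      exact ENNReal.inv_mul_cancel (by norm_num) (by norm_num)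

/-- the four kinds of cut sets -/
theorem parG_cases {𝒢 : Set (Set T)} {𝒢' : Set (Set T')} {K : Set (T ⊕ W × T')}
    (hK : K ∈ parG 𝒢 𝒢') : (∀ y, cB K y = Set.univ) ∨ (∀ y, cB K y = ∅) ∨
      ∃ x, ∀ y, y ≠ x → cB K y = ∅ := by
  rcases hK with rfl | ⟨G, hG, rfl⟩ | ⟨G, hG, rfl⟩ | ⟨G, hG, x, H, hH, rfl⟩
  · right; left
    intro y
    rfl
  · left
    intro y
    ext t; simp [cB]
  · right; left
    intro y
    ext t; simp [cB]
  · right; right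
    refine ⟨x, fun y hxy => ?_⟩
    ext t
    simp only [cB, Set.mem_ofPred_eq, Set.mem_union, Set.mem_image, reduceCtorEq, and_false,
      exists_false, false_or, Set.mem_prod, Set.mem_singleton_iff, Sum.inr.injEq,
      Set.mem_empty_iff_false, iff_false, not_exists, not_and]
    rintro ⟨p, q⟩ ⟨h1, _⟩ h3
    exact hxy ((Prod.mk.inj h3).1.symm.trans h1)

/-- Claim (2) -/
theorem claim2 (hν : ∀ w, ∑' t, ν w t ≤ 1) (hν' : ∀ w, ∑' t, ν' w t ≤ 1)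
    (hc : c ≤ 1) (h0 : ∅ ∈ 𝒢) (h0' : ∅ ∈ 𝒢') {g' R : ℝ≥0∞}
    (hg' : Phi 𝒢' c (V8 ν') Set.univ ≤ g') (hR1 : 1 ≤ R)
    (hR : (2 ^ 8)⁻¹ * (3 * g' + 9 ^ 8) + c * R ≤ R)
    (τ : DT (T ⊕ W × T')) (hτ : τ.Ok (parG 𝒢 𝒢')) (C : Set (T ⊕ W × T')) :
    τ.tot c (V8 (parν ν ν')) C ≤ (2 ^ 8)⁻¹ * Phi 𝒢 c (V8 ν) (cA C) + R := by
  induction τ generalizing C with
  | leaf =>
    rw [DT.tot_leaf]
    exact (mass_par_le hν hν' C).trans (hR1.trans le_add_self)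
  | node K a h iha ihh =>
    obtain ⟨hK, ha, hh⟩ := hτ
    rw [DT.tot_node]
    have e1 := Phi_split (c := c) (V := V8 ν) (parG_cA h0 hK) (cA C)
    rcases parG_cases hK with hu | he | ⟨x, hx⟩
    · have h1 := iha ha (C ∩ K)
      have h2 := claim0_tot (c := c) (ν := ν) (ν' := ν') h0 h hh (C \ K)
        (fun y => by rw [cB_diff, hu, Set.sdiff_univ])
      rw [cA_inter] at h1
      rw [cA_diff] at h2
      calc _ ≤ ((2 ^ 8)⁻¹ * Phi 𝒢 c (V8 ν) (cA C ∩ cA K) + R) +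
            c * ((2 ^ 8)⁻¹ * Phi 𝒢 c (V8 ν) (cA C \ cA K)) :=
          add_le_add h1 (mul_le_mul_right h2 _)
        _ = (2 ^ 8)⁻¹ * (Phi 𝒢 c (V8 ν) (cA C ∩ cA K) + c * Phi 𝒢 c (V8 ν) (cA C \ cA K)) +
            R := by ring
        _ ≤ _ := add_le_add (mul_le_mul_right e1 _) le_rfl
    · have h1 := claim0_tot (c := c) (ν := ν) (ν' := ν') h0 a ha (C ∩ K)
        (fun y => by rw [cB_inter, he, Set.inter_empty])
      have h2 := ihh hh (C \ K)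
      rw [cA_inter] at h1
      rw [cA_diff] at h2
      calc _ ≤ (2 ^ 8)⁻¹ * Phi 𝒢 c (V8 ν) (cA C ∩ cA K) +
            c * ((2 ^ 8)⁻¹ * Phi 𝒢 c (V8 ν) (cA C \ cA K) + R) :=
          add_le_add h1 (mul_le_mul_right h2 _)
        _ = (2 ^ 8)⁻¹ * (Phi 𝒢 c (V8 ν) (cA C ∩ cA K) + c * Phi 𝒢 c (V8 ν) (cA C \ cA K)) +
            c * R := by ring
        _ ≤ _ := add_le_add (mul_le_mul_right e1 _) (mul_le_of_le_one_left' hc)
    · have h1 := claim1_tot (c := c) (ν := ν) (ν' := ν') hν hc h0 h0' a ha x (C ∩ K)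
        (fun y hy => by rw [cB_inter, hx y hy, Set.inter_empty])
      have h2 := ihh hh (C \ K)
      rw [cA_inter] at h1
      rw [cA_diff] at h2
      have e2 : Phi 𝒢' c (V8 ν') (cB (C ∩ K) x) ≤ g' :=
        (Phi_mono (V8_mono ν') (Set.subset_univ _)).trans hg'
      have e3 : mass (ν x) (cA C ∩ cA K) ≤ 1 := (mass_le_tsum _ _).trans (hν _)
      calc _ ≤ (2 ^ 8)⁻¹ * (Phi 𝒢 c (V8 ν) (cA C ∩ cA K) + 3 * g' + 9 ^ 8 * 1) +
            c * ((2 ^ 8)⁻¹ * Phi 𝒢 c (V8 ν) (cA C \ cA K) + R) :=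
          add_le_add (h1.trans (mul_le_mul_right (add_le_add (add_le_add le_rfl
            (mul_le_mul_right e2 _)) (mul_le_mul_right e3 _)) _)) (mul_le_mul_right h2 _)
        _ = (2 ^ 8)⁻¹ * (Phi 𝒢 c (V8 ν) (cA C ∩ cA K) + c * Phi 𝒢 c (V8 ν) (cA C \ cA K)) +
            ((2 ^ 8)⁻¹ * (3 * g' + 9 ^ 8) + c * R) := by ring
        _ ≤ _ := add_le_add (mul_le_mul_right e1 _) hR

/-- Claim (3) -/
theorem claim3 (hν : ∀ w, ∑' t, ν w t ≤ 1) (hν' : ∀ w, ∑' t, ν' w t ≤ 1)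
    (hc : c ≤ 1) (h0 : ∅ ∈ 𝒢) (h0' : ∅ ∈ 𝒢') {e' g' R : ℝ≥0∞}
    (hg' : Phi 𝒢' c (V8 ν') Set.univ ≤ g') (he' : Psi 𝒢' c (V8 ν') Set.univ ≤ e')
    (hR1 : 1 ≤ R) (hR : (2 ^ 8)⁻¹ * (3 * g' + 9 ^ 8) + c * R ≤ R)
    (τ : DT (T ⊕ W × T')) (hτ : τ.Ok (parG 𝒢 𝒢')) (C : Set (T ⊕ W × T')) :
    τ.exc c (V8 (parν ν ν')) C ≤ (2 ^ 8)⁻¹ * Psi 𝒢 c (V8 ν) (cA C) +
      ((2 ^ 8)⁻¹ * (3 * e' + 9 ^ 8 * c) + c * R) := by
  induction τ generalizing C with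
  | leaf => exact zero_le
  | node K a h iha ihh =>
    obtain ⟨hK, ha, hh⟩ := hτ
    rw [DT.exc_node]
    have e1 := Psi_split (c := c) (V := V8 ν) (parG_cA h0 hK) (cA C)
    rcases parG_cases hK with hu | he | ⟨x, hx⟩
    · have h1 := iha ha (C ∩ K)
      have h2 := claim0_tot (c := c) (ν := ν) (ν' := ν') h0 h hh (C \ K)
        (fun y => by rw [cB_diff, hu, Set.sdiff_univ])
      rw [cA_inter] at h1
      rw [cA_diff] at h2
      calc _ ≤ ((2 ^ 8)⁻¹ * Psi 𝒢 c (V8 ν) (cA C ∩ cA K) +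
            ((2 ^ 8)⁻¹ * (3 * e' + 9 ^ 8 * c) + c * R)) +
            c * ((2 ^ 8)⁻¹ * Phi 𝒢 c (V8 ν) (cA C \ cA K)) :=
          add_le_add h1 (mul_le_mul_right h2 _)
        _ = (2 ^ 8)⁻¹ * (Psi 𝒢 c (V8 ν) (cA C ∩ cA K) + c * Phi 𝒢 c (V8 ν) (cA C \ cA K)) +
            ((2 ^ 8)⁻¹ * (3 * e' + 9 ^ 8 * c) + c * R) := by ring
        _ ≤ _ := add_le_add (mul_le_mul_right e1 _) le_rfl
    · have h1 := claim0_exc (c := c) (ν := ν) (ν' := ν') h0 a ha (C ∩ K)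
        (fun y => by rw [cB_inter, he, Set.inter_empty])
      have h2 := claim2 (c := c) (ν := ν) (ν' := ν') hν hν' hc h0 h0' hg' hR1 hR h hh (C \ K)
      rw [cA_inter] at h1
      rw [cA_diff] at h2
      calc _ ≤ (2 ^ 8)⁻¹ * Psi 𝒢 c (V8 ν) (cA C ∩ cA K) +
            c * ((2 ^ 8)⁻¹ * Phi 𝒢 c (V8 ν) (cA C \ cA K) + R) :=
          add_le_add h1 (mul_le_mul_right h2 _)
        _ = (2 ^ 8)⁻¹ * (Psi 𝒢 c (V8 ν) (cA C ∩ cA K) + c * Phi 𝒢 c (V8 ν) (cA C \ cA K)) +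
            c * R := by ring
        _ ≤ _ := add_le_add (mul_le_mul_right e1 _) le_add_self
    · have h1 := claim1_exc (c := c) (ν := ν) (ν' := ν') hν hc h0 h0' a ha x (C ∩ K)
        (fun y hy => by rw [cB_inter, hx y hy, Set.inter_empty])
      have h2 := claim2 (c := c) (ν := ν) (ν' := ν') hν hν' hc h0 h0' hg' hR1 hR h hh (C \ K)
      rw [cA_inter] at h1
      rw [cA_diff] at h2
      have e2 : Psi 𝒢' c (V8 ν') (cB (C ∩ K) x) ≤ e' :=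
        (Psi_mono (V8_mono ν') (Set.subset_univ _)).trans he'
      have e3 : c * mass (ν x) (cA C ∩ cA K) ≤ c :=
        (mul_le_mul_right ((mass_le_tsum _ _).trans (hν _)) _).trans (mul_one c).le
      calc _ ≤ (2 ^ 8)⁻¹ * (Psi 𝒢 c (V8 ν) (cA C ∩ cA K) + 3 * e' + 9 ^ 8 * c) +
            c * ((2 ^ 8)⁻¹ * Phi 𝒢 c (V8 ν) (cA C \ cA K) + R) :=
          add_le_add (h1.trans (mul_le_mul_right (add_le_add (add_le_add le_rfl
            (mul_le_mul_right e2 _)) (mul_le_mul_right e3 _)) _)) (mul_le_mul_right h2 _)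
        _ = (2 ^ 8)⁻¹ * (Psi 𝒢 c (V8 ν) (cA C ∩ cA K) + c * Phi 𝒢 c (V8 ν) (cA C \ cA K)) +
            ((2 ^ 8)⁻¹ * (3 * e' + 9 ^ 8 * c) + c * R) := by ring
        _ ≤ _ := add_le_add (mul_le_mul_right e1 _) le_rfl

end Claims

theorem parallel_bound {𝒢 : Set (Set T)} {𝒢' : Set (Set T')} {ν : W → T → ℝ≥0∞}
    {ν' : W' → T' → ℝ≥0∞} (hν : ∀ w, ∑' t, ν w t ≤ 1) (hν' : ∀ w, ∑' t, ν' w t ≤ 1)
    {c : ℝ≥0∞} (hc : c ≤ 1) (h0 : ∅ ∈ 𝒢) (h0' : ∅ ∈ 𝒢') {e e' g' R : ℝ≥0∞}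
    (hg' : Phi 𝒢' c (V8 ν') Set.univ ≤ g') (he' : Psi 𝒢' c (V8 ν') Set.univ ≤ e')
    (he : Psi 𝒢 c (V8 ν) Set.univ ≤ e) (hR1 : 1 ≤ R)
    (hR : (2 ^ 8)⁻¹ * (3 * g' + 9 ^ 8) + c * R ≤ R) :
    Psi (parG 𝒢 𝒢') c (V8 (parν ν ν')) Set.univ ≤
      (2 ^ 8)⁻¹ * (e + 3 * e' + 9 ^ 8 * c) + c * R := by
  refine iSup₂_le fun τ hτ => ?_
  refine (claim3 hν hν' hc h0 h0' hg' he' hR1 hR τ hτ Set.univ).trans ?_
  have h1 : cA (Set.univ : Set (T ⊕ W × T')) = Set.univ := rfl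
  rw [h1]
  calc _ ≤ (2 ^ 8)⁻¹ * e + ((2 ^ 8)⁻¹ * (3 * e' + 9 ^ 8 * c) + c * R) :=
        add_le_add (mul_le_mul_right he _) le_rfl
    _ = _ := by ring

end Pool.Agent.H82.Um
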