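import Pool.Agent.H82.Um.Serial
import Pool.Agent.H82.Um.Parallel

/-!
MP_98b928_an (helper82). Designs on complete binary trees: definitions, and the two compositions.
Nodes are the words `u : List Bool` of length `< n`, leaves the words `w` of length `n`; a leaf `w`
turns left at `u` if `u ++ [false] <+: w` and right if `u ++ [true] <+: w`.
-/

namespace Pool.Agent.H82.Um

open scoped ENNReal

structure Design where
  n : ℕ
  T : Type
  fin : Finite T
  S : T → Finset (List Bool)
  ν : List Bool → T → ℝ≥0∞

namespace Design

/-- The words of length `n`, as a type. -/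
def Word (n : ℕ) : Type := {w : List Bool // w.length = n}

instance (n : ℕ) : Finite (Word n) := (List.finite_length_eq Bool n)

/-- The words of length `n`. -/
noncomputable def words (n : ℕ) : Finset (List Bool) := (List.finite_length_eq Bool n).toFinset

/-- The words of length less than `n`. -/
noncomputable def wordsLT (n : ℕ) : Finset (List Bool) := (List.finite_length_lt Bool n).toFinset

@[simp] theorem mem_words {n : ℕ} {w : List Bool} : w ∈ words n ↔ w.length = n := by simp [words]

@[simp] theorem mem_wordsLT {n : ℕ} {w : List Bool} : w ∈ wordsLT n ↔ w.length < n := by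
  simp [wordsLT]

/-- The cut sets of a design. -/
def cuts (D : Design) : Set (Set D.T) :=
  {G | G = ∅ ∨ ∃ Z : Set (List Bool), G = {t | ∀ u ∈ D.S t, u ∉ Z}}

/-- The measures of a design. -/
def νw (D : Design) (w : Word D.n) : D.T → ℝ≥0∞ := D.ν w.1

open Classical in
structure Good (D : Design) (c θ e : ℝ≥0∞) : Prop where
  len : ∀ t, ∀ u ∈ D.S t, u.length < D.n
  one : ∀ w : List Bool, w.length = D.n → ∑' t, D.ν w t = 1
  left : ∀ w : List Bool, w.length = D.n → ∀ u : List Bool, (u ++ [false]) <+: w →
    ∀ t, D.ν w t ≠ 0 → u ∉ D.S t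
  right : ∀ w : List Bool, w.length = D.n → ∀ u : List Bool, (u ++ [true]) <+: w →
    ∑' t, (if u ∈ D.S t then D.ν w t else 0) = θ
  psi : Psi D.cuts c (V8 D.νw) Set.univ ≤ e

/-- The design of depth `1`. -/
noncomputable def D0 : Design where
  n := 1
  T := Bool
  fin := inferInstance
  S t := if t then {[]} else ∅
  ν w t := if w = [t] then 1 else 0

open Classical in
/-- The nodes `x ++ u`, `|x| = n`, `x ≠ w`, `|u| < n'`. -/
noncomputable def others (n n' : ℕ) (w : List Bool) : Finset (List Bool) :=
  (((words n).erase w) ×ˢ wordsLT n').image (fun p => p.1 ++ p.2)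

open Classical in
/-- Serial composition. -/
noncomputable def ser (D E : Design) : Design where
  n := D.n + E.n
  T := D.T × Word D.n × E.T
  fin := by
    have := D.fin
    have := E.fin
    infer_instance
  S t := D.S t.1 ∪ ((E.S t.2.2).image (fun u => t.2.1.1 ++ u) ∪ others D.n E.n t.2.1.1)
  ν w t := if t.2.1.1 = w.take D.n then D.ν (w.take D.n) t.1 * E.ν (w.drop D.n) t.2.2 else 0

open Classical in
/-- Parallel composition. -/
noncomputable def par (D E : Design) : Design where
  n := D.n + E.n
  T := D.T ⊕ Word D.n × E.T
  fin := by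
    have := D.fin
    have := E.fin
    infer_instance
  S t := match t with
    | Sum.inl t => D.S t
    | Sum.inr t => (E.S t.2).image (fun u => t.1.1 ++ u) ∪ others D.n E.n t.1.1
  ν w t := match t with
    | Sum.inl t => 2⁻¹ * D.ν (w.take D.n) t
    | Sum.inr t => if t.1.1 = w.take D.n then 2⁻¹ * E.ν (w.drop D.n) t.2 else 0

theorem empty_mem_cuts (D : Design) : ∅ ∈ D.cuts := Or.inl rfl

end Design

end Pool.Agent.H82.Um
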