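import Pool.Agent.H82.Um.DyadDefs

/-!
MODULE DYADB (helper82, MP_98b928_an). The block bound and the local inequality.

`win_block`: if `nrm (Δ l) ≤ lam` for all `l ∈ E ⊆ (a, a + 2 ^ s]`, then
`nrm (∑ l ∈ E, win j l) ≤ K ρ^j 2^s lam`. For `j < s` let `h = 2 ^ (s-j-1)`; split `I` into the
`2 ^ (j+1)` intervals `J_i = (a + i h, a + (i+1) h]`, `Y_i = ∑ l ∈ E ∩ J_i, win j l`;
`nrm (win j l) ≤ nrm (Δ l)` (`nrm_P_sub_P_le`), so `nrm Y_i ≤ h lam`. By `M.comp`, `win j l` is
invariant under `P (max a (l - h))`, hence under `P (a + i h)` (`l - h ≤ a + i h`), and it is killed by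
`P (max a (l - 2h))`, hence by `P (a + (i-2) h)` (by `P a` if `i ≤ 2`). So the `Y_i` with even `i` are
`2 ^ j` successive blocks, and so are those with odd `i` (`M.upper`):
`nrm (∑ Y_i) ≤ 2 * (K * (2ρ)^j * (h * lam)) = K ρ^j 2^s lam`. For `j = s` (`dd 0 = 0`, `dd 1 = 1`) the
`win s l` themselves are `2^s` successive blocks (`P l - P (l-1)`): `≤ K (2ρ)^s lam`.
(If `lam < 0` then `E = ∅`.)
`win_local`: let `x = nrm (∑ l ∈ I, win j l) / 2^s > 0`, `lam = x / (2 K ρ^j)`. The `l ∈ I` with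
`nrm (Δ l) ≤ lam` contribute at most `x 2^s / 2`, hence
`x 2^s / 2 ≤ ∑_{l ∈ I, nrm (Δ l) > lam} nrm (win j l)` and by Cauchy-Schwarz
`2^s x^2 ≤ 4 ∑_{l ∈ I, nrm (Δ l) > lam} nrm (win j l)^2`; there `x < 2 K ρ^j nrm (Δ l)`.
-/

namespace Pool.Agent.H82.Um

open Finset

variable {V : Type} [AddCommGroup V] [Module ℝ V] {K ρ : ℝ}

private theorem dyadb_nrm_sum (M : VModel V K ρ) {ι : Type} (E : Finset ι) (f : ι → V) :
    M.nrm (∑ l ∈ E, f l) ≤ ∑ l ∈ E, M.nrm (f l) :=
  le_sum_of_subadditive M.nrm (map_zero M.nrm).le (fun x y => map_add_le_add M.nrm x y) _ _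

private theorem dyadb_dd_le (m : ℕ) : dd m ≤ dd (m + 1) := by
  cases m with
  | zero => simp [dd]
  | succ m =>
    simp only [dd]
    exact Nat.pow_le_pow_right (by norm_num) (by omega)

/-- a window has at most the norm of `Δ l` -/
private theorem dyadb_win_le (M : VModel V K ρ) (Δ : ℕ → V) (a s j l : ℕ) :
    M.nrm (win M Δ a s j l) ≤ M.nrm (Δ l) := by
  apply nrm_P_sub_P_le
  apply max_le_max le_rfl
  have := dyadb_dd_le (s - j)
  omega

private theorem dyadb_P_win (M : VModel V K ρ) (Δ : ℕ → V) (a s j l b : ℕ)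
    (hb : max a (l - dd (s - j)) ≤ b) : M.P b (win M Δ a s j l) = win M Δ a s j l := by
  have h2 : max a (l - dd (s - j + 1)) ≤ b := by
    have := dyadb_dd_le (s - j)
    refine le_trans (max_le_max le_rfl ?_) hb
    omega
  unfold win
  rw [map_sub, M.comp, M.comp, min_eq_right hb, min_eq_right h2]

private theorem dyadb_P_win_zero (M : VModel V K ρ) (Δ : ℕ → V) (a s j l b : ℕ)
    (hb : b ≤ max a (l - dd (s - j + 1))) : M.P b (win M Δ a s j l) = 0 := by
  have h2 : b ≤ max a (l - dd (s - j)) := by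
    have := dyadb_dd_le (s - j)
    refine le_trans hb (max_le_max le_rfl ?_)
    omega
  unfold win
  rw [map_sub, M.comp, M.comp, min_eq_left hb, min_eq_left h2, sub_self]

private theorem dyadb_sum_two (n : ℕ) (f : ℕ → V) :
    ∑ i ∈ range (2 * n), f i = ∑ m ∈ range n, f (2 * m) + ∑ m ∈ range n, f (2 * m + 1) := by
  induction n with
  | zero => simp
  | succ n ih =>
    have : 2 * (n + 1) = 2 * n + 1 + 1 := by ring
    rw [this, sum_range_succ, sum_range_succ, ih, sum_range_succ, sum_range_succ]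
    abel

theorem win_block (M : VModel V K ρ) (hK : 0 < K) (h0 : 0 < ρ) (Δ : ℕ → V)
    (hΔ : ∀ l, M.P l (Δ l) = Δ l) (a s j : ℕ) (hj : j ≤ s) (E : Finset ℕ)
    (hE : E ⊆ Ioc a (a + 2 ^ s)) (lam : ℝ) (hlam : ∀ l ∈ E, M.nrm (Δ l) ≤ lam) (hl0 : 0 ≤ lam) :
    M.nrm (∑ l ∈ E, win M Δ a s j l) ≤ K * ρ ^ j * 2 ^ s * lam := by
  classical
  rcases hj.eq_or_lt with rfl | hlt
  · -- `j = s`
    set y : ℕ → V := fun i => if a + i + 1 ∈ E then win M Δ a j j (a + i + 1) else 0 with hy
    have hsum : ∑ l ∈ E, win M Δ a j j l = ∑ i ∈ range (2 ^ j), y i := by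
      simp only [hy]
      rw [← sum_filter]
      symm
      apply sum_nbij' (fun i => a + i + 1) (fun l => l - a - 1)
      · intro i hi
        rw [mem_filter] at hi
        exact hi.2
      · intro l hl
        have := mem_Ioc.1 (hE hl)
        rw [mem_filter, mem_range]
        refine ⟨by omega, ?_⟩
        have e : a + (l - a - 1) + 1 = l := by omega
        rw [e]; exact hl
      · intro i _
        omega
      · intro l hl
        have := mem_Ioc.1 (hE hl)
        omega
      · intro i _; rfl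
    rw [hsum]
    have hup := M.upper j (fun i => a + i) (fun x y h => by simpa using h) y lam ?_
    · refine hup.trans (le_of_eq ?_)
      rw [mul_pow]; ring
    · intro i hi
      simp only [hy]
      by_cases hm : a + i + 1 ∈ E
      · rw [if_pos hm]
        refine ⟨?_, ?_, (dyadb_win_le M Δ _ _ _ _).trans (hlam _ hm)⟩
        · apply dyadb_P_win
          simp only [Nat.sub_self, dd]
          omega
        · apply dyadb_P_win_zero
          simp only [Nat.sub_self, dd]
          omega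
      · rw [if_neg hm]
        simp [hl0]
  · -- `j < s`
    set h : ℕ := 2 ^ (s - j - 1) with hh
    have hhpos : 0 < h := by positivity
    have hd1 : dd (s - j) = h := by
      obtain ⟨r, hr⟩ : ∃ r, s - j = r + 1 := ⟨s - j - 1, by omega⟩
      rw [hh, hr]; simp [dd]
    have hd2 : dd (s - j + 1) = 2 * h := by
      simp only [dd]
      obtain ⟨r, hr⟩ : ∃ r, s - j = r + 1 := ⟨s - j - 1, by omega⟩
      rw [hh, hr, pow_succ]; simp; ring
    have h2s : 2 * 2 ^ j * h = 2 ^ s := by
      rw [hh]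
      calc 2 * 2 ^ j * 2 ^ (s - j - 1) = 2 ^ (1 + j + (s - j - 1)) := by
            rw [pow_add, pow_add]; ring
        _ = 2 ^ s := by congr 1; omega
    set Y : ℕ → V := fun i => ∑ l ∈ E with (l - a - 1) / h = i, win M Δ a s j l with hY
    have hsum : ∑ l ∈ E, win M Δ a s j l = ∑ i ∈ range (2 * 2 ^ j), Y i := by
      simp only [hY]
      rw [sum_fiberwise_of_maps_to]
      intro l hl
      have := mem_Ioc.1 (hE hl)
      rw [mem_range, Nat.div_lt_iff_lt_mul hhpos, h2s]
      omega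
    have hmem : ∀ i l, l ∈ E.filter (fun l => (l - a - 1) / h = i) →
        l ∈ E ∧ a + i * h < l ∧ l ≤ a + (i + 1) * h := by
      intro i l hl
      rw [mem_filter] at hl
      have h1 := mem_Ioc.1 (hE hl.1)
      have h2 : i * h ≤ l - a - 1 := by
        rw [← hl.2]; exact Nat.div_mul_le_self _ _
      have h3 : l - a - 1 < (i + 1) * h := by
        rw [← hl.2, mul_comm]
        exact Nat.lt_mul_div_succ _ hhpos
      exact ⟨hl.1, by omega, by omega⟩
    have hYP : ∀ i b, a + i * h ≤ b → M.P b (Y i) = Y i := by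
      intro i b hb
      simp only [hY]
      rw [map_sum]
      apply sum_congr rfl
      intro l hl
      obtain ⟨_, h2, h3⟩ := hmem i l hl
      apply dyadb_P_win
      rw [hd1]
      have e : (i + 1) * h = i * h + h := by ring
      have : 0 ≤ i * h := Nat.zero_le _
      apply max_le
      · omega
      · omega
    have hY0 : ∀ i b, b ≤ a + (i - 2) * h → M.P b (Y i) = 0 := by
      intro i b hb
      simp only [hY]
      rw [map_sum]
      apply sum_eq_zero
      intro l hl
      obtain ⟨_, h2, h3⟩ := hmem i l hl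
      apply dyadb_P_win_zero
      rw [hd2]
      rcases Nat.lt_or_ge i 2 with hi | hi
      · have : i - 2 = 0 := by omega
        rw [this] at hb
        simp at hb
        exact le_max_of_le_left hb
      · obtain ⟨r, rfl⟩ : ∃ r, i = r + 2 := ⟨i - 2, by omega⟩
        have e : (r + 2) * h = r * h + 2 * h := by ring
        rw [Nat.add_sub_cancel] at hb
        apply le_max_of_le_right
        omega
    have hYn : ∀ i, M.nrm (Y i) ≤ h * lam := by
      intro i
      simp only [hY]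
      refine (dyadb_nrm_sum M _ _).trans ?_
      have hcard : (E.filter (fun l => (l - a - 1) / h = i)).card ≤ h := by
        have hsub : E.filter (fun l => (l - a - 1) / h = i) ⊆ Ioc (a + i * h) (a + (i + 1) * h) := by
          intro l hl
          obtain ⟨_, h2, h3⟩ := hmem i l hl
          exact mem_Ioc.2 ⟨h2, h3⟩
        refine (card_le_card hsub).trans ?_
        rw [Nat.card_Ioc]
        have e : (i + 1) * h = i * h + h := by ring
        omega
      calc ∑ l ∈ E with (l - a - 1) / h = i, M.nrm (win M Δ a s j l)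
          ≤ ∑ _l ∈ E.filter (fun l => (l - a - 1) / h = i), lam := by
            apply sum_le_sum
            intro l hl
            exact (dyadb_win_le M Δ _ _ _ _).trans (hlam l (mem_filter.1 hl).1)
        _ = ((E.filter (fun l => (l - a - 1) / h = i)).card : ℝ) * lam := by
            rw [sum_const, nsmul_eq_mul]
        _ ≤ h * lam := by
            apply mul_le_mul_of_nonneg_right _ hl0
            exact_mod_cast hcard
    have hup1 := M.upper j (fun m => a + (2 * m - 2) * h)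
      (fun x y hxy => by
        have : 2 * x - 2 ≤ 2 * y - 2 := by omega
        have := Nat.mul_le_mul_right h this
        show a + (2 * x - 2) * h ≤ a + (2 * y - 2) * h
        omega) (fun m => Y (2 * m)) (h * lam) (fun m _ => by
        refine ⟨hYP _ _ ?_, hY0 _ _ le_rfl, hYn _⟩
        have : 2 * (m + 1) - 2 = 2 * m := by omega
        rw [this])
    have hup2 := M.upper j (fun m => a + (2 * m - 1) * h)
      (fun x y hxy => by
        have : 2 * x - 1 ≤ 2 * y - 1 := by omega
        have := Nat.mul_le_mul_right h this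
        show a + (2 * x - 1) * h ≤ a + (2 * y - 1) * h
        omega) (fun m => Y (2 * m + 1)) (h * lam) (fun m _ => by
        refine ⟨hYP _ _ ?_, hY0 _ _ ?_, hYn _⟩
        · have : 2 * (m + 1) - 1 = 2 * m + 1 := by omega
          rw [this]
        · have : 2 * m + 1 - 2 = 2 * m - 1 := by omega
          rw [this])
    rw [hsum, dyadb_sum_two]
    refine (map_add_le_add M.nrm _ _).trans ((add_le_add hup1 hup2).trans (le_of_eq ?_))
    have : (2 : ℝ) ^ s = 2 * 2 ^ j * h := by exact_mod_cast h2s.symm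
    rw [this, mul_pow]
    ring

theorem win_local (M : VModel V K ρ) (hK : 0 < K) (h0 : 0 < ρ) (Δ : ℕ → V)
    (hΔ : ∀ l, M.P l (Δ l) = Δ l) (a s j : ℕ) (hj : j ≤ s) :
    (2 : ℝ) ^ s * (M.nrm (∑ l ∈ Ioc a (a + 2 ^ s), win M Δ a s j l) / 2 ^ s) ^ 3 ≤
      8 * K * ρ ^ j * ∑ l ∈ Ioc a (a + 2 ^ s), M.nrm (Δ l) * M.nrm (win M Δ a s j l) ^ 2 := by
  classical
  set x : ℝ := M.nrm (∑ l ∈ Ioc a (a + 2 ^ s), win M Δ a s j l) / 2 ^ s with hx
  have hx0 : 0 ≤ x := div_nonneg (apply_nonneg _ _) (by positivity)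
  have hρj : 0 < ρ ^ j := by positivity
  set lam : ℝ := x / (2 * K * ρ ^ j) with hlam
  have hlam0 : 0 ≤ lam := by positivity
  set E := (Ioc a (a + 2 ^ s)).filter (fun l => M.nrm (Δ l) ≤ lam) with hE
  set E' := (Ioc a (a + 2 ^ s)).filter (fun l => ¬ M.nrm (Δ l) ≤ lam) with hE'
  have hblock := win_block M hK h0 Δ hΔ a s j hj E (filter_subset _ _) lam
    (fun l hl => (mem_filter.1 hl).2) hlam0
  have hsplit : ∑ l ∈ Ioc a (a + 2 ^ s), win M Δ a s j l =
      ∑ l ∈ E, win M Δ a s j l + ∑ l ∈ E', win M Δ a s j l :=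
    (sum_filter_add_sum_filter_not _ _ _).symm
  have h2s : (0 : ℝ) < 2 ^ s := by positivity
  have hn : M.nrm (∑ l ∈ Ioc a (a + 2 ^ s), win M Δ a s j l) = x * 2 ^ s := by
    rw [hx]; field_simp
  have h1 : x * 2 ^ s ≤ x * 2 ^ s / 2 + ∑ l ∈ E', M.nrm (win M Δ a s j l) := by
    calc x * 2 ^ s = M.nrm (∑ l ∈ E, win M Δ a s j l + ∑ l ∈ E', win M Δ a s j l) := by
          rw [← hsplit, hn]
      _ ≤ M.nrm (∑ l ∈ E, win M Δ a s j l) + M.nrm (∑ l ∈ E', win M Δ a s j l) :=
          map_add_le_add M.nrm _ _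
      _ ≤ K * ρ ^ j * 2 ^ s * lam + ∑ l ∈ E', M.nrm (win M Δ a s j l) :=
          add_le_add hblock (dyadb_nrm_sum M _ _)
      _ = _ := by
          congr 1
          rw [hlam]; field_simp
  set A : ℝ := ∑ l ∈ E', M.nrm (win M Δ a s j l) with hA
  set B : ℝ := ∑ l ∈ E', M.nrm (win M Δ a s j l) ^ 2 with hB
  have hcs : A ^ 2 ≤ 2 ^ s * B := by
    have h2 := sq_sum_le_card_mul_sum_sq (s := E') (f := fun l => M.nrm (win M Δ a s j l))
    refine h2.trans ?_
    apply mul_le_mul_of_nonneg_right _ (sum_nonneg fun l _ => by positivity)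
    have : E'.card ≤ 2 ^ s := by
      refine (card_le_card (filter_subset _ _)).trans ?_
      rw [Nat.card_Ioc, Nat.add_sub_cancel_left]
    exact_mod_cast this
  have h3 : x * 2 ^ s / 2 ≤ A := by linarith
  have h4 : (x * 2 ^ s / 2) ^ 2 ≤ 2 ^ s * B := (pow_le_pow_left₀ (by positivity) h3 2).trans hcs
  have h5 : 2 ^ s * x ^ 2 ≤ 4 * B := by
    have h6 : 2 ^ s * (2 ^ s * x ^ 2) ≤ 2 ^ s * (4 * B) := by nlinarith [h4]
    exact le_of_mul_le_mul_left h6 h2s
  have h7 : x * B ≤ 2 * K * ρ ^ j * ∑ l ∈ E', M.nrm (Δ l) * M.nrm (win M Δ a s j l) ^ 2 := by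
    rw [hB, mul_sum, mul_sum]
    apply sum_le_sum
    intro l hl
    have hl' : lam < M.nrm (Δ l) := not_le.1 (mem_filter.1 hl).2
    rw [hlam, div_lt_iff₀ (by positivity)] at hl'
    calc x * M.nrm (win M Δ a s j l) ^ 2 ≤ (M.nrm (Δ l) * (2 * K * ρ ^ j)) *
          M.nrm (win M Δ a s j l) ^ 2 := mul_le_mul_of_nonneg_right hl'.le (by positivity)
      _ = _ := by ring
  have h8 : ∑ l ∈ E', M.nrm (Δ l) * M.nrm (win M Δ a s j l) ^ 2 ≤
      ∑ l ∈ Ioc a (a + 2 ^ s), M.nrm (Δ l) * M.nrm (win M Δ a s j l) ^ 2 :=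
    sum_le_sum_of_subset_of_nonneg (filter_subset _ _)
      (fun l _ _ => mul_nonneg (apply_nonneg _ _) (by positivity))
  calc (2 : ℝ) ^ s * x ^ 3 = x * (2 ^ s * x ^ 2) := by ring
    _ ≤ x * (4 * B) := mul_le_mul_of_nonneg_left h5 hx0
    _ = 4 * (x * B) := by ring
    _ ≤ 4 * (2 * K * ρ ^ j * ∑ l ∈ E', M.nrm (Δ l) * M.nrm (win M Δ a s j l) ^ 2) := by linarith
    _ ≤ 4 * (2 * K * ρ ^ j * ∑ l ∈ Ioc a (a + 2 ^ s),
        M.nrm (Δ l) * M.nrm (win M Δ a s j l) ^ 2) := by
        apply mul_le_mul_of_nonneg_left _ (by norm_num)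
        exact mul_le_mul_of_nonneg_left h8 (by positivity)
    _ = _ := by ring

end Pool.Agent.H82.Um
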