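import Pool.Agent.H82.Um.DyadA
import Pool.Agent.H82.Um.DyadB

/-!
MODULE DYAD (helper82, MP_98b928_an). The dyadic inequality in an abstract model.

Proof. For `1 ≤ s ≤ k - 1`, `1 ≤ t ≤ 2 ^ (k-1-s)`, `a = (2 t - 1) 2 ^ s`, `I = (a, a + 2 ^ s]` let
`x j = nrm (∑ l ∈ I, win M Δ a s j l) / 2 ^ s`. By `win_sum` and the triangle inequality
`nrm (∑ l ∈ I, (Δ l - P a (Δ l))) / 2 ^ s ≤ ∑ j ∈ range (s+1), x j`. With `σ ^ 4 = ρ` (`0 < σ < 1`)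
Hölder (or Cauchy-Schwarz twice) gives `(∑_j x j)^3 ≤ (∑ σ^j)^2 * ∑_j σ^(-2j) (x j)^3`
(`x j = σ^(2j/3) * σ^(-2j/3) x j`, exponents `3/2`, `3`), `∑ σ^j ≤ (1-σ)⁻¹`. By `win_local`
`2^s (x j)^3 ≤ 8 K ρ^j ∑_{l ∈ I} nrm (Δ l) * nrm (win j l)^2`. Sum over all `(s, t)` with `j ≤ s`; all `I`
are contained in `[1, 2 ^ k]`, exchange with the sum over `l` and use `win_sq`:
`∑_{s,t} 2^s (x j)^3 ≤ 8 K ρ^j ∑_l nrm (Δ l)^3`. So
`∑_{s,t} 2^s (∑_j x j)^3 ≤ (1-σ)^(-2) * 8 K * ∑_j σ^(-2j) σ^(4j) * ∑_l nrm (Δ l)^3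
 ≤ (1-σ)^(-2) * 8 K (1 - σ^2)⁻¹ ∑_l nrm (Δ l)^3`.
-/

namespace Pool.Agent.H82.Um

open Finset

private theorem dyad_holder (σ : ℝ) (hσ0 : 0 < σ) (hσ1 : σ < 1) (s : ℕ) (x : ℕ → ℝ)
    (hx : ∀ j, 0 ≤ x j) :
    (∑ j ∈ range (s + 1), x j) ^ 3 ≤
      ((1 - σ)⁻¹) ^ 2 * ∑ j ∈ range (s + 1), (σ ^ (2 * j))⁻¹ * x j ^ 3 := by
  set W : ℝ := ∑ j ∈ range (s + 1), σ ^ j with hW
  have hWpos : 0 < W := by
    rw [hW]
    apply sum_pos
    · intro j _; positivity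
    · exact ⟨0, by simp⟩
  have hWle : W ≤ (1 - σ)⁻¹ := by
    have h := Summable.sum_le_tsum (range (s + 1)) (fun j _ => (pow_pos hσ0 j).le)
      (summable_geometric_of_lt_one hσ0.le hσ1)
    rwa [tsum_geometric_of_lt_one hσ0.le hσ1] at h
  have key := Real.pow_arith_mean_le_arith_mean_pow (range (s + 1)) (fun j => σ ^ j / W)
    (fun j => x j / σ ^ j) (fun j _ => by positivity)
    (by rw [← sum_div, ← hW]; exact div_self hWpos.ne')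
    (fun j _ => div_nonneg (hx j) (by positivity)) 3
  have e1 : ∑ j ∈ range (s + 1), σ ^ j / W * (x j / σ ^ j) = (∑ j ∈ range (s + 1), x j) / W := by
    rw [sum_div]
    apply sum_congr rfl
    intro j _
    field_simp
  have e2 : ∑ j ∈ range (s + 1), σ ^ j / W * (x j / σ ^ j) ^ 3 =
      (∑ j ∈ range (s + 1), (σ ^ (2 * j))⁻¹ * x j ^ 3) / W := by
    rw [sum_div]
    apply sum_congr rfl
    intro j _
    have : σ ^ j ≠ 0 := by positivity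
    rw [pow_mul']
    field_simp
  rw [e1, e2, div_pow, div_le_div_iff₀ (by positivity) hWpos] at key
  have hnn : 0 ≤ ∑ j ∈ range (s + 1), (σ ^ (2 * j))⁻¹ * x j ^ 3 :=
    sum_nonneg fun j _ => mul_nonneg (by positivity) (pow_nonneg (hx j) 3)
  have key2 : (∑ j ∈ range (s + 1), x j) ^ 3 ≤
      W ^ 2 * ∑ j ∈ range (s + 1), (σ ^ (2 * j))⁻¹ * x j ^ 3 := by
    have : (∑ j ∈ range (s + 1), x j) ^ 3 * W ≤
      (W ^ 2 * ∑ j ∈ range (s + 1), (σ ^ (2 * j))⁻¹ * x j ^ 3) * W := by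
      calc _ ≤ _ := key
        _ = _ := by ring
    exact le_of_mul_le_mul_right this hWpos
  refine key2.trans ?_
  apply mul_le_mul_of_nonneg_right _ hnn
  exact pow_le_pow_left₀ hWpos.le hWle 2

theorem dyad (K ρ : ℝ) (hK : 0 < K) (h0 : 0 < ρ) (h1 : ρ < 1) :
    ∃ C : ℝ, 0 < C ∧ ∀ (V : Type) [AddCommGroup V] [Module ℝ V] (M : VModel V K ρ) (k : ℕ)
      (Δ : ℕ → V), (∀ l, M.P l (Δ l) = Δ l) →
      ∑ s ∈ Icc 1 (k - 1), ∑ t ∈ Icc 1 (2 ^ (k - 1 - s)), (2 : ℝ) ^ s *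
        (M.nrm (∑ l ∈ Ioc ((2 * t - 1) * 2 ^ s) (2 * t * 2 ^ s),
          (Δ l - M.P ((2 * t - 1) * 2 ^ s) (Δ l))) / 2 ^ s) ^ 3 ≤
      C * ∑ l ∈ Icc 1 (2 ^ k), M.nrm (Δ l) ^ 3 := by
  obtain ⟨σ, hσ0, hσ1, hσ⟩ : ∃ σ : ℝ, 0 < σ ∧ σ < 1 ∧ σ ^ 4 = ρ := by
    refine ⟨Real.sqrt (Real.sqrt ρ), by positivity, ?_, ?_⟩
    · rw [Real.sqrt_lt' one_pos, one_pow, Real.sqrt_lt' one_pos, one_pow]
      exact h1
    · have : Real.sqrt (Real.sqrt ρ) ^ 4 = ((Real.sqrt (Real.sqrt ρ)) ^ 2) ^ 2 := by ring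
      rw [this, Real.sq_sqrt (Real.sqrt_nonneg _), Real.sq_sqrt h0.le]
  have hA : 0 < (1 - σ)⁻¹ := inv_pos.2 (by linarith)
  have hσ2 : σ ^ 2 < 1 := pow_lt_one₀ hσ0.le hσ1 (by norm_num)
  have hB : 0 < (1 - σ ^ 2)⁻¹ := inv_pos.2 (by linarith)
  refine ⟨((1 - σ)⁻¹) ^ 2 * (8 * K) * (1 - σ ^ 2)⁻¹, by positivity, ?_⟩
  intro V _ _ M k Δ hΔ
  -- one interval
  have one : ∀ s ∈ Icc 1 (k - 1), ∀ t ∈ Icc 1 (2 ^ (k - 1 - s)), (2 : ℝ) ^ s *
        (M.nrm (∑ l ∈ Ioc ((2 * t - 1) * 2 ^ s) (2 * t * 2 ^ s),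
          (Δ l - M.P ((2 * t - 1) * 2 ^ s) (Δ l))) / 2 ^ s) ^ 3 ≤
      ((1 - σ)⁻¹) ^ 2 * (8 * K) * ∑ j ∈ range k, (σ ^ 2) ^ j * ∑ l ∈ Icc 1 (2 ^ k),
        M.nrm (Δ l) * (if j ≤ s ∧ l ∈ Ioc ((2 * t - 1) * 2 ^ s) (2 * t * 2 ^ s) then
        M.nrm (win M Δ ((2 * t - 1) * 2 ^ s) s j l) ^ 2 else 0) := by
    intro s hs t ht
    rw [mem_Icc] at hs ht
    set a : ℕ := (2 * t - 1) * 2 ^ s with ha
    have hb : 2 * t * 2 ^ s = a + 2 ^ s := by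
      rw [ha]
      obtain ⟨t', rfl⟩ : ∃ t', t = t' + 1 := ⟨t - 1, by omega⟩
      have : 2 * (t' + 1) - 1 = 2 * t' + 1 := by omega
      rw [this]; ring
    rw [hb]
    have hsub : Ioc a (a + 2 ^ s) ⊆ Icc 1 (2 ^ k) := by
      intro l hl
      rw [mem_Ioc] at hl
      rw [mem_Icc]
      refine ⟨by omega, hl.2.trans ?_⟩
      rw [← hb]
      calc 2 * t * 2 ^ s ≤ 2 * 2 ^ (k - 1 - s) * 2 ^ s := by gcongr; exact ht.2
        _ = 2 ^ (1 + (k - 1 - s) + s) := by rw [pow_add, pow_add]; ring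
        _ = 2 ^ k := by congr 1; omega
    set x : ℕ → ℝ := fun j => M.nrm (∑ l ∈ Ioc a (a + 2 ^ s), win M Δ a s j l) / 2 ^ s with hx
    have hx0 : ∀ j, 0 ≤ x j := fun j => div_nonneg (apply_nonneg _ _) (by positivity)
    have hX : M.nrm (∑ l ∈ Ioc a (a + 2 ^ s), (Δ l - M.P a (Δ l))) / 2 ^ s ≤
        ∑ j ∈ range (s + 1), x j := by
      have e : ∑ l ∈ Ioc a (a + 2 ^ s), (Δ l - M.P a (Δ l)) =
          ∑ j ∈ range (s + 1), ∑ l ∈ Ioc a (a + 2 ^ s), win M Δ a s j l := by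
        rw [sum_comm]
        apply sum_congr rfl
        intro l hl
        exact (win_sum M Δ hΔ a s l hl).symm
      rw [e, hx, ← sum_div]
      gcongr
      exact le_sum_of_subadditive M.nrm (map_zero M.nrm).le (fun x y => map_add_le_add M.nrm x y) _ _
    have hX0 : 0 ≤ M.nrm (∑ l ∈ Ioc a (a + 2 ^ s), (Δ l - M.P a (Δ l))) / 2 ^ s :=
      div_nonneg (apply_nonneg _ _) (by positivity)
    have h3 := (pow_le_pow_left₀ hX0 hX 3).trans (dyad_holder σ hσ0 hσ1 s x hx0)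
    have h4 : ∀ j ∈ range (s + 1), (2 : ℝ) ^ s * ((σ ^ (2 * j))⁻¹ * x j ^ 3) ≤
        (8 * K) * ((σ ^ 2) ^ j * ∑ l ∈ Ioc a (a + 2 ^ s),
          M.nrm (Δ l) * M.nrm (win M Δ a s j l) ^ 2) := by
      intro j hj
      rw [mem_range] at hj
      have h5 := win_local M hK h0 Δ hΔ a s j (by omega)
      have h6 : (2 : ℝ) ^ s * ((σ ^ (2 * j))⁻¹ * x j ^ 3) =
          (σ ^ (2 * j))⁻¹ * ((2 : ℝ) ^ s * x j ^ 3) := by ring
      rw [h6]
      refine (mul_le_mul_of_nonneg_left h5 (by positivity)).trans (le_of_eq ?_)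
      have h7 : ρ ^ j = σ ^ (2 * j) * σ ^ (2 * j) := by
        rw [← pow_add, ← hσ, ← pow_mul]; congr 1; ring
      have h8 : (σ ^ 2) ^ j = σ ^ (2 * j) := by rw [← pow_mul]
      rw [h7, h8]
      have hne : σ ^ (2 * j) ≠ 0 := by positivity
      field_simp
    calc (2 : ℝ) ^ s * (M.nrm (∑ l ∈ Ioc a (a + 2 ^ s), (Δ l - M.P a (Δ l))) / 2 ^ s) ^ 3
        ≤ (2 : ℝ) ^ s * (((1 - σ)⁻¹) ^ 2 * ∑ j ∈ range (s + 1), (σ ^ (2 * j))⁻¹ * x j ^ 3) := by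
          gcongr
      _ = ((1 - σ)⁻¹) ^ 2 * ∑ j ∈ range (s + 1), (2 : ℝ) ^ s * ((σ ^ (2 * j))⁻¹ * x j ^ 3) := by
          rw [← mul_sum]; ring
      _ ≤ ((1 - σ)⁻¹) ^ 2 * ∑ j ∈ range (s + 1), (8 * K) * ((σ ^ 2) ^ j *
            ∑ l ∈ Ioc a (a + 2 ^ s), M.nrm (Δ l) * M.nrm (win M Δ a s j l) ^ 2) := by
          apply mul_le_mul_of_nonneg_left (sum_le_sum h4) (by positivity)
      _ = ((1 - σ)⁻¹) ^ 2 * (8 * K) * ∑ j ∈ range (s + 1), (σ ^ 2) ^ j *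
            ∑ l ∈ Ioc a (a + 2 ^ s), M.nrm (Δ l) * M.nrm (win M Δ a s j l) ^ 2 := by
          rw [← mul_sum]; ring
      _ ≤ _ := by
          apply mul_le_mul_of_nonneg_left _ (by positivity)
          have hsr : range (s + 1) ⊆ range k := by
            intro j hj
            rw [mem_range] at hj ⊢
            omega
          refine (sum_le_sum (f := fun j => (σ ^ 2) ^ j *
            ∑ l ∈ Ioc a (a + 2 ^ s), M.nrm (Δ l) * M.nrm (win M Δ a s j l) ^ 2)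
            (g := fun j => (σ ^ 2) ^ j * ∑ l ∈ Icc 1 (2 ^ k), M.nrm (Δ l) *
              (if j ≤ s ∧ l ∈ Ioc a (a + 2 ^ s) then M.nrm (win M Δ a s j l) ^ 2 else 0)) ?_).trans
            (sum_le_sum_of_subset_of_nonneg hsr ?_)
          · intro j hj
            rw [mem_range] at hj
            apply mul_le_mul_of_nonneg_left _ (by positivity)
            refine (le_of_eq ?_).trans (sum_le_sum_of_subset_of_nonneg hsub ?_)
            · apply sum_congr rfl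
              intro l hl
              rw [if_pos ⟨by omega, hl⟩]
            · intro l _ _
              apply mul_nonneg (apply_nonneg _ _)
              split_ifs <;> positivity
          · intro j _ _
            apply mul_nonneg (by positivity)
            apply sum_nonneg
            intro l _
            apply mul_nonneg (apply_nonneg _ _)
            split_ifs <;> positivity
  calc _ ≤ ∑ s ∈ Icc 1 (k - 1), ∑ t ∈ Icc 1 (2 ^ (k - 1 - s)),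
        ((1 - σ)⁻¹) ^ 2 * (8 * K) * ∑ j ∈ range k, (σ ^ 2) ^ j * ∑ l ∈ Icc 1 (2 ^ k),
        M.nrm (Δ l) * (if j ≤ s ∧ l ∈ Ioc ((2 * t - 1) * 2 ^ s) (2 * t * 2 ^ s) then
        M.nrm (win M Δ ((2 * t - 1) * 2 ^ s) s j l) ^ 2 else 0) :=
        sum_le_sum fun s hs => sum_le_sum fun t ht => one s hs t ht
    _ = ((1 - σ)⁻¹) ^ 2 * (8 * K) * ∑ j ∈ range k, (σ ^ 2) ^ j * ∑ l ∈ Icc 1 (2 ^ k),
        M.nrm (Δ l) * ∑ s ∈ Icc 1 (k - 1), ∑ t ∈ Icc 1 (2 ^ (k - 1 - s)),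
        (if j ≤ s ∧ l ∈ Ioc ((2 * t - 1) * 2 ^ s) (2 * t * 2 ^ s) then
        M.nrm (win M Δ ((2 * t - 1) * 2 ^ s) s j l) ^ 2 else 0) := by
        simp only [← mul_sum]
        congr 1
        simp only [mul_sum]
        rw [sum_congr rfl (fun s _ => sum_comm)]
        rw [sum_comm]
        apply sum_congr rfl
        intro j _
        rw [sum_congr rfl (fun s _ => sum_comm)]
        rw [sum_comm]
    _ ≤ ((1 - σ)⁻¹) ^ 2 * (8 * K) * ∑ j ∈ range k, (σ ^ 2) ^ j * ∑ l ∈ Icc 1 (2 ^ k),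
        M.nrm (Δ l) ^ 3 := by
        apply mul_le_mul_of_nonneg_left _ (by positivity)
        apply sum_le_sum
        intro j _
        apply mul_le_mul_of_nonneg_left _ (by positivity)
        apply sum_le_sum
        intro l _
        calc _ ≤ M.nrm (Δ l) * M.nrm (Δ l) ^ 2 :=
              mul_le_mul_of_nonneg_left (win_sq M Δ k j l) (apply_nonneg _ _)
          _ = _ := by ring
    _ = ((1 - σ)⁻¹) ^ 2 * (8 * K) * ((∑ j ∈ range k, (σ ^ 2) ^ j) * ∑ l ∈ Icc 1 (2 ^ k),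
        M.nrm (Δ l) ^ 3) := by rw [sum_mul]
    _ ≤ ((1 - σ)⁻¹) ^ 2 * (8 * K) * ((1 - σ ^ 2)⁻¹ * ∑ l ∈ Icc 1 (2 ^ k),
        M.nrm (Δ l) ^ 3) := by
        apply mul_le_mul_of_nonneg_left _ (by positivity)
        apply mul_le_mul_of_nonneg_right _ (sum_nonneg fun l _ => by positivity)
        have h := Summable.sum_le_tsum (range k) (fun j _ => (pow_pos (pow_pos hσ0 2) j).le)
          (summable_geometric_of_lt_one (pow_pos hσ0 2).le hσ2)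
        rwa [tsum_geometric_of_lt_one (pow_pos hσ0 2).le hσ2] at h
    _ = _ := by ring

end Pool.Agent.H82.Um
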