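import Pool.Agent.H82.Um.DyadDefs

/-!
MODULE DYADA (helper82, MP_98b928_an). Two facts about windows.

`win_sum`: telescoping in `j` (`j = s` gives `P l (Δ l) = Δ l` for `l - dd 0 = l ≥ a`; `j = 0` gives
`P (max a (l - 2 ^ s)) = P a`).
`win_sq`: fix `l`, `j`. The sum has at most one nonzero term for every `s` (the odd dyadic interval of
level `s` containing `l`; put `a s` for its left end, `J` for the set of these `s ≥ j`). For `s < s'` in
`J`: `a s' ≤ a s` (dyadic intervals containing `l` are nested) and `dd (s' - j) ≥ dd (s - j + 1)`, so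
`max (a s') (l - dd (s' - j)) ≤ max (a s) (l - dd (s - j + 1))`: the windows are disjoint; `M.lower` for
`J` with `hi s = max (a s) (l - dd (s-j))`, `lo s = max (a s) (l - dd (s-j+1))`.
-/

namespace Pool.Agent.H82.Um

open Finset

variable {V : Type} [AddCommGroup V] [Module ℝ V] {K ρ : ℝ}

private theorem dyada_dd_mono : Monotone dd := by
  apply monotone_nat_of_le_succ
  intro n
  cases n with
  | zero => simp [dd]
  | succ m =>
    simp only [dd]
    exact Nat.pow_le_pow_right (by norm_num) (by omega)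

theorem win_sum (M : VModel V K ρ) (Δ : ℕ → V) (hΔ : ∀ l, M.P l (Δ l) = Δ l) (a s l : ℕ)
    (hl : l ∈ Ioc a (a + 2 ^ s)) :
    ∑ j ∈ range (s + 1), win M Δ a s j l = Δ l - M.P a (Δ l) := by
  rw [mem_Ioc] at hl
  set f : ℕ → V := fun m => M.P (max a (l - dd m)) (Δ l) with hf
  have h1 : ∀ j ∈ range (s + 1), win M Δ a s j l =
      (fun m => f m - f (m + 1)) (s + 1 - 1 - j) := by
    intro j _
    simp only [win, hf, Nat.add_sub_cancel]
  rw [sum_congr rfl h1, sum_range_reflect (fun m => f m - f (m + 1)) (s + 1),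
    sum_range_sub']
  simp only [hf, dd]
  have e1 : max a (l - 0) = l := by
    rw [Nat.sub_zero]; exact max_eq_right hl.1.le
  have e2 : max a (l - 2 ^ s) = a := max_eq_left (by omega)
  rw [e1, e2, hΔ]

private theorem dyada_unique {s t t' l : ℕ} (h : l ∈ Ioc ((2 * t - 1) * 2 ^ s) (2 * t * 2 ^ s))
    (h' : l ∈ Ioc ((2 * t' - 1) * 2 ^ s) (2 * t' * 2 ^ s)) : t ≤ t' := by
  rw [mem_Ioc] at h h'
  have h1 : (2 * t - 1) * 2 ^ s < 2 * t' * 2 ^ s := lt_of_lt_of_le h.1 h'.2
  have h2 := Nat.lt_of_mul_lt_mul_right h1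
  omega

theorem win_sq (M : VModel V K ρ) (Δ : ℕ → V) (k j l : ℕ) :
    ∑ s ∈ Icc 1 (k - 1), ∑ t ∈ Icc 1 (2 ^ (k - 1 - s)),
      (if j ≤ s ∧ l ∈ Ioc ((2 * t - 1) * 2 ^ s) (2 * t * 2 ^ s) then
        M.nrm (win M Δ ((2 * t - 1) * 2 ^ s) s j l) ^ 2 else 0) ≤ M.nrm (Δ l) ^ 2 := by
  classical
  -- a choice of `t` for each `s`
  set Q : ℕ → ℕ → Prop := fun s t => 1 ≤ t ∧ l ∈ Ioc ((2 * t - 1) * 2 ^ s) (2 * t * 2 ^ s) with hQ
  set T : ℕ → ℕ := fun s => if h : ∃ t, Q s t then h.choose else 1 with hT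
  have hTs : ∀ s, (∃ t, Q s t) → Q s (T s) := by
    intro s h
    simp only [hT, dif_pos h]
    exact h.choose_spec
  set J : Finset ℕ := (Icc 1 (k - 1)).filter (fun s => j ≤ s ∧ ∃ t, Q s t) with hJ
  have hinner : ∀ s ∈ Icc 1 (k - 1), ∑ t ∈ Icc 1 (2 ^ (k - 1 - s)),
      (if j ≤ s ∧ l ∈ Ioc ((2 * t - 1) * 2 ^ s) (2 * t * 2 ^ s) then
        M.nrm (win M Δ ((2 * t - 1) * 2 ^ s) s j l) ^ 2 else 0) ≤
      if j ≤ s ∧ ∃ t, Q s t then M.nrm (win M Δ ((2 * T s - 1) * 2 ^ s) s j l) ^ 2 else 0 := by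
    intro s _
    by_cases hc : j ≤ s ∧ ∃ t, Q s t
    · rw [if_pos hc]
      have hq := hTs s hc.2
      have hle : ∀ t ∈ Icc 1 (2 ^ (k - 1 - s)),
          (if j ≤ s ∧ l ∈ Ioc ((2 * t - 1) * 2 ^ s) (2 * t * 2 ^ s) then
          M.nrm (win M Δ ((2 * t - 1) * 2 ^ s) s j l) ^ 2 else 0) ≤
          if t = T s then M.nrm (win M Δ ((2 * T s - 1) * 2 ^ s) s j l) ^ 2 else 0 := by
        intro t _
        by_cases h1 : j ≤ s ∧ l ∈ Ioc ((2 * t - 1) * 2 ^ s) (2 * t * 2 ^ s)
        · have : t = T s := le_antisymm (dyada_unique h1.2 hq.2) (dyada_unique hq.2 h1.2)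
          rw [if_pos h1, if_pos this, this]
        · rw [if_neg h1]
          split_ifs <;> positivity
      refine (sum_le_sum hle).trans ?_
      rw [sum_ite_eq']
      split_ifs
      · exact le_rfl
      · positivity
    · rw [if_neg hc]
      apply le_of_eq
      apply sum_eq_zero
      intro t ht
      rw [mem_Icc] at ht
      rw [if_neg]
      rintro ⟨h1, h2⟩
      exact hc ⟨h1, t, ht.1, h2⟩
  refine (sum_le_sum hinner).trans ?_
  rw [← sum_filter]
  have hlow := M.lower J (fun s => max ((2 * T s - 1) * 2 ^ s) (l - dd (s - j + 1)))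
    (fun s => max ((2 * T s - 1) * 2 ^ s) (l - dd (s - j))) ?_ ?_ (Δ l)
  · exact hlow
  · intro s _
    apply max_le_max le_rfl
    have := dyada_dd_mono (show s - j ≤ s - j + 1 by omega)
    omega
  · have key : ∀ s ∈ J, ∀ s' ∈ J, s < s' →
        max ((2 * T s' - 1) * 2 ^ s') (l - dd (s' - j)) ≤
        max ((2 * T s - 1) * 2 ^ s) (l - dd (s - j + 1)) := by
      intro s hs s' hs' hlt
      rw [hJ, mem_filter] at hs hs'
      have q := hTs s hs.2.2
      have q' := hTs s' hs'.2.2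
      simp only [hQ, mem_Ioc] at q q'
      apply max_le_max
      · -- nested intervals
        obtain ⟨r, hr⟩ : ∃ r, s' = s + r := ⟨s' - s, by omega⟩
        rw [hr, pow_add]
        have e1 : (2 * T (s + r) - 1) * (2 ^ s * 2 ^ r) = (2 * T (s + r) - 1) * 2 ^ r * 2 ^ s := by
          ring
        rw [e1]
        apply Nat.mul_le_mul_right
        have h1 : (2 * T (s + r) - 1) * 2 ^ r * 2 ^ s < 2 * T s * 2 ^ s := by
          rw [← e1, ← pow_add, ← hr]
          exact lt_of_lt_of_le q'.2.1 q.2.2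
        have h2 := Nat.lt_of_mul_lt_mul_right h1
        omega
      · have := dyada_dd_mono (show s - j + 1 ≤ s' - j by omega)
        omega
    intro s hs s' hs' hne
    rcases lt_or_gt_of_ne hne with h | h
    · exact Or.inr (key s hs s' hs' h)
    · exact Or.inl (key s' hs' s hs h)

end Pool.Agent.H82.Um
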