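import Pool.Agent.H82.Um.VModel

/-!
MP_98b928_an (helper82). The windows of the dyadic inequality.

`I = (a, a + 2 ^ s]`, `a = (2 t - 1) 2 ^ s`; for `l ∈ I` and `j ≤ s` the window
`win M Δ a s j l = P (max a (l - dd (s-j))) (Δ l) - P (max a (l - dd (s-j+1))) (Δ l)`.
-/

namespace Pool.Agent.H82.Um

open Finset

/-- `dd 0 = 0`, `dd (m + 1) = 2 ^ m`. -/
def dd : ℕ → ℕ
  | 0 => 0
  | m + 1 => 2 ^ m

variable {V : Type} [AddCommGroup V] [Module ℝ V] {K ρ : ℝ}

/-- The window. -/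
def win (M : VModel V K ρ) (Δ : ℕ → V) (a s j l : ℕ) : V :=
  M.P (max a (l - dd (s - j))) (Δ l) - M.P (max a (l - dd (s - j + 1))) (Δ l)

/-- A window has at most the norm of `Δ l`. -/
theorem nrm_P_sub_P_le (M : VModel V K ρ) {i j : ℕ} (h : i ≤ j) (y : V) :
    M.nrm (M.P j y - M.P i y) ≤ M.nrm y := by
  have := M.lower {0} (fun _ => i) (fun _ => j) (fun _ _ => h)
    (fun i hi j hj hij => absurd ((mem_singleton.mp hi).trans (mem_singleton.mp hj).symm) hij) y
  rw [sum_singleton] at this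
  exact le_of_sq_le_sq this (apply_nonneg _ _)

end Pool.Agent.H82.Um
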