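import Pool.Agent.H53.Umb.IL

/-!
MODULE EV (helper82, MP_98b928_an). The iterated quantifier `Ev r Q l`: for almost all `i1`, for almost
all `i2`, ..., `Q (l ++ [i1, ..., ir])` (almost all: the fixed ultrafilter `UU`), and its relation to the
iterated ultralimits `RIL`. All proofs are inductions on `r` (`RIL` and `Ev` unfold in parallel); compare
the proofs of `RIL.congr`, `RIL.comp`, `RIL.exists_lt` in `Pool/Agent/H53/Umb/IL.lean`.
-/

namespace Pool.Agent.H82.Um

open Filter Topology
open Pool.Agent.H53.Umb (UU ul IL RIL)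

/-- Iterated quantifier: for almost all `i1`, for almost all `i2`, ..., `Q (l ++ [i1, ..., ir])`. -/
def Ev : ℕ → (List ℕ → Prop) → List ℕ → Prop
  | 0, Q, l => Q l
  | r + 1, Q, l => ∀ᶠ i in (UU : Filter ℕ), Ev r Q (l ++ [i])

theorem Ev.mono {r : ℕ} {Q Q' : List ℕ → Prop} {l : List ℕ} (h : Ev r Q l)
    (hQ : ∀ m : List ℕ, m.length = r → Q (l ++ m) → Q' (l ++ m)) : Ev r Q' l := by
  induction r generalizing l with
  | zero =>
    have := hQ [] rfl
    simp only [List.append_nil] at this
    exact this h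
  | succ r ih =>
    refine Filter.Eventually.mono h fun i hi => ih hi fun m hm hQm => ?_
    have := hQ (i :: m) (by simp [hm])
    simpa using this (by simpa using hQm)

theorem Ev.of_forall {r : ℕ} {Q : List ℕ → Prop} {l : List ℕ}
    (h : ∀ m : List ℕ, m.length = r → Q (l ++ m)) : Ev r Q l := by
  induction r generalizing l with
  | zero =>
    have := h [] rfl
    simpa [Ev] using this
  | succ r ih =>
    refine Filter.Eventually.of_forall fun i => ih fun m hm => ?_
    have := h (i :: m) (by simp [hm])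
    simpa using this

theorem Ev.and {r : ℕ} {Q Q' : List ℕ → Prop} {l : List ℕ} (h : Ev r Q l) (h' : Ev r Q' l) :
    Ev r (fun m => Q m ∧ Q' m) l := by
  induction r generalizing l with
  | zero => exact ⟨h, h'⟩
  | succ r ih =>
    exact (Filter.Eventually.and h h').mono fun i hi => ih hi.1 hi.2

/-- Finite conjunctions. -/
theorem Ev.forall_lt {r : ℕ} {Q : ℕ → List ℕ → Prop} {l : List ℕ} (n : ℕ)
    (h : ∀ i < n, Ev r (Q i) l) : Ev r (fun m => ∀ i < n, Q i m) l := by
  induction n with
  | zero => exact Ev.of_forall fun m _ i hi => absurd hi (Nat.not_lt_zero i)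
  | succ n ih =>
    refine ((ih fun i hi => h i (Nat.lt_succ_of_lt hi)).and (h n (Nat.lt_succ_self n))).mono ?_
    rintro m _ ⟨h1, h2⟩ i hi
    rcases Nat.lt_succ_iff_lt_or_eq.1 hi with h3 | rfl
    · exact h1 i h3
    · exact h2

theorem Ev.exists {r : ℕ} {Q : List ℕ → Prop} {l : List ℕ} (h : Ev r Q l) :
    ∃ m : List ℕ, m.length = r ∧ Q (l ++ m) := by
  induction r generalizing l with
  | zero => exact ⟨[], rfl, by simpa [Ev] using h⟩
  | succ r ih =>
    obtain ⟨i, hi⟩ := Filter.Eventually.exists (f := (UU : Filter ℕ)) h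
    obtain ⟨m, hm, hQ⟩ := ih hi
    exact ⟨i :: m, by simp [hm], by simpa using hQ⟩

theorem ev_add {r s : ℕ} {Q : List ℕ → Prop} {l : List ℕ} :
    Ev (r + s) Q l ↔ Ev r (Ev s Q) l := by
  induction r generalizing l with
  | zero => rw [Nat.zero_add]; rfl
  | succ r ih =>
    have e : r + 1 + s = (r + s) + 1 := by omega
    rw [e]
    simp only [Ev]
    exact Filter.eventually_congr (Filter.Eventually.of_forall fun i => ih)

theorem ev_lt {r : ℕ} {h : List ℕ → ℝ} {l : List ℕ} {a b : ℝ} (H : RIL r h l a) (hab : a < b) :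
    Ev r (fun m => h m < b) l := by
  induction r generalizing l a with
  | zero =>
    have h1 : h l = a := H
    show h l < b
    rw [h1]; exact hab
  | succ r ih =>
    obtain ⟨a', h1, h2⟩ := H
    exact (h2.eventually_lt_const hab).mono fun i hi => ih (h1 i) hi

theorem ev_gt {r : ℕ} {h : List ℕ → ℝ} {l : List ℕ} {a b : ℝ} (H : RIL r h l a) (hab : b < a) :
    Ev r (fun m => b < h m) l := by
  induction r generalizing l a with
  | zero =>
    have h1 : h l = a := H
    show b < h l
    rw [h1]; exact hab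
  | succ r ih =>
    obtain ⟨a', h1, h2⟩ := H
    exact (h2.eventually_const_lt hab).mono fun i hi => ih (h1 i) hi

theorem le_of_ev {r : ℕ} {h : List ℕ → ℝ} {l : List ℕ} {a b : ℝ} (H : RIL r h l a)
    (h' : Ev r (fun m => h m ≤ b) l) : a ≤ b := by
  induction r generalizing l a with
  | zero =>
    have h1 : h l = a := H
    have h2 : h l ≤ b := h'
    rw [← h1]; exact h2
  | succ r ih =>
    obtain ⟨a', h1, h2⟩ := H
    exact le_of_tendsto h2 (Filter.Eventually.mono h' fun i hi => ih (h1 i) hi)

end Pool.Agent.H82.Um
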