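import Mathlib

/-!
MODULE FREE (helper82, MP_98b928_an). Free choices in a product with many coordinates.

Proof. Induction on `V.card` of: if `ℵ_(V.card) ≤ #Q`, `Q : Set κ`, then some `α` with `α = α₀` outside
`V` and `α u ∈ Q` for `u ∈ V` satisfies `α u ∉ bad u α` for all `u ∈ V`. Step: `u₀ ∈ V`,
`n = (V.erase u₀).card`, choose `Q' ⊆ Q` with `#Q' = ℵ_n`. The functions `α` which are `α₀` outside
`V.erase u₀` and have values in `Q'` on `V.erase u₀` are at most `ℵ_n` many, so the union of the finite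
sets `bad u₀ α` over these `α` has cardinality `≤ ℵ_n < ℵ_(n+1) ≤ #Q`: choose `β₀ ∈ Q` outside of it.
Apply the induction hypothesis to `V.erase u₀`, `Q'`, `α₀' = update α₀ u₀ β₀` (with the same `bad`; it
does not depend on the own coordinate), and check `u₀` with `hdep`.
-/

namespace Pool.Agent.H82.Um

open Cardinal in
theorem exists_free_aux {ι κ : Type} [DecidableEq ι] (bad : ι → (ι → κ) → Set κ)
    (V : Finset ι) :
    ∀ (_ : ∀ u ∈ V, ∀ α, (bad u α).Finite)
      (_ : ∀ u ∈ V, ∀ (α : ι → κ) (β : κ), bad u (Function.update α u β) = bad u α)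
      (Q : Set κ) (_ : Cardinal.aleph (V.card : ℕ) ≤ Cardinal.mk Q) (α₀ : ι → κ),
    ∃ α : ι → κ, (∀ u, u ∉ V → α u = α₀ u) ∧ (∀ u ∈ V, α u ∈ Q) ∧ ∀ u ∈ V, α u ∉ bad u α := by
  induction V using Finset.induction_on with
  | empty =>
    intro _ _ Q _ α₀
    exact ⟨α₀, fun _ _ => rfl, by simp, by simp⟩
  | insert u₀ W hu₀ ih =>
    intro hfin hdep Q hQ α₀
    rw [Finset.card_insert_of_notMem hu₀] at hQ
    have hlt : Cardinal.aleph (W.card : ℕ) < Cardinal.aleph ((W.card + 1 : ℕ) : Ordinal) := by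
      apply Cardinal.aleph_lt_aleph.2
      exact_mod_cast Nat.lt_succ_self _
    obtain ⟨Q', hQ'Q, hQ'⟩ := Cardinal.le_mk_iff_exists_subset.1 (hlt.le.trans hQ)
    let ext : (W → Q') → ι → κ := fun f u => if h : u ∈ W then (f ⟨u, h⟩ : κ) else α₀ u
    have hU : Cardinal.mk (⋃ f : (W → Q'), bad u₀ (ext f)) ≤ Cardinal.aleph (W.card : ℕ) := by
      refine (Cardinal.mk_iUnion_le _).trans ?_
      have h1 : Cardinal.mk (W → Q') ≤ Cardinal.aleph (W.card : ℕ) := by
        have : Cardinal.mk (W → Q') = Cardinal.mk Q' ^ (W.card : ℕ) := by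
          rw [← Cardinal.power_def]
          simp
        rw [this, hQ']
        exact Cardinal.power_nat_le (Cardinal.aleph0_le_aleph _)
      have h2 : (⨆ f : (W → Q'), Cardinal.mk (bad u₀ (ext f))) ≤ ℵ₀ := by
        refine ciSup_le' fun f => ?_
        exact (hfin u₀ (Finset.mem_insert_self _ _) _).lt_aleph0.le
      calc _ ≤ Cardinal.aleph (W.card : ℕ) * ℵ₀ := mul_le_mul' h1 h2
        _ = _ := Cardinal.mul_eq_left (Cardinal.aleph0_le_aleph _) (Cardinal.aleph0_le_aleph _)
            Cardinal.aleph0_ne_zero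
    have hne : ∃ β ∈ Q, β ∉ ⋃ f : (W → Q'), bad u₀ (ext f) := by
      by_contra hcon
      push Not at hcon
      have : Cardinal.mk Q ≤ Cardinal.mk (⋃ f : (W → Q'), bad u₀ (ext f)) :=
        Cardinal.mk_le_mk_of_subset hcon
      exact absurd (hQ.trans (this.trans hU)) (not_le.2 hlt)
    obtain ⟨β₀, hβQ, hβ⟩ := hne
    obtain ⟨α, hα1, hα2, hα3⟩ := ih (fun u hu => hfin u (Finset.mem_insert_of_mem hu))
      (fun u hu => hdep u (Finset.mem_insert_of_mem hu)) Q' hQ'.ge (Function.update α₀ u₀ β₀)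
    have hαu₀ : α u₀ = β₀ := by
      rw [hα1 u₀ hu₀, Function.update_self]
    refine ⟨α, ?_, ?_, ?_⟩
    · intro u hu
      rw [Finset.mem_insert, not_or] at hu
      rw [hα1 u hu.2, Function.update_of_ne hu.1]
    · intro u hu
      rcases Finset.mem_insert.1 hu with rfl | hu
      · rw [hαu₀]; exact hβQ
      · exact hQ'Q (hα2 u hu)
    · intro u hu
      rcases Finset.mem_insert.1 hu with rfl | hu
      · rw [hαu₀]
        intro hbad
        apply hβ
        refine Set.mem_iUnion.2 ⟨fun w => ⟨α w, hα2 w w.2⟩, ?_⟩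
        have : ext (fun w => ⟨α w, hα2 w w.2⟩) = Function.update α u (α₀ u) := by
          funext v
          by_cases hv : v ∈ W
          · have hvu : v ≠ u := fun h => hu₀ (h ▸ hv)
            simp [ext, hv, Function.update_of_ne hvu]
          · by_cases hvu : v = u
            · subst hvu
              simp [ext, hv]
            · simp only [ext, hv, dite_false, Function.update_of_ne hvu]
              rw [hα1 v hv, Function.update_of_ne hvu]
        rw [this, hdep u (Finset.mem_insert_self _ _)]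
        exact hbad
      · exact hα3 u hu

theorem exists_free {ι κ : Type} [DecidableEq ι] (hκ : ∀ j : ℕ, Cardinal.aleph j ≤ Cardinal.mk κ)
    (V : Finset ι) (bad : ι → (ι → κ) → Set κ) (hfin : ∀ u ∈ V, ∀ α, (bad u α).Finite)
    (hdep : ∀ u ∈ V, ∀ (α : ι → κ) (β : κ), bad u (Function.update α u β) = bad u α)
    (α₀ : ι → κ) :
    ∃ α : ι → κ, (∀ u, u ∉ V → α u = α₀ u) ∧ ∀ u ∈ V, α u ∉ bad u α := by
  obtain ⟨α, h1, _, h3⟩ := exists_free_aux bad V hfin hdep Set.univ
    (by rw [Cardinal.mk_univ]; exact hκ _) α₀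
  exact ⟨α, h1, h3⟩

end Pool.Agent.H82.Um
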