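import Pool.Agent.H82.Um.IterG

/-!
MODULE ITER (helper82, MP_98b928_an). The model: the seminorm `nrmV` and the projections `PL`.

`lower`: let `ε > 0`, `y` as given. By `generic` (`n = 1`) and `ev_nrmV` (for `y` and for the finitely
many `PL (hi j) y - PL (lo j) y`) there is a list `l` of length `R` (`Ev.and`, `Ev.exists`) with finite
sets `A i`, such that with `E j = {supp ⊆ A (hi j)} \ {supp ⊆ A (lo j)}` (disjoint for different `j ∈ J`)
`N ((PL (hi j) y - PL (lo j) y) l) ≤ N (indicator (E j) (y l)) + 2 ε`, and `N_lower` gives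
`∑ N (indicator (E j) (y l)) ^ 2 ≤ N (y l) ^ 2`; so with `α j = N (indicator (E j) (y l))`:
`nrm (PL (hi j) y - PL (lo j) y) ≤ α j + 3 ε`, `∑ (α j)^2 ≤ (nrm y + ε)^2`; let `ε → 0`.
`upper`: `y j = PL (e (j+1)) (y j) - PL (e j) (y j)`, so for good `l` (finitely many `j`)
`N (y j l - indicator (E j) (y j l)) ≤ 2 ε` with `E j = {supp ⊆ A (e (j+1))} \ {supp ⊆ A (e j)}`,
`N (y j l) ≤ lam + ε`; `N_upper` for the vectors `indicator (E j) (y j l)` and the sets `A (e j)` gives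
`N (∑ y j l) ≤ K (2ρ)^m (lam + ε) + 2^m * 2 ε`; let `ε → 0`. (`lam ≥ 0` as it bounds a norm, `0 < 2^m`.)
-/

namespace Pool.Agent.H82.Um

open Filter Topology
open scoped ENNReal NNReal
open Pool.Agent.H53.Umb (UU ul IL RIL)

namespace CutSpace

variable {B I : Type} {K ρ : ℝ} (S : CutSpace B I K ρ)

private theorem iter_err {R : ℕ} (y : S.VV R) (l : List ℕ) (A : ℕ → Finset I) (hA : Monotone A)
    (ε : ℝ≥0∞) (h : ∀ i : ℕ, S.N (Pfun R i y.1 l - {b | S.supp b ⊆ A i}.indicator (y.1 l)) ≤ ε)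
    {a b : ℕ} (hab : a ≤ b) :
    S.N (Pfun R b y.1 l - Pfun R a y.1 l -
      {c | S.supp c ⊆ A b ∧ ¬ S.supp c ⊆ A a}.indicator (y.1 l)) ≤ ε + ε := by
  classical
  have e : Pfun R b y.1 l - Pfun R a y.1 l -
      {c | S.supp c ⊆ A b ∧ ¬ S.supp c ⊆ A a}.indicator (y.1 l) =
      (Pfun R b y.1 l - {c | S.supp c ⊆ A b}.indicator (y.1 l)) -
      (Pfun R a y.1 l - {c | S.supp c ⊆ A a}.indicator (y.1 l)) := by
    funext c
    have hAab := hA hab
    by_cases h1 : S.supp c ⊆ A a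
    · have h2 : S.supp c ⊆ A b := h1.trans hAab
      simp [Set.indicator, h1, h2]
    · by_cases h2 : S.supp c ⊆ A b
      · simp [Set.indicator, h1, h2]
        ring
      · simp [Set.indicator, h1, h2]
  rw [e]
  exact (S.N_sub_le _ _).trans (add_le_add (h b) (h a))

private theorem iter_PL_apply {R i : ℕ} (y : S.VV R) (l : List ℕ) :
    (S.PL R i y).1 l = Pfun R i y.1 l := rfl

private theorem iter_limit {x : ℝ} {f : ℝ → ℝ} (hf : Continuous f) (h : ∀ δ : ℝ, 0 < δ → x ≤ f δ) :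
    x ≤ f 0 := by
  have h1 : Tendsto f (𝓝[>] 0) (𝓝 (f 0)) := (hf.tendsto 0).mono_left nhdsWithin_le_nhds
  exact ge_of_tendsto h1 (eventually_nhdsWithin_of_forall fun δ hδ => h δ hδ)

theorem nrmV_lower (R : ℕ) (J : Finset ℕ) (lo hi : ℕ → ℕ) (h : ∀ i ∈ J, lo i ≤ hi i)
    (h' : ∀ i ∈ J, ∀ j ∈ J, i ≠ j → hi i ≤ lo j ∨ hi j ≤ lo i) (y : S.VV R) :
    ∑ i ∈ J, S.nrmV R (S.PL R (hi i) y - S.PL R (lo i) y) ^ 2 ≤ S.nrmV R y ^ 2 := by
  classical
  set z : ℕ → S.VV R := fun i => S.PL R (hi i) y - S.PL R (lo i) y with hz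
  set Y : ℝ := S.nrmV R y with hY
  have hY0 : 0 ≤ Y := apply_nonneg _ _
  have main : ∀ δ : ℝ, 0 < δ → ∑ i ∈ J, S.nrmV R (z i) ^ 2 ≤
      (Y + δ) ^ 2 + 6 * δ * (J.card * (Y + δ)) + 9 * δ ^ 2 * J.card := by
    intro δ hδ
    have hε : 0 < ENNReal.ofReal δ := ENNReal.ofReal_pos.2 hδ
    have ev1 := S.generic R 1 (fun _ => y) (ENNReal.ofReal δ) hε
    have ev2 := S.ev_nrmV y δ hδ
    have ev3 := Ev.forall_lt (r := R) (l := []) (Q := fun i l => l.length = R ∧
      (S.N ((z i).1 l)).toReal < S.nrmV R (z i) + δ ∧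
      S.nrmV R (z i) - δ < (S.N ((z i).1 l)).toReal ∧ S.N ((z i).1 l) < ⊤) (J.sup id + 1)
      (fun i _ => S.ev_nrmV (z i) δ hδ)
    obtain ⟨l, -, ⟨A, hA, g1⟩, ⟨g2, g3, -, g4⟩, g5⟩ := (ev1.and (ev2.and ev3)).exists
    rw [List.nil_append] at g1 g2 g3 g4 g5
    have g1' := g1 0 one_pos
    set E : ℕ → Set B := fun i => {c | S.supp c ⊆ A (hi i) ∧ ¬ S.supp c ⊆ A (lo i)} with hE
    have hlow := S.N_lower J E (fun i hi' j hj hij => by
      rw [Set.disjoint_left]
      rintro c ⟨c1, c2⟩ ⟨c3, c4⟩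
      rcases h' i hi' j hj hij with h1 | h1
      · exact c4 (c1.trans (hA h1))
      · exact c2 (c3.trans (hA h1))) (y.1 l)
    set α : ℕ → ℝ := fun i => (S.N ((E i).indicator (y.1 l))).toReal with hα
    have hfin : ∀ i, S.N ((E i).indicator (y.1 l)) < ⊤ := fun i =>
      lt_of_le_of_lt (S.N_indicator_le _ _) g4
    have hα0 : ∀ i, 0 ≤ α i := fun i => ENNReal.toReal_nonneg
    have hαY : ∀ i, α i ≤ Y + δ := fun i =>
      (ENNReal.toReal_mono g4.ne (S.N_indicator_le _ _)).trans g3.le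
    have hsum : ∑ i ∈ J, α i ^ 2 ≤ (Y + δ) ^ 2 := by
      have h1 := ENNReal.toReal_mono (ENNReal.pow_ne_top g4.ne) hlow
      rw [ENNReal.toReal_sum (fun i _ => ENNReal.pow_ne_top (hfin i).ne), ENNReal.toReal_pow] at h1
      simp only [ENNReal.toReal_pow] at h1
      exact h1.trans (pow_le_pow_left₀ ENNReal.toReal_nonneg g3.le 2)
    have hzα : ∀ i ∈ J, S.nrmV R (z i) ≤ α i + 3 * δ := by
      intro i hiJ
      obtain ⟨-, -, q1, q2⟩ := g5 i (Nat.lt_succ_of_le (Finset.le_sup (f := id) hiJ))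
      have herr := S.iter_err y l A hA _ g1' (h i hiJ)
      have e : (z i).1 l = (E i).indicator (y.1 l) + (Pfun R (hi i) y.1 l - Pfun R (lo i) y.1 l -
          (E i).indicator (y.1 l)) := by
        have : (z i).1 l = Pfun R (hi i) y.1 l - Pfun R (lo i) y.1 l := rfl
        rw [this]; abel
      have h1 : S.N ((z i).1 l) ≤ S.N ((E i).indicator (y.1 l)) +
          (ENNReal.ofReal δ + ENNReal.ofReal δ) := by
        rw [e]
        exact (S.N_add _ _).trans (add_le_add le_rfl herr)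
      have h2 := ENNReal.toReal_mono (by finiteness [(hfin i).ne]) h1
      rw [ENNReal.toReal_add (hfin i).ne (by finiteness), ENNReal.toReal_add (by finiteness)
        (by finiteness), ENNReal.toReal_ofReal hδ.le] at h2
      have : α i = (S.N ((E i).indicator (y.1 l))).toReal := rfl
      linarith
    calc ∑ i ∈ J, S.nrmV R (z i) ^ 2 ≤ ∑ i ∈ J, (α i ^ 2 + (6 * δ * (Y + δ) + 9 * δ ^ 2)) := by
          apply Finset.sum_le_sum
          intro i hiJ
          have h1 := pow_le_pow_left₀ (apply_nonneg (S.nrmV R) (z i)) (hzα i hiJ) 2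
          have h2 := hαY i
          have h3 : δ * α i ≤ δ * (Y + δ) := mul_le_mul_of_nonneg_left h2 hδ.le
          nlinarith
      _ = ∑ i ∈ J, α i ^ 2 + J.card * (6 * δ * (Y + δ) + 9 * δ ^ 2) := by
          rw [Finset.sum_add_distrib, Finset.sum_const, nsmul_eq_mul]
      _ ≤ (Y + δ) ^ 2 + J.card * (6 * δ * (Y + δ) + 9 * δ ^ 2) := add_le_add hsum le_rfl
      _ = _ := by ring
  have := iter_limit (x := ∑ i ∈ J, S.nrmV R (z i) ^ 2)
    (f := fun δ => (Y + δ) ^ 2 + 6 * δ * (J.card * (Y + δ)) + 9 * δ ^ 2 * J.card)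
    (by fun_prop) main
  simpa using this

theorem nrmV_upper (R m : ℕ) (e : ℕ → ℕ) (he : Monotone e) (y : ℕ → S.VV R) (lam : ℝ)
    (hy : ∀ j < 2 ^ m, S.PL R (e (j + 1)) (y j) = y j ∧ S.PL R (e j) (y j) = 0 ∧
      S.nrmV R (y j) ≤ lam) (hK : 0 < K) (hρ : 0 < ρ) :
    S.nrmV R (∑ j ∈ Finset.range (2 ^ m), y j) ≤ K * (2 * ρ) ^ m * lam := by
  classical
  set Y : S.VV R := ∑ j ∈ Finset.range (2 ^ m), y j with hYdef
  have hlam : 0 ≤ lam := (apply_nonneg (S.nrmV R) (y 0)).trans (hy 0 (by positivity)).2.2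
  have main : ∀ δ : ℝ, 0 < δ → S.nrmV R Y ≤ K * (2 * ρ) ^ m * (lam + δ) + 2 ^ m * (2 * δ) + δ := by
    intro δ hδ
    have hε : 0 < ENNReal.ofReal δ := ENNReal.ofReal_pos.2 hδ
    have ev1 := S.generic R (2 ^ m) y (ENNReal.ofReal δ) hε
    have ev2 := S.ev_nrmV Y δ hδ
    have ev3 := Ev.forall_lt (r := R) (l := []) (Q := fun i l => l.length = R ∧
      (S.N ((y i).1 l)).toReal < S.nrmV R (y i) + δ ∧
      S.nrmV R (y i) - δ < (S.N ((y i).1 l)).toReal ∧ S.N ((y i).1 l) < ⊤) (2 ^ m)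
      (fun i _ => S.ev_nrmV (y i) δ hδ)
    obtain ⟨l, -, ⟨A, hA, g1⟩, ⟨g2, g3, g3', g4⟩, g5⟩ := (ev1.and (ev2.and ev3)).exists
    rw [List.nil_append] at g1 g2 g3 g3' g4 g5
    set E : ℕ → Set B := fun j => {c | S.supp c ⊆ A (e (j + 1)) ∧ ¬ S.supp c ⊆ A (e j)} with hE
    set x : ℕ → B → ℝ := fun j => (E j).indicator ((y j).1 l) with hx
    have hxN : ∀ j < 2 ^ m, S.N (x j) ≤ ENNReal.ofReal (lam + δ) := by
      intro j hj
      obtain ⟨-, q1, -, q2⟩ := g5 j hj
      refine (S.N_indicator_le _ _).trans ?_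
      rw [← ENNReal.ofReal_toReal q2.ne]
      apply ENNReal.ofReal_le_ofReal
      have := (hy j hj).2.2
      linarith
    have hup := S.N_upper m (fun j => A (e j)) (hA.comp he) x (ENNReal.ofReal (lam + δ)) hxN
      (fun j _ b hb => by
        have : b ∈ E j := Set.mem_of_indicator_ne_zero hb
        exact this)
    have herr : ∀ j ∈ Finset.range (2 ^ m), S.N ((y j).1 l - x j) ≤
        ENNReal.ofReal δ + ENNReal.ofReal δ := by
      intro j hj
      rw [Finset.mem_range] at hj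
      have h1 := S.iter_err (y j) l A hA _ (g1 j hj) (he (Nat.le_succ j))
      have h2 : Pfun R (e (j + 1)) (y j).1 l = (y j).1 l := by
        rw [← S.iter_PL_apply, (hy j hj).1]
      have h3 : Pfun R (e j) (y j).1 l = 0 := by
        rw [← S.iter_PL_apply, (hy j hj).2.1]; rfl
      rw [show (j.succ) = j + 1 from rfl, h2, h3, sub_zero] at h1
      exact h1
    have hYl : Y.1 l = ∑ j ∈ Finset.range (2 ^ m), x j +
        ∑ j ∈ Finset.range (2 ^ m), ((y j).1 l - x j) := by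
      rw [← Finset.sum_add_distrib, hYdef, AddSubmonoidClass.coe_finsetSum, Finset.sum_apply]
      apply Finset.sum_congr rfl
      intro j _
      abel
    have hN : S.N (Y.1 l) ≤ ENNReal.ofReal (K * (2 * ρ) ^ m * (lam + δ) + 2 ^ m * (2 * δ)) := by
      rw [hYl]
      calc _ ≤ S.N (∑ j ∈ Finset.range (2 ^ m), x j) +
            ∑ j ∈ Finset.range (2 ^ m), S.N ((y j).1 l - x j) :=
            (S.N_add _ _).trans (add_le_add le_rfl (S.N_sum_le _ _))
        _ ≤ ENNReal.ofReal (K * (2 * ρ) ^ m) * ENNReal.ofReal (lam + δ) +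
            ∑ _j ∈ Finset.range (2 ^ m), (ENNReal.ofReal δ + ENNReal.ofReal δ) :=
            add_le_add hup (Finset.sum_le_sum herr)
        _ = _ := by
            have e1 : ENNReal.ofReal δ + ENNReal.ofReal δ = ENNReal.ofReal (2 * δ) := by
              rw [← ENNReal.ofReal_add hδ.le hδ.le]; congr 1; ring
            have e2 : ((2 ^ m : ℕ) : ℝ≥0∞) = ENNReal.ofReal (2 ^ m) := by
              rw [ENNReal.ofReal_pow (by norm_num)]; simp
            rw [Finset.sum_const, Finset.card_range, nsmul_eq_mul, e1, e2,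
              ← ENNReal.ofReal_mul (by positivity), ← ENNReal.ofReal_mul (by positivity),
              ← ENNReal.ofReal_add (by positivity) (by positivity)]
    have h1 := ENNReal.toReal_mono ENNReal.ofReal_ne_top hN
    rw [ENNReal.toReal_ofReal (by positivity)] at h1
    linarith
  have := iter_limit (x := S.nrmV R Y)
    (f := fun δ => K * (2 * ρ) ^ m * (lam + δ) + 2 ^ m * (2 * δ) + δ)
    (by fun_prop) main
  simpa using this

/-- The model. -/
noncomputable def vModel (R : ℕ) (hK : 0 < K) (hρ : 0 < ρ) : VModel (S.VV R) K ρ where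
  nrm := S.nrmV R
  P := S.PL R
  comp := S.PL_comp R
  lower := S.nrmV_lower R
  upper := fun m e he y lam hy => S.nrmV_upper R m e he y lam hy hK hρ

end CutSpace

end Pool.Agent.H82.Um
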