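import Pool.Agent.H82.Um.IterP

/-!
MODULE ITERG (helper82, MP_98b928_an). Generic lists: the iterated limits are approximated by cuts.

`exists_cut_approx`: `X` satisfies a lower `2`-estimate, so there is no infinite sequence of disjoint
pieces of norm `> ε`: otherwise, starting with `A₀`, choose recursively finite sets
`A₀ ⊆ A₁ ⊆ ...` with `N (indicator ({supp ⊆ A (n+1)} \ {supp ⊆ A n}) x) > ε / 2` for all `n` (by `N_fin`
there is a finite set `F` of coordinates with `N (indicator (F ∩ {¬ supp ⊆ A n}) x) > ε / 2`; put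
`A (n+1) = A n ∪ ⋃ b ∈ F, supp b`), and `N_lower` gives `n * (ε/2)^2 ≤ N x ^ 2 < ⊤` for all `n`.
(For `ε = ⊤` replace `ε` by `1`.)

`generic`. For a list `l` of length `r ≤ R` write `cur m l b` for the iterated limit
`IL (R - r) (y m · b) l`, and `P i l b = IL (R - i) (y m · b) (l.take i)` for `i ≤ r`; both have `RIL`
(`VV_bdd`, `ril_il_of_bdd`). Claim for all `l` of length `r`: if `A : ℕ → Finset I` is monotone and
for all `m < n`, `i ≤ r`
  (α) `N (indicator {¬ supp ⊆ A i} (P i l)) ≤ ε / 2`,
  (β) `N (indicator {supp ⊆ A i} (cur m l - P i l)) < ε / 2`,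
then `Ev (R - r) (good) l`. Induction on `R - r`. For `r = R`, `cur m l = y m l`, and `good` follows by
the triangle inequality (for `i > R` take `A i = A R`, `Pfun R i = Pfun R R`; `Pfun R i (y m) l` is
`P i l`). Step: `cur m l b` is the limit along `UU` of `cur m (l ++ [j]) b`; the set `{supp ⊆ A i}` is
finite (`S.fin`), so (β) for `cur m (l ++ [j])` holds for almost all `j` (`N` of a finitely supported
vector is at most the sum of `|x b| * N (indicator {b} 1)`, each tends to `0`; finitely many `m`, `i`);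
for each such `j` choose `A (r+1) ⊇ A r` with (α) for `i = r + 1` (`exists_cut_approx`, applied
successively to `m < n`; (α) is monotone in the set); (β) for `i = r+1` is `N 0 = 0 < ε / 2`.
-/

namespace Pool.Agent.H82.Um

open Filter Topology
open scoped ENNReal NNReal
open Pool.Agent.H53.Umb (UU ul IL RIL ril_il_of_bdd)

namespace CutSpace

variable {B I : Type} {K ρ : ℝ} (S : CutSpace B I K ρ)

/-- A vector of finite norm is approximated by its cuts. -/
theorem exists_cut_approx (x : B → ℝ) (hx : S.N x < ⊤) (A₀ : Finset I) (ε : ℝ≥0∞) (hε : 0 < ε) :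
    ∃ A : Finset I, A₀ ⊆ A ∧ S.N ({b | ¬ S.supp b ⊆ A}.indicator x) ≤ ε := by
  classical
  by_contra hcon
  push Not at hcon
  have hεtop : ε ≠ ⊤ := by
    rintro rfl
    exact absurd (hcon A₀ subset_rfl) (by simp)
  have hε2 : ε / 2 < ε := ENNReal.half_lt_self hε.ne' hεtop
  -- one step
  have step : ∀ A : {A : Finset I // A₀ ⊆ A}, ∃ A' : {A : Finset I // A₀ ⊆ A}, A.1 ⊆ A'.1 ∧
      ε / 2 < S.N ({b | S.supp b ⊆ A'.1 ∧ ¬ S.supp b ⊆ A.1}.indicator x) := by
    rintro ⟨A, hA⟩
    have h1 := hcon A hA
    have h2 : ¬ ∀ F : Set B, F.Finite →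
        S.N (F.indicator ({b | ¬ S.supp b ⊆ A}.indicator x)) ≤ ε / 2 := by
      intro h3
      exact absurd (S.N_fin _ _ h3) (not_le.2 (hε2.trans h1))
    push Not at h2
    obtain ⟨F, hF, h4⟩ := h2
    refine ⟨⟨A ∪ hF.toFinset.biUnion S.supp, hA.trans Finset.subset_union_left⟩,
      Finset.subset_union_left, lt_of_lt_of_le h4 (S.N_mono _ _ fun b => ?_)⟩
    by_cases hb : b ∈ F
    · rw [Set.indicator_of_mem hb]
      by_cases hb2 : S.supp b ⊆ A
      · rw [Set.indicator_of_notMem (by simpa using hb2)]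
        simp
      · have hb3 : b ∈ {b | S.supp b ⊆ A ∪ hF.toFinset.biUnion S.supp ∧ ¬ S.supp b ⊆ A} := by
          refine ⟨?_, hb2⟩
          refine subset_trans ?_ Finset.subset_union_right
          exact Finset.subset_biUnion_of_mem S.supp (by simpa using hb)
        rw [Set.indicator_of_mem (by simpa using hb2), Set.indicator_of_mem hb3]
    · rw [Set.indicator_of_notMem hb]
      simp
  choose nxt hn1 hn2 using step
  set A : ℕ → {A : Finset I // A₀ ⊆ A} := fun n => nxt^[n] ⟨A₀, subset_rfl⟩ with hAdef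
  have hAs : ∀ n, A (n + 1) = nxt (A n) := fun n => by
    simp only [hAdef]
    rw [Function.iterate_succ_apply']
  have hmono : Monotone (fun n => (A n).1) := monotone_nat_of_le_succ fun n => by
    rw [hAs]; exact hn1 _
  set E : ℕ → Set B := fun n => {b | S.supp b ⊆ (A (n + 1)).1 ∧ ¬ S.supp b ⊆ (A n).1} with hE
  have hdis : ∀ i j, i < j → Disjoint (E i) (E j) := by
    intro i j hij
    rw [Set.disjoint_left]
    rintro b ⟨h1, -⟩ ⟨-, h2⟩
    exact h2 (h1.trans (hmono (by omega)))
  have hbig : ∀ n : ℕ, (n : ℝ≥0∞) * (ε / 2) ^ 2 ≤ S.N x ^ 2 := by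
    intro n
    have h1 := S.N_lower (Finset.range n) E (fun i _ j _ hij => by
      rcases lt_or_gt_of_ne hij with h | h
      · exact hdis i j h
      · exact (hdis j i h).symm) x
    refine le_trans ?_ h1
    calc (n : ℝ≥0∞) * (ε / 2) ^ 2 = ∑ _j ∈ Finset.range n, (ε / 2) ^ 2 := by
          rw [Finset.sum_const, Finset.card_range, nsmul_eq_mul]
      _ ≤ _ := by
          apply Finset.sum_le_sum
          intro j _
          apply pow_le_pow_left' (le_of_lt _)
          have := hn2 (A j)
          rw [← hAs] at this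
          exact this
  have hne : (ε / 2) ^ 2 ≠ 0 := pow_ne_zero _ (ENNReal.half_pos hε.ne').ne'
  obtain ⟨n, hn⟩ := ENNReal.exists_nat_mul_gt hne (ENNReal.pow_ne_top hx.ne (n := 2))
  exact absurd (hbig n) (not_le.2 hn)

/-- finitely many vectors -/
private theorem iterg_cut_approx_many (n : ℕ) (x : ℕ → B → ℝ) (hx : ∀ m < n, S.N (x m) < ⊤)
    (A₀ : Finset I) (ε : ℝ≥0∞) (hε : 0 < ε) :
    ∃ A : Finset I, A₀ ⊆ A ∧ ∀ m < n, S.N ({b | ¬ S.supp b ⊆ A}.indicator (x m)) ≤ ε := by
  induction n with
  | zero => exact ⟨A₀, subset_rfl, fun m hm => absurd hm (Nat.not_lt_zero m)⟩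
  | succ n ih =>
    obtain ⟨A, hA, h1⟩ := ih (fun m hm => hx m (Nat.lt_succ_of_lt hm))
    obtain ⟨A', hA', h2⟩ := S.exists_cut_approx (x n) (hx n (Nat.lt_succ_self n)) A ε hε
    refine ⟨A', hA.trans hA', fun m hm => ?_⟩
    rcases Nat.lt_succ_iff_lt_or_eq.1 hm with h3 | rfl
    · refine (S.N_mono _ _ fun b => ?_).trans (h1 m h3)
      by_cases hb : S.supp b ⊆ A'
      · rw [Set.indicator_of_notMem (by simpa using hb)]
        simp
      · have hb2 : ¬ S.supp b ⊆ A := fun h => hb (h.trans hA')
        rw [Set.indicator_of_mem (by simpa using hb), Set.indicator_of_mem (by simpa using hb2)]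
    · exact h2

/-- the current iterated limit -/
private noncomputable def iterg_cur {R : ℕ} (y : S.VV R) (l : List ℕ) : B → ℝ := fun b =>
  IL (R - l.length) (fun l' => y.1 l' b) l

private theorem iterg_cur_ril {R : ℕ} (y : S.VV R) (l : List ℕ) (b : B) :
    RIL (R - l.length) (fun l' => y.1 l' b) l (S.iterg_cur y l b) := by
  obtain ⟨M, hM⟩ := S.VV_bdd y b
  exact ril_il_of_bdd (M := M) fun m _ => hM _

private theorem iterg_cur_lt_top {R : ℕ} (y : S.VV R) (l : List ℕ) (hl : l.length ≤ R) :
    S.N (S.iterg_cur y l) < ⊤ := by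
  obtain ⟨M, hM⟩ := y.2.1
  refine lt_of_le_of_lt (S.N_ril_le (fun b => S.iterg_cur_ril y l b) (M := M) fun m hm => ?_)
    ENNReal.coe_lt_top
  apply hM
  rw [List.length_append, hm]; omega

private theorem iterg_cur_tendsto {R : ℕ} (y : S.VV R) (l : List ℕ) (hl : l.length < R) (b : B) :
    Tendsto (fun q => S.iterg_cur y (l ++ [q]) b) (UU : Filter ℕ) (𝓝 (S.iterg_cur y l b)) := by
  have h1 := S.iterg_cur_ril y l b
  obtain ⟨r, hr⟩ : ∃ r, R - l.length = r + 1 := ⟨R - l.length - 1, by omega⟩
  rw [hr] at h1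
  obtain ⟨a', h2, h3⟩ := h1
  have h4 : (fun q => S.iterg_cur y (l ++ [q]) b) = a' := by
    funext q
    unfold iterg_cur
    have : R - (l ++ [q]).length = r := by
      rw [List.length_append, List.length_singleton]; omega
    rw [this]
    exact (h2 q).il_eq
  rw [h4]
  exact h3

private theorem iterg_N_fin_sum (A : Finset I) (x : B → ℝ) :
    S.N ({b | S.supp b ⊆ A}.indicator x) ≤
      ∑ b ∈ (S.fin A).toFinset, ENNReal.ofReal |x b| * S.N (Set.indicator {b} 1) := by
  classical
  have e : {b | S.supp b ⊆ A}.indicator x =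
      ∑ b ∈ (S.fin A).toFinset, x b • (Set.indicator {b} 1 : B → ℝ) := by
    funext c
    rw [Finset.sum_apply]
    by_cases hc : S.supp c ⊆ A
    · rw [Set.indicator_of_mem (by simpa using hc), Finset.sum_eq_single c]
      · simp
      · intro b _ hb
        simp [Ne.symm hb]
      · intro h
        exact absurd ((S.fin A).mem_toFinset.2 hc) h
    · rw [Set.indicator_of_notMem (by simpa using hc)]
      symm
      apply Finset.sum_eq_zero
      intro b hb
      have hb' := (S.fin A).mem_toFinset.1 hb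
      have : c ≠ b := by
        rintro rfl
        exact hc hb'
      simp [this]
  rw [e]
  refine (S.N_sum_le _ _).trans (Finset.sum_le_sum fun b _ => ?_)
  rw [S.N_smul]

private theorem iterg_tendsto_N (A : Finset I) (x : ℕ → B → ℝ) (x0 : B → ℝ)
    (h : ∀ b, Tendsto (fun q => x q b) (UU : Filter ℕ) (𝓝 (x0 b))) (δ : ℝ≥0∞) (hδ : 0 < δ) :
    ∀ᶠ q in (UU : Filter ℕ), S.N ({b | S.supp b ⊆ A}.indicator (x q - x0)) < δ := by
  have h1 : Tendsto (fun q => ∑ b ∈ (S.fin A).toFinset,
      ENNReal.ofReal |(x q - x0) b| * S.N (Set.indicator {b} 1)) (UU : Filter ℕ) (𝓝 0) := by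
    rw [← Finset.sum_const_zero (s := (S.fin A).toFinset)]
    apply tendsto_finsetSum
    intro b _
    have h2 : Tendsto (fun q => ENNReal.ofReal |(x q - x0) b|) (UU : Filter ℕ) (𝓝 0) := by
      have h3 : Tendsto (fun q => |(x q - x0) b|) (UU : Filter ℕ) (𝓝 0) := by
        have h4 := ((h b).sub_const (x0 b)).abs
        rw [sub_self, abs_zero] at h4
        exact h4
      have h5 := ENNReal.tendsto_ofReal h3
      rwa [ENNReal.ofReal_zero] at h5
    have h6 := ENNReal.Tendsto.mul_const (b := S.N (Set.indicator {b} 1)) h2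
      (Or.inr (S.N_single b).ne)
    rwa [zero_mul] at h6
  exact (h1.eventually_lt_const hδ).mono fun q hq =>
    lt_of_le_of_lt (S.iterg_N_fin_sum A _) hq

private theorem iterg_half {ε : ℝ≥0∞} (hε : 0 < ε) : 0 < ε / 2 := ENNReal.half_pos hε.ne'

private theorem iterg_ind {R n : ℕ} (y : ℕ → S.VV R) (ε : ℝ≥0∞) (hε : 0 < ε) (j : ℕ) :
    ∀ l : List ℕ, l.length + j = R → ∀ A : ℕ → Finset I, Monotone A →
    (∀ m < n, ∀ i ≤ l.length,
      S.N ({b | ¬ S.supp b ⊆ A i}.indicator (S.iterg_cur (y m) (l.take i))) ≤ ε / 2 ∧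
      S.N ({b | S.supp b ⊆ A i}.indicator (S.iterg_cur (y m) l - S.iterg_cur (y m) (l.take i)))
        < ε / 2) →
    Ev j (fun l => ∃ A : ℕ → Finset I, Monotone A ∧ ∀ m < n, ∀ i : ℕ,
      S.N (Pfun R i (y m).1 l - {b | S.supp b ⊆ A i}.indicator ((y m).1 l)) ≤ ε) l := by
  classical
  induction j with
  | zero =>
    intro l hl A hA h
    rw [Nat.add_zero] at hl
    show ∃ A : ℕ → Finset I, Monotone A ∧ ∀ m < n, ∀ i : ℕ,
      S.N (Pfun R i (y m).1 l - {b | S.supp b ⊆ A i}.indicator ((y m).1 l)) ≤ ε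
    refine ⟨fun i => A (min i R), fun a b hab => hA (min_le_min_right _ hab), ?_⟩
    intro m hm i
    have hcur : ∀ i ≤ R, Pfun R i (y m).1 l = S.iterg_cur (y m) (l.take i) := by
      intro i hi
      funext b
      unfold Pfun iterg_cur
      rw [if_pos hl, List.length_take, min_eq_left (by omega)]
    have hcurl : S.iterg_cur (y m) l = (y m).1 l := by
      funext b
      unfold iterg_cur
      rw [hl, Nat.sub_self]
      rfl
    have hP : Pfun R i (y m).1 l = Pfun R (min i R) (y m).1 l := by
      funext b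
      unfold Pfun
      rw [if_pos hl, if_pos hl]
      rcases le_total i R with hi | hi
      · rw [min_eq_left hi]
      · rw [min_eq_right hi, List.take_of_length_le (by omega), List.take_of_length_le (by omega)]
        congr 1
        omega
    rw [hP]
    simp only
    set i' := min i R with hi'
    have hi'R : i' ≤ R := min_le_right _ _
    obtain ⟨h1, h2⟩ := h m hm i' (by omega)
    rw [hcur i' hi'R]
    rw [hcurl] at h2
    set P := S.iterg_cur (y m) (l.take i') with hPdef
    have e : P - {b | S.supp b ⊆ A i'}.indicator ((y m).1 l) =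
        {b | ¬ S.supp b ⊆ A i'}.indicator P -
          {b | S.supp b ⊆ A i'}.indicator ((y m).1 l - P) := by
      funext b
      by_cases hb : S.supp b ⊆ A i'
      · simp [Set.indicator, hb]
      · simp [Set.indicator, hb]
    rw [e]
    calc _ ≤ _ := S.N_sub_le _ _
      _ ≤ ε / 2 + ε / 2 := add_le_add h1 h2.le
      _ = ε := ENNReal.add_halves ε
  | succ j ih =>
    intro l hl A hA h
    show ∀ᶠ q in (UU : Filter ℕ), Ev j _ (l ++ [q])
    have hlR : l.length < R := by omega
    have hev : ∀ᶠ q in (UU : Filter ℕ), ∀ m ∈ Finset.range n, ∀ i ∈ Finset.range (l.length + 1),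
        S.N ({b | S.supp b ⊆ A i}.indicator
          (S.iterg_cur (y m) (l ++ [q]) - S.iterg_cur (y m) (l.take i))) < ε / 2 := by
      rw [Filter.eventually_all_finset]
      intro m hm
      rw [Filter.eventually_all_finset]
      intro i hi
      rw [Finset.mem_range] at hm hi
      have h2 := (h m hm i (by omega)).2
      have h3 := S.iterg_tendsto_N (A i) (fun q => S.iterg_cur (y m) (l ++ [q]))
        (S.iterg_cur (y m) l) (fun b => S.iterg_cur_tendsto (y m) l hlR b)
        (ε / 2 - S.N ({b | S.supp b ⊆ A i}.indicator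
          (S.iterg_cur (y m) l - S.iterg_cur (y m) (l.take i)))) (tsub_pos_of_lt h2)
      refine h3.mono fun q hq => ?_
      rw [lt_tsub_iff_left] at hq
      refine lt_of_le_of_lt ?_ hq
      refine le_trans (le_of_eq ?_) (S.N_add _ _)
      congr 1
      rw [← Set.indicator_add']
      congr 1
      abel
    refine hev.mono fun q hq => ?_
    obtain ⟨A', hA', hα⟩ := S.iterg_cut_approx_many n (fun m => S.iterg_cur (y m) (l ++ [q]))
      (fun m _ => S.iterg_cur_lt_top (y m) _ (by
        rw [List.length_append, List.length_singleton]; omega)) (A l.length) (ε / 2)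
      (iterg_half hε)
    apply ih (l ++ [q]) (by rw [List.length_append, List.length_singleton]; omega)
      (fun i => if i ≤ l.length then A i else A')
    · intro a b hab
      simp only
      split_ifs with h1 h2 h2
      · exact hA hab
      · exact (hA h1).trans hA'
      · omega
      · exact le_rfl
    · intro m hm i hi
      rw [List.length_append, List.length_singleton] at hi
      by_cases hil : i ≤ l.length
      · rw [if_pos hil, List.take_append_of_le_length hil]
        exact ⟨(h m hm i hil).1, hq m (Finset.mem_range.2 hm) i (Finset.mem_range.2 (by omega))⟩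
      · have hieq : i = l.length + 1 := by omega
        rw [if_neg hil]
        have htake : (l ++ [q]).take i = l ++ [q] := by
          apply List.take_of_length_le
          rw [List.length_append, List.length_singleton]; omega
        rw [htake]
        refine ⟨hα m hm, ?_⟩
        rw [sub_self, Set.indicator_zero', S.N_zero]
        exact iterg_half hε

theorem generic (R n : ℕ) (y : ℕ → S.VV R) (ε : ℝ≥0∞) (hε : 0 < ε) :
    Ev R (fun l => ∃ A : ℕ → Finset I, Monotone A ∧ ∀ m < n, ∀ i : ℕ,
      S.N (Pfun R i (y m).1 l - {b | S.supp b ⊆ A i}.indicator ((y m).1 l)) ≤ ε) [] := by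
  obtain ⟨A, -, hA⟩ := S.iterg_cut_approx_many n (fun m => S.iterg_cur (y m) [])
    (fun m _ => S.iterg_cur_lt_top (y m) _ (by simp)) ∅ (ε / 2) (iterg_half hε)
  apply S.iterg_ind y ε hε R [] (by simp) (fun _ => A) (fun _ _ _ => le_rfl)
  intro m hm i hi
  rw [List.take_nil]
  refine ⟨hA m hm, ?_⟩
  rw [sub_self, Set.indicator_zero', S.N_zero]
  exact iterg_half hε

end CutSpace

end Pool.Agent.H82.Um
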