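import Mathlib

/-!
MP_98b928_an (helper82). The abstract model for functions of `R` integer variables with iterated
weak limits: a seminorm `nrm` and commuting projections `P i` (iterated limit in the variables after
the `i`-th one) with a lower `2`-estimate and an upper estimate for successive blocks.
-/

namespace Pool.Agent.H82.Um

structure VModel (V : Type) [AddCommGroup V] [Module ℝ V] (K ρ : ℝ) where
  nrm : Seminorm ℝ V
  P : ℕ → V →ₗ[ℝ] V
  comp : ∀ i j y, P i (P j y) = P (min i j) y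
  lower : ∀ (J : Finset ℕ) (lo hi : ℕ → ℕ), (∀ i ∈ J, lo i ≤ hi i) →
    (∀ i ∈ J, ∀ j ∈ J, i ≠ j → hi i ≤ lo j ∨ hi j ≤ lo i) →
    ∀ y, ∑ i ∈ J, nrm (P (hi i) y - P (lo i) y) ^ 2 ≤ nrm y ^ 2
  upper : ∀ (m : ℕ) (e : ℕ → ℕ), Monotone e → ∀ (y : ℕ → V) (lam : ℝ),
    (∀ j < 2 ^ m, P (e (j + 1)) (y j) = y j ∧ P (e j) (y j) = 0 ∧ nrm (y j) ≤ lam) →
    nrm (∑ j ∈ Finset.range (2 ^ m), y j) ≤ K * (2 * ρ) ^ m * lam

end Pool.Agent.H82.Um
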