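import Pool.Agent.H82.Um.CutSpace
import Pool.Agent.H82.Um.VModel
import Pool.Agent.H82.Um.Ev

/-!
MODULE ITERP (helper82, MP_98b928_an). The bounded functions of `R` integer variables with values in a
cut space (functions on the lists of length `R`; `0` on other lists), the coordinatewise iterated
ultralimits `Pfun R i` (in the variables after the `i`-th one) as linear maps `PL R i`, and the seminorm
`nrmV` (iterated ultralimit of the norms).

Proofs. `VV_bdd` is `N_coord`. `Pfun_ril`: `ril_il_of_bdd`. `N_ril_le`: by `N_fin`; for a finite set `F`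
of coordinates the values `y (l ++ m) b`, `b ∈ F`, are close to `x b` for `Ev`-almost all `m` (`ev_lt` for
`y b - x b` and its negative), so `N (F.indicator x) ≤ N (F.indicator (y (l ++ m))) + (small)`
(`N_sum_le`, `N_smul`, `N_single`). `Pfun_mem`: `N_ril_le`. `PL`: linearity of `RIL` (`RIL.add`,
`RIL.const_mul`, `RIL.il_eq`). `PL_comp`: for `i ≤ j` `RIL.comp` (with `RIL.congr`); for `j < i` the
function `Pfun R j y l b` only depends on `l.take j`, so the limit in the variables after the `i`-th is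
the limit of a constant (`RIL.const`, `RIL.congr`). `nrmV`: `RIL.add`, `RIL.mono`, `RIL.const_mul`.
-/

namespace Pool.Agent.H82.Um

open Filter Topology
open scoped ENNReal NNReal
open Pool.Agent.H53.Umb (UU ul IL RIL)

/-- Coordinatewise iterated limit in the variables after the `i`-th one. -/
noncomputable def Pfun {B : Type} (R i : ℕ) (y : List ℕ → B → ℝ) : List ℕ → B → ℝ := fun l b =>
  open Classical in if l.length = R then IL (R - i) (fun l' => y l' b) (l.take i) else 0

namespace CutSpace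

variable {B I : Type} {K ρ : ℝ} (S : CutSpace B I K ρ)

/-- The bounded functions on the lists of length `R`. -/
def VV (R : ℕ) : Submodule ℝ (List ℕ → B → ℝ) where
  carrier := {y | (∃ M : ℝ≥0, ∀ l, l.length = R → S.N (y l) ≤ M) ∧ ∀ l, l.length ≠ R → y l = 0}
  add_mem' := by
    rintro x y ⟨⟨M, hM⟩, h1⟩ ⟨⟨M', hM'⟩, h2⟩
    refine ⟨⟨M + M', fun l hl => ?_⟩, fun l hl => ?_⟩
    · rw [ENNReal.coe_add]
      exact (S.N_add _ _).trans (add_le_add (hM l hl) (hM' l hl))
    · simp [h1 l hl, h2 l hl]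
  zero_mem' := ⟨⟨0, fun l _ => by simp [S.N_zero]⟩, fun l _ => rfl⟩
  smul_mem' := by
    rintro r x ⟨⟨M, hM⟩, h1⟩
    refine ⟨⟨Real.toNNReal |r| * M, fun l hl => ?_⟩, fun l hl => ?_⟩
    · rw [ENNReal.coe_mul, Pi.smul_apply, S.N_smul]
      exact mul_le_mul' le_rfl (hM l hl)
    · simp [h1 l hl]

theorem VV_bdd {R : ℕ} (y : S.VV R) (b : B) : ∃ M : ℝ, ∀ l, |y.1 l b| ≤ M := by
  obtain ⟨⟨M, hM⟩, h0⟩ := y.2
  refine ⟨(M : ℝ), fun l => ?_⟩
  by_cases hl : l.length = R
  · have h1 := (S.N_coord (y.1 l) b).trans (hM l hl)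
    rw [ENNReal.ofReal_le_iff_le_toReal ENNReal.coe_ne_top] at h1
    simpa using h1
  · rw [h0 l hl]
    simp

theorem Pfun_ril {R : ℕ} (i : ℕ) (y : S.VV R) (l : List ℕ) (hl : l.length = R) (b : B) :
    RIL (R - i) (fun l' => y.1 l' b) (l.take i) (Pfun R i y.1 l b) := by
  obtain ⟨M, hM⟩ := S.VV_bdd y b
  unfold Pfun
  rw [if_pos hl]
  exact Pool.Agent.H53.Umb.ril_il_of_bdd (M := M) fun m _ => hM _

theorem ev_finset {ι : Type*} (s : Finset ι) {r : ℕ} {Q : ι → List ℕ → Prop} {l : List ℕ}
    (h : ∀ b ∈ s, Ev r (Q b) l) : Ev r (fun m => ∀ b ∈ s, Q b m) l := by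
  classical
  induction s using Finset.induction_on with
  | empty => exact Ev.of_forall fun m _ b hb => absurd hb (Finset.notMem_empty b)
  | insert i s hi ih =>
    refine ((h i (Finset.mem_insert_self _ _)).and
      (ih fun b hb => h b (Finset.mem_insert_of_mem hb))).mono fun m _ hm b hb => ?_
    rcases Finset.mem_insert.1 hb with rfl | hb
    · exact hm.1
    · exact hm.2 b hb

/-- The norm is lower semicontinuous along iterated coordinatewise limits. -/
theorem N_ril_le {r : ℕ} {y : List ℕ → B → ℝ} {l : List ℕ} {x : B → ℝ} {M : ℝ≥0∞}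
    (hx : ∀ b, RIL r (fun l' => y l' b) l (x b))
    (hM : ∀ m : List ℕ, m.length = r → S.N (y (l ++ m)) ≤ M) : S.N x ≤ M := by
  classical
  refine S.N_fin x M fun F hF => ?_
  refine ENNReal.le_of_forall_pos_le_add fun ε hε _ => ?_
  set s : Finset B := hF.toFinset with hs
  set D : ℝ≥0∞ := ∑ b ∈ s, S.N (Set.indicator {b} 1) with hD
  have hDt : D ≠ ⊤ := by
    rw [hD]
    exact ENNReal.sum_ne_top.2 fun b _ => (S.N_single b).ne
  obtain ⟨δ, hδ, hδD⟩ : ∃ δ : ℝ, 0 < δ ∧ ENNReal.ofReal δ * D ≤ ε := by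
    refine ⟨ε / (D.toReal + 1), by positivity, ?_⟩
    have h1 : D = ENNReal.ofReal D.toReal := (ENNReal.ofReal_toReal hDt).symm
    rw [h1, ← ENNReal.ofReal_mul (by positivity), ← ENNReal.ofReal_coe_nnreal]
    refine ENNReal.ofReal_le_ofReal ?_
    rw [ENNReal.toReal_ofReal ENNReal.toReal_nonneg, div_mul_eq_mul_div, div_le_iff₀ (by positivity)]
    have := ENNReal.toReal_nonneg (a := D)
    have h2 : (0 : ℝ) ≤ ε := ε.2
    nlinarith
  have hev : Ev r (fun m => ∀ b ∈ s, |y m b - x b| < δ) l := by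
    refine ev_finset s fun b _ => ?_
    have h1 := ev_lt (hx b) (show x b < x b + δ by linarith)
    have h2 := ev_gt (hx b) (show x b - δ < x b by linarith)
    refine (h1.and h2).mono fun m _ hm => ?_
    rw [abs_lt]
    exact ⟨by linarith [hm.2], by linarith [hm.1]⟩
  obtain ⟨m, hm, hmQ⟩ := hev.exists
  have hdec : F.indicator x = F.indicator (y (l ++ m)) +
      ∑ b ∈ s, (x b - y (l ++ m) b) • (Set.indicator {b} 1 : B → ℝ) := by
    funext b
    rw [Pi.add_apply, Finset.sum_apply]
    have h1 : ∑ c ∈ s, ((x c - y (l ++ m) c) • (Set.indicator {c} 1 : B → ℝ)) b =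
        if b ∈ s then x b - y (l ++ m) b else 0 := by
      by_cases hb : b ∈ s
      · rw [if_pos hb, Finset.sum_eq_single b]
        · simp
        · intro c _ hcb
          simp [Ne.symm hcb]
        · intro h
          exact absurd hb h
      · rw [if_neg hb]
        refine Finset.sum_eq_zero fun c hc => ?_
        have hcb : b ≠ c := by
          rintro rfl
          exact hb hc
        simp [hcb]
    rw [h1]
    by_cases hb : b ∈ F
    · have hb' : b ∈ s := by rw [hs]; simpa using hb
      rw [if_pos hb', Set.indicator_of_mem hb, Set.indicator_of_mem hb]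
      ring
    · have hb' : b ∉ s := by rw [hs]; simpa using hb
      rw [if_neg hb', Set.indicator_of_notMem hb, Set.indicator_of_notMem hb, add_zero]
  rw [hdec]
  refine (S.N_add _ _).trans (add_le_add ((S.N_indicator_le _ _).trans (hM m hm)) ?_)
  refine (S.N_sum_le _ _).trans ?_
  refine le_trans ?_ hδD
  rw [hD, Finset.mul_sum]
  refine Finset.sum_le_sum fun b hb => ?_
  rw [S.N_smul]
  refine mul_le_mul_left (ENNReal.ofReal_le_ofReal ?_) _
  rw [abs_sub_comm]
  exact (hmQ b hb).le

theorem Pfun_mem {R : ℕ} (i : ℕ) (y : S.VV R) : Pfun R i y.1 ∈ S.VV R := by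
  obtain ⟨⟨M, hM⟩, h0⟩ := y.2
  refine ⟨⟨M, fun l hl => ?_⟩, fun l hl => ?_⟩
  · refine S.N_ril_le (r := R - i) (y := y.1) (l := l.take i) (fun b => S.Pfun_ril i y l hl b)
      fun m hm => hM _ ?_
    rw [List.length_append, List.length_take, hl, hm]
    omega
  · funext b
    unfold Pfun
    rw [if_neg hl]
    rfl

/-- The projections. -/
noncomputable def PL (R i : ℕ) : S.VV R →ₗ[ℝ] S.VV R where
  toFun y := ⟨Pfun R i y.1, S.Pfun_mem i y⟩
  map_add' := by
    intro x y
    apply Subtype.ext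
    funext l b
    change Pfun R i (x + y : S.VV R).1 l b = Pfun R i x.1 l b + Pfun R i y.1 l b
    by_cases hl : l.length = R
    · have h1 := S.Pfun_ril i (x + y) l hl b
      have h2 := (S.Pfun_ril i x l hl b).add (S.Pfun_ril i y l hl b)
      exact h1.unique (h2.congr fun m _ => rfl)
    · unfold Pfun
      rw [if_neg hl, if_neg hl, if_neg hl, add_zero]
  map_smul' := by
    intro r x
    apply Subtype.ext
    funext l b
    change Pfun R i (r • x : S.VV R).1 l b = r * Pfun R i x.1 l b
    by_cases hl : l.length = R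
    · have h1 := S.Pfun_ril i (r • x) l hl b
      have h2 := (S.Pfun_ril i x l hl b).const_mul r
      exact h1.unique (h2.congr fun m _ => rfl)
    · unfold Pfun
      rw [if_neg hl, if_neg hl, mul_zero]

theorem PL_val (R i : ℕ) (y : S.VV R) : (S.PL R i y).1 = Pfun R i y.1 := rfl

theorem Pfun_of_ne {R i : ℕ} {y : List ℕ → B → ℝ} {l : List ℕ} (hl : l.length ≠ R) (b : B) :
    Pfun R i y l b = 0 := by
  unfold Pfun
  rw [if_neg hl]

theorem Pfun_of_eq {R i : ℕ} {y : List ℕ → B → ℝ} {l : List ℕ} (hl : l.length = R) (b : B) :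
    Pfun R i y l b = IL (R - i) (fun l' => y l' b) (l.take i) := by
  unfold Pfun
  rw [if_pos hl]

theorem PL_of_le' (R i : ℕ) (hi : R ≤ i) (y : S.VV R) : S.PL R i y = y := by
  apply Subtype.ext
  funext l b
  rw [PL_val]
  by_cases hl : l.length = R
  · rw [Pfun_of_eq hl, Nat.sub_eq_zero_of_le hi]
    change y.1 (l.take i) b = y.1 l b
    rw [List.take_of_length_le (by omega)]
  · rw [Pfun_of_ne hl]
    have := y.2.2 l hl
    rw [this]
    rfl

theorem PL_comp (R i j : ℕ) (y : S.VV R) : S.PL R i (S.PL R j y) = S.PL R (min i j) y := by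
  rcases le_or_gt R j with hj | hj
  · rw [S.PL_of_le' R j hj]
    rcases le_total i j with hij | hij
    · rw [min_eq_left hij]
    · rw [min_eq_right hij, S.PL_of_le' R j hj, S.PL_of_le' R i (hj.trans hij)]
  apply Subtype.ext
  funext l b
  change Pfun R i (Pfun R j y.1) l b = Pfun R (min i j) y.1 l b
  by_cases hl : l.length = R
  swap
  · rw [Pfun_of_ne hl, Pfun_of_ne hl]
  obtain ⟨M, hM⟩ := S.VV_bdd y b
  have hd := S.Pfun_ril i (S.PL R j y) l hl b
  rw [PL_val] at hd
  rcases lt_or_ge j i with hij | hij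
  · rw [min_eq_right hij.le]
    refine hd.unique ((RIL.const (R - i) (Pfun R j y.1 l b) (l.take i)).congr fun m hm => ?_)
    have h1 : (l.take i ++ m).length = R := by
      rw [List.length_append, List.length_take, hl, hm]
      omega
    rw [Pfun_of_eq h1, Pfun_of_eq hl, List.take_append_of_le_length, List.take_take,
      min_eq_left hij.le]
    rw [List.length_take, hl]
    omega
  · rw [min_eq_left hij]
    have hc := S.Pfun_ril i y l hl b
    set h' : List ℕ → ℝ := fun m => IL (R - j) (fun l' => y.1 l' b) m with hh'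
    have hb : ∀ m : List ℕ, RIL (R - j) (fun l' => y.1 l' b) m (h' m) := fun m =>
      Pool.Agent.H53.Umb.ril_il_of_bdd (M := M) fun m' _ => hM _
    have hb' : ∀ m : List ℕ, |h' m| ≤ M := by
      intro m
      obtain ⟨a, ha, ha'⟩ := Pool.Agent.H53.Umb.exists_RIL (r := R - j)
        (h := fun l' => y.1 l' b) (l := m) (M := M) fun m' _ => hM _
      rw [(hb m).unique ha']
      exact ha
    obtain ⟨d, _, hd'⟩ := Pool.Agent.H53.Umb.exists_RIL (r := j - i) (h := h') (l := l.take i)
      (M := M) fun m' _ => hb' _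
    have h1 : RIL ((j - i) + (R - j)) (fun l' => y.1 l' b) (l.take i) d :=
      RIL.comp (fun m _ => hb _) hd'
    have h2 : RIL ((j - i) + (R - j)) (fun l' => Pfun R j y.1 l' b) (l.take i) d := by
      refine RIL.comp (h' := h') (fun m hm => ?_) hd'
      refine (RIL.const (R - j) (h' (l.take i ++ m)) (l.take i ++ m)).congr fun m' hm' => ?_
      have h3 : (l.take i ++ m).length = j := by
        rw [List.length_append, List.length_take, hl, hm]
        omega
      have h4 : (l.take i ++ m ++ m').length = R := by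
        rw [List.length_append, h3, hm']
        omega
      rw [Pfun_of_eq h4, List.take_append_of_le_length h3.ge, List.take_of_length_le h3.le]
    have e : j - i + (R - j) = R - i := by omega
    rw [e] at h1 h2
    exact (hd.unique h2).trans (h1.unique hc)

theorem PL_of_le (R i : ℕ) (hi : R ≤ i) (y : S.VV R) : S.PL R i y = y := S.PL_of_le' R i hi y

theorem ril_N {R : ℕ} (y : S.VV R) : RIL R (fun l => (S.N (y.1 l)).toReal) []
    (IL R (fun l => (S.N (y.1 l)).toReal) []) := by
  obtain ⟨⟨M, hM⟩, h0⟩ := y.2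
  refine Pool.Agent.H53.Umb.ril_il_of_bdd (M := M) fun m hm => ?_
  rw [List.nil_append, abs_of_nonneg ENNReal.toReal_nonneg]
  exact ENNReal.toReal_le_coe_of_le_coe (hM m hm)

theorem N_ne_top {R : ℕ} (y : S.VV R) (l : List ℕ) (hl : l.length = R) : S.N (y.1 l) ≠ ⊤ := by
  obtain ⟨⟨M, hM⟩, h0⟩ := y.2
  exact ne_top_of_le_ne_top ENNReal.coe_ne_top (hM l hl)

/-- The seminorm. -/
noncomputable def nrmV (R : ℕ) : Seminorm ℝ (S.VV R) where
  toFun y := IL R (fun l => (S.N (y.1 l)).toReal) []
  map_zero' := by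
    refine (S.ril_N 0).unique ((RIL.const R 0 []).congr fun m _ => ?_)
    change (S.N 0).toReal = 0
    rw [S.N_zero, ENNReal.toReal_zero]
  add_le' := by
    intro x y
    refine (S.ril_N (x + y)).mono ((S.ril_N x).add (S.ril_N y)) fun m hm => ?_
    rw [List.nil_append]
    have hx := S.N_ne_top x m hm
    have hy := S.N_ne_top y m hm
    rw [← ENNReal.toReal_add hx hy]
    exact ENNReal.toReal_mono (ENNReal.add_ne_top.2 ⟨hx, hy⟩) (S.N_add _ _)
  neg' := by
    intro x
    refine (S.ril_N (-x)).unique ((S.ril_N x).congr fun m _ => ?_)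
    change (S.N (-(x.1 _))).toReal = (S.N (x.1 _)).toReal
    rw [S.N_neg]
  smul' := by
    intro r x
    refine (S.ril_N (r • x)).unique (((S.ril_N x).const_mul ‖r‖).congr fun m _ => ?_)
    change (S.N (r • (x.1 _))).toReal = ‖r‖ * (S.N (x.1 _)).toReal
    rw [S.N_smul, ENNReal.toReal_mul, ENNReal.toReal_ofReal (abs_nonneg r)]
    rfl

theorem nrmV_apply (R : ℕ) (y : S.VV R) :
    S.nrmV R y = IL R (fun l => (S.N (y.1 l)).toReal) [] := rfl

/-- Almost everywhere the norm is close to the seminorm. -/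
theorem ev_nrmV {R : ℕ} (y : S.VV R) (ε : ℝ) (hε : 0 < ε) :
    Ev R (fun l => l.length = R ∧ (S.N (y.1 l)).toReal < S.nrmV R y + ε ∧
      S.nrmV R y - ε < (S.N (y.1 l)).toReal ∧ S.N (y.1 l) < ⊤) [] := by
  have h := S.ril_N y
  rw [← nrmV_apply] at h
  have h1 := ev_lt h (show S.nrmV R y < S.nrmV R y + ε by linarith)
  have h2 := ev_gt h (show S.nrmV R y - ε < S.nrmV R y by linarith)
  refine (h1.and h2).mono fun m hm hQ => ?_
  rw [List.nil_append] at hQ ⊢
  exact ⟨hm, hQ.1, hQ.2, (S.N_ne_top y m hm).lt_top⟩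

end CutSpace

end Pool.Agent.H82.Um
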