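import Pool.Agent.H82.Um.Iter
import Pool.Agent.H82.Um.Dyad

/-!
MODULE UMBB (helper82, MP_98b928_an). The dyadic inequality for functions on lists with values in a cut
space.

Proof. `C` from `dyad K ρ`. Let `R = 2 ^ k`, `S.vModel R`. For `1 ≤ l ≤ R` let `Δ l : S.VV R` be the
function `m ↦ if m.length = R then F (m.take l) - F (m.take (l-1)) else 0` (in `VV R` as `N ≤ ofReal (β l)`),
`Δ l = 0` for the other `l`. `PL R l (Δ l) = Δ l`: the function only depends on `l` variables (`RIL.const`,
`RIL.congr`). `nrmV (Δ l) ≤ β l`. For `s, t`: `a = (2t-1) 2^s`, `r = 2^s`,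
`y = ∑ l ∈ Ioc a (a+r), (Δ l - PL R a (Δ l))`, `τ s t = nrmV y`. For `m.length = R`
`y m = F (m.take (a+r)) - F (m.take a) - ∑_l Pfun R a (Δ l) m` and `Pfun R a (Δ l) m` only depends on
`m.take a`; so `y m = F (m.take (a+r)) - W (m.take a)` with
`W m' = F m' + ∑_l Pfun R a (Δ l) (m' ++ List.replicate (R - a) 0)`. By `ev_nrmV`
`Ev R (fun m => N (F (m.take (a+r)) - W (m.take a)) ≤ ofReal (τ) + ε) []`, and since the predicate only
depends on `m.take (a+r)`, `ev_add` and `Ev.exists` give the claim (`a + r ≤ R`, `2 * t * 2 ^ s = a + r`).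
-/

namespace Pool.Agent.H82.Um

open Filter Topology Finset
open scoped ENNReal NNReal
open Pool.Agent.H53.Umb (UU ul IL RIL)

/-- a function which only depends on the first `a` variables is fixed by `PL R a` -/
private theorem umbb_PL_eq {B I : Type} {K ρ : ℝ} (S : CutSpace B I K ρ) (R a : ℕ) (ha : a ≤ R)
    (y : S.VV R) (hy : ∀ m m' : List ℕ, m.length = R → m'.length = R → m.take a = m'.take a →
      y.1 m = y.1 m') : S.PL R a y = y := by
  apply Subtype.ext
  funext m b
  show Pfun R a y.1 m b = y.1 m b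
  unfold Pfun
  by_cases hm : m.length = R
  · rw [if_pos hm]
    have h1 := (RIL.const (R - a) (y.1 m b) (m.take a)).congr
      (h' := fun l' => y.1 l' b) (fun m' hm' => ?_)
    · exact h1.il_eq
    · have hlen : (m.take a).length = a := by rw [List.length_take]; omega
      have h2 : y.1 (m.take a ++ m') = y.1 m := by
        apply hy _ _ _ hm
        · rw [List.take_append_of_le_length (by omega), List.take_take, min_self]
        · rw [List.length_append, hlen, hm']; omega
      show y.1 (m.take a ++ m') b = y.1 m b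
      rw [h2]
  · rw [if_neg hm, y.2.2 m hm]
    rfl

theorem model_bound (K ρ : ℝ) (hK : 0 < K) (h0 : 0 < ρ) (h1 : ρ < 1) :
    ∃ C : ℝ, 0 < C ∧ ∀ (B I : Type) (S : CutSpace B I K ρ) (k : ℕ), 1 ≤ k →
      ∀ (F : List ℕ → B → ℝ) (β : ℕ → ℝ), (∀ l, 0 ≤ β l) →
      (∀ (m : List ℕ) (i : ℕ), m.length < 2 ^ k →
        S.N (F (m ++ [i]) - F m) ≤ ENNReal.ofReal (β (m.length + 1))) →
      ∃ (τ : ℕ → ℕ → ℝ) (W : ℕ → ℕ → List ℕ → B → ℝ), (∀ s t, 0 ≤ τ s t) ∧
        (∀ s ∈ Icc 1 (k - 1), ∀ t ∈ Icc 1 (2 ^ (k - 1 - s)), ∀ ε : ℝ≥0∞, 0 < ε →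
          Ev ((2 * t - 1) * 2 ^ s + 2 ^ s)
            (fun m => S.N (F m - W s t (m.take ((2 * t - 1) * 2 ^ s))) ≤
              ENNReal.ofReal (τ s t) + ε) []) ∧
        ∑ s ∈ Icc 1 (k - 1), ∑ t ∈ Icc 1 (2 ^ (k - 1 - s)),
          (2 : ℝ) ^ s * (τ s t / 2 ^ s) ^ 3 ≤ C * ∑ l ∈ Icc 1 (2 ^ k), β l ^ 3 := by
  classical
  obtain ⟨C, hC, hd⟩ := dyad K ρ hK h0 h1
  refine ⟨C, hC, ?_⟩
  intro B I S k hk F β hβ hF
  set R : ℕ := 2 ^ k with hR
  -- the increments
  set G : ℕ → List ℕ → B → ℝ := fun l m =>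
    if m.length = R ∧ 1 ≤ l ∧ l ≤ R then F (m.take l) - F (m.take (l - 1)) else 0 with hG
  have hGN : ∀ l m, S.N (G l m) ≤ ENNReal.ofReal (β l) := by
    intro l m
    simp only [hG]
    split_ifs with hc
    · obtain ⟨hm, h2, h3⟩ := hc
      obtain ⟨l', rfl⟩ : ∃ l', l = l' + 1 := ⟨l - 1, by omega⟩
      have hl' : l' < m.length := by omega
      have e : m.take (l' + 1) = m.take l' ++ [m[l']] := by
        rw [List.take_append_getElem hl']
      have hlen : (m.take l').length = l' := by rw [List.length_take]; omega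
      have := hF (m.take l') m[l'] (by rw [hlen]; omega)
      rw [hlen] at this
      rw [Nat.add_sub_cancel, e]
      exact this
    · rw [S.N_zero]; exact bot_le
  have hGmem : ∀ l, G l ∈ S.VV R := by
    intro l
    refine ⟨⟨Real.toNNReal (β l), fun m _ => hGN l m⟩, fun m hm => ?_⟩
    simp only [hG]
    rw [if_neg (fun h => hm h.1)]
  set Δ : ℕ → S.VV R := fun l => ⟨G l, hGmem l⟩ with hΔ
  have hPΔ : ∀ l, S.PL R l (Δ l) = Δ l := by
    intro l
    by_cases hl : 1 ≤ l ∧ l ≤ R
    · apply umbb_PL_eq S R l hl.2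
      intro m m' hm hm' he
      show G l m = G l m'
      simp only [hG]
      rw [if_pos ⟨hm, hl⟩, if_pos ⟨hm', hl⟩, he]
      have e : ∀ q : List ℕ, q.take (l - 1) = (q.take l).take (l - 1) := by
        intro q
        rw [List.take_take, min_eq_left (by omega)]
      rw [e m, e m', he]
    · have hz : Δ l = 0 := by
        apply Subtype.ext
        funext m
        show G l m = 0
        simp only [hG]
        rw [if_neg (fun h => hl h.2)]
      rw [hz, map_zero]
  have hnΔ : ∀ l, S.nrmV R (Δ l) ≤ β l := by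
    intro l
    rw [S.nrmV_apply]
    refine (S.ril_N (Δ l)).mono (RIL.const R (β l) []) fun m _ => ?_
    exact ENNReal.toReal_le_of_le_ofReal (hβ l) (hGN l _)
  have hdy := hd (S.VV R) (S.vModel R hK h0) k Δ hPΔ
  set y : ℕ → ℕ → S.VV R := fun s t => ∑ l ∈ Ioc ((2 * t - 1) * 2 ^ s) (2 * t * 2 ^ s),
          (Δ l - S.PL R ((2 * t - 1) * 2 ^ s) (Δ l)) with hy
  refine ⟨fun s t => S.nrmV R (y s t),
    fun s t m => F m + ∑ l ∈ Ioc ((2 * t - 1) * 2 ^ s) (2 * t * 2 ^ s),
      Pfun R ((2 * t - 1) * 2 ^ s) (G l) (m ++ List.replicate (R - (2 * t - 1) * 2 ^ s) 0),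
    fun s t => apply_nonneg _ _, ?_, ?_⟩
  · intro s hs t ht ε hε
    rw [mem_Icc] at hs ht
    set a : ℕ := (2 * t - 1) * 2 ^ s with ha
    have hb : 2 * t * 2 ^ s = a + 2 ^ s := by
      rw [ha]
      obtain ⟨t', rfl⟩ : ∃ t', t = t' + 1 := ⟨t - 1, by omega⟩
      have : 2 * (t' + 1) - 1 = 2 * t' + 1 := by omega
      rw [this]; ring
    have haR : a + 2 ^ s ≤ R := by
      rw [← hb, hR]
      calc 2 * t * 2 ^ s ≤ 2 * 2 ^ (k - 1 - s) * 2 ^ s := by gcongr; exact ht.2
        _ = 2 ^ (1 + (k - 1 - s) + s) := by rw [pow_add, pow_add]; ring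
        _ = 2 ^ k := by congr 1; omega
    have haR' : a ≤ R := le_trans (Nat.le_add_right _ _) haR
    have haa : a ≤ a + 2 ^ s := Nat.le_add_right _ _
    simp only
    rw [hb]
    -- the value of `y`
    have hval : ∀ m : List ℕ, m.length = R → (y s t).1 m = F (m.take (a + 2 ^ s)) -
        (F (m.take a) + ∑ l ∈ Ioc a (a + 2 ^ s),
          Pfun R a (G l) (m.take a ++ List.replicate (R - a) 0)) := by
      intro m hm
      have e1 : (y s t).1 m = ∑ l ∈ Ioc a (a + 2 ^ s), (G l m - Pfun R a (G l) m) := by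
        simp only [hy]
        rw [← ha, hb, AddSubmonoidClass.coe_finsetSum, Finset.sum_apply]
        rfl
      have e2 : ∀ n, a + n ≤ R → ∑ l ∈ Ioc a (a + n), G l m = F (m.take (a + n)) - F (m.take a) := by
        intro n
        induction n with
        | zero => simp
        | succ n ih =>
          intro hn
          have hIoc : Ioc a (a + (n + 1)) = insert (a + n + 1) (Ioc a (a + n)) := by
            ext q
            simp only [mem_Ioc, mem_insert]
            omega
          rw [hIoc, sum_insert (by simp), ih (by omega)]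
          simp only [hG]
          rw [if_pos ⟨hm, by omega, by omega⟩, Nat.add_sub_cancel]
          have : a + (n + 1) = a + n + 1 := by ring
          rw [this]
          abel
      have e3 : ∀ l, Pfun R a (G l) (m.take a ++ List.replicate (R - a) 0) = Pfun R a (G l) m := by
        intro l
        have hlen : (m.take a).length = a := by
          rw [List.length_take, hm]; exact min_eq_left haR'
        funext b
        unfold Pfun
        rw [if_pos hm, if_pos (by
          rw [List.length_append, hlen, List.length_replicate]; exact Nat.add_sub_cancel' haR'),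
          List.take_append_of_le_length hlen.ge, List.take_take, min_self]
      rw [e1, sum_sub_distrib, e2 _ haR]
      simp only [e3]
      abel
    -- a real `ε'`
    obtain ⟨ε', hε'0, hε'⟩ : ∃ ε' : ℝ, 0 < ε' ∧ ENNReal.ofReal ε' ≤ ε := by
      refine ⟨(min ε 1).toReal, ENNReal.toReal_pos (lt_min hε one_pos).ne'
        (ne_top_of_le_ne_top ENNReal.one_ne_top (min_le_right _ _)), ?_⟩
      rw [ENNReal.ofReal_toReal (ne_top_of_le_ne_top ENNReal.one_ne_top (min_le_right _ _))]
      exact min_le_left _ _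
    have hev := S.ev_nrmV (y s t) ε' hε'0
    set Q : List ℕ → Prop := fun m => S.N (F m - (F (m.take a) + ∑ l ∈ Ioc a (a + 2 ^ s),
          Pfun R a (G l) (m.take a ++ List.replicate (R - a) 0))) ≤
          ENNReal.ofReal (S.nrmV R (y s t)) + ε with hQ
    have hev2 : Ev R (fun m => Q (m.take (a + 2 ^ s))) [] := by
      refine hev.mono fun m hm hgood => ?_
      simp only [List.nil_append] at hgood ⊢
      obtain ⟨g1, g2, -, g4⟩ := hgood
      rw [hQ]
      simp only
      rw [List.take_take, min_eq_left haa, ← hval m g1]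
      calc S.N ((y s t).1 m) = ENNReal.ofReal (S.N ((y s t).1 m)).toReal :=
            (ENNReal.ofReal_toReal g4.ne).symm
        _ ≤ ENNReal.ofReal (S.nrmV R (y s t) + ε') := ENNReal.ofReal_le_ofReal g2.le
        _ = ENNReal.ofReal (S.nrmV R (y s t)) + ENNReal.ofReal ε' :=
            ENNReal.ofReal_add (apply_nonneg _ _) hε'0.le
        _ ≤ _ := add_le_add le_rfl hε'
    have hRs : R = (a + 2 ^ s) + (R - (a + 2 ^ s)) := by omega
    rw [hRs, ev_add] at hev2
    refine hev2.mono fun m hm h2 => ?_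
    simp only [List.nil_append] at h2 ⊢
    obtain ⟨m', -, h3⟩ := h2.exists
    have : (m ++ m').take (a + 2 ^ s) = m := by
      rw [List.take_append_of_le_length (by omega), List.take_of_length_le (by omega)]
    rw [this] at h3
    exact h3
  · refine le_trans hdy ?_
    apply mul_le_mul_of_nonneg_left _ hC.le
    apply sum_le_sum
    intro l _
    exact pow_le_pow_left₀ (apply_nonneg _ _) (hnΔ l) 3

end Pool.Agent.H82.Um
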