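import Pool.Agent.H82.Um.UmbA
import Pool.Agent.H82.Um.UmbB

/-!
MODULE UMB (helper82, MP_98b928_an). The space of a cut space is umbel `3`-convex.

Proof. Let `C` be the constant of `model_bound K ρ`, `f : Finset ℕ → S.X`, `k ≥ 1`. If some supremum
in `umbelR 3 k f` is infinite, the right side is infinite (`P > 0`); otherwise let
`β l = (sup ...).toReal ^ (1/3)` for `1 ≤ l ≤ 2 ^ k`, `0` for other `l`; with `F m = S.toFun (f (st m))`
we have `N (F (m ++ [i]) - F m) = edist (f (st m ∪ {j})) (f (st m)) ≤ ofReal (β (m.length + 1))`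
(`st_append_singleton`, `st_card`, `below_st_singleton`, `CutSpace.edist_def`). By `term_le`
(`t * 2 ^ (s+1) - 2 ^ s = (2 t - 1) * 2 ^ s`) the `(s, t)` term of `umbelL 3 k f` is at most
`(2 * ofReal (τ s t) / 2 ^ s) ^ 3`, so
`umbelL 3 k f ≤ ∑ (2 ^ (k-1-s))⁻¹ * ofReal (8 * (τ s t / 2 ^ s) ^ 3)
 = ofReal (2 / 2^k * 8 * ∑ 2 ^ s * (τ s t / 2 ^ s) ^ 3) ≤ ofReal (16 * C / 2 ^ k * ∑ β l ^ 3)`;
take `P = (16 * C) ^ (1/3)`.
-/

namespace Pool.Agent.H82.Um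

open Filter Topology
open scoped ENNReal NNReal

theorem CutSpace.umbelConvex {B I : Type} {K ρ : ℝ} (S : CutSpace B I K ρ) (hK : 0 < K)
    (h0 : 0 < ρ) (h1 : ρ < 1) : Pool.Agent.H53.Umb.UmbelConvex 3 S.X := by
  classical
  obtain ⟨C, hC, hmb⟩ := model_bound K ρ hK h0 h1
  have hP0 : (0 : ℝ) < 16 * C := by positivity
  refine ⟨(16 * C) ^ (1 / 3 : ℝ), Real.rpow_pos_of_pos hP0 _, fun k hk f => ?_⟩
  have hP3 : ((16 * C) ^ (1 / 3 : ℝ)) ^ (3 : ℝ) = 16 * C := by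
    rw [← Real.rpow_mul hP0.le, show (1 / 3 : ℝ) * 3 = 1 by norm_num, Real.rpow_one]
  rw [hP3]
  set sp : ℕ → ℝ≥0∞ := fun l => ⨆ (m : Finset ℕ) (j : ℕ)
    (_ : m.card = l - 1 ∧ Pool.Agent.H53.Umb.Below m {j}),
      edist (f m) (f (m ∪ {j})) ^ (3 : ℝ) with hsp
  have hR : Pool.Agent.H53.Umb.umbelR 3 k f = ∑ l ∈ Finset.Icc 1 (2 ^ k), sp l := rfl
  have h2k : (2 : ℝ≥0∞) ^ k ≠ ⊤ := ENNReal.pow_ne_top (by norm_num)
  by_cases htop : Pool.Agent.H53.Umb.umbelR 3 k f = ⊤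
  · rw [htop, ENNReal.mul_top]
    · exact le_top
    · exact (ENNReal.div_pos (ENNReal.ofReal_pos.2 hP0).ne' h2k).ne'
  have hspt : ∀ l ∈ Finset.Icc 1 (2 ^ k), sp l ≠ ⊤ := by
    rw [hR] at htop
    exact ENNReal.sum_ne_top.1 htop
  set β : ℕ → ℝ := fun l => (sp l).toReal ^ (1 / 3 : ℝ) with hβ
  have hβ0 : ∀ l, 0 ≤ β l := fun l => Real.rpow_nonneg ENNReal.toReal_nonneg _
  have hβ3 : ∀ l, β l ^ 3 = (sp l).toReal := by
    intro l
    rw [hβ]
    simp only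
    rw [← Real.rpow_natCast, ← Real.rpow_mul ENNReal.toReal_nonneg]
    norm_num
  have hβs : ∀ l ∈ Finset.Icc 1 (2 ^ k), ENNReal.ofReal (β l ^ 3) = sp l := by
    intro l hl
    rw [hβ3, ENNReal.ofReal_toReal (hspt l hl)]
  set F : List ℕ → B → ℝ := fun m => S.toFun (f (st m)) with hF
  have hFb : ∀ (m : List ℕ) (i : ℕ), m.length < 2 ^ k →
      S.N (F (m ++ [i]) - F m) ≤ ENNReal.ofReal (β (m.length + 1)) := by
    intro m i hm
    have hl : m.length + 1 ∈ Finset.Icc 1 (2 ^ k) := by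
      rw [Finset.mem_Icc]
      omega
    have e1 : S.N (F (m ++ [i]) - F m) =
        edist (f (st m)) (f (st m ∪ {m.sum + i + m.length})) := by
      rw [edist_comm, S.edist_def, hF]
      simp only
      rw [st_append_singleton]
    rw [e1]
    have h2 : edist (f (st m)) (f (st m ∪ {m.sum + i + m.length})) ^ (3 : ℝ) ≤
        sp (m.length + 1) := by
      rw [hsp]
      refine le_iSup_of_le (st m) (le_iSup_of_le (m.sum + i + m.length)
        (le_iSup_of_le ⟨?_, below_st_singleton m i⟩ le_rfl))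
      rw [st_card]
      rfl
    have h3 := ENNReal.rpow_le_rpow h2 (by norm_num : (0 : ℝ) ≤ 1 / 3)
    rw [← ENNReal.rpow_mul, show (3 : ℝ) * (1 / 3) = 1 by norm_num, ENNReal.rpow_one] at h3
    refine h3.trans (le_of_eq ?_)
    rw [hβ]
    simp only
    rw [← ENNReal.ofReal_rpow_of_nonneg ENNReal.toReal_nonneg (by norm_num),
      ENNReal.ofReal_toReal (hspt _ hl)]
  obtain ⟨τ, W, hτ, hEv, hsum⟩ := hmb B I S k hk F β hβ0 hFb
  have hterm : ∀ s ∈ Finset.Icc 1 (k - 1), ∀ t ∈ Finset.Icc 1 (2 ^ (k - 1 - s)),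
      (⨅ (n : Finset ℕ) (_ : n.card = t * 2 ^ (s + 1) - 2 ^ s),
      ⨅ (δ : Finset ℕ) (_ : δ.card = 2 ^ s ∧ Pool.Agent.H53.Umb.Below n δ),
        liminf (fun j : ℕ =>
          ⨅ (η : Finset ℕ) (_ : η.card = 2 ^ s - 1 ∧ Pool.Agent.H53.Umb.Below n {j} ∧
            Pool.Agent.H53.Umb.Below {j} η),
            edist (f (n ∪ δ)) (f (n ∪ {j} ∪ η)) ^ (3 : ℝ) / (2 ^ s : ℝ≥0∞) ^ (3 : ℝ)) atTop) ≤
      ENNReal.ofReal (8 * (τ s t / 2 ^ s) ^ 3) := by
    intro s hs t ht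
    have ht1 : 1 ≤ t := (Finset.mem_Icc.1 ht).1
    have e1 : t * 2 ^ (s + 1) - 2 ^ s = (2 * t - 1) * 2 ^ s := by
      obtain ⟨u, rfl⟩ : ∃ u, t = u + 1 := ⟨t - 1, by omega⟩
      have : 2 * (u + 1) - 1 = 2 * u + 1 := by omega
      rw [this, pow_succ]
      have h4 : (u + 1) * (2 ^ s * 2) = (2 * u + 1) * 2 ^ s + 2 ^ s := by ring
      rw [h4]
      omega
    rw [e1]
    refine (term_le S f s _ (W s t) (ENNReal.ofReal (τ s t)) (hEv s hs t ht)).trans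
      (le_of_eq ?_)
    have e2 : 2 * ENNReal.ofReal (τ s t) / 2 ^ s = ENNReal.ofReal (2 * τ s t / 2 ^ s) := by
      rw [ENNReal.ofReal_div_of_pos (by positivity), ENNReal.ofReal_mul (by norm_num),
        ENNReal.ofReal_pow (by norm_num)]
      norm_num
    rw [e2, ENNReal.ofReal_rpow_of_nonneg (div_nonneg (mul_nonneg (by norm_num) (hτ s t))
      (by positivity)) (by norm_num)]
    congr 1
    rw [show (3 : ℝ) = ((3 : ℕ) : ℝ) by norm_num, Real.rpow_natCast]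
    ring
  have hL : Pool.Agent.H53.Umb.umbelL 3 k f ≤ ∑ s ∈ Finset.Icc 1 (k - 1),
      (2 ^ (k - 1 - s) : ℝ≥0∞)⁻¹ * ∑ t ∈ Finset.Icc 1 (2 ^ (k - 1 - s)),
        ENNReal.ofReal (8 * (τ s t / 2 ^ s) ^ 3) := by
    unfold Pool.Agent.H53.Umb.umbelL
    exact Finset.sum_le_sum fun s hs => mul_le_mul_right
      (Finset.sum_le_sum fun t ht => hterm s hs t ht) _
  refine hL.trans ?_
  have hnn : ∀ s t, 0 ≤ 8 * (τ s t / 2 ^ s) ^ 3 := fun s t =>
    mul_nonneg (by norm_num) (pow_nonneg (div_nonneg (hτ s t) (by positivity)) 3)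
  have hconv : ∑ s ∈ Finset.Icc 1 (k - 1),
      (2 ^ (k - 1 - s) : ℝ≥0∞)⁻¹ * ∑ t ∈ Finset.Icc 1 (2 ^ (k - 1 - s)),
        ENNReal.ofReal (8 * (τ s t / 2 ^ s) ^ 3) =
      ENNReal.ofReal (16 / 2 ^ k * ∑ s ∈ Finset.Icc 1 (k - 1),
        ∑ t ∈ Finset.Icc 1 (2 ^ (k - 1 - s)), (2 : ℝ) ^ s * (τ s t / 2 ^ s) ^ 3) := by
    rw [Finset.mul_sum, ENNReal.ofReal_sum_of_nonneg]
    · refine Finset.sum_congr rfl fun s hs => ?_
      have hsk : s ≤ k - 1 := (Finset.mem_Icc.1 hs).2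
      rw [← ENNReal.ofReal_sum_of_nonneg (fun t _ => hnn s t)]
      have e3 : (2 ^ (k - 1 - s) : ℝ≥0∞)⁻¹ = ENNReal.ofReal ((2 ^ (k - 1 - s))⁻¹) := by
        rw [ENNReal.ofReal_inv_of_pos (by positivity), ENNReal.ofReal_pow (by norm_num)]
        norm_num
      rw [e3, ← ENNReal.ofReal_mul (by positivity)]
      congr 1
      rw [← Finset.mul_sum, ← Finset.mul_sum, ← mul_assoc, ← mul_assoc]
      congr 1
      have e4 : (2 : ℝ) ^ k = 2 ^ (k - 1 - s) * 2 ^ s * 2 := by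
        rw [← pow_add, ← pow_succ]
        congr 1
        omega
      rw [e4]
      have h5 : (2 : ℝ) ^ (k - 1 - s) ≠ 0 := by positivity
      have h6 : (2 : ℝ) ^ s ≠ 0 := by positivity
      field_simp
      norm_num
    · intro s _
      refine mul_nonneg (by positivity) (Finset.sum_nonneg fun t _ => ?_)
      exact mul_nonneg (by positivity) (pow_nonneg (div_nonneg (hτ s t) (by positivity)) 3)
  rw [hconv]
  refine (ENNReal.ofReal_le_ofReal (mul_le_mul_of_nonneg_left hsum (by positivity))).trans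
    (le_of_eq ?_)
  rw [hR, show (16 : ℝ) / 2 ^ k * (C * ∑ l ∈ Finset.Icc 1 (2 ^ k), β l ^ 3) =
    (16 * C / 2 ^ k) * ∑ l ∈ Finset.Icc 1 (2 ^ k), β l ^ 3 by ring,
    ENNReal.ofReal_mul (by positivity), ENNReal.ofReal_div_of_pos (by positivity),
    ENNReal.ofReal_pow (by norm_num), ENNReal.ofReal_sum_of_nonneg
      (fun l _ => pow_nonneg (hβ0 l) 3), Finset.sum_congr rfl hβs]
  norm_num

end Pool.Agent.H82.Um
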