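import Pool.Agent.H82.Um.SpaceC
import Pool.Agent.H82.Um.Umbel
import Pool.Agent.H82.Um.Ban

/-!
MP_98b928_an (helper82). The final theorem: an umbel `3`-convex Banach space without an equivalent
norm with property (beta_4).
-/

namespace Pool.Agent.H82.Um

open Pool.Agent.H53.Umb (UmbelConvex EquivNorm HasBeta)

theorem main : ∃ (X : Type) (_ : NormedAddCommGroup X) (_ : NormedSpace ℝ X), CompleteSpace X ∧
    UmbelConvex 3 X ∧ ¬ ∃ N : Seminorm ℝ X, EquivNorm N ∧ HasBeta 4 N := by
  refine ⟨Sx.X, inferInstance, inferInstance, Sx.completeSpace, ?_, ?_⟩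
  · refine Sx.umbelConvex (Real.rpow_pos_of_pos c0_pos _) (Real.rpow_pos_of_pos two_pos _) ?_
    exact Real.rpow_lt_one_of_one_lt_of_neg one_lt_two (by norm_num)
  · exact no_beta KK_card av (fun i w α hw => av_norm i w α hw)
      (fun i w u α β hw hu => av_update i w u α β hw hu)
      (fun i r u α β β' hu hβ => av_sep i r u α β β' hu hβ)

end Pool.Agent.H82.Um
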