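import Pool.Agent.H82.Um.Free
import Pool.Agent.H53.Umb.Defs

/-!
MODULE NOBETA (helper82, MP_98b928_an). Trees of vectors excluding an equivalent norm with (beta_4).

Proof. Let `N` be such a norm, `a₀ ‖x‖ ≤ N x ≤ M ‖x‖` (`M ≥ 1`), with the constant `c₀` of (beta_4).
Fix `i`, `n = 32 ^ i`, `t = a₀ * (2⁻¹ * (2 ^ i)⁻¹)`, `δ = t ^ 4 / (c₀ * M ^ 3)`. Claim: for some `α`
and all `u` with `u.length + r = n`: `N (avg (a i) r u α) ≤ M - r * δ`. For `u` with
`u.length + (r + 1) = n` let `ball = M - r * δ`, `z α = avg (a i) r (u ++ [false]) α`,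
`x α = avg (a i) r (u ++ [true]) α`, and let `bad u α` be the set of all `β` such that with
`α' = update α u β`: `N (z α') ≤ ball`, `N (x α') ≤ ball`, but
`¬ N ((1/2) • (z α' + x α')) ≤ ball - δ`. `z α'` does not depend on `β` (`h2`). If `bad u α` were
infinite, take a sequence of different `β n` in it: the vectors `x n` satisfy
`N (x n - x m) ≥ a₀ ‖..‖ ≥ t` (`h3`); necessarily `ball > 0` (if `ball ≤ 0` then `N (x n) = N (x m) = 0`,
contradiction to `t > 0`), and (beta_4) for `- z / ball`, `x n / ball` and the separation `t / ball`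
gives an `n` with `N ((1/2) • (z + x n)) ≤ ball * (1 - (t/ball)^4 / c₀) = ball - t^4/(c₀ ball^3) ≤
ball - δ`, contradiction. So `bad u α` is finite, and it does not depend on `α u`. `exists_free` with
`V` = the words of length `< n` gives `α` with `α u ∉ bad u α` for all nodes; then the claim follows by
induction on `r` (`r = 0`: `h1`, `N ≤ M ‖x‖`). For `r = n`, `u = []`: `0 ≤ N .. ≤ M - 32 ^ i * δ`, and
`32 ^ i * δ = 2 ^ i * (a₀ / 2) ^ 4 / (c₀ M ^ 3) → ∞`, contradiction for large `i`.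
-/

namespace Pool.Agent.H82.Um

open Pool.Agent.H53.Umb (EquivNorm HasBeta)

/-- The average over the leaves below the node `u`, at distance `r` from the leaves. -/
noncomputable def avg {X A : Type} [AddCommGroup X] [Module ℝ X] (f : List Bool → A → X) :
    ℕ → List Bool → A → X
  | 0, u, α => f u α
  | r + 1, u, α => (1 / 2 : ℝ) • (avg f r (u ++ [false]) α + avg f r (u ++ [true]) α)

theorem avg_update {X κ : Type} [AddCommGroup X] [Module ℝ X] {n : ℕ}
    {f : List Bool → (List Bool → κ) → X} {u : List Bool} {α : List Bool → κ} {β : κ}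
    (h2 : ∀ w, w.length = n → (u ++ [false]) <+: w → f w (Function.update α u β) = f w α) :
    ∀ (r : ℕ) (v : List Bool), (u ++ [false]) <+: v → v.length + r = n →
      avg f r v (Function.update α u β) = avg f r v α := by
  intro r
  induction r with
  | zero =>
    intro v hv hn
    exact h2 v hn hv
  | succ r ih =>
    intro v hv hn
    show (1 / 2 : ℝ) • (_ + _) = (1 / 2 : ℝ) • (_ + _)
    rw [ih (v ++ [false]) (hv.trans (List.prefix_append _ _)) (by simp; omega),
      ih (v ++ [true]) (hv.trans (List.prefix_append _ _)) (by simp; omega)]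

/-- The beta property, rescaled. -/
theorem beta_scaled {X : Type} [NormedAddCommGroup X] [NormedSpace ℝ X] {N : Seminorm ℝ X}
    {c₀ : ℝ} (hc₀ : 0 < c₀)
    (hβ : ∀ t : ℝ, 0 < t → ∀ (z : X) (x : ℕ → X), N z ≤ 1 → (∀ n, N (x n) ≤ 1) →
      (∀ i j, i ≠ j → t ≤ N (x i - x j)) → ∃ i, N ((1 / 2 : ℝ) • (z - x i)) ≤ 1 - t ^ (4 : ℝ) / c₀)
    {M ball t : ℝ} (hM : 0 < M) (hb : ball ≤ M) (ht : 0 < t) (z : X) (x : ℕ → X)
    (hz : N z ≤ ball) (hx : ∀ n, N (x n) ≤ ball) (hxx : ∀ i j, i ≠ j → t ≤ N (x i - x j)) :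
    ∃ i, N ((1 / 2 : ℝ) • (z + x i)) ≤ ball - t ^ 4 / (c₀ * M ^ 3) := by
  have hb0 : 0 < ball := by
    have h1 := hxx 0 1 (by norm_num)
    have h2 : N (x 0 - x 1) ≤ N (x 0) + N (x 1) := map_sub_le_add N _ _
    have h3 := hx 0
    have h4 := hx 1
    linarith
  have hN : ∀ v : X, N (ball⁻¹ • v) = ball⁻¹ * N v := fun v => by
    rw [map_smul_eq_mul, Real.norm_eq_abs, abs_of_pos (inv_pos.mpr hb0)]
  have hdiv : ∀ v : X, N v ≤ ball → N (ball⁻¹ • v) ≤ 1 := fun v hv => by
    rw [hN, inv_mul_le_iff₀ hb0, mul_one]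
    exact hv
  obtain ⟨i, hi⟩ := hβ (t / ball) (div_pos ht hb0) (-(ball⁻¹ • z)) (fun n => ball⁻¹ • x n)
    (by rw [map_neg_eq_map]; exact hdiv z hz) (fun n => hdiv _ (hx n)) (fun i j hij => by
      rw [← smul_sub, hN, div_eq_inv_mul]
      exact mul_le_mul_of_nonneg_left (hxx i j hij) (inv_nonneg.mpr hb0.le))
  refine ⟨i, ?_⟩
  have e1 : (1 / 2 : ℝ) • (-(ball⁻¹ • z) - ball⁻¹ • x i) =
      -(ball⁻¹ • ((1 / 2 : ℝ) • (z + x i))) := by
    rw [← neg_add', ← smul_add, smul_neg, smul_comm]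
  rw [e1, map_neg_eq_map, hN, inv_mul_le_iff₀ hb0] at hi
  refine hi.trans ?_
  have e2 : (t / ball) ^ (4 : ℝ) = t ^ 4 / ball ^ 4 := by
    rw [show (4 : ℝ) = ((4 : ℕ) : ℝ) by norm_num, Real.rpow_natCast, div_pow]
  rw [e2, mul_sub, mul_one]
  have e3 : ball * (t ^ 4 / ball ^ 4 / c₀) = t ^ 4 / (c₀ * ball ^ 3) := by
    field_simp
  rw [e3]
  have e4 : t ^ 4 / (c₀ * M ^ 3) ≤ t ^ 4 / (c₀ * ball ^ 3) := by
    refine div_le_div_of_nonneg_left (by positivity) (by positivity) ?_
    exact mul_le_mul_of_nonneg_left (pow_le_pow_left₀ hb0.le hb 3) hc₀.le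
  linarith

theorem no_beta {X κ : Type} [NormedAddCommGroup X] [NormedSpace ℝ X]
    (hκ : ∀ j : ℕ, Cardinal.aleph j ≤ Cardinal.mk κ)
    (a : ℕ → List Bool → (List Bool → κ) → X)
    (h1 : ∀ i w α, w.length = 32 ^ i → ‖a i w α‖ ≤ 1)
    (h2 : ∀ i w u α β, w.length = 32 ^ i → (u ++ [false]) <+: w →
      a i w (Function.update α u β) = a i w α)
    (h3 : ∀ i r u α β β', u.length + (r + 1) = 32 ^ i → β ≠ β' →
      2⁻¹ * (2 ^ i : ℝ)⁻¹ ≤ ‖avg (a i) r (u ++ [true]) (Function.update α u β) -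
        avg (a i) r (u ++ [true]) (Function.update α u β')‖) :
    ¬ ∃ N : Seminorm ℝ X, EquivNorm N ∧ HasBeta 4 N := by
  classical
  rintro ⟨N, ⟨a₀, M, ha₀, hM, hN⟩, c₀, hc₀, hβ⟩
  have hκ0 : Nonempty κ := by
    have := hκ 0
    rw [← Cardinal.mk_ne_zero_iff]
    intro h
    rw [h] at this
    exact absurd (lt_of_lt_of_le (Cardinal.aleph_pos _) this) (lt_irrefl _)
  have claim : ∀ i : ℕ, (32 : ℝ) ^ i *
      ((a₀ * (2⁻¹ * (2 ^ i : ℝ)⁻¹)) ^ 4 / (c₀ * M ^ 3)) ≤ M := by
    intro i
    set t : ℝ := a₀ * (2⁻¹ * (2 ^ i : ℝ)⁻¹) with ht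
    set δ : ℝ := t ^ 4 / (c₀ * M ^ 3) with hδ
    have ht0 : 0 < t := by positivity
    have hδ0 : 0 < δ := by positivity
    let n : ℕ := 32 ^ i
    let V : Finset (List Bool) := (List.finite_length_lt Bool n).toFinset
    have hV : ∀ u, u ∈ V ↔ u.length < n := fun u => by simp [V]
    let rr : List Bool → ℕ := fun u => n - 1 - u.length
    let bad : List Bool → (List Bool → κ) → Set κ := fun u α =>
      {β | N (avg (a i) (rr u) (u ++ [false]) (Function.update α u β)) ≤ M - rr u * δ ∧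
        N (avg (a i) (rr u) (u ++ [true]) (Function.update α u β)) ≤ M - rr u * δ ∧
        ¬ N (avg (a i) (rr u + 1) u (Function.update α u β)) ≤ M - (rr u + 1) * δ}
    have hfin : ∀ u ∈ V, ∀ α, (bad u α).Finite := by
      intro u hu α
      by_contra hinf
      have hinf' : (bad u α).Infinite := hinf
      let emb := hinf'.natEmbedding
      have hun : u.length + (rr u + 1) = 32 ^ i := by
        have := (hV u).mp hu
        show u.length + (n - 1 - u.length + 1) = n
        omega
      have hz : ∀ β, avg (a i) (rr u) (u ++ [false]) (Function.update α u β) =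
          avg (a i) (rr u) (u ++ [false]) α := fun β =>
        avg_update (n := 32 ^ i) (fun w hw hp => h2 i w u α β hw hp) (rr u) (u ++ [false])
          (List.prefix_refl _) (by simp; omega)
      obtain ⟨k, hk⟩ := beta_scaled hc₀ hβ (M := M) (ball := M - rr u * δ) (t := t) hM
        (by have : 0 ≤ (rr u : ℝ) * δ := by positivity
            linarith) ht0
        (avg (a i) (rr u) (u ++ [false]) α)
        (fun k => avg (a i) (rr u) (u ++ [true]) (Function.update α u (emb k).1))
        (by rw [← hz (emb 0).1]; exact (emb 0).2.1) (fun k => (emb k).2.2.1)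
        (fun k l hkl => by
          have hne : (emb k).1 ≠ (emb l).1 := fun h => hkl (emb.injective (Subtype.ext h))
          refine le_trans ?_ (hN _).1
          rw [ht]
          exact mul_le_mul_of_nonneg_left (h3 i (rr u) u α _ _ hun hne) ha₀.le)
      refine (emb k).2.2.2 ?_
      have e1 : avg (a i) (rr u + 1) u (Function.update α u (emb k).1) =
          (1 / 2 : ℝ) • (avg (a i) (rr u) (u ++ [false]) α +
            avg (a i) (rr u) (u ++ [true]) (Function.update α u (emb k).1)) := by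
        rw [← hz (emb k).1]
        rfl
      rw [e1]
      refine hk.trans (le_of_eq ?_)
      rw [hδ]
      ring
    have hdep : ∀ u ∈ V, ∀ (α : List Bool → κ) (β : κ),
        bad u (Function.update α u β) = bad u α := by
      intro u _ α β
      simp only [bad, Function.update_idem]
    obtain ⟨α, -, hα⟩ := exists_free hκ V bad hfin hdep (fun _ => Classical.arbitrary κ)
    have main : ∀ (r : ℕ) (u : List Bool), u.length + r = n →
        N (avg (a i) r u α) ≤ M - r * δ := by
      intro r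
      induction r with
      | zero =>
        intro u hu
        have h4 : ‖a i u α‖ ≤ 1 := h1 i u α hu
        have h5 : N (a i u α) ≤ M * ‖a i u α‖ := (hN _).2
        have h6 : M * ‖a i u α‖ ≤ M * 1 := mul_le_mul_of_nonneg_left h4 hM.le
        show N (a i u α) ≤ M - ((0 : ℕ) : ℝ) * δ
        simp only [Nat.cast_zero, zero_mul, sub_zero]
        linarith
      | succ r ih =>
        intro u hu
        have huV : u ∈ V := (hV u).mpr (by omega)
        have hr : rr u = r := by
          show n - 1 - u.length = r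
          omega
        have h7 := hα u huV
        simp only [bad, Set.mem_ofPred_eq, Function.update_eq_self, hr, not_and, not_not] at h7
        have := h7 (ih (u ++ [false]) (by simp; omega)) (ih (u ++ [true]) (by simp; omega))
        push_cast
        exact this
    have h8 := main n [] (by simp)
    have h9 : 0 ≤ N (avg (a i) n [] α) := apply_nonneg _ _
    have h10 : ((n : ℕ) : ℝ) = 32 ^ i := by simp [n]
    rw [h10] at h8
    linarith
  have hC : 0 < (a₀ / 2) ^ 4 / (c₀ * M ^ 3) := by positivity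
  obtain ⟨i, hi⟩ := pow_unbounded_of_one_lt (M / ((a₀ / 2) ^ 4 / (c₀ * M ^ 3)))
    (one_lt_two : (1 : ℝ) < 2)
  have h11 := claim i
  have e : (32 : ℝ) ^ i * ((a₀ * (2⁻¹ * (2 ^ i : ℝ)⁻¹)) ^ 4 / (c₀ * M ^ 3)) =
      2 ^ i * ((a₀ / 2) ^ 4 / (c₀ * M ^ 3)) := by
    have h32 : (32 : ℝ) ^ i = 2 ^ i * (2 ^ i) ^ 4 := by
      rw [← pow_succ', ← pow_mul, mul_comm i, pow_mul]
      norm_num
    have h2i : (2 : ℝ) ^ i ≠ 0 := by positivity
    rw [h32]
    field_simp
  rw [e] at h11
  rw [div_lt_iff₀ hC] at hi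
  linarith

end Pool.Agent.H82.Um
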