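import Pool.Agent.H82.Um.NormA

/-!
MODULE NORMUP (helper82, MP_98b928_an). The upper estimate for successive blocks.

Let `PhiU (g^2) ≤ 1`, `E j = {supp ⊆ A (j+1)} \ {supp ⊆ A j}`, `p j = PhiU (indicator (E j) (g^2))`;
`c * ∑_{j<n} p j ≤ 1` (`PhiU_chain`), `n = 2 ^ m`. Then
`∑' b, |x j b| * g b = ∑' b, |x j b| * indicator (E j) g b ≤ p j ^ (1/16) * NX (x j)`: if `p j = 0` then
`r * indicator (E j) g` is admissible for all finite `r` (`PhiU_smul`), so `r * sum ≤ NX (x j) ≤ lam < ⊤`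
for all `r` and the sum is `0` (if `lam = ⊤` nothing is to be shown as the factor is positive); if
`0 < p j < ⊤` then `p j ^ (-1/16) * indicator (E j) g` is admissible (`(p j ^ (-1/8))^8 * p j = 1`); and
`p j < ⊤` as `c * p j ≤ 1`, `c > 0`. By Hölder (power mean)
`∑_{j<n} p j ^ (1/16) ≤ n ^ (15/16) * (∑ p j) ^ (1/16) ≤ n ^ (15/16) * c ^ (-1/16)`, and
`(2 * 2 ^ (-1/16)) ^ m = n ^ (15/16)`.
-/

namespace Pool.Agent.H82.Um

open scoped ENNReal NNReal

variable {B I : Type} {supp : B → Finset I} {𝒜 : Set (B → ℝ≥0∞)}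

theorem nu_block {c : ℝ≥0∞} (E : Set B) (g : B → ℝ≥0∞) (x : B → ℝ) (lam : ℝ≥0∞)
    (hlam : lam ≠ ⊤) (hx : NX supp 𝒜 c x ≤ lam) (hE : ∀ b, x b ≠ 0 → b ∈ E)
    (hp : PhiU supp 𝒜 c (E.indicator (fun b => g b ^ 2)) ≠ ⊤) :
    ∑' b, ENNReal.ofReal |x b| * g b ≤
      (PhiU supp 𝒜 c (E.indicator (fun b => g b ^ 2))) ^ (1 / 16 : ℝ) * lam := by
  have hS : ∀ r : ℝ≥0∞, r ^ 16 * PhiU supp 𝒜 c (E.indicator (fun b => g b ^ 2)) ≤ 1 →
      r * ∑' b, ENNReal.ofReal |x b| * g b ≤ lam := by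
    intro r hr
    have h1 : PhiU supp 𝒜 c (fun b => (r * E.indicator g b) ^ 2) ≤ 1 := by
      have : (fun b => (r * E.indicator g b) ^ 2) =
          fun b => r ^ 2 * E.indicator (fun b => g b ^ 2) b := by
        funext b
        by_cases hb : b ∈ E
        · rw [Set.indicator_of_mem hb, Set.indicator_of_mem hb, mul_pow]
        · rw [Set.indicator_of_notMem hb, Set.indicator_of_notMem hb]
          simp
      rw [this, PhiU_smul, ← pow_mul]
      exact hr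
    have h2 := (le_NX x h1).trans hx
    refine le_trans (le_of_eq ?_) h2
    rw [← ENNReal.tsum_mul_left]
    refine tsum_congr fun b => ?_
    by_cases hb : x b = 0
    · simp [hb]
    · rw [Set.indicator_of_mem (hE b hb)]
      ring
  generalize PhiU supp 𝒜 c (E.indicator (fun b => g b ^ 2)) = p at *
  generalize (∑' b, ENNReal.ofReal |x b| * g b) = S at *
  by_cases hp0 : p = 0
  · subst hp0
    have hS0 : S = 0 := by
      by_contra hne
      have h3 : ∀ N : ℕ, (N : ℝ≥0∞) * S ≤ lam := fun N => hS N (by simp)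
      by_cases hSt : S = ⊤
      · have := h3 1
        rw [hSt] at this
        simp at this
        exact hlam this
      · obtain ⟨N, hN⟩ := ENNReal.exists_nat_mul_gt hne hlam
        exact absurd (h3 N) (not_le.2 hN)
    rw [hS0]
    exact zero_le
  · have h4 : (p ^ (-(1 / 16) : ℝ)) * S ≤ lam := by
      refine hS _ (le_of_eq ?_)
      rw [← ENNReal.rpow_natCast, ← ENNReal.rpow_mul]
      norm_num
      rw [ENNReal.rpow_neg_one]
      exact ENNReal.inv_mul_cancel hp0 hp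
    have h5 : p ^ (1 / 16 : ℝ) * (p ^ (-(1 / 16) : ℝ)) = 1 := by
      rw [← ENNReal.rpow_add _ _ hp0 hp]
      norm_num
    calc S = (p ^ (1 / 16 : ℝ) * (p ^ (-(1 / 16) : ℝ))) * S := by rw [h5, one_mul]
      _ = p ^ (1 / 16 : ℝ) * (p ^ (-(1 / 16) : ℝ) * S) := by ring
      _ ≤ _ := by gcongr

theorem NX_upper {c0 : ℝ} (h0 : 0 < c0) (h1 : c0 ≤ 1) (m : ℕ) (A : ℕ → Finset I)
    (hA : Monotone A) (x : ℕ → B → ℝ) (lam : ℝ≥0∞)
    (hx : ∀ j < 2 ^ m, NX supp 𝒜 (ENNReal.ofReal c0) (x j) ≤ lam)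
    (hs : ∀ j < 2 ^ m, ∀ b, x j b ≠ 0 → supp b ⊆ A (j + 1) ∧ ¬ supp b ⊆ A j) :
    NX supp 𝒜 (ENNReal.ofReal c0) (∑ j ∈ Finset.range (2 ^ m), x j) ≤
      ENNReal.ofReal (c0 ^ (-(1 / 16) : ℝ) * (2 * 2 ^ (-(1 / 16) : ℝ)) ^ m) * lam := by
  have hK : 0 < c0 ^ (-(1 / 16) : ℝ) * (2 * 2 ^ (-(1 / 16) : ℝ)) ^ m := by positivity
  by_cases hlam : lam = ⊤
  · rw [hlam, ENNReal.mul_top]
    · exact le_top
    · rw [ne_eq, ENNReal.ofReal_eq_zero, not_le]
      exact hK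
  have hc0 : ENNReal.ofReal c0 ≠ 0 := by
    rw [ne_eq, ENNReal.ofReal_eq_zero, not_le]
    exact h0
  have hct : ENNReal.ofReal c0 ≠ ⊤ := ENNReal.ofReal_ne_top
  refine iSup₂_le fun g hg => ?_
  set E : ℕ → Set B := fun j => {b | supp b ⊆ A (j + 1) ∧ ¬ supp b ⊆ A j} with hEdef
  set p : ℕ → ℝ≥0∞ := fun j => PhiU supp 𝒜 (ENNReal.ofReal c0)
    ((E j).indicator (fun b => g b ^ 2)) with hpdef
  have hsum : ENNReal.ofReal c0 * ∑ j ∈ Finset.range (2 ^ m), p j ≤ 1 :=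
    (PhiU_chain (2 ^ m) A hA (fun b => g b ^ 2)).trans hg
  have hsum' : ∑ j ∈ Finset.range (2 ^ m), p j ≤ (ENNReal.ofReal c0)⁻¹ := by
    rw [← one_mul (ENNReal.ofReal c0)⁻¹, ← div_eq_mul_inv,
      ENNReal.le_div_iff_mul_le (Or.inl hc0) (Or.inl hct), mul_comm]
    exact hsum
  have hpt : ∀ j ∈ Finset.range (2 ^ m), p j ≠ ⊤ := by
    intro j hj
    refine ne_top_of_le_ne_top (ENNReal.inv_ne_top.2 hc0) (le_trans ?_ hsum')
    exact Finset.single_le_sum (f := p) (fun _ _ => zero_le) hj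
  have hblock : ∀ j ∈ Finset.range (2 ^ m),
      ∑' b, ENNReal.ofReal |x j b| * g b ≤ p j ^ (1 / 16 : ℝ) * lam := by
    intro j hj
    exact nu_block (E j) g (x j) lam hlam (hx j (Finset.mem_range.1 hj))
      (hs j (Finset.mem_range.1 hj)) (hpt j hj)
  have hroot : ∑ j ∈ Finset.range (2 ^ m), p j ^ (1 / 16 : ℝ) ≤
      ENNReal.ofReal (c0 ^ (-(1 / 16) : ℝ) * (2 * 2 ^ (-(1 / 16) : ℝ)) ^ m) := by
    rw [← ENNReal.rpow_le_rpow_iff (show (0 : ℝ) < 16 by norm_num)]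
    refine (ENNReal.rpow_sum_le_const_mul_sum_rpow (Finset.range (2 ^ m))
      (fun j => p j ^ (1 / 16 : ℝ)) (show (1 : ℝ) ≤ 16 by norm_num)).trans ?_
    have e1 : ∀ j, (p j ^ (1 / 16 : ℝ)) ^ (16 : ℝ) = p j := by
      intro j
      rw [← ENNReal.rpow_mul]
      norm_num
    simp only [e1, Finset.card_range]
    have e2 : ENNReal.ofReal (c0 ^ (-(1 / 16) : ℝ) * (2 * 2 ^ (-(1 / 16) : ℝ)) ^ m) ^ (16 : ℝ) =
        ((2 ^ m : ℕ) : ℝ≥0∞) ^ ((16 : ℝ) - 1) * (ENNReal.ofReal c0)⁻¹ := by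
      have e3 : (c0 ^ (-(1 / 16) : ℝ) * (2 * 2 ^ (-(1 / 16) : ℝ)) ^ m) ^ (16 : ℝ) =
          ((2 ^ m : ℕ) : ℝ) ^ (15 : ℕ) * c0⁻¹ := by
        rw [Real.mul_rpow (by positivity) (by positivity), ← Real.rpow_mul h0.le]
        have e4 : ((2 * 2 ^ (-(1 / 16) : ℝ)) ^ m : ℝ) ^ (16 : ℝ) = ((2 : ℝ) ^ m) ^ (15 : ℕ) := by
          have e5 : (2 * 2 ^ (-(1 / 16) : ℝ) : ℝ) = 2 ^ (15 / 16 : ℝ) := by
            nth_rewrite 1 [← Real.rpow_one 2]
            rw [← Real.rpow_add (by norm_num)]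
            norm_num
          rw [e5, ← Real.rpow_natCast, ← Real.rpow_mul (by positivity),
            ← Real.rpow_mul (by positivity), ← Real.rpow_natCast, ← Real.rpow_natCast,
            ← Real.rpow_mul (by positivity)]
          congr 1
          push_cast
          ring
        rw [e4]
        have : (-(1 / 16) * 16 : ℝ) = -1 := by norm_num
        rw [this, Real.rpow_neg_one]
        push_cast
        ring
      rw [ENNReal.ofReal_rpow_of_nonneg hK.le (by norm_num), e3,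
        ENNReal.ofReal_mul (by positivity), ENNReal.ofReal_inv_of_pos h0,
        ENNReal.ofReal_pow (by positivity), ENNReal.ofReal_natCast]
      congr 1
      have : ((16 : ℝ) - 1) = ((15 : ℕ) : ℝ) := by norm_num
      rw [this, ENNReal.rpow_natCast]
    rw [e2]
    gcongr
  calc ∑' b, ENNReal.ofReal |(∑ j ∈ Finset.range (2 ^ m), x j) b| * g b
      ≤ ∑' b, ∑ j ∈ Finset.range (2 ^ m), ENNReal.ofReal |x j b| * g b := by
        refine ENNReal.tsum_le_tsum fun b => ?_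
        rw [← Finset.sum_mul, Finset.sum_apply]
        gcongr
        rw [← ENNReal.ofReal_sum_of_nonneg (fun _ _ => abs_nonneg _)]
        exact ENNReal.ofReal_le_ofReal (Finset.abs_sum_le_sum_abs _ _)
    _ = ∑ j ∈ Finset.range (2 ^ m), ∑' b, ENNReal.ofReal |x j b| * g b := by
        rw [Summable.tsum_finsetSum]
        intro _ _
        exact ENNReal.summable
    _ ≤ ∑ j ∈ Finset.range (2 ^ m), p j ^ (1 / 16 : ℝ) * lam := Finset.sum_le_sum hblock
    _ = (∑ j ∈ Finset.range (2 ^ m), p j ^ (1 / 16 : ℝ)) * lam := by rw [Finset.sum_mul]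
    _ ≤ _ := by gcongr

end Pool.Agent.H82.Um
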