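import Pool.Agent.H82.Um.NormLow
import Pool.Agent.H82.Um.NormUp
import Pool.Agent.H82.Um.CutSpace

/-!
MP_98b928_an (helper82). The cut space given by `supp`, `𝒜`, `c0`.
-/

namespace Pool.Agent.H82.Um

open scoped ENNReal NNReal

variable {B I : Type}

/-- The cut space given by `supp`, `𝒜`, `c0`. -/
noncomputable def cutSpaceOf (supp : B → Finset I) (𝒜 : Set (B → ℝ≥0∞)) (c0 : ℝ) (h0 : 0 < c0)
    (h1 : c0 ≤ 1) (hfin : ∀ A : Finset I, {b | supp b ⊆ A}.Finite)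
    (h𝒜 : ∀ a ∈ 𝒜, ∑' b, a b ≤ 1) (h𝒜' : ∀ b, ∃ a ∈ 𝒜, a b ≠ 0) :
    CutSpace B I (c0 ^ (-(1 / 16) : ℝ)) (2 ^ (-(1 / 16) : ℝ)) where
  supp := supp
  fin := hfin
  N := NX supp 𝒜 (ENNReal.ofReal c0)
  N_add := NX_add
  N_smul := NX_smul
  N_mono := NX_mono
  N_coord := NX_coord h𝒜 (by simpa using h1)
  N_single := NX_single h𝒜'
  N_fin := NX_fin
  N_lower := NX_lower
  N_upper := fun m A hA x lam hx hs => NX_upper h0 h1 m A hA x lam hx hs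

end Pool.Agent.H82.Um
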