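import Pool.Agent.H82.Um.PhiU

/-!
MODULE NORMA (helper82, MP_98b928_an). The norm
`NX x = ⨆ (g ≥ 0, PhiU (g^2) ≤ 1), ∑' b, |x b| * g b`; elementary properties.

Proofs (`D` is the set of the `g` with `PhiU (g^2) ≤ 1`; it is downward closed by `PhiU_mono`).
* `NX_add`, `NX_smul`, `NX_mono`: `ENNReal.tsum_add`, `ENNReal.tsum_mul_left`, `ENNReal.mul_iSup`.
* `NX_coord`: `g = indicator {b} 1` is in `D` (`PhiU_single`).
* `NX_single`: choose `a ∈ 𝒜` with `a b ≠ 0`; `mass_le_of_PhiU` gives `a b * g b ^ 2 ≤ 1`, so `g b` is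
  bounded by a finite number for all `g ∈ D`.
* `NX_fin`: the sum `∑' b` is the supremum of its finite partial sums (`ENNReal.tsum_eq_iSup_sum`).
-/

namespace Pool.Agent.H82.Um

open scoped ENNReal NNReal

variable {B I : Type}

/-- The norm. -/
noncomputable def NX (supp : B → Finset I) (𝒜 : Set (B → ℝ≥0∞)) (c : ℝ≥0∞) (x : B → ℝ) : ℝ≥0∞ :=
  ⨆ (g : B → ℝ≥0∞) (_ : PhiU supp 𝒜 c (fun b => g b ^ 2) ≤ 1), ∑' b, ENNReal.ofReal |x b| * g b

variable {supp : B → Finset I} {𝒜 : Set (B → ℝ≥0∞)} {c : ℝ≥0∞}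

theorem le_NX (x : B → ℝ) {g : B → ℝ≥0∞} (hg : PhiU supp 𝒜 c (fun b => g b ^ 2) ≤ 1) :
    ∑' b, ENNReal.ofReal |x b| * g b ≤ NX supp 𝒜 c x :=
  le_iSup₂_of_le g hg le_rfl

theorem NX_add (x y : B → ℝ) : NX supp 𝒜 c (x + y) ≤ NX supp 𝒜 c x + NX supp 𝒜 c y := by
  refine iSup₂_le fun g hg => ?_
  refine le_trans ?_ (add_le_add (le_NX x hg) (le_NX y hg))
  rw [← ENNReal.tsum_add]
  refine ENNReal.tsum_le_tsum fun b => ?_
  rw [← add_mul, ← ENNReal.ofReal_add (abs_nonneg _) (abs_nonneg _)]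
  gcongr
  exact abs_add_le _ _

theorem NX_smul (r : ℝ) (x : B → ℝ) :
    NX supp 𝒜 c (r • x) = ENNReal.ofReal |r| * NX supp 𝒜 c x := by
  unfold NX
  rw [ENNReal.mul_iSup]
  refine iSup_congr fun g => ?_
  rw [ENNReal.mul_iSup]
  refine iSup_congr fun _ => ?_
  rw [← ENNReal.tsum_mul_left]
  refine tsum_congr fun b => ?_
  rw [Pi.smul_apply, smul_eq_mul, abs_mul, ENNReal.ofReal_mul (abs_nonneg _), mul_assoc]

theorem NX_mono (x y : B → ℝ) (h : ∀ b, |x b| ≤ |y b|) : NX supp 𝒜 c x ≤ NX supp 𝒜 c y := by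
  refine iSup₂_mono fun g _ => ENNReal.tsum_le_tsum fun b => ?_
  exact mul_le_mul_left (ENNReal.ofReal_le_ofReal (h b)) _

theorem NX_coord (h𝒜 : ∀ a ∈ 𝒜, ∑' b, a b ≤ 1) (hc : c ≤ 1) (x : B → ℝ) (b : B) :
    ENNReal.ofReal |x b| ≤ NX supp 𝒜 c x := by
  classical
  have h1 : PhiU supp 𝒜 c (fun b' => (Set.indicator {b} 1 b' : ℝ≥0∞) ^ 2) ≤ 1 := by
    have : (fun b' => (Set.indicator {b} 1 b' : ℝ≥0∞) ^ 2) = Set.indicator {b} 1 := by
      funext b'
      by_cases h : b' ∈ ({b} : Set B)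
      · rw [Set.indicator_of_mem h]
        simp
      · rw [Set.indicator_of_notMem h]
        simp
    rw [this]
    exact PhiU_single h𝒜 hc b
  refine le_trans (le_of_eq ?_) (le_NX x h1)
  rw [tsum_eq_single b]
  · simp
  · intro b' hb'
    rw [Set.indicator_of_notMem (by simpa using hb')]
    simp

theorem NX_single (h𝒜' : ∀ b, ∃ a ∈ 𝒜, a b ≠ 0) (b : B) :
    NX supp 𝒜 c (Set.indicator {b} 1) < ⊤ := by
  classical
  obtain ⟨a, ha, hab⟩ := h𝒜' b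
  have hfin : 1 + (a b)⁻¹ < ⊤ := by
    rw [ENNReal.add_lt_top]
    exact ⟨ENNReal.one_lt_top, ENNReal.inv_lt_top.2 (pos_iff_ne_zero.2 hab)⟩
  refine lt_of_le_of_lt (iSup₂_le fun g hg => ?_) hfin
  have h1 := mass_le_of_PhiU hg ha
  have h2 : a b * g b ^ 2 ≤ 1 := (ENNReal.le_tsum (f := fun b => a b * g b ^ 2) b).trans h1
  have h3 : g b ^ 2 ≤ (a b)⁻¹ := by
    rw [← one_mul (a b)⁻¹, ← div_eq_mul_inv]
    refine (ENNReal.le_div_iff_mul_le (Or.inl hab) (Or.inr ENNReal.one_ne_top)).2 ?_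
    rw [mul_comm]
    exact h2
  have h4 : g b ≤ 1 + (a b)⁻¹ := by
    rcases le_total (g b) 1 with h | h
    · exact h.trans le_self_add
    · calc g b = g b * 1 := (mul_one _).symm
        _ ≤ g b * g b := by gcongr
        _ = g b ^ 2 := (sq _).symm
        _ ≤ (a b)⁻¹ := h3
        _ ≤ _ := le_add_self
  refine le_trans (le_of_eq ?_) h4
  rw [tsum_eq_single b]
  · simp
  · intro b' hb'
    rw [Set.indicator_of_notMem (by simpa using hb')]
    simp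

theorem NX_fin (x : B → ℝ) (M : ℝ≥0∞)
    (h : ∀ F : Set B, F.Finite → NX supp 𝒜 c (F.indicator x) ≤ M) : NX supp 𝒜 c x ≤ M := by
  classical
  refine iSup₂_le fun g hg => ?_
  rw [ENNReal.tsum_eq_iSup_sum]
  refine iSup_le fun s => ?_
  refine le_trans ?_ ((le_NX _ hg).trans (h (s : Set B) s.finite_toSet))
  refine le_trans (le_of_eq ?_) (ENNReal.sum_le_tsum s)
  refine Finset.sum_congr rfl fun b hb => ?_
  rw [Set.indicator_of_mem (by exact_mod_cast hb)]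

end Pool.Agent.H82.Um
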