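import Pool.Agent.H82.Um.PhiU

/-!
MODULE PHICONV (helper82, MP_98b928_an). `PhiU` is convex.

`VU` for `∑ λ_j u_j` (`∑ λ_j ≤ 1`) is at most `∑ λ_j * VU (u_j)`: `mass` is additive in `u`
(`ENNReal.tsum_add`, finite sums), the supremum is subadditive, and `t ↦ t^8` is convex
(`(∑ λ_j t_j)^8 ≤ ∑ λ_j t_j^8`, Jensen with `∑ λ_j ≤ 1`: `ENNReal.inner_le_Lp_mul_Lq`,
`ENNReal.rpow_arith_mean_le_arith_mean_rpow` after adding a term with `t = 0`, or
`ENNReal.inner_le_weight_mul_Lp_of_nonneg`-like). Then `tot τ C` for `∑ λ_j u_j` is at most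
`∑ λ_j * tot τ C (u_j)` by induction on `τ` for all `C`; `tot_le_Phi`.
-/

namespace Pool.Agent.H82.Um

open scoped ENNReal

variable {B I : Type} {supp : B → Finset I} {𝒜 : Set (B → ℝ≥0∞)} {c : ℝ≥0∞}

theorem conv_pow_eight {ι : Type} (s : Finset ι) (l z : ι → ℝ≥0∞) (hl : ∑ j ∈ s, l j ≤ 1) :
    (∑ j ∈ s, l j * z j) ^ 8 ≤ ∑ j ∈ s, l j * z j ^ 8 := by
  have h := ENNReal.rpow_arith_mean_le_arith_mean_rpow (Finset.insertNone s)
    (fun o : Option ι => o.elim (1 - ∑ j ∈ s, l j) l) (fun o : Option ι => o.elim 0 z)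
    (by
      rw [Finset.sum_insertNone]
      simp only [Option.elim]
      exact tsub_add_cancel_of_le hl)
    (p := ((8 : ℕ) : ℝ)) (by norm_num)
  rw [Finset.sum_insertNone, Finset.sum_insertNone] at h
  simp only [Option.elim, ENNReal.rpow_natCast] at h
  simpa using h

theorem conv_mass {ι : Type} (s : Finset ι) (l : ι → ℝ≥0∞) (u : ι → B → ℝ≥0∞)
    (a : B → ℝ≥0∞) (C : Set B) :
    mass (fun b => a b * ∑ j ∈ s, l j * u j b) C =
      ∑ j ∈ s, l j * mass (fun b => a b * u j b) C := by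
  unfold mass
  have h : ∀ j ∈ s, l j * ∑' t, C.indicator (fun b => a b * u j b) t =
      ∑' t, l j * C.indicator (fun b => a b * u j b) t := fun j _ => ENNReal.tsum_mul_left.symm
  rw [Finset.sum_congr rfl h, ← Summable.tsum_finsetSum (fun j _ => ENNReal.summable)]
  refine tsum_congr fun t => ?_
  by_cases ht : t ∈ C
  · simp only [Set.indicator_of_mem ht, Finset.mul_sum]
    exact Finset.sum_congr rfl fun j _ => by ring
  · simp only [Set.indicator_of_notMem ht, mul_zero, Finset.sum_const_zero]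

theorem conv_VU {ι : Type} (s : Finset ι) (l : ι → ℝ≥0∞) (hl : ∑ j ∈ s, l j ≤ 1)
    (u : ι → B → ℝ≥0∞) (C : Set B) :
    VU 𝒜 (fun b => ∑ j ∈ s, l j * u j b) C ≤ ∑ j ∈ s, l j * VU 𝒜 (u j) C := by
  unfold VU V8
  refine le_trans (pow_le_pow_left' ?_ 8) (conv_pow_eight s l _ hl)
  refine iSup_le fun a => ?_
  change mass (fun b => a.1 b * ∑ j ∈ s, l j * u j b) C ≤ _
  rw [conv_mass]
  refine Finset.sum_le_sum fun j _ => ?_
  gcongr
  exact mass_le_val (fun (a : 𝒜) (b : B) => a.1 b * u j b) a C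

theorem conv_tot {ι : Type} (s : Finset ι) (l : ι → ℝ≥0∞) (hl : ∑ j ∈ s, l j ≤ 1)
    (u : ι → B → ℝ≥0∞) (τ : DT B) (C : Set B) :
    τ.tot c (VU 𝒜 (fun b => ∑ j ∈ s, l j * u j b)) C ≤
      ∑ j ∈ s, l j * τ.tot c (VU 𝒜 (u j)) C := by
  induction τ generalizing C with
  | leaf => exact conv_VU s l hl u C
  | node G a b iha ihb =>
    simp only [DT.tot_node]
    refine (add_le_add (iha _) (mul_le_mul_right (ihb _) c)).trans (le_of_eq ?_)
    rw [Finset.mul_sum, ← Finset.sum_add_distrib]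
    exact Finset.sum_congr rfl fun j _ => by ring

/-- Convexity. -/
theorem PhiU_convex {ι : Type} (s : Finset ι) (l : ι → ℝ≥0∞) (hl : ∑ j ∈ s, l j ≤ 1)
    (u : ι → B → ℝ≥0∞) :
    PhiU supp 𝒜 c (fun b => ∑ j ∈ s, l j * u j b) ≤ ∑ j ∈ s, l j * PhiU supp 𝒜 c (u j) := by
  refine iSup₂_le fun τ hτ => (conv_tot s l hl u τ Set.univ).trans ?_
  refine Finset.sum_le_sum fun j _ => ?_
  gcongr
  exact tot_le_Phi hτ Set.univ

end Pool.Agent.H82.Um
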