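import Pool.Agent.H82.Um.NormA
import Pool.Agent.H82.Um.PhiConv

/-!
MODULE NORMLOW (helper82, MP_98b928_an). The lower `2`-estimate for disjoint vectors.

Put `t j = NX (indicator (E j) x)`, `T = ∑ t j ^ 2`. If some `t j = ⊤` then `NX x = ⊤` (`NX_mono`). If
`T = 0` it is trivial. Let `0 < T < ⊤`. Given `g j` with `PhiU (g j ^ 2) ≤ 1` the function
`g = ∑ j ∈ J, (t j / sqrt T) * indicator (E j) (g j)` satisfies `PhiU (g ^ 2) ≤ 1`: its square is
`∑ (t j ^ 2 / T) * indicator (E j) (g j ^ 2)` (disjoint sets, at most one nonzero term), so use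
`PhiU_convex`, `PhiU_mono`, `∑ t j ^ 2 / T ≤ 1`. So
`NX x ≥ ∑' b, |x b| * g b = ∑ (t j / sqrt T) * ∑' b, |indicator (E j) x b| * g j b`; the supremum over
all `g j` (finitely many, e.g. take `g j` with the sum `≥ t j - ε`, or `ENNReal.finsetSum_iSup`) gives
`NX x ≥ ∑ (t j / sqrt T) * t j = sqrt T`. (It may be convenient to prove first, for arbitrary finite
`l j` with `∑ l j ^ 2 ≤ 1`, that `∑ l j * NX (indicator (E j) x) ≤ NX x`.)
-/

namespace Pool.Agent.H82.Um

open scoped ENNReal NNReal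

variable {B I : Type} {supp : B → Finset I} {𝒜 : Set (B → ℝ≥0∞)} {c : ℝ≥0∞}

theorem nl_sum_iSup {ι κ : Type} [Nonempty κ] (J : Finset ι) (F : ι → κ → ℝ≥0∞) (M : ℝ≥0∞) :
    ∀ C : ℝ≥0∞, (∀ k : ι → κ, C + ∑ j ∈ J, F j (k j) ≤ M) → C + ∑ j ∈ J, ⨆ k, F j k ≤ M := by
  classical
  induction J using Finset.induction_on with
  | empty =>
    intro C h
    simpa using h (fun _ => Classical.arbitrary κ)
  | insert a J ha ih =>
    intro C h
    rw [Finset.sum_insert ha, ← add_assoc, ENNReal.add_iSup, ENNReal.iSup_add]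
    refine iSup_le fun k0 => ih _ fun k => ?_
    have := h (Function.update k a k0)
    rw [Finset.sum_insert ha, ← add_assoc, Function.update_self] at this
    refine le_trans (le_of_eq ?_) this
    congr 1
    refine Finset.sum_congr rfl fun j hj => ?_
    have hja : j ≠ a := by
      rintro rfl
      exact ha hj
    rw [Function.update_of_ne hja]

theorem nl_key (J : Finset ℕ) (E : ℕ → Set B)
    (hE : ∀ i ∈ J, ∀ j ∈ J, i ≠ j → Disjoint (E i) (E j)) (x : B → ℝ) (l : ℕ → ℝ≥0∞)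
    (hl : ∑ j ∈ J, l j ^ 2 ≤ 1) :
    ∑ j ∈ J, l j * NX supp 𝒜 c ((E j).indicator x) ≤ NX supp 𝒜 c x := by
  classical
  have hne : Nonempty {g : B → ℝ≥0∞ // PhiU supp 𝒜 c (fun b => g b ^ 2) ≤ 1} := by
    refine ⟨⟨fun _ => 0, ?_⟩⟩
    have := PhiU_smul (supp := supp) (𝒜 := 𝒜) (c := c) 0 (fun _ => 1)
    simp only [zero_mul, ne_eq, OfNat.ofNat_ne_zero, not_false_eq_true, zero_pow] at this ⊢
    rw [this]
    exact zero_le
  have h1 : ∀ j, l j * NX supp 𝒜 c ((E j).indicator x) =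
      ⨆ g : {g : B → ℝ≥0∞ // PhiU supp 𝒜 c (fun b => g b ^ 2) ≤ 1},
        l j * ∑' b, ENNReal.ofReal |(E j).indicator x b| * g.1 b := by
    intro j
    rw [← ENNReal.mul_iSup, NX, iSup_subtype']
  simp only [h1]
  have h2 := nl_sum_iSup J (fun (j : ℕ)
    (g : {g : B → ℝ≥0∞ // PhiU supp 𝒜 c (fun b => g b ^ 2) ≤ 1}) =>
      l j * ∑' b, ENNReal.ofReal |(E j).indicator x b| * g.1 b) (NX supp 𝒜 c x) 0
  simp only [zero_add] at h2
  refine h2 fun k => ?_
  have hG : PhiU supp 𝒜 c (fun b => (∑ j ∈ J, l j * (E j).indicator (k j).1 b) ^ 2) ≤ 1 := by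
    have e1 : (fun b => (∑ j ∈ J, l j * (E j).indicator (k j).1 b) ^ 2) =
        fun b => ∑ j ∈ J, l j ^ 2 * ((E j).indicator (k j).1 b) ^ 2 := by
      funext b
      by_cases hb : ∃ i ∈ J, b ∈ E i
      · obtain ⟨i, hi, hbi⟩ := hb
        have hother : ∀ j ∈ J, j ≠ i → (E j).indicator (k j).1 b = 0 := by
          intro j hj hji
          exact Set.indicator_of_notMem (fun hbj =>
            Set.disjoint_left.1 (hE j hj i hi hji) hbj hbi) _
        rw [Finset.sum_eq_single_of_mem i hi, Finset.sum_eq_single_of_mem i hi, mul_pow]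
        · intro j hj hji
          rw [hother j hj hji]
          simp
        · intro j hj hji
          rw [hother j hj hji]
          simp
      · push Not at hb
        have h0 : ∀ j ∈ J, (E j).indicator (k j).1 b = 0 := fun j hj =>
          Set.indicator_of_notMem (hb j hj) _
        rw [Finset.sum_eq_zero (fun j hj => by rw [h0 j hj]; simp),
          Finset.sum_eq_zero (fun j hj => by rw [h0 j hj]; simp)]
        simp
    rw [e1]
    refine (PhiU_convex J (fun j => l j ^ 2) hl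
      (fun j b => ((E j).indicator (k j).1 b) ^ 2)).trans ?_
    refine le_trans (Finset.sum_le_sum fun j _ => ?_) hl
    calc l j ^ 2 * PhiU supp 𝒜 c (fun b => ((E j).indicator (k j).1 b) ^ 2)
        ≤ l j ^ 2 * 1 := by
          gcongr
          refine (PhiU_mono fun b => ?_).trans (k j).2
          gcongr
          exact Set.indicator_le_self (E j) (k j).1 b
      _ = l j ^ 2 := mul_one _
  refine le_trans (le_of_eq ?_) (le_NX x hG)
  have e2 : ∀ j ∈ J, l j * ∑' b, ENNReal.ofReal |(E j).indicator x b| * (k j).1 b =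
      ∑' b, ENNReal.ofReal |x b| * (l j * (E j).indicator (k j).1 b) := by
    intro j _
    rw [← ENNReal.tsum_mul_left]
    refine tsum_congr fun b => ?_
    by_cases hb : b ∈ E j
    · rw [Set.indicator_of_mem hb, Set.indicator_of_mem hb]
      ring
    · rw [Set.indicator_of_notMem hb, Set.indicator_of_notMem hb]
      simp
  rw [Finset.sum_congr rfl e2, ← Summable.tsum_finsetSum (fun _ _ => ENNReal.summable)]
  refine tsum_congr fun b => ?_
  rw [Finset.mul_sum]

theorem NX_lower (J : Finset ℕ) (E : ℕ → Set B)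
    (hE : ∀ i ∈ J, ∀ j ∈ J, i ≠ j → Disjoint (E i) (E j)) (x : B → ℝ) :
    ∑ j ∈ J, NX supp 𝒜 c ((E j).indicator x) ^ 2 ≤ NX supp 𝒜 c x ^ 2 := by
  set t : ℕ → ℝ≥0∞ := fun j => NX supp 𝒜 c ((E j).indicator x) with ht
  have hmono : ∀ j, t j ≤ NX supp 𝒜 c x := by
    intro j
    refine NX_mono _ _ fun b => ?_
    by_cases hb : b ∈ E j
    · rw [Set.indicator_of_mem hb]
    · rw [Set.indicator_of_notMem hb]
      simp
  by_cases htop : NX supp 𝒜 c x = ⊤
  · rw [htop]
    simp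
  set T : ℝ≥0∞ := ∑ j ∈ J, t j ^ 2 with hT
  have hTt : T ≠ ⊤ := by
    rw [hT]
    refine (ENNReal.sum_ne_top.2 fun j _ => ENNReal.pow_ne_top ?_)
    exact ne_top_of_le_ne_top htop (hmono j)
  by_cases hT0 : T = 0
  · show T ≤ _
    rw [hT0]
    exact zero_le
  obtain ⟨s, hs⟩ : ∃ s : ℝ≥0∞, s ^ 2 = T := ⟨T ^ (1 / 2 : ℝ), by
    rw [← ENNReal.rpow_natCast, ← ENNReal.rpow_mul]
    norm_num⟩
  have hs0 : s ≠ 0 := by
    rintro rfl
    exact hT0 (by rw [← hs]; simp)
  have hst : s ≠ ⊤ := by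
    rintro rfl
    exact hTt (by rw [← hs]; simp)
  have hl : ∑ j ∈ J, (t j * s⁻¹) ^ 2 ≤ 1 := by
    have : ∑ j ∈ J, (t j * s⁻¹) ^ 2 = T * s⁻¹ ^ 2 := by
      rw [hT, Finset.sum_mul]
      exact Finset.sum_congr rfl fun j _ => by rw [mul_pow]
    rw [this, ← hs, ← mul_pow, ENNReal.mul_inv_cancel hs0 hst]
    simp
  have hkey := nl_key (supp := supp) (𝒜 := 𝒜) (c := c) J E hE x (fun j => t j * s⁻¹) hl
  have e3 : ∑ j ∈ J, t j * s⁻¹ * NX supp 𝒜 c ((E j).indicator x) = s := by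
    have : ∑ j ∈ J, t j * s⁻¹ * NX supp 𝒜 c ((E j).indicator x) = T * s⁻¹ := by
      rw [hT, Finset.sum_mul]
      refine Finset.sum_congr rfl fun j _ => ?_
      show t j * s⁻¹ * t j = _
      ring
    rw [this, ← hs, sq, mul_assoc, ENNReal.mul_inv_cancel hs0 hst, mul_one]
  rw [e3] at hkey
  show T ≤ _
  rw [← hs]
  gcongr

end Pool.Agent.H82.Um
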