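import Pool.Agent.H82.Um.Sys

/-!
MODULE PHIU (helper82, MP_98b928_an). The functional `PhiU` on nonnegative functions `u` on the basis.

`PhiU u` is the supremum over all decomposition trees (cut sets `{b | supp b ⊆ A}`) of the sums of
`c ^ (number of hit steps) * (⨆ a ∈ 𝒜, mass of the leaf class under a * u) ^ 8`.

All properties are proved by induction on the tree (for all classes `C`) and passing to the supremum.
* `Phi_VU_eq`: `VU 𝒜 (C.indicator u) C' = VU 𝒜 u (C ∩ C')`; so `tot` at `C ∩ C'` for `u` is `tot` at `C'`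
  for `C.indicator u`.
* `mono`: clear. `mass_le`: `V_le_Phi`, and `x ^ 8 ≤ 1 → x ≤ 1`.
* `single` (`u = indicator {b} 1`): `tot τ C ≤ 1` (and `= 0` if `b ∉ C`): only one child sees `b`.
* `smul`: `V8` is homogeneous of degree `8`.
* `chain`: for `A 0 ⊆ A 1 ⊆ ... ⊆ A n` and `E j = {supp ⊆ A (j+1)} \ {supp ⊆ A j}`. Prove
  `c * ∑_{j<n} PhiU (indicator (E j) u) ≤ PhiU (indicator {supp ⊆ A n} u)` by induction on `n` with
  `Phi_split` for the cut set `{supp ⊆ A n}` and `Phi_VU_eq` (the avoid part has weight `1`, the hit part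
  weight `c`), then `PhiU_mono`.
-/

namespace Pool.Agent.H82.Um

open scoped ENNReal

variable {B I : Type}

/-- The cut sets. -/
def cutsOf (supp : B → Finset I) : Set (Set B) :=
  {G | ∃ A : Set I, G = {b | ∀ i ∈ supp b, i ∈ A}}

/-- The value of a class for the function `u`. -/
noncomputable def VU (𝒜 : Set (B → ℝ≥0∞)) (u : B → ℝ≥0∞) : Set B → ℝ≥0∞ :=
  V8 (fun (a : 𝒜) (b : B) => a.1 b * u b)

/-- The functional `PhiU`. -/
noncomputable def PhiU (supp : B → Finset I) (𝒜 : Set (B → ℝ≥0∞)) (c : ℝ≥0∞)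
    (u : B → ℝ≥0∞) : ℝ≥0∞ :=
  Phi (cutsOf supp) c (VU 𝒜 u) Set.univ

variable {supp : B → Finset I} {𝒜 : Set (B → ℝ≥0∞)} {c : ℝ≥0∞}

theorem VU_indicator (u : B → ℝ≥0∞) (C C' : Set B) :
    VU 𝒜 (C.indicator u) C' = VU 𝒜 u (C ∩ C') := by
  unfold VU V8 val mass
  congr 1
  refine iSup_congr fun a => tsum_congr fun b => ?_
  by_cases h1 : b ∈ C <;> by_cases h2 : b ∈ C' <;> simp [Set.indicator, h1, h2]

theorem tot_VU_indicator (u : B → ℝ≥0∞) (τ : DT B) (C C' : Set B) :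
    τ.tot c (VU 𝒜 (C.indicator u)) C' = τ.tot c (VU 𝒜 u) (C ∩ C') := by
  induction τ generalizing C' with
  | leaf => exact VU_indicator u C C'
  | node G a b iha ihb =>
    simp only [DT.tot_node]
    rw [iha, ihb, Set.inter_assoc, Set.inter_sdiff_assoc]

/-- Restricting the function is the same as restricting the class. -/
theorem Phi_VU_eq (u : B → ℝ≥0∞) (C : Set B) :
    Phi (cutsOf supp) c (VU 𝒜 u) C = PhiU supp 𝒜 c (C.indicator u) := by
  unfold PhiU Phi
  refine iSup_congr fun τ => iSup_congr fun _ => ?_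
  rw [tot_VU_indicator, Set.inter_univ]

theorem VU_mono {u v : B → ℝ≥0∞} (h : ∀ b, u b ≤ v b) (C : Set B) :
    VU 𝒜 u C ≤ VU 𝒜 v C := by
  unfold VU V8 val mass
  refine pow_le_pow_left' (iSup_mono fun a => ENNReal.tsum_le_tsum fun b => ?_) 8
  exact Set.indicator_le_indicator (mul_le_mul_right (h b) _)

theorem PhiU_mono {u v : B → ℝ≥0∞} (h : ∀ b, u b ≤ v b) :
    PhiU supp 𝒜 c u ≤ PhiU supp 𝒜 c v :=
  iSup₂_mono fun τ _ => DT.tot_mono_V (VU_mono h) τ _

/-- `PhiU` dominates the value of the whole class. -/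
theorem mass_le_of_PhiU {u : B → ℝ≥0∞} (h : PhiU supp 𝒜 c u ≤ 1) {a : B → ℝ≥0∞} (ha : a ∈ 𝒜) :
    ∑' b, a b * u b ≤ 1 := by
  have h1 : VU 𝒜 u Set.univ ≤ 1 := (V_le_Phi (𝒢 := cutsOf supp) (c := c) Set.univ).trans h
  have h2 : mass (fun b => a b * u b) Set.univ ≤
      val (fun (a : 𝒜) (b : B) => a.1 b * u b) Set.univ :=
    mass_le_val (fun (a : 𝒜) (b : B) => a.1 b * u b) ⟨a, ha⟩ Set.univ
  rw [mass_univ] at h2
  refine h2.trans ?_
  by_contra hcon
  push Not at hcon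
  have h3 : (1 : ℝ≥0∞) < val (fun (a : 𝒜) (b : B) => a.1 b * u b) Set.univ ^ 8 :=
    one_lt_pow₀ hcon (by norm_num)
  exact absurd h1 (not_le.2 h3)

theorem VU_single (h𝒜 : ∀ a ∈ 𝒜, ∑' b, a b ≤ 1) (b : B) (C : Set B) :
    VU 𝒜 (Set.indicator {b} 1) C ≤ C.indicator 1 b := by
  classical
  have hm : ∀ a : 𝒜, mass (fun b' => a.1 b' * Set.indicator {b} 1 b') C ≤ C.indicator 1 b := by
    intro a
    unfold mass
    rw [tsum_eq_single b]
    · by_cases hb : b ∈ C
      · simp only [Set.indicator_of_mem hb, Set.indicator_of_mem (Set.mem_singleton b),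
          Pi.one_apply, mul_one]
        exact (ENNReal.le_tsum b).trans (h𝒜 a.1 a.2)
      · simp [Set.indicator_of_notMem hb]
    · intro b' hb'
      have : b' ∉ ({b} : Set B) := hb'
      have h0 : Set.indicator {b} (1 : B → ℝ≥0∞) b' = 0 := Set.indicator_of_notMem this _
      by_cases hC : b' ∈ C
      · rw [Set.indicator_of_mem hC, h0, mul_zero]
      · rw [Set.indicator_of_notMem hC]
  have h2 : val (fun (a : 𝒜) (b' : B) => a.1 b' * Set.indicator {b} 1 b') C ≤
      C.indicator 1 b := iSup_le hm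
  have h3 := pow_le_pow_left' h2 8
  refine h3.trans ?_
  by_cases hb : b ∈ C
  · simp [Set.indicator_of_mem hb]
  · simp [Set.indicator_of_notMem hb]

theorem PhiU_single (h𝒜 : ∀ a ∈ 𝒜, ∑' b, a b ≤ 1) (hc : c ≤ 1) (b : B) :
    PhiU supp 𝒜 c (Set.indicator {b} 1) ≤ 1 := by
  have key : ∀ (τ : DT B) (C : Set B),
      τ.tot c (VU 𝒜 (Set.indicator {b} 1)) C ≤ C.indicator 1 b := by
    intro τ
    induction τ with
    | leaf => exact fun C => VU_single h𝒜 b C
    | node G t s iht ihs =>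
      intro C
      rw [DT.tot_node]
      refine (add_le_add (iht _) (mul_le_mul' hc (ihs _))).trans ?_
      by_cases h1 : b ∈ C <;> by_cases h2 : b ∈ G <;> simp [Set.indicator, h1, h2]
  refine iSup₂_le fun τ _ => (key τ Set.univ).trans ?_
  simp

theorem tot_const_mul (r : ℝ≥0∞) (V : Set B → ℝ≥0∞) (τ : DT B) (C : Set B) :
    τ.tot c (fun C => r * V C) C = r * τ.tot c V C := by
  induction τ generalizing C with
  | leaf => rfl
  | node G a b iha ihb =>
    simp only [DT.tot_node]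
    rw [iha, ihb]
    ring

theorem VU_smul (r : ℝ≥0∞) (u : B → ℝ≥0∞) (C : Set B) :
    VU 𝒜 (fun b => r * u b) C = r ^ 8 * VU 𝒜 u C := by
  unfold VU V8 val mass
  rw [← mul_pow, ENNReal.mul_iSup]
  congr 1
  refine iSup_congr fun a => ?_
  rw [← ENNReal.tsum_mul_left]
  refine tsum_congr fun b => ?_
  by_cases h : b ∈ C
  · simp only [Set.indicator_of_mem h]
    ring
  · simp only [Set.indicator_of_notMem h, mul_zero]

theorem PhiU_smul (r : ℝ≥0∞) (u : B → ℝ≥0∞) :
    PhiU supp 𝒜 c (fun b => r * u b) = r ^ 8 * PhiU supp 𝒜 c u := by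
  unfold PhiU Phi
  rw [ENNReal.mul_iSup]
  refine iSup_congr fun τ => ?_
  rw [ENNReal.mul_iSup]
  refine iSup_congr fun _ => ?_
  have : VU 𝒜 (fun b => r * u b) = fun C => r ^ 8 * VU 𝒜 u C := funext fun C => VU_smul r u C
  rw [this, tot_const_mul]

/-- The lower estimate for successive blocks. -/
theorem PhiU_chain (n : ℕ) (A : ℕ → Finset I) (hA : Monotone A) (u : B → ℝ≥0∞) :
    c * ∑ j ∈ Finset.range n, PhiU supp 𝒜 c
      (Set.indicator {b | supp b ⊆ A (j + 1) ∧ ¬ supp b ⊆ A j} u) ≤ PhiU supp 𝒜 c u := by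
  have key : ∀ m : ℕ, c * ∑ j ∈ Finset.range m, PhiU supp 𝒜 c
      (Set.indicator {b | supp b ⊆ A (j + 1) ∧ ¬ supp b ⊆ A j} u) ≤
      PhiU supp 𝒜 c (Set.indicator {b | supp b ⊆ A m} u) := by
    intro m
    induction m with
    | zero => simp
    | succ m ih =>
      rw [Finset.sum_range_succ, mul_add]
      refine (add_le_add ih le_rfl).trans ?_
      rw [← Phi_VU_eq, ← Phi_VU_eq, ← Phi_VU_eq]
      have hG : {b | supp b ⊆ A m} ∈ cutsOf supp := ⟨(A m : Set I), rfl⟩
      have h1 := Phi_split (c := c) (V := VU 𝒜 u) hG {b | supp b ⊆ A (m + 1)}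
      have h2 : {b | supp b ⊆ A (m + 1)} ∩ {b | supp b ⊆ A m} = {b | supp b ⊆ A m} :=
        Set.inter_eq_right.2 fun b hb => Finset.Subset.trans hb (hA (Nat.le_succ m))
      have h3 : {b | supp b ⊆ A (m + 1)} \ {b | supp b ⊆ A m} =
          {b | supp b ⊆ A (m + 1) ∧ ¬ supp b ⊆ A m} := rfl
      rw [h2, h3] at h1
      exact h1
  refine (key n).trans (PhiU_mono fun b => ?_)
  exact Set.indicator_le_self _ _ b

end Pool.Agent.H82.Um
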