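import Pool.Agent.H82.Um.Sys

/-!
MODULE SER (helper82, MP_98b928_an). Serial composition: the excess bound

  `Psi (ser) ≤ e' + K * e`   if `g' + c * K ≤ K`, `1 ≤ K`.

Proof. Write `Φ = Phi 𝒢 c (V8 ν)`, `Ψ = Psi 𝒢 c (V8 ν)` for the first system and `Φ', Ψ'` for the
second one. For `C : Set (T × W × T')`, `x : W`, `t : T` put `C_t = {s | (t, x, s) ∈ C}`.

(1) `C` localised at `x` (all elements have middle coordinate `x`), `A : Set T` contains all `t` with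
`C_t` nonempty. Then for every tree `τ` with cut sets in `serG 𝒢 𝒢'`
  `tot τ C ≤ (mass (ν x) A)^7 * ∑' t, ν x t * Φ' (C_t)`,
  `exc τ C ≤ (mass (ν x) A)^7 * ∑' t, ν x t * Ψ' (C_t)`.
Induction on `τ`. Leaf: `V8 C = (⨆ w', ∑' t, ν x t * mass (ν' w') C_t)^8` (the pairs `(w, w')` with
`w ≠ x` give `0`), and `(∑' ν f)^8 ≤ (∑'_{A} ν)^7 * ∑' ν f^8` (Hölder / Jensen),
`mass (ν' w') C_t ^ 8 ≤ V8 ν' C_t ≤ Φ' C_t`. Node: for each `t` the pair
`((C ∩ K)_t, (C \ K)_t)` is `(C_t, ∅)`, `(∅, C_t)` or `(C_t ∩ H, C_t \ H)` with `H ∈ 𝒢'`; use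
`Phi_split`, `Phi_empty`, `c ≤ 1`, and for `exc` use `Psi_split`, `mul_Phi_le_Psi h0'`.
So `tot τ C ≤ (mass (ν x) A)^8 * g'` and `exc τ C ≤ (mass (ν x) A)^8 * e' ≤ e'`.

(2) `C ⊆ {t | t.1 ∈ A}`: `tot τ C ≤ K * Φ A`. Leaf: `V8 C ≤ V8 ν A ≤ Φ A ≤ K * Φ A`. Node with
`K = {t | t.1 ∈ G}`: induction and `Phi_split`. Localising node: by (1) the avoid part is
`≤ mass^8 * g' ≤ V8 ν A * g' ≤ g' * Φ A`, the hit part `≤ c * K * Φ A`. Node `∅`: `c * K * Φ A`.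

(3) `C ⊆ {t | t.1 ∈ A}`: `exc τ C ≤ e' + K * Ψ A`. Pure node: `exc` of the avoid part by induction,
`c * tot` of the hit part `≤ c * K * Φ (A \ G)`; `Psi_split`. Localising node: `exc ≤ e'` by (1),
hit part `≤ c * K * Φ A ≤ K * Ψ A` by `mul_Phi_le_Psi h0`. Node `∅`: `DT.exc_empty`, the same.
-/

namespace Pool.Agent.H82.Um

open scoped ENNReal

variable {T W T' W' : Type}

open Classical in
/-- The measures of the serial composition. -/
noncomputable def serν (ν : W → T → ℝ≥0∞) (ν' : W' → T' → ℝ≥0∞) (w : W × W')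
    (t : T × W × T') : ℝ≥0∞ :=
  if t.2.1 = w.1 then ν w.1 t.1 * ν' w.2 t.2.2 else 0

/-- The cut sets of the serial composition. -/
def serG (𝒢 : Set (Set T)) (𝒢' : Set (Set T')) : Set (Set (T × W × T')) :=
  {K | K = ∅ ∨ (∃ G ∈ 𝒢, K = {t | t.1 ∈ G}) ∨
    ∃ G ∈ 𝒢, ∃ x : W, ∃ H ∈ 𝒢', K = {t | t.1 ∈ G ∧ t.2.1 = x ∧ t.2.2 ∈ H}}

/-- Jensen's inequality for the eighth power. -/
theorem pow8_tsum_le {ι : Type*} (w f : ι → ℝ≥0∞) :
    (∑' i, w i * f i) ^ 8 ≤ (∑' i, w i) ^ 7 * ∑' i, w i * f i ^ 8 := by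
  set z : ℝ≥0∞ := (∑' i, w i) ^ (7 / 8 : ℝ) * (∑' i, w i * f i ^ 8) ^ (1 / 8 : ℝ) with hz
  have h1 : ∑' i, w i * f i ≤ z := by
    rw [ENNReal.tsum_eq_iSup_sum]
    refine iSup_le fun s => ?_
    refine (ENNReal.inner_le_weight_mul_Lp_of_nonneg s (p := 8) (by norm_num) w f).trans ?_
    have e1 : (1 - (8 : ℝ)⁻¹) = 7 / 8 := by norm_num
    have e2 : ((8 : ℝ)⁻¹) = 1 / 8 := by norm_num
    rw [e1, e2]
    refine mul_le_mul' (ENNReal.rpow_le_rpow (ENNReal.sum_le_tsum s) (by norm_num))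
      (ENNReal.rpow_le_rpow ?_ (by norm_num))
    refine le_trans (le_of_eq (Finset.sum_congr rfl fun i _ => ?_)) (ENNReal.sum_le_tsum s)
    rw [show (8 : ℝ) = ((8 : ℕ) : ℝ) by norm_num, ENNReal.rpow_natCast]
  calc (∑' i, w i * f i) ^ 8 ≤ z ^ 8 := pow_le_pow_left' h1 8
    _ = (∑' i, w i) ^ 7 * ∑' i, w i * f i ^ 8 := by
      rw [hz, mul_pow, ← ENNReal.rpow_natCast, ← ENNReal.rpow_natCast, ← ENNReal.rpow_mul,
        ← ENNReal.rpow_mul]
      norm_num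

section Step

variable {α : Type} {𝒢 : Set (Set α)} {c : ℝ≥0∞} {V : Set α → ℝ≥0∞}

/-- `Phi_split` also for the trivial cut set `univ`. -/
theorem Phi_step (hV : V ∅ = 0) {G : Set α} (hG : G = Set.univ ∨ G ∈ 𝒢) (C : Set α) :
    Phi 𝒢 c V (C ∩ G) + c * Phi 𝒢 c V (C \ G) ≤ Phi 𝒢 c V C := by
  rcases hG with rfl | hG
  · simp [Phi_empty hV]
  · exact Phi_split hG C

/-- `Psi_split` also for the trivial cut set `univ`. -/
theorem Psi_step (hV : V ∅ = 0) {G : Set α} (hG : G = Set.univ ∨ G ∈ 𝒢) (C : Set α) :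
    Psi 𝒢 c V (C ∩ G) + c * Phi 𝒢 c V (C \ G) ≤ Psi 𝒢 c V C := by
  rcases hG with rfl | hG
  · simp [Phi_empty hV]
  · exact Psi_split hG C

end Step

namespace Ser

/-- The section of a class at `(t, x)`. -/
def sec (C : Set (T × W × T')) (x : W) (t : T) : Set T' := {s | (t, x, s) ∈ C}

theorem sec_inter (C K : Set (T × W × T')) (x : W) (t : T) :
    sec (C ∩ K) x t = sec C x t ∩ sec K x t := rfl

theorem sec_diff (C K : Set (T × W × T')) (x : W) (t : T) :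
    sec (C \ K) x t = sec C x t \ sec K x t := rfl

theorem sec_cut {𝒢 : Set (Set T)} {𝒢' : Set (Set T')} (h0' : ∅ ∈ 𝒢') {K : Set (T × W × T')}
    (hK : K ∈ serG 𝒢 𝒢') (x : W) (t : T) : sec K x t = Set.univ ∨ sec K x t ∈ 𝒢' := by
  classical
  rcases hK with rfl | ⟨G, hG, rfl⟩ | ⟨G, hG, y, H, hH, rfl⟩
  · right
    exact h0'
  · by_cases ht : t ∈ G
    · left
      ext s
      simp [sec, ht]
    · right
      have : sec {t : T × W × T' | t.1 ∈ G} x t = ∅ := by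
        ext s
        simp [sec, ht]
      rw [this]
      exact h0'
  · right
    by_cases ht : t ∈ G ∧ x = y
    · have : sec {t : T × W × T' | t.1 ∈ G ∧ t.2.1 = y ∧ t.2.2 ∈ H} x t = H := by
        ext s
        simp [sec, ht.1, ht.2]
      rw [this]
      exact hH
    · have : sec {t : T × W × T' | t.1 ∈ G ∧ t.2.1 = y ∧ t.2.2 ∈ H} x t = ∅ := by
        ext s
        simp only [sec, Set.mem_ofPred_eq, Set.mem_empty_iff_false, iff_false]
        exact fun h => ht ⟨h.1, h.2.1⟩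
      rw [this]
      exact h0'

/-- The mass of a localised class. -/
theorem mass_loc (ν : W → T → ℝ≥0∞) (ν' : W' → T' → ℝ≥0∞) {C : Set (T × W × T')} {x : W}
    (hC : ∀ p ∈ C, p.2.1 = x) (w : W × W') :
    mass (serν ν ν' w) C ≤ ∑' t, ν x t * mass (ν' w.2) (sec C x t) := by
  classical
  by_cases hw : w.1 = x
  · subst hw
    have h1 : ∀ p : T × W × T', C.indicator (serν ν ν' w) p =
        if p.2.1 = w.1 then ν w.1 p.1 * (sec C w.1 p.1).indicator (ν' w.2) p.2.2 else 0 := by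
      rintro ⟨t, y, s⟩
      by_cases hy : y = w.1
      · subst hy
        by_cases hp : (t, w.1, s) ∈ C
        · have hs : s ∈ sec C w.1 t := hp
          simp [Set.indicator, hp, hs, serν]
        · have hs : s ∉ sec C w.1 t := hp
          simp [Set.indicator, hp, hs]
      · have hp : (t, y, s) ∉ C := fun h => hy (hC _ h)
        simp [Set.indicator, hp, hy]
    rw [mass, tsum_congr h1, ENNReal.tsum_prod']
    refine le_of_eq (tsum_congr fun t => ?_)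
    rw [ENNReal.tsum_prod', tsum_eq_single w.1]
    · simp only [if_true]
      rw [ENNReal.tsum_mul_left]
      rfl
    · intro y hy
      simp [hy]
  · have h1 : ∀ p : T × W × T', C.indicator (serν ν ν' w) p = 0 := by
      intro p
      by_cases hp : p ∈ C
      · have : p.2.1 ≠ w.1 := fun h => hw (h ▸ hC p hp)
        simp [Set.indicator, hp, serν, this]
      · simp [Set.indicator, hp]
    rw [mass, tsum_congr h1]
    simp

theorem V8_loc (ν : W → T → ℝ≥0∞) (ν' : W' → T' → ℝ≥0∞) {C : Set (T × W × T')} {x : W}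
    (hC : ∀ p ∈ C, p.2.1 = x) {A : Set T} (hA : ∀ p ∈ C, p.1 ∈ A) :
    V8 (serν ν ν') C ≤ mass (ν x) A ^ 7 * ∑' t, ν x t * V8 ν' (sec C x t) := by
  classical
  have key : ∀ w : W × W', mass (serν ν ν' w) C ^ 8 ≤
      mass (ν x) A ^ 7 * ∑' t, ν x t * V8 ν' (sec C x t) := by
    intro w
    have h1 : ∑' t, ν x t * mass (ν' w.2) (sec C x t) =
        ∑' t, A.indicator (ν x) t * mass (ν' w.2) (sec C x t) := by
      refine tsum_congr fun t => ?_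
      by_cases ht : t ∈ A
      · simp [ht]
      · have : sec C x t = ∅ := by
          ext s
          simp only [sec, Set.mem_ofPred_eq, Set.mem_empty_iff_false, iff_false]
          exact fun h => ht (hA _ h)
        simp [this]
    refine (pow_le_pow_left' ((mass_loc ν ν' hC w).trans_eq h1) 8).trans ?_
    refine (pow8_tsum_le _ _).trans (mul_le_mul' le_rfl ?_)
    refine ENNReal.tsum_le_tsum fun t => ?_
    refine mul_le_mul' (Set.indicator_le_self' (fun _ _ => zero_le) t) ?_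
    exact pow_le_pow_left' (mass_le_val ν' w.2 _) 8
  rw [V8, val]
  have h8 : ∀ (f : W × W' → ℝ≥0∞), (⨆ w, f w) ^ 8 = ⨆ w, f w ^ 8 := by
    intro f
    have := (ENNReal.orderIsoRpow 8 (by norm_num)).map_iSup f
    simp only [ENNReal.orderIsoRpow_apply] at this
    rw [show (8 : ℝ) = ((8 : ℕ) : ℝ) by norm_num, ENNReal.rpow_natCast] at this
    simpa using this
  rw [h8]
  exact iSup_le key

section

variable {𝒢 : Set (Set T)} {𝒢' : Set (Set T')} {ν : W → T → ℝ≥0∞} {ν' : W' → T' → ℝ≥0∞}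
  {c : ℝ≥0∞}

theorem tot_loc (h0' : ∅ ∈ 𝒢') {x : W} {A : Set T} (τ : DT (T × W × T'))
    (hτ : τ.Ok (serG 𝒢 𝒢')) :
    ∀ C : Set (T × W × T'), (∀ p ∈ C, p.2.1 = x) → (∀ p ∈ C, p.1 ∈ A) →
    τ.tot c (V8 (serν ν ν')) C ≤
      mass (ν x) A ^ 7 * ∑' t, ν x t * Phi 𝒢' c (V8 ν') (sec C x t) := by
  induction τ with
  | leaf =>
    intro C h1 h2
    refine (V8_loc ν ν' h1 h2).trans (mul_le_mul' le_rfl (ENNReal.tsum_le_tsum fun t => ?_))
    exact mul_le_mul' le_rfl (V_le_Phi _)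
  | node K a h iha ihh =>
    intro C h1 h2
    rw [DT.tot_node]
    refine (add_le_add (iha hτ.2.1 (C ∩ K) (fun p hp => h1 p hp.1) (fun p hp => h2 p hp.1))
      (mul_le_mul' le_rfl (ihh hτ.2.2 (C \ K) (fun p hp => h1 p hp.1)
        (fun p hp => h2 p hp.1)))).trans ?_
    rw [mul_left_comm c, ← mul_add, ← ENNReal.tsum_mul_left (a := c), ← ENNReal.tsum_add]
    refine mul_le_mul' le_rfl (ENNReal.tsum_le_tsum fun t => ?_)
    rw [sec_inter, sec_diff, mul_left_comm c, ← mul_add]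
    exact mul_le_mul' le_rfl (Phi_step (V8_empty ν') (sec_cut h0' hτ.1 x t) _)

theorem exc_loc (h0' : ∅ ∈ 𝒢') {x : W} {A : Set T} (τ : DT (T × W × T'))
    (hτ : τ.Ok (serG 𝒢 𝒢')) :
    ∀ C : Set (T × W × T'), (∀ p ∈ C, p.2.1 = x) → (∀ p ∈ C, p.1 ∈ A) →
    τ.exc c (V8 (serν ν ν')) C ≤
      mass (ν x) A ^ 7 * ∑' t, ν x t * Psi 𝒢' c (V8 ν') (sec C x t) := by
  induction τ with
  | leaf =>
    intro C h1 h2
    exact zero_le
  | node K a h iha ihh =>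
    intro C h1 h2
    rw [DT.exc_node]
    refine (add_le_add (iha hτ.2.1 (C ∩ K) (fun p hp => h1 p hp.1) (fun p hp => h2 p hp.1))
      (mul_le_mul' le_rfl (tot_loc h0' h hτ.2.2 (C \ K) (fun p hp => h1 p hp.1)
        (fun p hp => h2 p hp.1)))).trans ?_
    rw [mul_left_comm c, ← mul_add, ← ENNReal.tsum_mul_left (a := c), ← ENNReal.tsum_add]
    refine mul_le_mul' le_rfl (ENNReal.tsum_le_tsum fun t => ?_)
    rw [sec_inter, sec_diff, mul_left_comm c, ← mul_add]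
    exact mul_le_mul' le_rfl (Psi_step (V8_empty ν') (sec_cut h0' hτ.1 x t) _)

/-- Summing up the sections. -/
theorem loc_bound {F : Set T' → ℝ≥0∞} (hF0 : F ∅ = 0) {g : ℝ≥0∞} (hF : ∀ C, F C ≤ g) {x : W}
    {A : Set T} {C : Set (T × W × T')} (h2 : ∀ p ∈ C, p.1 ∈ A) :
    mass (ν x) A ^ 7 * ∑' t, ν x t * F (sec C x t) ≤ mass (ν x) A ^ 8 * g := by
  classical
  have h1 : ∑' t, ν x t * F (sec C x t) ≤ mass (ν x) A * g := by
    rw [mass, ← ENNReal.tsum_mul_right]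
    refine ENNReal.tsum_le_tsum fun t => ?_
    by_cases ht : t ∈ A
    · simp only [Set.indicator_of_mem ht]
      exact mul_le_mul' le_rfl (hF _)
    · have : sec C x t = ∅ := by
        ext s
        simp only [sec, Set.mem_ofPred_eq, Set.mem_empty_iff_false, iff_false]
        exact fun h => ht (h2 _ h)
      rw [this, hF0, mul_zero]
      exact zero_le
  calc mass (ν x) A ^ 7 * ∑' t, ν x t * F (sec C x t)
      ≤ mass (ν x) A ^ 7 * (mass (ν x) A * g) := mul_le_mul' le_rfl h1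
    _ = mass (ν x) A ^ 8 * g := by ring

theorem V8_le (hν' : ∀ w, ∑' t, ν' w t ≤ 1) {A : Set T} {C : Set (T × W × T')}
    (h2 : ∀ p ∈ C, p.1 ∈ A) : V8 (serν ν ν') C ≤ V8 ν A := by
  classical
  refine pow_le_pow_left' (iSup_le fun w => ?_) 8
  refine le_trans ?_ (mass_le_val ν w.1 A)
  have h1 : ∀ p : T × W × T', C.indicator (serν ν ν' w) p ≤
      if p.2.1 = w.1 then A.indicator (ν w.1) p.1 * ν' w.2 p.2.2 else 0 := by
    intro p
    by_cases hp : p ∈ C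
    · rw [Set.indicator_of_mem hp, Set.indicator_of_mem (h2 p hp)]
      exact le_rfl
    · rw [Set.indicator_of_notMem hp]
      exact zero_le
  refine (ENNReal.tsum_le_tsum h1).trans ?_
  rw [ENNReal.tsum_prod']
  refine ENNReal.tsum_le_tsum fun t => ?_
  rw [ENNReal.tsum_prod', tsum_eq_single w.1]
  · simp only [if_true]
    rw [ENNReal.tsum_mul_left]
    calc A.indicator (ν w.1) t * ∑' s, ν' w.2 s ≤ A.indicator (ν w.1) t * 1 :=
          mul_le_mul' le_rfl (hν' _)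
      _ = _ := mul_one _
  · intro y hy
    simp [hy]

theorem mass_pow_le (ν : W → T → ℝ≥0∞) (x : W) (A : Set T) : mass (ν x) A ^ 8 ≤ V8 ν A :=
  pow_le_pow_left' (mass_le_val ν x A) 8

theorem tot_gen (hν' : ∀ w, ∑' t, ν' w t ≤ 1) (hc : c ≤ 1) (h0' : ∅ ∈ 𝒢') {g' K : ℝ≥0∞}
    (hg' : Phi 𝒢' c (V8 ν') Set.univ ≤ g') (hK1 : 1 ≤ K) (hK : g' + c * K ≤ K)
    (τ : DT (T × W × T')) (hτ : τ.Ok (serG 𝒢 𝒢')) :
    ∀ (A : Set T) (C : Set (T × W × T')), (∀ p ∈ C, p.1 ∈ A) →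
    τ.tot c (V8 (serν ν ν')) C ≤ K * Phi 𝒢 c (V8 ν) A := by
  have hg'' : ∀ C, Phi 𝒢' c (V8 ν') C ≤ g' := fun C =>
    (Phi_mono (V8_mono ν') (Set.subset_univ C)).trans hg'
  induction τ with
  | leaf =>
    intro A C h2
    refine ((V8_le hν' h2).trans (V_le_Phi (𝒢 := 𝒢) (c := c) A)).trans ?_
    calc Phi 𝒢 c (V8 ν) A = 1 * Phi 𝒢 c (V8 ν) A := (one_mul _).symm
      _ ≤ K * Phi 𝒢 c (V8 ν) A := mul_le_mul' hK1 le_rfl
  | node L a h iha ihh =>
    intro A C h2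
    rw [DT.tot_node]
    rcases hτ.1 with rfl | ⟨G, hG, rfl⟩ | ⟨G, hG, y, H, hH, rfl⟩
    · rw [Set.inter_empty, DT.tot_empty (V8_empty _), zero_add, Set.sdiff_empty]
      calc c * h.tot c (V8 (serν ν ν')) C ≤ 1 * (K * Phi 𝒢 c (V8 ν) A) :=
            mul_le_mul' hc (ihh hτ.2.2 A C h2)
        _ = _ := one_mul _
    · refine (add_le_add (iha hτ.2.1 (A ∩ G) _ fun p hp => ⟨h2 p hp.1, hp.2⟩)
        (mul_le_mul' le_rfl (ihh hτ.2.2 (A \ G) _ fun p hp => ⟨h2 p hp.1, hp.2⟩))).trans ?_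
      rw [mul_left_comm c, ← mul_add]
      exact mul_le_mul' le_rfl (Phi_split hG A)
    · have hloc := (tot_loc (c := c) (ν := ν) (ν' := ν') (A := A) h0' a hτ.2.1
        (C ∩ {t | t.1 ∈ G ∧ t.2.1 = y ∧ t.2.2 ∈ H}) (fun p hp => hp.2.2.1)
        (fun p hp => h2 p hp.1)).trans
        (loc_bound (Phi_empty (V8_empty ν')) hg'' (fun p hp => h2 p hp.1))
      calc _ ≤ mass (ν y) A ^ 8 * g' + c * (K * Phi 𝒢 c (V8 ν) A) :=
            add_le_add hloc (mul_le_mul' le_rfl (ihh hτ.2.2 A _ fun p hp => h2 p hp.1))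
        _ ≤ Phi 𝒢 c (V8 ν) A * g' + c * (K * Phi 𝒢 c (V8 ν) A) :=
            add_le_add (mul_le_mul' ((mass_pow_le ν y A).trans (V_le_Phi A)) le_rfl) le_rfl
        _ = (g' + c * K) * Phi 𝒢 c (V8 ν) A := by ring
        _ ≤ _ := mul_le_mul' hK le_rfl

theorem exc_gen (hν : ∀ w, ∑' t, ν w t ≤ 1) (hν' : ∀ w, ∑' t, ν' w t ≤ 1) (hc : c ≤ 1)
    (h0 : ∅ ∈ 𝒢) (h0' : ∅ ∈ 𝒢') {e' g' K : ℝ≥0∞}
    (hg' : Phi 𝒢' c (V8 ν') Set.univ ≤ g') (he' : Psi 𝒢' c (V8 ν') Set.univ ≤ e')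
    (hK1 : 1 ≤ K) (hK : g' + c * K ≤ K)
    (τ : DT (T × W × T')) (hτ : τ.Ok (serG 𝒢 𝒢')) :
    ∀ (A : Set T) (C : Set (T × W × T')), (∀ p ∈ C, p.1 ∈ A) →
    τ.exc c (V8 (serν ν ν')) C ≤ e' + K * Psi 𝒢 c (V8 ν) A := by
  have he'' : ∀ C, Psi 𝒢' c (V8 ν') C ≤ e' := fun C =>
    (Psi_mono (V8_mono ν') (Set.subset_univ C)).trans he'
  induction τ with
  | leaf =>
    intro A C h2
    exact zero_le
  | node L a h iha ihh =>
    intro A C h2
    rw [DT.exc_node]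
    have htot := tot_gen (𝒢 := 𝒢) (ν := ν) hν' hc h0' hg' hK1 hK h hτ.2.2
    have hcK : c * (K * Phi 𝒢 c (V8 ν) A) ≤ K * Psi 𝒢 c (V8 ν) A := by
      rw [mul_left_comm]
      exact mul_le_mul' le_rfl (mul_Phi_le_Psi h0 A)
    rcases hτ.1 with rfl | ⟨G, hG, rfl⟩ | ⟨G, hG, y, H, hH, rfl⟩
    · rw [Set.inter_empty, DT.exc_empty (V8_empty _), zero_add, Set.sdiff_empty]
      calc c * h.tot c (V8 (serν ν ν')) C ≤ c * (K * Phi 𝒢 c (V8 ν) A) :=
            mul_le_mul' le_rfl (htot A C h2)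
        _ ≤ K * Psi 𝒢 c (V8 ν) A := hcK
        _ ≤ _ := le_add_self
    · refine (add_le_add (iha hτ.2.1 (A ∩ G) _ fun p hp => ⟨h2 p hp.1, hp.2⟩)
        (mul_le_mul' le_rfl (htot (A \ G) _ fun p hp => ⟨h2 p hp.1, hp.2⟩))).trans ?_
      rw [mul_left_comm c, add_assoc, ← mul_add]
      exact add_le_add le_rfl (mul_le_mul' le_rfl (Psi_split hG A))
    · have hloc := (exc_loc (c := c) (ν := ν) (ν' := ν') (A := A) h0' a hτ.2.1
        (C ∩ {t | t.1 ∈ G ∧ t.2.1 = y ∧ t.2.2 ∈ H}) (fun p hp => hp.2.2.1)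
        (fun p hp => h2 p hp.1)).trans
        (loc_bound (Psi_empty (V8_empty ν')) he'' (fun p hp => h2 p hp.1))
      have hm : mass (ν y) A ^ 8 ≤ 1 := (mass_pow_le ν y A).trans (V8_le_one hν A)
      calc _ ≤ mass (ν y) A ^ 8 * e' + c * (K * Phi 𝒢 c (V8 ν) A) :=
            add_le_add hloc (mul_le_mul' le_rfl (htot A _ fun p hp => h2 p hp.1))
        _ ≤ 1 * e' + K * Psi 𝒢 c (V8 ν) A := add_le_add (mul_le_mul' hm le_rfl) hcK
        _ = _ := by rw [one_mul]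

end

end Ser

theorem serial_bound {𝒢 : Set (Set T)} {𝒢' : Set (Set T')} {ν : W → T → ℝ≥0∞}
    {ν' : W' → T' → ℝ≥0∞} (hν : ∀ w, ∑' t, ν w t ≤ 1) (hν' : ∀ w, ∑' t, ν' w t ≤ 1)
    {c : ℝ≥0∞} (hc : c ≤ 1) (h0 : ∅ ∈ 𝒢) (h0' : ∅ ∈ 𝒢') {e e' g' K : ℝ≥0∞}
    (hg' : Phi 𝒢' c (V8 ν') Set.univ ≤ g') (he' : Psi 𝒢' c (V8 ν') Set.univ ≤ e')
    (he : Psi 𝒢 c (V8 ν) Set.univ ≤ e) (hK1 : 1 ≤ K) (hK : g' + c * K ≤ K) :
    Psi (serG 𝒢 𝒢') c (V8 (serν ν ν')) Set.univ ≤ e' + K * e := by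
  refine iSup₂_le fun τ hτ => ?_
  refine (Ser.exc_gen hν hν' hc h0 h0' hg' he' hK1 hK τ hτ Set.univ Set.univ
    fun p _ => Set.mem_univ _).trans ?_
  exact add_le_add le_rfl (mul_le_mul' le_rfl he)

end Pool.Agent.H82.Um
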