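import Pool.Agent.H82.Um.DesMain
import Pool.Agent.H82.Um.Norm

/-!
MP_98b928_an (helper82). The index sets, the vectors and the cut space built from the good designs
`DD i` of depth `32 ^ i`: definitions.

`KK` is a set of cardinality `ℵ_ω`. A basis element is a pair of a component `t : (DD i).T` and a
finite set of pairs (node, colour); for `α : List Bool → KK` the element `bb t α` has the finite set
`{(u, α u) | u ∈ S t}`. `aw i w α` is the vector of the leaf `w`, with the coefficient `ν w t` at
`bb t α`. `BB` is the set of the elements which occur in some `aw i w α` with a positive coefficient.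
-/

namespace Pool.Agent.H82.Um

open scoped ENNReal

/-- The constant. -/
noncomputable def c0 : ℝ := (10 ^ 9)⁻¹

theorem c0_pos : 0 < c0 := by unfold c0; positivity

theorem c0_le : c0 ≤ 1 := by unfold c0; norm_num

/-- The designs. -/
noncomputable def DD (i : ℕ) : Design := (Design.exists_design i).choose

theorem DD_n (i : ℕ) : (DD i).n = 32 ^ i := (Design.exists_design i).choose_spec.1

theorem DD_good (i : ℕ) : (DD i).Good (ENNReal.ofReal c0) (2 ^ i)⁻¹
    (500000 * ENNReal.ofReal c0) := (Design.exists_design i).choose_spec.2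

/-- The colours, a set of cardinality `ℵ_ω`. -/
def KK : Type := (Cardinal.aleph Ordinal.omega0).out

theorem KK_card (j : ℕ) : Cardinal.aleph j ≤ Cardinal.mk KK := by
  have h : Cardinal.mk KK = Cardinal.aleph Ordinal.omega0 := Cardinal.mk_out _
  rw [h]
  exact Cardinal.aleph_le_aleph.mpr (Ordinal.natCast_lt_omega0 j).le

/-- The components of all the designs. -/
abbrev TT : Type := Σ i : ℕ, (DD i).T

abbrev B0 : Type := TT × Finset (List Bool × KK)

open Classical in
/-- The coloured support of a component. -/
noncomputable def im (t : TT) (α : List Bool → KK) : Finset (List Bool × KK) :=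
  ((DD t.1).S t.2).image (fun u => (u, α u))

/-- The basis element of a component and a colouring. -/
noncomputable def bb (t : TT) (α : List Bool → KK) : B0 := (t, im t α)

open Classical in
/-- The vector of the leaf `w` and the colouring `α`. -/
noncomputable def aw (i : ℕ) (w : List Bool) (α : List Bool → KK) (b : B0) : ℝ≥0∞ :=
  if b.1.1 = i ∧ b.2 = im b.1 α then (DD b.1.1).ν w b.1.2 else 0

/-- The elements which occur. -/
def Cov (b : B0) : Prop := ∃ i w α, w.length = 32 ^ i ∧ aw i w α b ≠ 0

/-- The basis. -/
def BB : Type := {b : B0 // Cov b}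

/-- The vectors. -/
noncomputable def aB (i : ℕ) (w : List Bool) (α : List Bool → KK) (b : BB) : ℝ≥0∞ := aw i w α b.1

/-- The family of the vectors. -/
def AA : Set (BB → ℝ≥0∞) := {a | ∃ i w α, w.length = 32 ^ i ∧ a = aB i w α}

/-- The support of a basis element. -/
noncomputable def sp (b : BB) : Finset (ℕ ⊕ (List Bool × KK)) :=
  Finset.cons (Sum.inl b.1.1.1) (b.1.2.map ⟨Sum.inr, Sum.inr_injective⟩) (by simp)

theorem mem_sp {b : BB} {x : ℕ ⊕ (List Bool × KK)} :
    x ∈ sp b ↔ x = Sum.inl b.1.1.1 ∨ ∃ p ∈ b.1.2, x = Sum.inr p := by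
  simp only [sp, Finset.mem_cons, Finset.mem_map, Function.Embedding.coeFn_mk]
  refine or_congr Iff.rfl (exists_congr fun p => and_congr Iff.rfl eq_comm)

open Classical in
/-- The indicator of the set of all `bb ⟨i, t⟩ α`. -/
noncomputable def ff (i : ℕ) (α : List Bool → KK) (b : BB) : ℝ≥0∞ :=
  if b.1.1.1 = i ∧ b.1.2 = im b.1.1 α then 1 else 0

theorem bb_injective (i : ℕ) (α : List Bool → KK) :
    Function.Injective (fun t : (DD i).T => bb ⟨i, t⟩ α) := by
  intro t t' h
  have h1 : (⟨i, t⟩ : TT) = ⟨i, t'⟩ := congrArg Prod.fst h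
  simpa using h1

end Pool.Agent.H82.Um
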