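import Pool.Agent.H82.Um.Space

/-!
MODULE SPACEA (helper82, MP_98b928_an). Transfer of sums, finiteness.

* `tsum_ff`: `∑' b : BB, h b.1 * ff i α b = ∑' b : B0, (..)` (`tsum_subtype_eq_of_support_subset` or
  `tsum_subtype` with `h = 0` outside `Cov`) and `= ∑' t, h (bb ⟨i, t⟩ α)` by
  `Function.Injective.tsum_eq` (`bb_injective`; the function is supported in the range).
* `tsum_aB`: `aB i w α = (h b.1) * ff i α b` with `h = aw i w α`, `aw i w α (bb ⟨i, t⟩ α) = ν w t`, sum
  `1` (`Good.one`, `DD_n`).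
* `aw_bb`: the coefficient of `bb ⟨i, t⟩ α'` in `aw i w α` is `ν w t` if the images agree.
* `AA_le`: `tsum_aB`.
* `sp_fin`: `sp b ⊆ A` implies `b.1.1.1 ∈ {i | inl i ∈ A}` (finite set) and `b.1.2 ⊆ {p | inr p ∈ A}`
  (a finite set; its powerset is finite), and each `(DD i).T` is finite (`(DD i).fin`).
-/

namespace Pool.Agent.H82.Um

open scoped ENNReal

theorem tsum_ff (i : ℕ) (α : List Bool → KK) (h : B0 → ℝ≥0∞) (h0 : ∀ b, ¬ Cov b → h b = 0) :
    ∑' b : BB, h b.1 * ff i α b = ∑' t : (DD i).T, h (bb ⟨i, t⟩ α) := by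
  classical
  let F : B0 → ℝ≥0∞ := fun b => h b * if b.1.1 = i ∧ b.2 = im b.1 α then 1 else 0
  have h1 : ∑' b : BB, h b.1 * ff i α b = ∑' b : B0, F b := by
    have : ∑' b : {b : B0 // Cov b}, F b.1 = ∑' b : B0, F b := by
      refine tsum_subtype_eq_of_support_subset (s := {b : B0 | Cov b}) fun b hb => ?_
      by_contra hc
      exact hb (by show h b * _ = 0; rw [h0 b hc, zero_mul])
    exact this
  rw [h1]
  have h2 : Function.support F ⊆ Set.range (fun t : (DD i).T => bb ⟨i, t⟩ α) := by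
    rintro ⟨⟨i', t⟩, s⟩ hb
    have hb' : i' = i ∧ s = im ⟨i', t⟩ α := by
      by_contra hc
      exact hb (by show h _ * _ = 0; rw [if_neg hc, mul_zero])
    obtain ⟨rfl, rfl⟩ := hb'
    exact ⟨t, rfl⟩
  rw [← (bb_injective i α).tsum_eq h2]
  refine tsum_congr fun t => ?_
  show h (bb ⟨i, t⟩ α) * _ = _
  rw [if_pos ⟨rfl, rfl⟩, mul_one]

open Classical in
theorem aw_bb (i : ℕ) (w : List Bool) (α α' : List Bool → KK) (t : (DD i).T) :
    aw i w α (bb ⟨i, t⟩ α') = if im ⟨i, t⟩ α' = im ⟨i, t⟩ α then (DD i).ν w t else 0 := by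
  unfold aw bb
  simp

theorem aw_eq_zero_of_not_cov (i : ℕ) (w : List Bool) (hw : w.length = 32 ^ i)
    (α : List Bool → KK) (b : B0) (hb : ¬ Cov b) : aw i w α b = 0 := by
  by_contra h
  exact hb ⟨i, w, α, hw, h⟩

open Classical in
theorem tsum_aB_ff (i : ℕ) (w : List Bool) (hw : w.length = 32 ^ i) (α α' : List Bool → KK) :
    ∑' b : BB, aB i w α b * ff i α' b =
      ∑' t : (DD i).T, if im ⟨i, t⟩ α' = im ⟨i, t⟩ α then (DD i).ν w t else 0 := by
  rw [← tsum_congr fun t => aw_bb i w α α' t]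
  exact tsum_ff i α' (aw i w α) (aw_eq_zero_of_not_cov i w hw α)

theorem aB_mul_ff (i : ℕ) (w : List Bool) (α : List Bool → KK) (b : BB) :
    aB i w α b * ff i α b = aB i w α b := by
  classical
  unfold aB aw ff
  by_cases h : b.1.1.1 = i ∧ b.1.2 = im b.1.1 α
  · rw [if_pos h, if_pos h, mul_one]
  · rw [if_neg h, if_neg h, mul_zero]

theorem tsum_aB (i : ℕ) (w : List Bool) (hw : w.length = 32 ^ i) (α : List Bool → KK) :
    ∑' b : BB, aB i w α b = 1 := by
  classical
  rw [← tsum_congr fun b => aB_mul_ff i w α b, tsum_aB_ff i w hw α α]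
  simp only [if_true]
  exact (DD_good i).one w (by rw [DD_n]; exact hw)

theorem AA_le : ∀ a ∈ AA, ∑' b, a b ≤ 1 := by
  rintro a ⟨i, w, α, hw, rfl⟩
  exact (tsum_aB i w hw α).le

theorem AA_cov : ∀ b, ∃ a ∈ AA, a b ≠ 0 := by
  rintro ⟨b, i, w, α, hw, h⟩
  exact ⟨aB i w α, ⟨i, w, α, hw, rfl⟩, h⟩

theorem sp_fin (A : Finset (ℕ ⊕ (List Bool × KK))) : {b | sp b ⊆ A}.Finite := by
  classical
  have h1 : {i : ℕ | Sum.inl i ∈ A}.Finite :=
    (A.finite_toSet).preimage (Sum.inl_injective.injOn)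
  have h2 : {p : List Bool × KK | Sum.inr p ∈ A}.Finite :=
    (A.finite_toSet).preimage (Sum.inr_injective.injOn)
  have h3 : {s : Finset (List Bool × KK) | ∀ p ∈ s, Sum.inr p ∈ A}.Finite := by
    refine (h2.toFinset.powerset.finite_toSet).subset fun s hs => ?_
    rw [Finset.mem_coe, Finset.mem_powerset]
    intro p hp
    rw [Set.Finite.mem_toFinset]
    exact hs p hp
  have h4 : {t : TT | Sum.inl t.1 ∈ A}.Finite := by
    have : {t : TT | Sum.inl t.1 ∈ A} = ⋃ i ∈ {i : ℕ | Sum.inl i ∈ A},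
        Set.range (fun t : (DD i).T => (⟨i, t⟩ : TT)) := by
      ext ⟨i, t⟩
      simp only [Set.mem_ofPred_eq, Set.mem_iUnion, Set.mem_range]
      constructor
      · intro h
        exact ⟨i, h, t, rfl⟩
      · rintro ⟨j, hj, t', h'⟩
        have : j = i := congrArg Sigma.fst h'
        rw [← this]
        exact hj
    rw [this]
    refine h1.biUnion fun i _ => ?_
    have := (DD i).fin
    exact Set.finite_range _
  have h5 := (h4.prod h3)
  refine Set.Finite.of_finite_image (f := fun b : BB => b.1) (h5.subset ?_)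
    (Subtype.val_injective.injOn)
  rintro _ ⟨b, hb, rfl⟩
  refine ⟨hb (mem_sp.mpr (Or.inl rfl)), fun p hp => hb (mem_sp.mpr (Or.inr ⟨p, hp, rfl⟩))⟩

/-- The images of two colourings which differ at `u` only: they agree on `S t` iff `u ∉ S t`. -/
theorem im_update (t : TT) (α : List Bool → KK) (u : List Bool) {β β' : KK} (h : β ≠ β') :
    im t (Function.update α u β) = im t (Function.update α u β') ↔ u ∉ (DD t.1).S t.2 := by
  classical
  constructor
  · intro he hu
    have h1 : (u, β) ∈ im t (Function.update α u β) :=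
      Finset.mem_image.mpr ⟨u, hu, by simp⟩
    rw [he] at h1
    obtain ⟨v, _, hv⟩ := Finset.mem_image.mp h1
    have h2 : v = u := congrArg Prod.fst hv
    subst h2
    have h3 : Function.update α v β' v = β := congrArg Prod.snd hv
    rw [Function.update_self] at h3
    exact h h3.symm
  · intro hu
    unfold im
    refine Finset.image_congr fun v hv => ?_
    have hne : v ≠ u := fun h => hu (h ▸ hv)
    simp [Function.update_of_ne hne]

/-- The image does not see a colour outside of `S t`. -/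
theorem im_update_of_notMem (t : TT) (α : List Bool → KK) (u : List Bool) (β : KK)
    (h : u ∉ (DD t.1).S t.2) : im t (Function.update α u β) = im t α := by
  classical
  unfold im
  refine Finset.image_congr fun v hv => ?_
  have hne : v ≠ u := fun h' => h (h' ▸ hv)
  simp [Function.update_of_ne hne]

end Pool.Agent.H82.Um
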