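import Pool.Agent.H82.Um.SpaceA

/-!
MODULE SPACEB (helper82, MP_98b928_an). `PhiU (ff i α) ≤ 2`, and the lower bound for the norm.

Proof of `Phi_ff`. For `C : Set BB` put `C* = {t | ∃ h : Cov (bb ⟨i, t⟩ α), ⟨bb ⟨i, t⟩ α, h⟩ ∈ C}`.
For every tree `τ` with cut sets in `cutsOf sp` and every `C`
`tot τ C ≤ Phi (DD i).cuts c (V8 (DD i).νw) C*`, by induction on `τ`.
Leaf: `VU AA (ff i α) C = (⨆ a, mass (a * ff) C)^8`; for `a = aB i' w' α'` with `i' ≠ i` the mass is `0`,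
for `i' = i` it is (`tsum_ff` with `h b = aw .. b` if `b ∈ C`, `aw_bb`)
`≤ ∑' t, C*.indicator ((DD i).ν w') t = mass ((DD i).νw ⟨w', _⟩) C*`. Node
`G = {b | ∀ j ∈ sp b, j ∈ A}`: `(C ∩ G)* = C* ∩ G'`, `(C \ G)* = C* \ G'` with `G' = ∅` if `inl i ∉ A`
and `G' = {t | ∀ u ∈ S t, u ∉ Z}`, `Z = {u | inr (u, α u) ∉ A}` otherwise (`mem_sp`, `im`); `Phi_split`.
Then `Phi .. ≤ 1 + Psi .. ≤ 1 + 500000 * c0 ≤ 2` (`Phi_le_one_add_Psi`, `V8_le_one`, `Good.psi`).
`NX_ge`: `le_NX` for `g = 2⁻¹ * ff` (`g^2 = 4⁻¹ * ff`, `PhiU_smul`).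
-/

namespace Pool.Agent.H82.Um

open scoped ENNReal

/-- The components of the design `DD i` whose basis element lies in the class. -/
def star (i : ℕ) (α : List Bool → KK) (C : Set BB) : Set (DD i).T :=
  {t | ∃ h : Cov (bb ⟨i, t⟩ α), (⟨bb ⟨i, t⟩ α, h⟩ : BB) ∈ C}

theorem star_cut (i : ℕ) (α : List Bool → KK) {G : Set BB} (hG : G ∈ cutsOf sp) :
    ∃ G' ∈ (DD i).cuts, ∀ C : Set BB, star i α (C ∩ G) = star i α C ∩ G' ∧
      star i α (C \ G) = star i α C \ G' := by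
  classical
  obtain ⟨A, rfl⟩ := hG
  have key : ∀ (t : (DD i).T) (h : Cov (bb ⟨i, t⟩ α)),
      ((⟨bb ⟨i, t⟩ α, h⟩ : BB) ∈ {b : BB | ∀ j ∈ sp b, j ∈ A}) ↔
      (Sum.inl i ∈ A ∧ ∀ u ∈ (DD i).S t, Sum.inr (u, α u) ∈ A) := by
    intro t h
    constructor
    · intro hb
      refine ⟨hb _ (mem_sp.mpr (Or.inl rfl)), fun u hu => hb _ (mem_sp.mpr (Or.inr ⟨(u, α u), ?_, rfl⟩))⟩
      exact Finset.mem_image.mpr ⟨u, hu, rfl⟩
    · rintro ⟨h1, h2⟩ j hj
      rcases mem_sp.mp hj with rfl | ⟨p, hp, rfl⟩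
      · exact h1
      · obtain ⟨u, hu, rfl⟩ := Finset.mem_image.mp hp
        exact h2 u hu
  by_cases hi : Sum.inl i ∈ A
  · refine ⟨{t | ∀ u ∈ (DD i).S t, u ∉ {u | Sum.inr (u, α u) ∉ A}}, Or.inr ⟨_, rfl⟩, fun C => ?_⟩
    constructor
    · ext t
      constructor
      · rintro ⟨h, h1, h2⟩
        refine ⟨⟨h, h1⟩, fun u hu hu' => hu' (((key t h).mp h2).2 u hu)⟩
      · rintro ⟨⟨h, h1⟩, h2⟩
        exact ⟨h, h1, (key t h).mpr ⟨hi, fun u hu => not_not.mp (h2 u hu)⟩⟩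
    · ext t
      constructor
      · rintro ⟨h, h1, h2⟩
        exact ⟨⟨h, h1⟩, fun h3 => h2 ((key t h).mpr ⟨hi, fun u hu => not_not.mp (h3 u hu)⟩)⟩
      · rintro ⟨⟨h, h1⟩, h2⟩
        exact ⟨h, h1, fun h3 => h2 fun u hu hu' => hu' (((key t h).mp h3).2 u hu)⟩
  · refine ⟨∅, Or.inl rfl, fun C => ?_⟩
    constructor
    · ext t
      constructor
      · rintro ⟨h, h1, h2⟩
        exact absurd ((key t h).mp h2).1 hi
      · rintro ⟨_, h2⟩
        exact absurd h2 (Set.notMem_empty _)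
    · ext t
      constructor
      · rintro ⟨h, h1, h2⟩
        exact ⟨⟨h, h1⟩, Set.notMem_empty _⟩
      · rintro ⟨⟨h, h1⟩, h2⟩
        exact ⟨h, h1, fun h3 => hi ((key t h).mp h3).1⟩

theorem star_leaf (i : ℕ) (α : List Bool → KK) (C : Set BB) :
    VU AA (ff i α) C ≤ V8 (DD i).νw (star i α C) := by
  classical
  refine pow_le_pow_left' (iSup_le fun a => ?_) 8
  obtain ⟨a, i', w', α', hw', rfl⟩ := a
  show mass (fun b => aB i' w' α' b * ff i α b) C ≤ _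
  by_cases hi : i' = i
  · subst hi
    have hn : w'.length = (DD i').n := by rw [DD_n]; exact hw'
    refine le_trans ?_ (mass_le_val (DD i').νw ⟨w', hn⟩ _)
    let h : B0 → ℝ≥0∞ := fun b =>
      if ∃ hb : Cov b, (⟨b, hb⟩ : BB) ∈ C then aw i' w' α' b else 0
    have h1 : ∀ b : BB, C.indicator (fun b => aB i' w' α' b * ff i' α b) b =
        h b.1 * ff i' α b := by
      intro b
      by_cases hb : b ∈ C
      · have : ∃ hb : Cov b.1, (⟨b.1, hb⟩ : BB) ∈ C := ⟨b.2, hb⟩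
        simp only [Set.indicator_of_mem hb, h, if_pos this]
        rfl
      · have : ¬ ∃ hb : Cov b.1, (⟨b.1, hb⟩ : BB) ∈ C := fun ⟨_, h⟩ => hb h
        simp only [Set.indicator_of_notMem hb, h, if_neg this, zero_mul]
    rw [mass, tsum_congr h1, tsum_ff i' α h fun b hb => if_neg fun ⟨h, _⟩ => hb h]
    refine ENNReal.tsum_le_tsum fun t => ?_
    by_cases ht : t ∈ star i' α C
    · rw [Set.indicator_of_mem ht]
      have : h (bb ⟨i', t⟩ α) = aw i' w' α' (bb ⟨i', t⟩ α) := if_pos ht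
      rw [this, aw_bb]
      split_ifs
      · exact le_rfl
      · exact zero_le
    · have : h (bb ⟨i', t⟩ α) = 0 := if_neg ht
      rw [this]
      exact zero_le
  · have h1 : ∀ b : BB, C.indicator (fun b => aB i' w' α' b * ff i α b) b = 0 := by
      intro b
      by_cases hb : b ∈ C
      · rw [Set.indicator_of_mem hb]
        by_cases h2 : b.1.1.1 = i
        · have h3 : ¬ (b.1.1.1 = i' ∧ b.1.2 = im b.1.1 α') := fun h => hi (h.1.symm.trans h2)
          simp [aB, aw, h3]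
        · have h3 : ¬ (b.1.1.1 = i ∧ b.1.2 = im b.1.1 α) := fun h => h2 h.1
          simp [ff, h3]
      · rw [Set.indicator_of_notMem hb]
    rw [mass, tsum_congr h1, tsum_zero]
    exact zero_le

theorem star_tot (i : ℕ) (α : List Bool → KK) (c : ℝ≥0∞) (τ : DT BB) (hτ : τ.Ok (cutsOf sp)) :
    ∀ C : Set BB, τ.tot c (VU AA (ff i α)) C ≤
      Phi (DD i).cuts c (V8 (DD i).νw) (star i α C) := by
  induction τ with
  | leaf =>
    intro C
    exact (star_leaf i α C).trans (V_le_Phi _)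
  | node G a h iha ihh =>
    intro C
    obtain ⟨G', hG', hs⟩ := star_cut i α hτ.1
    rw [DT.tot_node]
    refine (add_le_add (iha hτ.2.1 _) (mul_le_mul' le_rfl (ihh hτ.2.2 _))).trans ?_
    rw [(hs C).1, (hs C).2]
    exact Phi_split hG' _

theorem PhiU_ff (i : ℕ) (α : List Bool → KK) :
    PhiU sp AA (ENNReal.ofReal c0) (ff i α) ≤ 2 := by
  have h1 : ∀ w : Design.Word (DD i).n, ∑' t, (DD i).νw w t ≤ 1 := fun w =>
    ((DD_good i).one w.1 w.2).le
  have h2 : PhiU sp AA (ENNReal.ofReal c0) (ff i α) ≤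
      Phi (DD i).cuts (ENNReal.ofReal c0) (V8 (DD i).νw) Set.univ := by
    refine iSup₂_le fun τ hτ => (star_tot i α _ τ hτ Set.univ).trans ?_
    exact Phi_mono (V8_mono _) (Set.subset_univ _)
  refine h2.trans ((Phi_le_one_add_Psi (V8_le_one h1) _).trans ?_)
  have h3 : Psi (DD i).cuts (ENNReal.ofReal c0) (V8 (DD i).νw) Set.univ ≤ 1 := by
    refine (DD_good i).psi.trans ?_
    have : (500000 : ℝ≥0∞) * ENNReal.ofReal c0 = ENNReal.ofReal (500000 * c0) := by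
      rw [ENNReal.ofReal_mul (by norm_num)]
      norm_num
    rw [this]
    refine ENNReal.ofReal_le_one.mpr ?_
    unfold c0
    norm_num
  calc (1 : ℝ≥0∞) + Psi (DD i).cuts (ENNReal.ofReal c0) (V8 (DD i).νw) Set.univ ≤ 1 + 1 :=
        add_le_add le_rfl h3
    _ = 2 := one_add_one_eq_two

theorem NX_ge (i : ℕ) (α : List Bool → KK) (x : BB → ℝ) :
    2⁻¹ * ∑' b, ENNReal.ofReal |x b| * ff i α b ≤ NX sp AA (ENNReal.ofReal c0) x := by
  classical
  have hg : PhiU sp AA (ENNReal.ofReal c0) (fun b => (2⁻¹ * ff i α b) ^ 2) ≤ 1 := by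
    have h1 : (fun b => (2⁻¹ * ff i α b) ^ 2) = fun b => 4⁻¹ * ff i α b := by
      funext b
      have h2 : ff i α b ^ 2 = ff i α b := by
        unfold ff
        split_ifs <;> simp
      rw [mul_pow, h2]
      congr 1
      rw [← ENNReal.inv_pow]
      norm_num
    rw [h1, PhiU_smul]
    calc (4⁻¹ : ℝ≥0∞) ^ 8 * PhiU sp AA (ENNReal.ofReal c0) (ff i α) ≤ 4⁻¹ ^ 8 * 2 :=
          mul_le_mul' le_rfl (PhiU_ff i α)
      _ ≤ 1 := by
        rw [← ENNReal.inv_pow, mul_comm, ← div_eq_mul_inv]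
        refine ENNReal.div_le_of_le_mul ?_
        norm_num
  refine le_trans (le_of_eq ?_) (le_NX x hg)
  rw [← ENNReal.tsum_mul_left]
  refine tsum_congr fun b => ?_
  ring

/-- The vectors have norm at most `1`: `g ≤ (1 + g^2)/2` and `mass_le_of_PhiU`. -/
theorem NX_aB (i : ℕ) (w : List Bool) (hw : w.length = 32 ^ i) (α : List Bool → KK) :
    NX sp AA (ENNReal.ofReal c0) (fun b => (aB i w α b).toReal) ≤ 1 := by
  refine iSup₂_le fun g hg => ?_
  have hfin : ∀ b, aB i w α b ≠ ⊤ := fun b => by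
    refine ne_top_of_le_ne_top ENNReal.one_ne_top ?_
    rw [← tsum_aB i w hw α]
    exact ENNReal.le_tsum b
  have h1 : ∀ b, ENNReal.ofReal |(aB i w α b).toReal| * g b = aB i w α b * g b := fun b => by
    rw [abs_of_nonneg ENNReal.toReal_nonneg, ENNReal.ofReal_toReal (hfin b)]
  rw [tsum_congr h1]
  have h2 : ∀ x : ℝ≥0∞, x ≤ 2⁻¹ * (1 + x ^ 2) := by
    intro x
    by_cases hx : x = ⊤
    · subst hx
      simp
    · lift x to NNReal using hx
      rw [← ENNReal.coe_two, ← ENNReal.coe_inv (by norm_num)]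
      norm_cast
      rw [← NNReal.coe_le_coe]
      push_cast
      nlinarith [sq_nonneg ((x : ℝ) - 1)]
  have h3 : ∑' b, aB i w α b * g b ≤ ∑' b, 2⁻¹ * (aB i w α b + aB i w α b * g b ^ 2) := by
    refine ENNReal.tsum_le_tsum fun b => (mul_le_mul' le_rfl (h2 (g b))).trans (le_of_eq ?_)
    ring
  refine h3.trans ?_
  rw [ENNReal.tsum_mul_left, ENNReal.tsum_add, tsum_aB i w hw α]
  have h4 : ∑' b, aB i w α b * g b ^ 2 ≤ 1 := mass_le_of_PhiU hg ⟨i, w, α, hw, rfl⟩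
  calc (2⁻¹ : ℝ≥0∞) * (1 + ∑' b, aB i w α b * g b ^ 2) ≤ 2⁻¹ * (1 + 1) :=
        mul_le_mul' le_rfl (add_le_add le_rfl h4)
    _ = 1 := by
      rw [one_add_one_eq_two]
      exact ENNReal.inv_mul_cancel (by norm_num) (by norm_num)

end Pool.Agent.H82.Um
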