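import Pool.Agent.H82.Um.SpaceB
import Pool.Agent.H82.Um.NoBeta

/-!
MODULE SPACEC (helper82, MP_98b928_an). The cut space, the vectors and their properties.

`av_norm`: `NX_aB`. `av_update`: if `ν w t ≠ 0` then `u ∉ S t` (`Good.left`), so the images of `t` under
`α` and `update α u β` agree (`im_update_of_notMem`), i.e. `aB` is the same function.
`av_sep`: let `α₁ = update α u β`, `α₂ = update α u β'`, `F` the (finite, `sp_fin` or finiteness of
`(DD i).T`) set of the `b` with `ff i α₁ b = 1`, `φ x = ∑ b ∈ F, x b` (linear). `NX_ge` gives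
`2⁻¹ * |φ x| ≤ ‖x‖`. For leaves `w` below `u ++ [true]`: `φ (a w α₁) = 1` (`tsum_aB`),
`φ (a w α₂) = ∑' t, if u ∉ S t then ν w t else 0 = 1 - θ` (`tsum_aB_ff`, `im_update`, `Good.one`,
`Good.right`). So for the averages (induction on `r`, `avg` is an average of such vectors)
`φ (avg α₁) - φ (avg α₂) = θ = (2^i)⁻¹`.
-/

namespace Pool.Agent.H82.Um

open scoped ENNReal

/-- The cut space. -/
noncomputable def Sx : CutSpace BB (ℕ ⊕ (List Bool × KK)) (c0 ^ (-(1 / 16) : ℝ))
    (2 ^ (-(1 / 16) : ℝ)) :=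
  cutSpaceOf sp AA c0 c0_pos c0_le sp_fin AA_le AA_cov

open Classical in
/-- The vectors. -/
noncomputable def av (i : ℕ) (w : List Bool) (α : List Bool → KK) : Sx.X :=
  if hw : w.length = 32 ^ i then
    Sx.mkX (fun b => (aB i w α b).toReal) (lt_of_le_of_lt (NX_aB i w hw α) ENNReal.one_lt_top)
  else 0

theorem toFun_av (i : ℕ) (w : List Bool) (α : List Bool → KK) (hw : w.length = 32 ^ i) :
    Sx.toFun (av i w α) = fun b => (aB i w α b).toReal := by
  unfold av
  rw [dif_pos hw]
  rfl

theorem av_norm (i : ℕ) (w : List Bool) (α : List Bool → KK) (hw : w.length = 32 ^ i) :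
    ‖av i w α‖ ≤ 1 := by
  rw [CutSpace.norm_def, toFun_av i w α hw]
  have h : Sx.N (fun b => (aB i w α b).toReal) ≤ 1 := NX_aB i w hw α
  exact ENNReal.toReal_le_of_le_ofReal zero_le_one (by simpa using h)

theorem av_update (i : ℕ) (w u : List Bool) (α : List Bool → KK) (β : KK)
    (hw : w.length = 32 ^ i) (hu : (u ++ [false]) <+: w) :
    av i w (Function.update α u β) = av i w α := by
  classical
  apply Sx.X_ext
  rw [toFun_av i w _ hw, toFun_av i w _ hw]
  funext b
  congr 1
  unfold aB aw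
  by_cases hi : b.1.1.1 = i
  · by_cases hν : (DD b.1.1.1).ν w b.1.1.2 = 0
    · rw [hν]
      simp
    · have hw' : w.length = (DD b.1.1.1).n := by rw [DD_n, hi]; exact hw
      have hS := (DD_good b.1.1.1).left w hw' u hu b.1.1.2 hν
      rw [im_update_of_notMem b.1.1 α u β hS]
  · rw [if_neg fun h => hi h.1, if_neg fun h => hi h.1]

theorem ff_finite (i : ℕ) (α : List Bool → KK) : {b : BB | ff i α b ≠ 0}.Finite := by
  classical
  have h1 : (Set.range (fun t : (DD i).T => bb ⟨i, t⟩ α)).Finite := by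
    have := (DD i).fin
    exact Set.finite_range _
  refine Set.Finite.of_finite_image (f := fun b : BB => b.1) (h1.subset ?_)
    (Subtype.val_injective.injOn)
  rintro _ ⟨⟨⟨⟨i', t⟩, s⟩, hc⟩, hb, rfl⟩
  have hb' : i' = i ∧ s = im ⟨i', t⟩ α := by
    by_contra h
    exact hb (if_neg h)
  obtain ⟨rfl, rfl⟩ := hb'
  exact ⟨t, rfl⟩

/-- The functional. -/
noncomputable def phi (i : ℕ) (α : List Bool → KK) (x : Sx.X) : ℝ :=
  ∑ b ∈ (ff_finite i α).toFinset, Sx.toFun x b

theorem phi_add (i : ℕ) (α : List Bool → KK) (x y : Sx.X) :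
    phi i α (x + y) = phi i α x + phi i α y := by
  unfold phi
  rw [← Finset.sum_add_distrib]
  rfl

theorem phi_smul (i : ℕ) (α : List Bool → KK) (r : ℝ) (x : Sx.X) :
    phi i α (r • x) = r * phi i α x := by
  unfold phi
  rw [Finset.mul_sum]
  rfl

theorem phi_sub (i : ℕ) (α : List Bool → KK) (x y : Sx.X) :
    phi i α (x - y) = phi i α x - phi i α y := by
  unfold phi
  rw [← Finset.sum_sub_distrib]
  rfl

theorem ff_eq (i : ℕ) (α : List Bool → KK) (b : BB) (hb : ff i α b ≠ 0) : ff i α b = 1 := by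
  classical
  unfold ff at hb ⊢
  by_contra h
  split_ifs at hb h
  · exact h rfl
  · exact hb rfl

theorem abs_phi_le (i : ℕ) (α : List Bool → KK) (x : Sx.X) : 2⁻¹ * |phi i α x| ≤ ‖x‖ := by
  have h1 : ENNReal.ofReal (2⁻¹ * |phi i α x|) ≤ ENNReal.ofReal ‖x‖ := by
    rw [CutSpace.ofReal_norm_eq]
    refine le_trans ?_ (NX_ge i α (Sx.toFun x))
    rw [ENNReal.ofReal_mul (by norm_num), ENNReal.ofReal_inv_of_pos (by norm_num)]
    refine mul_le_mul' (by simp) ?_
    calc ENNReal.ofReal |phi i α x|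
        ≤ ENNReal.ofReal (∑ b ∈ (ff_finite i α).toFinset, |Sx.toFun x b|) :=
          ENNReal.ofReal_le_ofReal (Finset.abs_sum_le_sum_abs _ _)
      _ = ∑ b ∈ (ff_finite i α).toFinset, ENNReal.ofReal |Sx.toFun x b| :=
          ENNReal.ofReal_sum_of_nonneg fun _ _ => abs_nonneg _
      _ = ∑ b ∈ (ff_finite i α).toFinset, ENNReal.ofReal |Sx.toFun x b| * ff i α b := by
          refine Finset.sum_congr rfl fun b hb => ?_
          rw [ff_eq i α b ((Set.Finite.mem_toFinset _).mp hb), mul_one]
      _ ≤ _ := ENNReal.sum_le_tsum _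
  exact (ENNReal.ofReal_le_ofReal_iff (norm_nonneg x)).mp h1

theorem phi_av (i : ℕ) (w : List Bool) (hw : w.length = 32 ^ i) (α α' : List Bool → KK) :
    phi i α' (av i w α) = (∑' b : BB, aB i w α b * ff i α' b).toReal := by
  unfold phi
  rw [toFun_av i w α hw]
  have hfin : ∀ b, aB i w α b ≠ ⊤ := fun b => by
    refine ne_top_of_le_ne_top ENNReal.one_ne_top ?_
    rw [← tsum_aB i w hw α]
    exact ENNReal.le_tsum b
  rw [← ENNReal.toReal_sum fun b _ => hfin b]
  congr 1
  rw [tsum_eq_sum (s := (ff_finite i α').toFinset)]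
  · refine Finset.sum_congr rfl fun b hb => ?_
    rw [ff_eq i α' b ((Set.Finite.mem_toFinset _).mp hb), mul_one]
  · intro b hb
    have : ff i α' b = 0 := by
      by_contra h
      exact hb ((Set.Finite.mem_toFinset _).mpr h)
    rw [this, mul_zero]

theorem phi_av_self (i : ℕ) (w : List Bool) (hw : w.length = 32 ^ i) (α : List Bool → KK) :
    phi i α (av i w α) = 1 := by
  rw [phi_av i w hw, tsum_congr fun b => aB_mul_ff i w α b, tsum_aB i w hw α]
  simp

theorem phi_av_other (i : ℕ) (w u : List Bool) (hw : w.length = 32 ^ i)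
    (hu : (u ++ [true]) <+: w) (α : List Bool → KK) {β β' : KK} (hβ : β ≠ β') :
    phi i (Function.update α u β) (av i w (Function.update α u β')) = 1 - (2 ^ i : ℝ)⁻¹ := by
  classical
  rw [phi_av i w hw, tsum_aB_ff i w hw]
  have hw' : w.length = (DD i).n := by rw [DD_n]; exact hw
  have h1 : ∀ t : (DD i).T, (if im ⟨i, t⟩ (Function.update α u β) =
      im ⟨i, t⟩ (Function.update α u β') then (DD i).ν w t else 0) =
      if u ∈ (DD i).S t then 0 else (DD i).ν w t := by
    intro t
    have h2 := im_update ⟨i, t⟩ α u hβ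
    by_cases h3 : u ∈ (DD i).S t
    · rw [if_neg fun h => (h2.mp h) h3, if_pos h3]
    · rw [if_pos (h2.mpr h3), if_neg h3]
  rw [tsum_congr h1]
  have h4 : (∑' t : (DD i).T, if u ∈ (DD i).S t then 0 else (DD i).ν w t) +
      (∑' t : (DD i).T, if u ∈ (DD i).S t then (DD i).ν w t else 0) = 1 := by
    rw [← ENNReal.tsum_add, ← (DD_good i).one w hw']
    refine tsum_congr fun t => ?_
    by_cases h3 : u ∈ (DD i).S t
    · rw [if_pos h3, if_pos h3, zero_add]
    · rw [if_neg h3, if_neg h3, add_zero]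
  have h5 : (∑' t : (DD i).T, if u ∈ (DD i).S t then (DD i).ν w t else 0) = (2 ^ i)⁻¹ := by
    rw [← (DD_good i).right w hw' u hu]
  rw [h5] at h4
  have h6 : ((2 : ℝ≥0∞) ^ i)⁻¹ ≠ ⊤ := by
    refine ENNReal.inv_ne_top.mpr ?_
    positivity
  have h7 : (∑' t : (DD i).T, if u ∈ (DD i).S t then 0 else (DD i).ν w t) ≠ ⊤ := by
    intro h
    rw [h, top_add] at h4
    exact ENNReal.top_ne_one h4
  have h8 := congrArg ENNReal.toReal h4
  rw [ENNReal.toReal_add h7 h6] at h8
  simp only [ENNReal.toReal_inv, ENNReal.toReal_pow, ENNReal.toReal_ofNat,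
    ENNReal.toReal_one] at h8
  linarith

theorem av_sep (i r : ℕ) (u : List Bool) (α : List Bool → KK) (β β' : KK)
    (hu : u.length + (r + 1) = 32 ^ i) (hβ : β ≠ β') :
    2⁻¹ * (2 ^ i : ℝ)⁻¹ ≤ ‖avg (av i) r (u ++ [true]) (Function.update α u β) -
      avg (av i) r (u ++ [true]) (Function.update α u β')‖ := by
  have key : ∀ (r : ℕ) (v : List Bool), (u ++ [true]) <+: v → v.length + r = 32 ^ i →
      phi i (Function.update α u β) (avg (av i) r v (Function.update α u β) -
        avg (av i) r v (Function.update α u β')) = (2 ^ i : ℝ)⁻¹ := by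
    intro r
    induction r with
    | zero =>
      intro v hv hn
      show phi i (Function.update α u β) (av i v (Function.update α u β) -
        av i v (Function.update α u β')) = _
      rw [phi_sub, phi_av_self i v hn, phi_av_other i v u hn hv α hβ]
      ring
    | succ r ih =>
      intro v hv hn
      have h1 := ih (v ++ [false]) (hv.trans (List.prefix_append _ _)) (by simp; omega)
      have h2 := ih (v ++ [true]) (hv.trans (List.prefix_append _ _)) (by simp; omega)
      rw [phi_sub] at h1 h2 ⊢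
      show phi i (Function.update α u β) ((1 / 2 : ℝ) • (_ + _)) -
        phi i (Function.update α u β) ((1 / 2 : ℝ) • (_ + _)) = _
      rw [phi_smul, phi_smul, phi_add, phi_add]
      linarith
  have h := key r (u ++ [true]) (List.prefix_refl _) (by simp; omega)
  refine le_trans ?_ (abs_phi_le i (Function.update α u β) _)
  rw [h, abs_of_nonneg (by positivity)]

end Pool.Agent.H82.Um
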