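import Mathlib

/-!
MP_98b928_an (helper82), the negative answer. Decomposition trees.

A decomposition tree splits a class `C` by a cut set `G`: the part `C ∩ G` (avoid) has weight `1`,
the part `C \ G` (hit) has weight `c`. `tot` is the weighted sum of the values `V` of the leaves,
`exc` the same sum without the leaf which is reached by avoid steps only.
-/

namespace Pool.Agent.H82.Um

open scoped ENNReal

universe u

/-- Decomposition trees: at an inner node a cut set is chosen. -/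
inductive DT (α : Type u) : Type u where
  | leaf : DT α
  | node : Set α → DT α → DT α → DT α

namespace DT

variable {α : Type u}

/-- All cut sets of the tree belong to the family `𝒢`. -/
def Ok (𝒢 : Set (Set α)) : DT α → Prop
  | leaf => True
  | node G a h => G ∈ 𝒢 ∧ a.Ok 𝒢 ∧ h.Ok 𝒢

/-- The weighted sum of the values of the leaves. -/
noncomputable def tot (c : ℝ≥0∞) (V : Set α → ℝ≥0∞) : DT α → Set α → ℝ≥0∞
  | leaf, C => V C
  | node G a h, C => tot c V a (C ∩ G) + c * tot c V h (C \ G)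

/-- The weighted sum of the values of all leaves but the all-avoid leaf. -/
noncomputable def exc (c : ℝ≥0∞) (V : Set α → ℝ≥0∞) : DT α → Set α → ℝ≥0∞
  | leaf, _ => 0
  | node G a h, C => exc c V a (C ∩ G) + c * tot c V h (C \ G)

@[simp] theorem tot_leaf (c : ℝ≥0∞) (V : Set α → ℝ≥0∞) (C : Set α) :
    (leaf : DT α).tot c V C = V C := rfl

@[simp] theorem tot_node (c : ℝ≥0∞) (V : Set α → ℝ≥0∞) (G : Set α) (a h : DT α) (C : Set α) :
    (node G a h).tot c V C = a.tot c V (C ∩ G) + c * h.tot c V (C \ G) := rfl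

@[simp] theorem exc_leaf (c : ℝ≥0∞) (V : Set α → ℝ≥0∞) (C : Set α) :
    (leaf : DT α).exc c V C = 0 := rfl

@[simp] theorem exc_node (c : ℝ≥0∞) (V : Set α → ℝ≥0∞) (G : Set α) (a h : DT α) (C : Set α) :
    (node G a h).exc c V C = a.exc c V (C ∩ G) + c * h.tot c V (C \ G) := rfl

theorem ok_mono {𝒢 𝒢' : Set (Set α)} (h : 𝒢 ⊆ 𝒢') {τ : DT α} (hτ : τ.Ok 𝒢) : τ.Ok 𝒢' := by
  induction τ with
  | leaf => trivial
  | node G a b iha ihb => exact ⟨h hτ.1, iha hτ.2.1, ihb hτ.2.2⟩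

theorem tot_mono {c : ℝ≥0∞} {V : Set α → ℝ≥0∞} (hV : Monotone V) (τ : DT α) :
    Monotone (τ.tot c V) := by
  induction τ with
  | leaf => exact hV
  | node G a b iha ihb =>
    intro C C' h
    simp only [tot_node]
    exact add_le_add (iha (Set.inter_subset_inter_left _ h))
      (mul_le_mul_right (ihb (Set.sdiff_subset_sdiff_left h)) _)

theorem tot_mono_V {c : ℝ≥0∞} {V V' : Set α → ℝ≥0∞} (hV : ∀ C, V C ≤ V' C) (τ : DT α)
    (C : Set α) : τ.tot c V C ≤ τ.tot c V' C := by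
  induction τ generalizing C with
  | leaf => exact hV C
  | node G a b iha ihb =>
    simp only [tot_node]
    exact add_le_add (iha _) (mul_le_mul_right (ihb _) _)

theorem exc_mono_V {c : ℝ≥0∞} {V V' : Set α → ℝ≥0∞} (hV : ∀ C, V C ≤ V' C) (τ : DT α)
    (C : Set α) : τ.exc c V C ≤ τ.exc c V' C := by
  induction τ generalizing C with
  | leaf => exact le_rfl
  | node G a b iha ihb =>
    simp only [exc_node]
    exact add_le_add (iha _) (mul_le_mul_right (tot_mono_V hV _ _) _)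

theorem tot_empty {c : ℝ≥0∞} {V : Set α → ℝ≥0∞} (hV : V ∅ = 0) (τ : DT α) :
    τ.tot c V ∅ = 0 := by
  induction τ with
  | leaf => exact hV
  | node G a b iha ihb => simp [iha, ihb]

theorem exc_empty {c : ℝ≥0∞} {V : Set α → ℝ≥0∞} (hV : V ∅ = 0) (τ : DT α) :
    τ.exc c V ∅ = 0 := by
  induction τ with
  | leaf => rfl
  | node G a b iha ihb => simp [iha, tot_empty hV]

theorem exc_le_tot (c : ℝ≥0∞) (V : Set α → ℝ≥0∞) (τ : DT α) (C : Set α) :
    τ.exc c V C ≤ τ.tot c V C := by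
  induction τ generalizing C with
  | leaf => exact bot_le
  | node G a b iha ihb =>
    simp only [exc_node, tot_node]
    exact add_le_add (iha _) le_rfl

theorem exc_mono {c : ℝ≥0∞} {V : Set α → ℝ≥0∞} (hV : Monotone V) (τ : DT α) :
    Monotone (τ.exc c V) := by
  induction τ with
  | leaf => intro C C' _; exact le_rfl
  | node G a b iha ihb =>
    intro C C' h
    simp only [exc_node]
    exact add_le_add (iha (Set.inter_subset_inter_left _ h))
      (mul_le_mul_right (tot_mono hV b (Set.sdiff_subset_sdiff_left h)) _)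

theorem tot_le_one_add_exc {c : ℝ≥0∞} {V : Set α → ℝ≥0∞} (hV : ∀ C, V C ≤ 1) (τ : DT α)
    (C : Set α) : τ.tot c V C ≤ 1 + τ.exc c V C := by
  induction τ generalizing C with
  | leaf => simpa using hV C
  | node G a b iha ihb =>
    simp only [exc_node, tot_node]
    rw [← add_assoc]
    exact add_le_add (iha _) le_rfl

end DT

section Phi

variable {α : Type u}

/-- The supremum of the totals over all decomposition trees with cut sets in `𝒢`. -/
noncomputable def Phi (𝒢 : Set (Set α)) (c : ℝ≥0∞) (V : Set α → ℝ≥0∞) (C : Set α) : ℝ≥0∞ :=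
  ⨆ (τ : DT α) (_ : τ.Ok 𝒢), τ.tot c V C

/-- The supremum of the excesses over all decomposition trees with cut sets in `𝒢`. -/
noncomputable def Psi (𝒢 : Set (Set α)) (c : ℝ≥0∞) (V : Set α → ℝ≥0∞) (C : Set α) : ℝ≥0∞ :=
  ⨆ (τ : DT α) (_ : τ.Ok 𝒢), τ.exc c V C

variable {𝒢 : Set (Set α)} {c : ℝ≥0∞} {V : Set α → ℝ≥0∞}

theorem tot_le_Phi {τ : DT α} (hτ : τ.Ok 𝒢) (C : Set α) : τ.tot c V C ≤ Phi 𝒢 c V C :=
  le_iSup₂_of_le τ hτ le_rfl

theorem exc_le_Psi {τ : DT α} (hτ : τ.Ok 𝒢) (C : Set α) : τ.exc c V C ≤ Psi 𝒢 c V C :=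
  le_iSup₂_of_le τ hτ le_rfl

theorem V_le_Phi (C : Set α) : V C ≤ Phi 𝒢 c V C :=
  tot_le_Phi (τ := DT.leaf) trivial C

theorem Phi_split {G : Set α} (hG : G ∈ 𝒢) (C : Set α) :
    Phi 𝒢 c V (C ∩ G) + c * Phi 𝒢 c V (C \ G) ≤ Phi 𝒢 c V C := by
  have h1 : Phi 𝒢 c V (C ∩ G) = ⨆ τ : {τ : DT α // τ.Ok 𝒢}, τ.1.tot c V (C ∩ G) := by
    rw [Phi, iSup_subtype']
  have h2 : c * Phi 𝒢 c V (C \ G) = ⨆ τ : {τ : DT α // τ.Ok 𝒢}, c * τ.1.tot c V (C \ G) := by
    rw [Phi, iSup_subtype', ENNReal.mul_iSup]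
  have : Nonempty {τ : DT α // τ.Ok 𝒢} := ⟨⟨DT.leaf, trivial⟩⟩
  rw [h1, h2]
  refine ENNReal.iSup_add_iSup_le fun τ τ' => ?_
  exact tot_le_Phi (τ := DT.node G τ.1 τ'.1) ⟨hG, τ.2, τ'.2⟩ C

theorem Psi_split {G : Set α} (hG : G ∈ 𝒢) (C : Set α) :
    Psi 𝒢 c V (C ∩ G) + c * Phi 𝒢 c V (C \ G) ≤ Psi 𝒢 c V C := by
  have h1 : Psi 𝒢 c V (C ∩ G) = ⨆ τ : {τ : DT α // τ.Ok 𝒢}, τ.1.exc c V (C ∩ G) := by
    rw [Psi, iSup_subtype']
  have h2 : c * Phi 𝒢 c V (C \ G) = ⨆ τ : {τ : DT α // τ.Ok 𝒢}, c * τ.1.tot c V (C \ G) := by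
    rw [Phi, iSup_subtype', ENNReal.mul_iSup]
  have : Nonempty {τ : DT α // τ.Ok 𝒢} := ⟨⟨DT.leaf, trivial⟩⟩
  rw [h1, h2]
  refine ENNReal.iSup_add_iSup_le fun τ τ' => ?_
  exact exc_le_Psi (τ := DT.node G τ.1 τ'.1) ⟨hG, τ.2, τ'.2⟩ C

theorem Phi_mono (hV : Monotone V) : Monotone (Phi 𝒢 c V) := fun _ _ h =>
  iSup₂_mono fun τ _ => DT.tot_mono hV τ h

theorem Psi_mono (hV : Monotone V) : Monotone (Psi 𝒢 c V) := fun _ _ h =>
  iSup₂_mono fun τ _ => DT.exc_mono hV τ h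

theorem Phi_empty (hV : V ∅ = 0) : Phi 𝒢 c V ∅ = 0 := by
  simp [Phi, DT.tot_empty hV]

theorem Psi_empty (hV : V ∅ = 0) : Psi 𝒢 c V ∅ = 0 := by
  simp [Psi, DT.exc_empty hV]

theorem Psi_le_Phi (C : Set α) : Psi 𝒢 c V C ≤ Phi 𝒢 c V C :=
  iSup₂_mono fun τ _ => DT.exc_le_tot c V τ C

/-- With the empty cut set available, everything may be moved to the hit side. -/
theorem mul_Phi_le_Psi (h0 : (∅ : Set α) ∈ 𝒢) (C : Set α) :
    c * Phi 𝒢 c V C ≤ Psi 𝒢 c V C := by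
  have := Psi_split (c := c) (V := V) h0 C
  rw [Set.sdiff_empty] at this
  exact le_trans le_add_self this

theorem Phi_le_one_add_Psi (hV : ∀ C, V C ≤ 1) (C : Set α) :
    Phi 𝒢 c V C ≤ 1 + Psi 𝒢 c V C :=
  iSup₂_le fun τ hτ => (DT.tot_le_one_add_exc hV τ C).trans (add_le_add le_rfl (exc_le_Psi hτ C))

theorem Phi_anti_mono {𝒢' : Set (Set α)} (h : 𝒢 ⊆ 𝒢') (C : Set α) :
    Phi 𝒢 c V C ≤ Phi 𝒢' c V C :=
  iSup₂_le fun _ hτ => tot_le_Phi (DT.ok_mono h hτ) C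

theorem Psi_anti_mono {𝒢' : Set (Set α)} (h : 𝒢 ⊆ 𝒢') (C : Set α) :
    Psi 𝒢 c V C ≤ Psi 𝒢' c V C :=
  iSup₂_le fun _ hτ => exc_le_Psi (DT.ok_mono h hτ) C

end Phi

section Val

variable {T W : Type}

/-- The mass of the class `C` under `m`. -/
noncomputable def mass (m : T → ℝ≥0∞) (C : Set T) : ℝ≥0∞ := ∑' t, C.indicator m t

/-- The value of a class: the largest mass under the measures `ν w`. -/
noncomputable def val (ν : W → T → ℝ≥0∞) (C : Set T) : ℝ≥0∞ := ⨆ w, mass (ν w) C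

/-- The eighth power of the value. -/
noncomputable def V8 (ν : W → T → ℝ≥0∞) (C : Set T) : ℝ≥0∞ := val ν C ^ 8

theorem mass_mono (m : T → ℝ≥0∞) : Monotone (mass m) := fun _ _ h =>
  ENNReal.tsum_le_tsum fun t => Set.indicator_le_indicator_of_subset h (fun _ => zero_le) t

@[simp] theorem mass_empty (m : T → ℝ≥0∞) : mass m ∅ = 0 := by simp [mass]

theorem mass_univ (m : T → ℝ≥0∞) : mass m Set.univ = ∑' t, m t := by simp [mass]

theorem mass_le_tsum (m : T → ℝ≥0∞) (C : Set T) : mass m C ≤ ∑' t, m t := by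
  rw [← mass_univ]; exact mass_mono m (Set.subset_univ _)

theorem mass_inter_add_diff (m : T → ℝ≥0∞) (C G : Set T) :
    mass m (C ∩ G) + mass m (C \ G) = mass m C := by
  rw [mass, mass, mass, ← ENNReal.tsum_add]
  refine tsum_congr fun t => ?_
  by_cases h1 : t ∈ C <;> by_cases h2 : t ∈ G <;> simp [h1, h2, Set.indicator]

theorem mass_le_val (ν : W → T → ℝ≥0∞) (w : W) (C : Set T) : mass (ν w) C ≤ val ν C :=
  le_iSup (fun w => mass (ν w) C) w

theorem val_mono (ν : W → T → ℝ≥0∞) : Monotone (val ν) := fun _ _ h =>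
  iSup_mono fun w => mass_mono (ν w) h

theorem V8_mono (ν : W → T → ℝ≥0∞) : Monotone (V8 ν) := fun _ _ h =>
  pow_le_pow_left' (val_mono ν h) 8

@[simp] theorem V8_empty (ν : W → T → ℝ≥0∞) : V8 ν ∅ = 0 := by simp [V8, val]

theorem val_le_one {ν : W → T → ℝ≥0∞} (h : ∀ w, ∑' t, ν w t ≤ 1) (C : Set T) : val ν C ≤ 1 :=
  iSup_le fun w => (mass_le_tsum _ _).trans (h w)

theorem V8_le_one {ν : W → T → ℝ≥0∞} (h : ∀ w, ∑' t, ν w t ≤ 1) (C : Set T) : V8 ν C ≤ 1 :=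
  pow_le_one₀ zero_le (val_le_one h C)

end Val

end Pool.Agent.H82.Um
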