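import Pool.Agent.H82.Um.CutSpace
import Pool.Agent.H82.Um.Ev

/-!
MODULE UMBA (helper82, MP_98b928_an). Lists and finite sets; the bound for one term of the left side
of the umbel inequality.

`st [m1, ..., mr] = {n1 < ... < nr}`, `n1 = m1`, `n_{i+1} = n_i + 1 + m_{i+1}`.
`term_le`: let `Q m = (N (f (st m) - W (m.take a)) ≤ τ + ε)`. By `ev_add` and `Ev.exists` there is a list
`m0` of length `a` with `Ev (2 ^ s) Q m0`. Let `n = st m0`. `Ev.exists` gives `d` of length `2 ^ s` with
`Q (m0 ++ d)`; `δ = st (m0 ++ d) \ st m0` (`card`, `Below`, `n ∪ δ = st (m0 ++ d)`). As `2 ^ s ≥ 1`, for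
`UU`-almost all `i` `Ev (2 ^ s - 1) Q (m0 ++ [i])`, so there is `d'` of length `2 ^ s - 1` with
`Q (m0 ++ [i] ++ d')`; let `j = m0.sum + i + m0.length` and `η = st (m0 ++ [i] ++ d') \ st (m0 ++ [i])`.
These `j` are frequent in `atTop`, so the `liminf` is at most the bound
(`Filter.liminf_le_of_frequently_le'`), which is `(N (f (st (m0 ++ d)) - f (st (m0 ++ [i] ++ d'))))^3 /
(2^s)^3 ≤ (2 (τ + ε) / 2^s)^3` (both are close to `W m0`; `(m0 ++ d).take a = m0`). Let `ε → 0`
(`ENNReal.le_of_forall_pos_le_add`-like; or note that the left side `x` satisfies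
`x ^ (1/3) ≤ 2 (τ + ε) / 2^s` for all `ε > 0`).
-/

namespace Pool.Agent.H82.Um

open Filter Topology
open scoped ENNReal NNReal
open Pool.Agent.H53.Umb (UU ul IL RIL Below)

/-- The finite set coded by a list. -/
def st (m : List ℕ) : Finset ℕ :=
  (Finset.range m.length).image (fun j => (m.take (j + 1)).sum + j)

@[simp] theorem st_nil : st [] = ∅ := by simp [st]

theorem st_append_singleton (m : List ℕ) (i : ℕ) : st (m ++ [i]) = st m ∪ {m.sum + i + m.length} := by
  unfold st
  rw [List.length_append, List.length_singleton, Finset.range_add_one, Finset.image_insert,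
    Finset.insert_eq, Finset.union_comm]
  congr 1
  · refine Finset.image_congr fun j hj => ?_
    have hj' : j < m.length := by simpa using hj
    change ((m ++ [i]).take (j + 1)).sum + j = (m.take (j + 1)).sum + j
    rw [List.take_append_of_le_length (by omega)]
  · rw [List.take_of_length_le (by simp), List.sum_append]
    simp

theorem st_lt {m : List ℕ} {x : ℕ} (hx : x ∈ st m) : x < m.sum + m.length := by
  induction m using List.reverseRecOn with
  | nil => simp at hx
  | append_singleton m i ih =>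
    rw [st_append_singleton, Finset.mem_union, Finset.mem_singleton] at hx
    rw [List.sum_append, List.length_append]
    simp only [List.sum_cons, List.sum_nil, List.length_singleton]
    rcases hx with hx | hx
    · have := ih hx
      omega
    · omega

theorem st_card (m : List ℕ) : (st m).card = m.length := by
  induction m using List.reverseRecOn with
  | nil => simp
  | append_singleton m i ih =>
    rw [st_append_singleton, Finset.card_union_of_disjoint, ih, Finset.card_singleton,
      List.length_append, List.length_singleton]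
    rw [Finset.disjoint_singleton_right]
    intro hx
    have := st_lt hx
    omega

theorem st_subset (m d : List ℕ) : st m ⊆ st (m ++ d) := by
  induction d using List.reverseRecOn with
  | nil => simp
  | append_singleton d i ih =>
    rw [← List.append_assoc, st_append_singleton]
    exact ih.trans Finset.subset_union_left

theorem st_new {m d : List ℕ} {x : ℕ} (hx : x ∈ st (m ++ d)) :
    x ∈ st m ∨ m.sum + m.length ≤ x := by
  induction d using List.reverseRecOn with
  | nil => left; simpa using hx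
  | append_singleton d i ih =>
    rw [← List.append_assoc, st_append_singleton, Finset.mem_union, Finset.mem_singleton] at hx
    rcases hx with hx | hx
    · exact ih hx
    · right
      rw [List.sum_append, List.length_append] at hx
      omega

/-- The new elements are larger than the old ones. -/
theorem st_below (m d : List ℕ) : Below (st m) (st (m ++ d) \ st m) := by
  intro x hx y hy
  rw [Finset.mem_sdiff] at hy
  have h1 := st_lt hx
  rcases st_new hy.1 with h | h
  · exact absurd h hy.2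
  · omega

theorem below_st_singleton (m : List ℕ) (i : ℕ) : Below (st m) {m.sum + i + m.length} := by
  intro x hx y hy
  rw [Finset.mem_singleton] at hy
  have h1 := st_lt hx
  omega

theorem sdiff_card (m d : List ℕ) : (st (m ++ d) \ st m).card = d.length := by
  rw [Finset.card_sdiff_of_subset (st_subset m d), st_card, st_card, List.length_append]
  omega

theorem term_le {B I : Type} {K ρ : ℝ} (S : CutSpace B I K ρ) (f : Finset ℕ → S.X) (s a : ℕ)
    (W : List ℕ → B → ℝ) (τ : ℝ≥0∞)
    (h : ∀ ε : ℝ≥0∞, 0 < ε →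
      Ev (a + 2 ^ s) (fun m => S.N (S.toFun (f (st m)) - W (m.take a)) ≤ τ + ε) []) :
    ⨅ (n : Finset ℕ) (_ : n.card = a), ⨅ (δ : Finset ℕ) (_ : δ.card = 2 ^ s ∧ Below n δ),
        liminf (fun j : ℕ =>
          ⨅ (η : Finset ℕ) (_ : η.card = 2 ^ s - 1 ∧ Below n {j} ∧ Below {j} η),
            edist (f (n ∪ δ)) (f (n ∪ {j} ∪ η)) ^ (3 : ℝ) / (2 ^ s : ℝ≥0∞) ^ (3 : ℝ)) atTop ≤
      (2 * τ / 2 ^ s) ^ (3 : ℝ) := by
  classical
  set E : ℝ≥0∞ := ⨅ (n : Finset ℕ) (_ : n.card = a), ⨅ (δ : Finset ℕ)
        (_ : δ.card = 2 ^ s ∧ Below n δ),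
        liminf (fun j : ℕ =>
          ⨅ (η : Finset ℕ) (_ : η.card = 2 ^ s - 1 ∧ Below n {j} ∧ Below {j} η),
            edist (f (n ∪ δ)) (f (n ∪ {j} ∪ η)) ^ (3 : ℝ) / (2 ^ s : ℝ≥0∞) ^ (3 : ℝ)) atTop
    with hE
  have key : ∀ ε : ℝ≥0∞, 0 < ε → E ≤ (2 * (τ + ε) / 2 ^ s) ^ (3 : ℝ) := by
    intro ε hε
    have h1 := h ε hε
    set Q : List ℕ → Prop := fun m => S.N (S.toFun (f (st m)) - W (m.take a)) ≤ τ + ε with hQ
    obtain ⟨m0, hm0, h2⟩ := (ev_add.1 h1).exists
    rw [List.nil_append] at h2
    obtain ⟨d, hd, hQd⟩ := h2.exists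
    have htake : ∀ d' : List ℕ, (m0 ++ d').take a = m0 := by
      intro d'
      rw [← hm0, List.take_left']
      rfl
    have hclose : ∀ d1 d2 : List ℕ, Q (m0 ++ d1) → Q (m0 ++ d2) →
        edist (f (st (m0 ++ d1))) (f (st (m0 ++ d2))) ≤ 2 * (τ + ε) := by
      intro d1 d2 h3 h4
      rw [hQ] at h3 h4
      simp only [htake] at h3 h4
      rw [S.edist_def]
      have e1 : S.toFun (f (st (m0 ++ d1))) - S.toFun (f (st (m0 ++ d2))) =
          (S.toFun (f (st (m0 ++ d1))) - W m0) - (S.toFun (f (st (m0 ++ d2))) - W m0) := by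
        abel
      rw [e1, two_mul]
      exact (S.N_sub_le _ _).trans (add_le_add h3 h4)
    have hpow : 2 ^ s = (2 ^ s - 1) + 1 := (Nat.sub_add_cancel Nat.one_le_two_pow).symm
    have h2' : Ev ((2 ^ s - 1) + 1) Q m0 := by rw [← hpow]; exact h2
    have h3 : ∀ᶠ i in (UU : Filter ℕ), Ev (2 ^ s - 1) Q (m0 ++ [i]) := h2'
    refine iInf₂_le_of_le (st m0) (by rw [st_card, hm0]) ?_
    refine iInf₂_le_of_le (st (m0 ++ d) \ st m0) ⟨by rw [sdiff_card, hd], st_below m0 d⟩ ?_
    refine Filter.liminf_le_of_frequently_le' ?_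
    have h4 : ∃ᶠ i in (atTop : Filter ℕ), Ev (2 ^ s - 1) Q (m0 ++ [i]) :=
      h3.frequently.filter_mono Pool.Agent.H53.Umb.UU_le_atTop
    have h5 : Tendsto (fun i : ℕ => m0.sum + i + m0.length) atTop atTop := by
      refine tendsto_atTop_mono (fun i => ?_) tendsto_id
      simp only [id]
      omega
    refine h5.frequently (h4.mono fun i hi => ?_)
    obtain ⟨d', hd', hQd'⟩ := hi.exists
    have hst : st m0 ∪ {m0.sum + i + m0.length} = st (m0 ++ [i]) :=
      (st_append_singleton m0 i).symm
    refine iInf₂_le_of_le (st (m0 ++ [i] ++ d') \ st (m0 ++ [i])) ⟨by rw [sdiff_card, hd'],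
      below_st_singleton m0 i, ?_⟩ ?_
    · intro x hx y hy
      refine st_below (m0 ++ [i]) d' x ?_ y hy
      rw [← hst]
      exact Finset.mem_union_right _ hx
    · rw [hst, Finset.union_sdiff_of_subset (st_subset m0 d),
        Finset.union_sdiff_of_subset (st_subset (m0 ++ [i]) d'),
        ENNReal.div_rpow_of_nonneg _ _ (by norm_num : (0 : ℝ) ≤ 3)]
      refine ENNReal.div_le_div_right (ENNReal.rpow_le_rpow ?_ (by norm_num)) _
      have h6 := hclose d ([i] ++ d') hQd (by rw [← List.append_assoc]; exact hQd')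
      rw [← List.append_assoc] at h6
      exact h6
  have h3 : ∀ ε : ℝ≥0∞, 0 < ε → E ^ (1 / 3 : ℝ) ≤ 2 * (τ + ε) / 2 ^ s := by
    intro ε hε
    have := ENNReal.rpow_le_rpow (key ε hε) (by norm_num : (0 : ℝ) ≤ 1 / 3)
    rwa [← ENNReal.rpow_mul, show (3 : ℝ) * (1 / 3) = 1 by norm_num, ENNReal.rpow_one] at this
  have h4 : E ^ (1 / 3 : ℝ) ≤ 2 * τ / 2 ^ s := by
    refine ENNReal.le_of_forall_pos_le_add fun ε hε _ => ?_
    refine (h3 (ε / 2) (ENNReal.div_pos (by exact_mod_cast hε.ne') (by norm_num))).trans ?_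
    rw [mul_add, ENNReal.add_div]
    refine add_le_add le_rfl ?_
    rw [ENNReal.mul_div_cancel (by norm_num) (by norm_num)]
    calc (ε : ℝ≥0∞) / 2 ^ s ≤ ε / 1 := ENNReal.div_le_div_left (one_le_pow₀ (by norm_num)) _
      _ = ε := div_one _
  have h5 := ENNReal.rpow_le_rpow h4 (by norm_num : (0 : ℝ) ≤ 3)
  rwa [← ENNReal.rpow_mul, show (1 / 3 : ℝ) * 3 = 1 by norm_num, ENNReal.rpow_one] at h5

end Pool.Agent.H82.Um
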